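import Pool.Agent.Lib.MP_775b3b_nt.M2.L1
import Pool.Agent.Lib.MP_775b3b_nt.YDefs

/-! Corestriction preserves the local condition at two. -/

namespace Pool.Agent.Lib.MP_775b3b_nt

open Cub MP_439fea_co WithZero Filter

variable {e : ℤ × ℤ} {k k' : Type} [Field k] [NumberField k] [Field k'] [NumberField k']

/-- one square root for finitely many places -/
theorem SqK.glue {ι : Type} [Finite ι] (v : ι → P k) {a : k} (h : ∀ i, SqK (val (v i)) a) :
    ∃ y : k, ∀ i, Ap (val (v i)) a (y ^ 2) := by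
  classical
  have := Fintype.ofFinite ι
  have key : ∀ u : P k, ∃ y : k, (∃ i, v i = u) → Ap (val u) a (y ^ 2) := fun u => by
    by_cases hu : ∃ i, v i = u
    · obtain ⟨i, rfl⟩ := hu
      exact (h i).imp fun y hy _ => hy
    · exact ⟨0, fun h0 => (hu h0).elim⟩
  choose y hy using key
  have y0 : ∀ i, val (v i) (4 * y (v i)) ≠ 0 := fun i => (val _).ne_zero_iff.2
    (mul_ne_zero (by norm_num) fun h0 => (hy _ ⟨i, rfl⟩).ne (by simp [h0]))
  choose n hn using fun i => Val_exists_exp_le (y0 i)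
  obtain ⟨x, hx, -⟩ := approx (Finset.univ.image v) y _
    (exp_ne_zero (a := -((Finset.univ.sup n + 1 : ℕ) : ℤ)))
  refine ⟨x, fun i => (hy _ ⟨i, rfl⟩).trans (Ap.symm (Ap.sq ?_))⟩
  refine (hx _ (Finset.mem_image_of_mem v (Finset.mem_univ i))).trans_lt (lt_of_lt_of_le ?_ (hn i))
  have := Finset.le_sup (f := n) (Finset.mem_univ i)
  rw [exp_lt_exp]
  push_cast
  omega

theorem Setup.cor_mem_L2m (S : Setup k k') {d : (Cub e k)ˣ} (hd : ∀ v : P k, d ∈ L2m e (val v))
    (u : P ℚ) : S.cor e d ∈ L2m e (val u) := by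
  intro h2
  obtain ⟨w, hw⟩ := exists_lies_over (algebraMap ℚ k') u
  have h3 := hw.two.2 h2
  choose v hv using fun j => exists_lies_under (S.s j) w
  filter_upwards [eventually_all.2 fun j => hd (v j) ((hv j).two.1 h3),
    ev_mul h3 (nm_ne_zero (uz e (S.s 0) d)) (nm_ne_zero (uz e (S.s 1) d)),
    ev_mul h3 (nm_ne_zero (uz e (S.s 0) d * uz e (S.s 1) d)) (nm_ne_zero (uz e (S.s 2) d))]
    with r a1 a2 a3
  obtain ⟨y, hy⟩ := SqK.glue v a1
  obtain ⟨q, hq⟩ : ∃ q : ℚ, algebraMap ℚ k' q = ∏ j, S.s j y := S.exists_rat fun τ => by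
    obtain ⟨π, hπ⟩ := S.exists_cmp τ
    rw [map_prod, ← Equiv.prod_comp π fun j => S.s j y]
    exact Finset.prod_congr rfl fun j _ => hπ j _
  have a4 := fun j => (hv j).ap.2 (hy j)
  refine ⟨q, hw.ap.1 ?_⟩
  rw [← Units.val_mul, ← S.uz_cor', uz_val, evr_map] at a3
  rw [← Units.val_mul] at a2
  simp only [uz_val, evr_map] at a2 a3
  have a5 := a3.trans ((a2.trans ((a4 0).mul (a4 1))).mul (a4 2))
  rwa [map_pow (algebraMap ℚ k'), hq, Fin.prod_univ_three, mul_pow, mul_pow, ← map_pow, ← map_pow,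
    ← map_pow]

end Pool.Agent.Lib.MP_775b3b_nt
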