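import Pool.Agent.Lib.MP_775b3b_nt.M2.Defs
import Pool.Agent.Lib.MP_775b3b_nt.M2.LCor
import Pool.Agent.Lib.MP_775b3b_nt.YD2
import Pool.Agent.Lib.MP_775b3b_nt.YMain

/-! The Selmer group over the cubic field. -/

namespace Pool.Agent.Lib.MP_775b3b_nt

open Cub MP_439fea_co WithZero

variable {e : ℤ × ℤ} {D : Finset ℕ}

section

variable {k k' : Type} [Field k] [NumberField k] [Field k'] [NumberField k']

theorem TyD.exists_over (h : TyD e D k') (φ : k →+* k') {v : P k} (hv : pr v ∈ D) :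
    ∃ w : P k', Over φ w v := by
  refine exists_over_of_unr φ v (x := fv e (rg e (pr v) : k)) fun w hw => ?_
  rw [map_fv, map_intCast φ, ← hw]
  exact (h w (hw ▸ hv)).tyA.unif

theorem TyD.down (h : TyD e D k') (φ : k →+* k') : TyD e D k := fun v hv => by
  obtain ⟨w, ho⟩ := h.exists_over φ hv
  exact (h w (ho.pr_eq ▸ hv)).down ho

theorem Fm.niceM {C : ℤ} {N : ℕ} (h : Fm e C N k') (hD : TyD e D k) {Λ : Set (P k)}
    (hΛ : Λ ⊆ Pls D k) : NiceM e Λ :=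
  ⟨h.pos, ⟨C, h.tate⟩, fun v hv => (hD v (hΛ hv)).tyA⟩

theorem tyD_top {N : ℕ} (hU : Unr k N)
    (hsq : ∀ p : ℕ, p.Prime → ¬ p ∣ N → ¬ (p : ℤ) ^ 2 ∣ disc e)
    (hD : ∀ l ∈ D, ¬ l ∣ N ∧ ((5 ≤ l ∧ (l : ℤ) ∣ disc e) ∨ (SQ0 k l ∧ Ty e l))) : TyD e D k := by
  intro w hw
  obtain ⟨hN, hT⟩ := hD _ hw
  have hp := pr_prime w
  have h1 : val w ((pr w : ℕ) : k) = exp (-1 : ℤ) := hU w ⟨_, hp⟩ hN (val_pr w)
  rcases hT with ⟨h5, hd⟩ | ⟨hI, hT⟩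
  · refine Or.inr ⟨hd, ?_⟩
    rw [rg, if_pos hd]
    exact tyM_of hp h5 hd (hsq _ hp hN) h1
  · refine Or.inl ⟨hT.not_dvd, ?_⟩
    rw [rg, if_neg hT.not_dvd]
    obtain ⟨v, o⟩ := exists_over_hom (algebraMap ℚ k) w (x := ((pr w : ℕ) : ℚ))
      (by rw [map_natCast]; exact h1)
    have h6 : val v ((pr w : ℕ) : ℚ) < 1 := by
      rw [← o.natCast]
      exact val_pr w
    exact tyV_of hp hT h1 (SqZ.up o hp h6 (hI w rfl) (sqZ_of_res1 hp h6 (res1_rat _)))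

theorem lam_eq_pls {d : ℕ} (h : ∀ l ∈ D, Ty e l) : Lam e D d k = Pls D k :=
  Set.Subset.antisymm Lam_subset fun _ hv => ⟨hv, Or.inl (h _ hv).not_dvd⟩

theorem Deg1.sq0 {l : ℕ} (h : Deg1 k l) : SQ0 k l := fun w hw =>
  sqDesc_of_res1 _ (h w (val_lt_of_pr hw)).2

end

variable {K F : Type} [Field K] [NumberField K] [Field F] [NumberField F] {S : Setup K F}

theorem Setup.cor_mem_ZM {D₁ : Finset ℕ} {d : ℕ} (h : TyD e D F) {v₁ v₂ : ℕ → P K}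
    (h1 : ∀ q ∈ D₁, TP2 S q (v₁ q) (v₂ q) ∧ val (v₁ q) (d : K) = exp (-1 : ℤ))
    (h2 : ∀ l ∈ D, l ∉ D₁ → SQ0 F l ∧ ¬ (l : ℤ) ∣ disc e) {x : (Cub e K)ˣ}
    (hx : x ∈ ZM e (Lam e D d K)) : S.cor e x ∈ ZM e (Lam e D d ℚ) := by
  obtain ⟨a1, a2, a3, a4⟩ := mem_ZM.1 hx
  have hK : TyD e D K := h.down (S.s 0)
  have hQ : TyD e D ℚ := h.down (algebraMap ℚ F)
  have hn : S.cor e x ∈ nsq e ℚ := by
    obtain ⟨ν, hν⟩ := a1
    obtain ⟨r, hr, -⟩ := S.exists_nm_rn hν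
    exact ⟨r, hr⟩
  have one : ∀ v : P ℚ, pr v ∈ D → pr v ∈ D₁ → ∃ w : P K, Over (algebraMap ℚ K) w v ∧ TyB e w ∧
      Res1 w ∧ val w (d : K) = exp (-1 : ℤ) ∧
      x * uz e (algebraMap ℚ K) (S.cor e x) ∈ sqv e w := by
    intro v hv' hv
    obtain ⟨T, hd1⟩ := h1 _ hv
    have hB : TyB e (v₁ (pr v)) := hK _ (T.pr1.symm ▸ hv')
    exact ⟨_, ybot_over hB T.pr1, hB, T.res1, hd1, T.tz' (a3 _
      (T.mem_lam hv' (hK _ (T.pr2.symm ▸ hv')) (T.pr1 ▸ ybot_dvd hd1)))⟩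
  refine mem_ZM.2 ⟨hn, S.cor_mem_L2m a2, fun v hv => ?_, fun v hv hv2 => ?_⟩
  · have hA := (hQ v hv.1).tyA
    by_cases h3 : pr v ∈ D₁
    · obtain ⟨w, ho, hB, hR, -, hk⟩ := one v hv.1 h3
      have h4 := a3 w (ho.lam_up hv)
      have h5 := hB.tyA
      rw [ho.pr_eq] at h4 h5
      refine TyA.Tv_desc ho h5 hA (sqDesc_of_res1 _ hR) hn ?_
      have h6 := mul_mem (inv_mem h4) (sqv_le_Tv hk)
      rwa [inv_mul_cancel_left] at h6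
    · obtain ⟨w, ho⟩ := h.exists_over (algebraMap ℚ F) hv.1
      have h5 := (h w (ho.pr_eq.symm ▸ hv.1)).tyA
      rw [ho.pr_eq] at h5
      have h4 : ∀ j, uz e (S.s j) x ∈ Tv e w (rg e (pr v)) := fun j => by
        obtain ⟨u, hu⟩ := exists_over_hom (S.s j) w (x := fv e (rg e (pr v) : K))
          (by rw [map_fv, map_intCast]; exact h5.unif)
        have h6 : pr u = pr v := hu.pr_eq.symm.trans ho.pr_eq
        have h7 := a3 u ⟨h6.symm ▸ hv.1, Or.inl (h6.symm ▸ (h2 _ hv.1 h3).2)⟩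
        rw [h6] at h7
        exact hu.Tv h7
      refine TyA.Tv_desc ho h5 hA ((h2 _ hv.1 h3).1 w ho.pr_eq) hn ?_
      rw [S.uz_cor']
      exact mul_mem (mul_mem (h4 0) (h4 1)) (h4 2)
  · by_cases hD : pr v ∈ D
    · by_cases h3 : pr v ∈ D₁
      · obtain ⟨w, ho, hB, hR, hdw, hk⟩ := one v hD h3
        have h4 := a4 w (fun hw => hv (ho.lam_down (sqDesc_of_res1 _ hR) hB hdw hw))
          (ho.pr_eq ▸ hv2)
        have h5 := hB.tyA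
        rw [ho.pr_eq] at h5
        refine TyA.usv_desc ho h5 (hQ v hD).tyA hn ?_
        have h6 := mul_mem (inv_mem h4) (sqv_le_usv hk)
        rwa [inv_mul_cancel_left] at h6
      · exact absurd ⟨hD, Or.inl (h2 _ hD h3).2⟩ hv
    · exact (mem_usq_Ord_iff (p := ⟨pr v, pr_prime v⟩)).1 (Setup.cor_usq (mem_usq_Ord_iff.2
        fun w hw => a4 w (fun hw' => hD (pr_eq (pr_prime v) hw ▸ hw'.1))
          (pr_eq (pr_prime v) hw ▸ hv2))) v (val_pr v)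

theorem Setup.bottomM {D₁ : Finset ℕ} {d : ℕ} (h : TyD e D F) {v₁ v₂ : ℕ → P K}
    (h1 : ∀ q ∈ D₁, TP2 S q (v₁ q) (v₂ q) ∧ val (v₁ q) (d : K) = exp (-1 : ℤ))
    (h2 : ∀ l ∈ D, l ∉ D₁ → SQ0 F l ∧ ¬ (l : ℤ) ∣ disc e) {Λ : Set (P K)}
    (l1 : Λ ⊆ Lam e D d K) (l2 : ∀ q ∈ D₁, q ∈ D → v₂ q ∈ Λ)
    (l3 : ∀ v : P K, pr v ∈ D → pr v ∉ D₁ → v ∈ Λ ∨ IP S (pr v))
    (hU : ZM e Λ ⊓ S.TY e ≤ SQ e K) (hQ : ZM e (Lam e D d ℚ) ≤ SQ e ℚ) :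
    ZM e (Lam e D d K) ≤ SQ e K := by
  intro x hx
  have hc : S.cor e x ∈ SQ e ℚ := hQ (Setup.cor_mem_ZM h h1 h2 hx)
  obtain ⟨a1, a2, a3, a4⟩ := mem_ZM.1 hx
  refine hU ⟨mem_ZM.2 ⟨a1, a2, fun v hv => a3 v (l1 hv), fun v hv hv2 => ?_⟩, hc⟩
  by_cases h3 : v ∈ Lam e D d K
  swap
  · exact a4 v h3 hv2
  by_cases h4 : pr v ∈ D₁
  · rcases (h1 _ h4).1.all v rfl with h5 | h5
    · have h6 := (h1 _ h4).1.tz' (a3 _ (l1 (l2 _ h4 h3.1)))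
      rw [← h5] at h6
      have h7 := mul_mem h6 (inv_mem (SQ_le_sqv (uz_mem_SQ (algebraMap ℚ K) hc)))
      rw [mul_inv_cancel_right] at h7
      exact sqv_le_usv h7
    · exact absurd (h5 ▸ l2 _ h4 h3.1) hv
  · rcases a3 v h3 with h5 | h5
    · exact sqv_le_usv h5
    · obtain ⟨w, ho⟩ := ((l3 v h3.1 h4).resolve_left hv).exists_over (v := v) rfl
      have hA := (h w ((ho 0).pr_eq.symm ▸ h3.1)).tyA
      rw [(ho 0).pr_eq] at hA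
      refine absurd (sqv_le_usv ?_) hA.tau_not_mem
      have h6 : ∀ j, uz e (S.s j) x * tauU e F (rg e (pr v)) ∈ sqv e w := fun j => by
        have h7 := (ho j).sqv h5
        rwa [map_mul, uz_tauU] at h7
      have h7 : uz e (S.s 0) x * uz e (S.s 1) x * uz e (S.s 2) x ∈ sqv e w := by
        rw [← S.uz_cor']
        exact SQ_le_sqv (uz_mem_SQ _ hc)
      have h8 := mul_mem (mul_mem (mul_mem (mul_mem (h6 0) (h6 1)) (h6 2)) (inv_mem h7))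
        (SQ_le_sqv (sq_mem_SQ (tauU e F (rg e (pr v)))⁻¹))
      generalize uz e (S.s 0) x = a at h8
      generalize uz e (S.s 1) x = b at h8
      generalize uz e (S.s 2) x = c at h8
      generalize tauU e F (rg e (pr v)) = t at h8 ⊢
      have h9 : a * t * (b * t) * (c * t) = a * b * c * (t * t ^ 2) :=
        Units.ext (by simp only [Units.val_mul, Units.val_pow_eq_pow_val]; ring)
      rwa [h9, mul_inv_cancel_comm, inv_pow, mul_inv_cancel_right] at h8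

/-- fields of degree a power of two -/
theorem bottom_two {C : ℤ} {N : ℕ} (hK : Fm e C N K) (hQ : Fm e C N ℚ) (hd : DescM K C)
    (htow : ∀ N', N ∣ N' → ∀ 𝒯 : Subgroup (Cub e K)ˣ, SQ e K ≤ 𝒯 → 𝒯 ≤ Sel N' e K →
      (∀ g : K ≃ₐ[ℚ] K, ∀ d ∈ 𝒯, uz e (g : K →+* K) d ∈ 𝒯) →
      (∀ d₀ ∈ Sel N' e ℚ, uz e (algebraMap ℚ K) d₀ ∈ 𝒯 → d₀ ∈ SQ e ℚ) → 𝒯 ≤ SQ e K)
    (h : TyD e D K) (hD : ∀ l ∈ D, l.Prime ∧ SQ0 K l)
    (hst : ∀ g : K ≃ₐ[ℚ] K, ∀ d ∈ ZM e (Pls D K), uz e (g : K →+* K) d ∈ ZM e (Pls D K))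
    (hZ : ZM e (Pls D ℚ) ≤ SQ e ℚ) : ZM e (Pls D K) ≤ SQ e K := by
  refine htow (N * ∏ l ∈ D, l) (dvd_mul_right _ _) _ SQ_le_ZM (fun x hx => ?_) hst
    fun x h0 hx => hZ ?_
  · obtain ⟨a1, -, -, a4⟩ := mem_ZM.1 hx
    refine mem_Sel.2 ⟨a1, fun p hp => ?_⟩
    obtain ⟨z, b1, b2⟩ := (mem_usq_Ord_iff (p := p)).2 fun v hv => a4 v
      (fun h1 => hp (Or.inl ((Finset.dvd_prod_of_mem _
        (pr_eq p.2 hv ▸ (h1 : pr v ∈ D))).mul_left _)))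
      fun h1 => hp (Or.inl (((pr_eq p.2 hv).symm.trans h1 ▸ hK.two : (p : ℕ) ∣ N).mul_right _))
    exact ⟨z, Ord_le_intP b1, Ord_le_intP b2⟩
  · obtain ⟨-, a2, a3, -⟩ := mem_ZM.1 hx
    obtain ⟨hn, hs⟩ := mem_Sel.1 h0
    refine mem_ZM.2 ⟨hn, fun v => mem_L2m.2 fun hv => ?_, fun v hv => ?_, fun v hv hv2 => ?_⟩
    · obtain ⟨w, ho⟩ := exists_lies_over (algebraMap ℚ K) v
      exact L2m_desc hK.tate ho (hd w v (ho.two.2 hv) ho) hn (a2 w) hv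
    · obtain ⟨w, ho⟩ := h.exists_over (algebraMap ℚ K) hv
      have hw : pr w ∈ D := ho.pr_eq ▸ hv
      exact TyA.Tv_desc ho (ho.pr_eq ▸ (h w hw).tyA) ((h w hw).down ho).tyA
        ((hD _ hw).2 w rfl) hn (ho.pr_eq ▸ a3 w hw)
    · have hp := pr_prime v
      by_cases hpN : pr v ∣ N
      · exact hQ.auto v hpN hv2 hn
      have hb : ¬ Bad N e ⟨pr v, hp⟩ := fun h0 => h0.elim hpN (hQ.sq _ hp hpN)
      obtain ⟨z, h5, h6⟩ := hs ⟨pr v, hp⟩ fun h0 => h0.elim (fun h1 => (hp.dvd_mul.1 h1).elim hpN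
        fun h2 => hv (zpt_dvd_prod (fun l hl => (hD l hl).1) hp h2)) (hQ.sq _ hp hpN)
      exact ⟨z, lociso_le (p := ⟨pr v, hp⟩) v (val_pr v) (intP_le_Ord hQ.unr hb h5),
        lociso_le (p := ⟨pr v, hp⟩) v (val_pr v) (intP_le_Ord hQ.unr hb h6)⟩

end Pool.Agent.Lib.MP_775b3b_nt
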