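import Pool.Agent.Lib.MP_775b3b_nt.M2.Defs
import Pool.Agent.Lib.MP_775b3b_nt.YTow

/-! The class of a point of the twist by `d δ`. -/

namespace Pool.Agent.Lib.MP_775b3b_nt

open Cub MP_439fea_co WithZero

variable {e : ℤ × ℤ} {k : Type} [Field k] [NumberField k] {C : ℤ} {N c : ℕ} {D : Finset ℕ}

theorem pt_deriv {v : P k} (hd : exp (-1 : ℤ) ≤ val v ((disc e : ℤ) : k)) {D x y : k}
    (hD : val v D = 1) (hxy : y ^ 2 = x ^ 3 + (e.1 : k) * D ^ 2 * x + (e.2 : k) * D ^ 3)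
    (hx : val v x ≤ 1) (hy : val v y < 1) (hF : val v (3 * x ^ 2 + (e.1 : k) * D ^ 2) < 1) :
    False := by
  obtain ⟨F, hF'⟩ : ∃ F, F = 3 * x ^ 2 + (e.1 : k) * D ^ 2 := ⟨_, rfl⟩
  rw [← hF'] at hF
  have h1 : D ^ 6 * ((disc e : ℤ) : k) = F ^ 2 * (((4 : ℤ) : k) * F - ((9 : ℤ) : k) * x ^ 2) +
      y ^ 2 * (((27 : ℤ) : k) * y ^ 2 + ((108 : ℤ) : k) * x ^ 3 - ((54 : ℤ) : k) * (x * F)) := by
    rw [hxy, hF']
    simp only [disc]
    push_cast
    ring
  have hi : ∀ (n : ℤ) (z : k), val v z ≤ 1 → val v ((n : k) * z) ≤ 1 := fun n z hz => by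
    rw [map_mul]
    exact mul_le_one' (val_int_le v n) hz
  have hq : ∀ (n : ℕ) (z : k), val v z ≤ 1 → val v (z ^ n) ≤ 1 := fun n z hz => by
    rw [map_pow]
    exact pow_le_one₀ zero_le hz
  have hs : ∀ z w : k, val v z < 1 → val v w ≤ 1 → val v (z ^ 2 * w) ≤ exp (-1 : ℤ) ^ 2 :=
    fun z w hz hw => by
      rw [map_mul, map_pow]
      exact (mul_le_of_le_one_right' hw).trans (pow_le_pow_left₀ zero_le (val_le_exp hz) 2)
  have h2 : val v (D ^ 6 * ((disc e : ℤ) : k)) ≤ exp (-1 : ℤ) ^ 2 := by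
    rw [h1]
    refine Valuation.map_add_le _
      (hs _ _ hF (Valuation.map_sub_le _ (hi _ _ hF.le) (hi _ _ (hq _ _ hx))))
      (hs _ _ hy (Valuation.map_sub_le _ (Valuation.map_add_le _ (hi _ _ (hq _ _ hy.le))
        (hi _ _ (hq _ _ hx))) (hi _ _ ?_)))
    rw [map_mul]
    exact mul_le_one' hx hF.le
  rw [map_mul, map_pow, hD, one_pow, one_mul] at h2
  have h3 := hd.trans h2
  rw [← exp_nsmul, exp_le_exp] at h3
  simp at h3

/-- With `t t' = y ^ 2` one has `(t + y) ^ 2 = t (t + 2 y + t')`, and the last factor is a unit of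
the local order if `x` is integral and `y` is in the maximal ideal. -/
theorem pt_usv {v : P k} (h2 : val v (2 : k) = 1) (hd : exp (-1 : ℤ) ≤ val v ((disc e : ℤ) : k))
    {D x y : k} (hD : val v D = 1)
    (hxy : y ^ 2 = x ^ 3 + (e.1 : k) * D ^ 2 * x + (e.2 : k) * D ^ 3) {t : (Cub e k)ˣ}
    (ht : (t : Cub e k) = algebraMap k (Cub e k) x - D • th) : t ∈ usv e v := by
  have hn : nm (t : Cub e k) = y ^ 2 := by rw [ht, nm_linD, hxy]
  have hy : y ≠ 0 := fun h0 => nm_ne_zero t (by rw [hn, h0, zero_pow two_ne_zero])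
  rcases lt_or_ge 1 (val v (x / D)) with hX | hX
  · exact sqv_le_usv (ZTy3_big hy hX hxy ht)
  rw [map_div₀, hD, div_one] at hX
  have hO : (t : Cub e k) ∈ Ov e v :=
    ht ▸ sub_mem (algebraMap_mem_Ov hX) (smul_mem_Ov hD.le th_mem_Ov)
  have hy1 : val v y ≤ 1 := by
    have h1 := val_nm_le hO
    rw [hn, map_pow] at h1
    exact (pow_le_one_iff_of_nonneg zero_le two_ne_zero).1 h1
  rcases hy1.eq_or_lt with h1 | h1
  · exact mem_usv.2 ⟨1, by simpa using hO, by rw [one_pow, mul_one, hn, map_pow, h1, one_pow]⟩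
  have iX : x ∈ (val v).integer := hX
  have iD : D ∈ (val v).integer := hD.le
  have iY : y ∈ (val v).integer := hy1
  have iA := intCast_mem (val v).integer e.1
  have i3 : (3 : k) ∈ (val v).integer := by exact_mod_cast natCast_mem (val v).integer 3
  have hF : val v (3 * x ^ 2 + (e.1 : k) * D ^ 2) = 1 :=
    le_antisymm (add_mem (S := Subring k) (mul_mem i3 (pow_mem iX 2)) (mul_mem iA (pow_mem iD 2)))
      (not_lt.1 (pt_deriv hd hD hxy hX h1))
  have hw : val v (3 * x ^ 2 + (e.1 : k) * D ^ 2 + y * (1 + 3 * x + y)) = 1 := by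
    rw [Valuation.map_add_eq_of_lt_left _ (by
      rw [hF]
      exact lociso_mul_lt v h1 (add_mem (S := Subring k) (add_mem (one_mem _) (mul_mem i3 iX))
        iY)), hF]
  generalize hw' : 3 * x ^ 2 + (e.1 : k) * D ^ 2 + y * (1 + 3 * x + y) = w at hw
  have hZ : nm (algebraMap k (Cub e k) (x + y) - D • th) = y * w := by
    rw [nm_linD, ← hw']
    linear_combination -hxy
  have hu : IsUnit (algebraMap k (Cub e k) (x + y) - D • th) := by
    rw [isUnit_iff, hZ]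
    exact mul_ne_zero hy fun h0 => by simp [h0] at hw
  have key : t * (t * (hu.unit * t⁻¹) ^ 2) = hu.unit ^ 2 := by
    rw [← mul_assoc, ← sq, ← mul_pow, mul_comm hu.unit, mul_inv_cancel_left]
  have hU : ((t * (hu.unit * t⁻¹) ^ 2 : (Cub e k)ˣ) : Cub e k) =
      ⟨x ^ 2 + e.1 * D ^ 2 + x + (y + y), x * D - D, D ^ 2⟩ := by
    refine t.isUnit.mul_left_cancel ?_
    rw [← Units.val_mul, key, Units.val_pow_eq_pow_val, hu.unit_spec, ht, sq]
    ext
    · simp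
      linear_combination hxy
    · simp
      ring
    · simp
      ring
  refine mem_usv.2 ⟨hu.unit * t⁻¹, ?_, ?_⟩
  · rw [hU]
    exact ⟨add_mem (S := Subring k) (add_mem (add_mem (pow_mem iX 2) (mul_mem iA (pow_mem iD 2)))
      iX) (add_mem iY iY), sub_mem (S := Subring k) (mul_mem iX iD) iD, pow_mem iD 2⟩
  · have h3 := congrArg (fun u : (Cub e k)ˣ => nm (u : Cub e k)) key
    simp only [Units.val_mul _ (t * _), nm_mul] at h3
    rw [Units.val_pow_eq_pow_val hu.unit, nm_pow, hu.unit_spec, hZ, hn, mul_pow y w] at h3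
    rw [mul_left_cancel₀ (pow_ne_zero 2 hy) h3, map_pow, hw, one_pow]

/-- as `val_two_prod` -/
theorem val_c_prod (hU : Unr k N) (hD : ∀ l ∈ D, l.Prime ∧ ¬ l ∣ N) (hc : c ∣ N) {w : P k}
    (hw : pr w ∈ D) : val w ((c * ∏ l ∈ D, l : ℕ) : k) = exp (-1 : ℤ) := by
  have hp := pr_prime w
  have h3 : ¬ pr w ∣ c * ∏ l ∈ D.erase (pr w), l := fun h0 => by
    rcases hp.dvd_mul.1 h0 with h1 | h1
    · exact (hD _ hw).2 (h1.trans hc)
    · exact Finset.notMem_erase (pr w) D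
        (zpt_dvd_prod (fun q hq => (hD q (Finset.mem_of_mem_erase hq)).1) hp h1)
  rw [← Finset.mul_prod_erase D (fun l => l) hw, mul_left_comm, Nat.cast_mul, map_mul,
    zpt_val_one w hp (val_pr w) h3, mul_one]
  exact hU w ⟨pr w, hp⟩ (hD _ hw).2 (val_pr w)

/-- as `squarefree_two_mul` -/
theorem squarefree_c_prod (hD : ∀ l ∈ D, l.Prime ∧ ¬ l ∣ N) (hc : c ∣ N) (hs : Squarefree c) :
    Squarefree (c * ∏ l ∈ D, l) := by
  refine (Nat.squarefree_mul (Nat.Coprime.prod_right fun l hl =>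
    ((Nat.Prime.coprime_iff_not_dvd (hD l hl).1).2 fun h => (hD l hl).2 (h.trans hc)).symm)).2
    ⟨hs, Finset.squarefree_prod_of_pairwise_isCoprime (fun a ha b hb hab => ?_)
      fun a ha => (hD a ha).1.squarefree⟩
  exact Nat.coprime_iff_isRelPrime.1 ((Nat.coprime_primes (hD a ha).1 (hD b hb).1).2 hab)

/-- `t ∈ ZM e (Lam e D d k)` with `d = c ∏ D`.  `nsq`: `nm_linD`.  Above two: `pt_mem_L2m` (and
`mem_L2m` if `v` is odd).  Above `D`: `val v (d δ) = exp (-1)` (`val_c_prod`); `pt_mem_Tv`, or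
`TyM.pt` with `YTow_sq` (`d δ / f` is a square modulo `v` iff `d / f` is), see `TyB.pt`.
`pr v ∣ N`, odd: `Fm.auto`.  Elsewhere `pt_usv` with `ptsel_disc`, `zpt_val_one`. -/
theorem Fm.triv (h : Fm e C N k) (hD : ∀ l ∈ D, l.Prime ∧ ¬ l ∣ N) (hty : TyD e D k) (hc : c ∣ N)
    {δ : k} (hδ : Supp N δ)
    (hs : ∀ v : P k, pr v ∈ D → ((pr v : ℕ) : ℤ) ∣ disc e → ∃ a : k, val v (δ - a ^ 2) < 1)
    (hG : GdA C (((c * ∏ l ∈ D, l : ℕ) : k) * δ))
    (hZ : ZM e (Lam e D (c * ∏ l ∈ D, l) k) ≤ SQ e k) :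
    Triv e (((c * ∏ l ∈ D, l : ℕ) : k) * δ) := by
  intro x y hxy t ht
  have hv : ∀ v : P k, pr v ∈ D → val v ((c * ∏ l ∈ D, l : ℕ) : k) = exp (-1 : ℤ) :=
    fun v hv => val_c_prod h.unr hD hc hv
  have hout : ∀ v : P k, pr v ∉ D → ¬ pr v ∣ N →
      val v ((c * ∏ l ∈ D, l : ℕ) : k) = 1 := fun v h1 h2 =>
    zpt_val_one v (pr_prime v) (val_pr v) fun h0 => ((pr_prime v).dvd_mul.1 h0).elim
      (fun h3 => h2 (h3.trans hc)) fun h3 => h1 (zpt_dvd_prod (fun l hl => (hD l hl).1)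
        (pr_prime v) h3)
  generalize c * ∏ l ∈ D, l = d at hG hZ hxy ht hv hout
  have hn : nm (t : Cub e k) = y ^ 2 := by rw [ht, nm_linD, hxy]
  by_cases h0 : (d : k) * δ = 0
  · rw [h0] at hxy ht
    have hy : y ≠ 0 := fun h0 => nm_ne_zero t (by rw [hn, h0, zero_pow two_ne_zero])
    have hx : x ≠ 0 := fun h1 => hy (by simpa [h1] using hxy)
    obtain ⟨z, hz⟩ := ZTy3_sc (e := e) (div_ne_zero hy hx)
    refine ⟨z, Units.ext ?_⟩
    rw [Units.val_mul, hz, ht, zero_smul, sub_zero, ← map_mul]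
    congr 1
    field_simp
    linear_combination -hxy
  have hd : ∀ v : P k, pr v ∈ D → val v ((d : k) * δ) = exp (-1 : ℤ) := fun v h1 => by
    rw [map_mul, hv v h1, hδ v (hD _ h1).2, mul_one]
  have hM : ∀ v : P k, pr v ∈ D → ((pr v : ℕ) : ℤ) ∣ disc e → TyM e v (rg e (pr v)) →
      ((∃ s : k, val v ((d : k) * δ / fv e (rg e (pr v) : k) - s ^ 2) < 1) ↔
        ∃ s : k, val v ((d : k) / fv e (rg e (pr v) : k) - s ^ 2) < 1) := fun v h1 h2 h3 => by
    obtain ⟨a, ha⟩ := hs v h1 h2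
    have h4 := hδ v (hD _ h1).2
    have h5 : val v a ^ 2 = 1 := by
      rw [← map_pow, ← h4, ← sub_sub_cancel δ (a ^ 2)]
      exact Valuation.map_sub_eq_of_lt_left _ (h4 ▸ ha)
    rw [mul_div_right_comm]
    refine YTow_sq ?_ ((pow_eq_one_iff_of_nonneg zero_le two_ne_zero).1 h5) ha
    rw [map_div₀, hv v h1, h3.2.2.2, div_self exp_ne_zero]
  refine hZ (mem_ZM.2 ⟨⟨y, hn⟩, fun v h2 => pt_mem_L2m h.tate h0 (hG v h2) hxy ht h2,
    fun v h1 => ?_, fun v h1 h2 => ?_⟩)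
  · rcases hty v h1.1 with h3 | h3
    · exact pt_mem_Tv h3.2 (hd v h1.1) hxy ht
    · exact (h3.2.pt (hd v h1.1) hxy ht).1
        ((hM v h1.1 h3.1 h3.2).2 (h1.2.resolve_left fun h4 => h4 h3.1))
  by_cases h4 : pr v ∈ D
  · rcases hty v h4 with h3 | h3
    · exact absurd ⟨h4, Or.inl h3.1⟩ h1
    · exact (h3.2.pt (hd v h4) hxy ht).2 fun h5 => h1 ⟨h4, Or.inr ((hM v h4 h3.1 h3.2).1 h5)⟩
  by_cases h5 : pr v ∣ N
  · exact h.auto v h5 h2 ⟨y, hn⟩
  refine pt_usv (le_antisymm (by exact_mod_cast val_int_le v 2)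
    (not_lt.1 fun h6 => h2 (pr_eq_two.2 h6))) (ptsel_disc h.unr (p := ⟨pr v, pr_prime v⟩)
    (fun h6 => h6.elim h5 (h.sq _ (pr_prime v) h5)) v (val_pr v)) ?_ hxy ht
  rw [map_mul, hout v h4 h5, hδ v h5, mul_one]

end Pool.Agent.Lib.MP_775b3b_nt
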