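import Pool.Agent.Lib.MP_775b3b_nt.M2.Key
import Pool.Agent.Lib.MP_775b3b_nt.M2.Bot
import Pool.Agent.Lib.MP_775b3b_nt.M2.Pt

/-! Trivial Selmer groups for the curves outside the two bad sets. -/

namespace Pool.Agent.Lib.MP_775b3b_nt

open Cub MP_439fea_co WithZero

variable {K F : Type} [Field K] [NumberField K] [Field F] [NumberField F] {e : ℤ × ℤ} {C d₀ : ℤ}
  {N : ℕ}

/-- the twist by `c ∏ D` has trivial Selmer groups over `K` and over the rationals -/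
structure Out (e : ℤ × ℤ) (d₀ : ℤ) (K : Type) [Field K] [NumberField K] (D : Finset ℕ) (c : ℕ) :
    Prop where
  dvd : c ∣ 210
  cls : Cls d₀ ((c * ∏ l ∈ D, l : ℕ) : ℤ)
  ty : TyD e D K
  zK : ZM e (Lam e D (c * ∏ l ∈ D, l) K) ≤ SQ e K
  zQ : ZM e (Lam e D (c * ∏ l ∈ D, l) ℚ) ≤ SQ e ℚ

theorem exists_cls' (h0 : d₀ ≠ 0) {D : Finset ℕ} (hD : ∀ l ∈ D, l.Prime) :
    ∃ c, c ∣ 210 ∧ Cls d₀ ((c * ∏ l ∈ D, l : ℕ) : ℤ) := by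
  obtain ⟨c, h1, h2⟩ := exists_cls (m := ((∏ l ∈ D, l : ℕ) : ℤ)) h0
    (Int.natCast_ne_zero.2 (Finset.prod_ne_zero_iff.2 fun l hl => (hD l hl).ne_zero))
  refine ⟨c, ?_, by rwa [Nat.cast_mul]⟩
  clear h2
  revert c
  decide

theorem Out.trivK {D : Finset ℕ} {c : ℕ} (h : Out e d₀ K D c) (hK : Fm e C N K) (h210 : 210 ∣ N)
    (hD : ∀ l ∈ D, l.Prime ∧ ¬ l ∣ N) {δ : K} (hδ : Supp N δ) (hG : GdB C d₀ δ)
    (hs : ∀ v : P K, pr v ∈ D → ((pr v : ℕ) : ℤ) ∣ disc e → ∃ a : K, val v (δ - a ^ 2) < 1) :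
    Triv e (((c * ∏ l ∈ D, l : ℕ) : K) * δ) :=
  hK.triv hD h.ty (h.dvd.trans h210) hδ hs (by simpa only [Int.cast_natCast] using hG _ h.cls) h.zK

theorem Out.rat {D : Finset ℕ} {c : ℕ} (h : Out e d₀ K D c) : Out e d₀ ℚ D c :=
  ⟨h.dvd, h.cls, h.ty.down (algebraMap ℚ K), h.zQ, h.zQ⟩

theorem Out.trivQ {D : Finset ℕ} {c : ℕ} (h : Out e d₀ K D c) (hQ : Fm e C N ℚ) (h210 : 210 ∣ N)
    (hD : ∀ l ∈ D, l.Prime ∧ ¬ l ∣ N) (hG : GdB C d₀ (1 : ℚ)) :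
    Triv e ((c * ∏ l ∈ D, l : ℕ) : ℚ) := by
  simpa only [mul_one] using h.rat.trivK hQ h210 hD (fun v _ => map_one _) hG
    fun v _ _ => ⟨1, by simp⟩

theorem coreY (S : Setup K F) (hK : Fm e C N K) (hU : Unr F N) (h210 : 210 ∣ N) (h0 : d₀ ≠ 0)
    {Q₁ Q₂ : Finset ℕ} (hdis : Disjoint Q₁ Q₂) (hQ : ∀ l ∈ Q₁ ∪ Q₂, l.Prime ∧ ¬ l ∣ N)
    {v₁ v₂ : ℕ → P K} (q1 : ∀ q ∈ Q₁, 5 ≤ q ∧ TP2 S q (v₁ q) (v₂ q))
    (q2 : ∀ l ∈ Q₂, IP S l ∧ l % 8 = 1 ∧ ∀ q ∈ Q₁, IsSquare (l : ZMod q))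
    (b1 : ¬ ∃ d : (Cub e K)ˣ, Esc (2 ^ 78) ∅ d ∧ S.cor e d ∈ SQ e ℚ ∧
      ∀ l ∈ Q₁, (l : ℤ) ∣ disc e → d ∈ sqv e (v₁ l))
    (b2 : ¬ ∃ d : (Cub e ℚ)ˣ, Esc (2 ^ 78 * ∏ l ∈ Q₁, l) Q₂ d) :
    ∃ D ⊆ Q₁ ∪ Q₂, ∃ c, Out e d₀ K D c ∧ ∀ l ∈ D, (l : ℤ) ∣ disc e → l ∈ Q₁ := by
  have nF : ∀ D₁ ⊆ Q₁, ∀ D₂ ⊆ Q₂, (∀ l ∈ D₁, (l : ℤ) ∣ disc e) → (∀ l ∈ D₂, Ty e l) →
      TyD e (D₁ ∪ D₂) F := fun D₁ a1 D₂ a2 a3 a4 =>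
    tyD_top hU hK.sq fun l hl =>
      ⟨(hQ l (Finset.union_subset_union a1 a2 hl)).2, (Finset.mem_union.1 hl).imp
        (fun h => ⟨(q1 l (a1 h)).1, a3 l h⟩) fun h => ⟨(q2 l (a2 h)).1.sq0, a4 l h⟩⟩
  have nU : ∀ D ⊆ Q₁, (∀ l ∈ D, (l : ℤ) ∣ disc e) → NiceM e (v₂ '' D) := fun D a1 a3 =>
    hK.niceM ((nF D a1 ∅ (Finset.empty_subset _) a3 (by simp)).down (S.s 0)) (by
      rintro _ ⟨q, hq, rfl⟩
      change pr (v₂ q) ∈ D ∪ ∅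
      rw [(q1 q (a1 hq)).2.pr2]
      exact Finset.mem_union_left _ hq)
  obtain ⟨D₁, hD₁, hT₁, hZ₁⟩ := exists_kill (fun D => ZM e (v₂ '' D) ⊓ S.TY e)
    (fun q => sqv e (v₂ q)) (SQ e K) (fun q => (q : ℤ) ∣ disc e) ∅ Q₁
    (Finset.disjoint_empty_left _)
    (fun s hs h0 => by
      by_contra hc
      push Not at hc
      refine b1 ⟨s, (nU ∅ (Finset.empty_subset _) (by simp)).esc dvd_rfl (by simp) hs.1 h0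
        (by simp), hs.2, fun l hl hd => ?_⟩
      have a1 := mul_mem ((q1 l hl).2.tz e s (hc l hl hd))
        (inv_mem (SQ_le_sqv (uz_mem_SQ (algebraMap ℚ K) hs.2)))
      rwa [mul_inv_cancel_right] at a1)
    (fun D hD hT l hl hTl hn s hs hst => by
      rw [Finset.empty_union] at hn hs ⊢
      rw [Finset.coe_insert, Set.image_insert_eq]
      have a1 := nU (insert l D) (Finset.insert_subset hl hD)
        (Finset.forall_mem_insert _ _ _ |>.2 ⟨hTl, hT⟩)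
      rw [Finset.coe_insert, Set.image_insert_eq] at a1
      have a2 := step_M a1 (by
        rintro ⟨q, hq, h⟩
        have a3 := (q1 q (hD hq)).2.pr2
        rw [h, (q1 l hl).2.pr2] at a3
        exact hn (a3 ▸ hq)) hs.1 hst
      exact fun t ht => ⟨⟨(a2 ht.1).1, ht.2⟩, (a2 ht.1).2⟩)
  rw [Finset.empty_union] at hZ₁
  obtain ⟨c, hc, hcl⟩ := exists_cls' h0 (D := D₁)
    fun l hl => (hQ l (Finset.mem_union_left _ (hD₁ hl))).1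
  obtain ⟨D₂, hD₂, hT₂, hZ₂⟩ := kill_rat (Λ := Lam e D₁ (c * ∏ l ∈ D₁, l) ℚ) (dvd_mul_right _ _)
    (fun v hv => (Finset.dvd_prod_of_mem _ (hD₁ hv.1)).mul_left _) (fun l hl => (q2 l hl).1.prime)
    (fun v hv => Finset.disjoint_left.1 hdis (hD₁ hv.1))
    (fun D a1 a2 => hK.niceM ((nF D₁ hD₁ D a1 hT₁ a2).down (algebraMap ℚ F)) (Set.union_subset
      (fun _ h => Finset.mem_union_left _ h.1) fun _ h => Finset.mem_union_right _ h)) b2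
  have hD : D₁ ∪ D₂ ⊆ Q₁ ∪ Q₂ := Finset.union_subset_union hD₁ hD₂
  have hF := nF D₁ hD₁ D₂ hD₂ hT₁ hT₂
  have hp : ∀ l ∈ D₁ ∪ D₂, l.Prime ∧ ¬ l ∣ N := fun l hl => hQ l (hD hl)
  have hdis' : Disjoint D₁ D₂ := hdis.mono hD₁ hD₂
  have hlam : Lam e (D₁ ∪ D₂) (c * ∏ l ∈ D₁ ∪ D₂, l) ℚ =
      Lam e D₁ (c * ∏ l ∈ D₁, l) ℚ ∪ Pls D₂ ℚ := by
    rw [Finset.prod_union hdis', ← mul_assoc]
    refine lam_mul (fun v hv => ⟨hF.down (algebraMap ℚ F) v (Finset.mem_union_left _ hv),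
      (Finset.dvd_prod_of_mem _ hv).mul_left _⟩) (fun l hl => (hT₂ l hl).not_dvd) fun q hq => ⟨?_, ?_⟩
    · exact fun h => Finset.disjoint_left.1 hdis' hq (zpt_dvd_prod
        (fun l hl => (hp l (Finset.mem_union_right _ hl)).1) (hp q (Finset.mem_union_left _ hq)).1 h)
    · rw [Nat.cast_prod]
      exact Finset.isSquare_prod _ fun l hl => (q2 l (hD₂ hl)).2.2 q (hD₁ hq)
  have hKt := hF.down (S.s 0)
  have h8 : (∏ l ∈ D₂, l) % 8 = 1 := Finset.prod_induction _ (fun n => n % 8 = 1)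
    (fun a b ha hb => by rw [Nat.mul_mod, ha, hb]) rfl fun l hl => (q2 l (hD₂ hl)).2.1
  refine ⟨_, hD, c, ⟨hc, ?_, hKt, Setup.bottomM (S := S) (D₁ := D₁) (v₁ := v₁) (v₂ := v₂)
    (Λ := v₂ '' D₁) hF
    (fun q hq => ⟨(q1 q (hD₁ hq)).2, val_c_prod hK.unr hp (hc.trans h210)
      ((q1 q (hD₁ hq)).2.pr1.symm ▸ Finset.mem_union_left _ hq)⟩)
    (fun l hl hn => ?_) ?_ (fun q hq _ => ⟨q, hq, rfl⟩) (fun v hv hn => Or.inr ?_) hZ₁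
    (hlam ▸ hZ₂), hlam ▸ hZ₂⟩, fun l hl hd => ?_⟩
  · rw [Finset.prod_union hdis', ← mul_assoc, Nat.cast_mul]
    exact hcl.mul (by omega)
  · have a1 := (Finset.mem_union.1 hl).resolve_left hn
    exact ⟨(q2 l (hD₂ a1)).1.sq0, (hT₂ l a1).not_dvd⟩
  · rintro _ ⟨q, hq, rfl⟩
    have T := (q1 q (hD₁ hq)).2
    have a1 : q ∈ D₁ ∪ D₂ := Finset.mem_union_left _ hq
    exact T.mem_lam a1 (hKt _ (T.pr2.symm ▸ a1)) ((Finset.dvd_prod_of_mem _ a1).mul_left _)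
  · exact (q2 _ (hD₂ ((Finset.mem_union.1 hv).resolve_left hn))).1
  · exact (Finset.mem_union.1 hl).elim (fun h => hD₁ h) fun h => absurd hd (hT₂ l h).not_dvd

theorem coreC (S : Setup K K) (hK : Fm e C N K) (h0 : d₀ ≠ 0)
    {Q₁ Q₂ : Finset ℕ} (hdis : Disjoint Q₁ Q₂) (hQ : ∀ l ∈ Q₁ ∪ Q₂, l.Prime ∧ ¬ l ∣ N ∧ SQ0 K l)
    (q2 : ∀ l ∈ Q₂, IP S l) (b1 : ¬ ∃ d : (Cub e K)ˣ, Esc (2 ^ 78) Q₁ d ∧ S.cor e d ∈ SQ e ℚ)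
    (b2 : ¬ ∃ d : (Cub e ℚ)ˣ, Esc (2 ^ 78 * ∏ l ∈ Q₁, l) Q₂ d) :
    ∃ D ⊆ Q₁ ∪ Q₂, ∃ c, Out e d₀ K D c ∧ ∀ l ∈ D, ¬ (l : ℤ) ∣ disc e := by
  have nK : ∀ D ⊆ Q₁ ∪ Q₂, (∀ l ∈ D, Ty e l) → TyD e D K := fun D hD hT =>
    tyD_top hK.unr hK.sq fun l hl => ⟨(hQ l (hD hl)).2.1, Or.inr ⟨(hQ l (hD hl)).2.2, hT l hl⟩⟩
  obtain ⟨D₁, hD₁, hT₁, hZ₁⟩ := exists_kill (fun D => ZM e (Pls D K) ⊓ S.TY e) (St e K) (SQ e K)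
    (Ty e) ∅ Q₁ (Finset.disjoint_empty_left _)
    (fun s hs h0 => by
      by_contra hc
      push Not at hc
      exact b1 ⟨s, (hK.niceM (nK ∅ (Finset.empty_subset _) (by simp)) subset_rfl).esc dvd_rfl
        (fun v hv => absurd hv (Finset.notMem_empty _)) hs.1 h0 hc, hs.2⟩)
    (fun D hD hT l hl hTl hn s hs hst => by
      rw [Finset.empty_union] at hn hs ⊢
      have a1 := nK _ (Finset.insert_subset (Finset.mem_union_left _ hl)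
        (hD.trans Finset.subset_union_left)) (Finset.forall_mem_insert _ _ _ |>.2 ⟨hTl, hT⟩)
      refine S.stepM (hQ l (Finset.mem_union_left _ hl)).1 (hK.niceM a1 subset_rfl)
        (fun v hv => ?_) hn hs hst
      subst hv
      exact ((a1 v (Finset.mem_insert_self _ _)).resolve_right fun h => hTl.not_dvd h.1).2)
  rw [Finset.empty_union] at hZ₁
  obtain ⟨D₂, hD₂, hT₂, hZ₂⟩ := kill_rat (Λ := Pls D₁ ℚ) (dvd_mul_right _ _)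
    (fun v hv => (Finset.dvd_prod_of_mem _ (hD₁ hv)).mul_left _) (fun l hl => (q2 l hl).prime)
    (fun v hv => Finset.disjoint_left.1 hdis (hD₁ hv))
    (fun D a1 a2 => hK.niceM ((nK (D₁ ∪ D) (Finset.union_subset_union hD₁ a1)
      (Finset.forall_mem_union.2 ⟨hT₁, a2⟩)).down (algebraMap ℚ K)) (Set.union_subset
      (fun _ h => Finset.mem_union_left _ h) fun _ h => Finset.mem_union_right _ h)) b2
  have hD : D₁ ∪ D₂ ⊆ Q₁ ∪ Q₂ := Finset.union_subset_union hD₁ hD₂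
  have hT : ∀ l ∈ D₁ ∪ D₂, Ty e l := Finset.forall_mem_union.2 ⟨hT₁, hT₂⟩
  obtain ⟨c, hc, hcl⟩ := exists_cls' h0 (D := D₁ ∪ D₂) fun l hl => (hQ l (hD hl)).1
  have hZ : ZM e (Lam e (D₁ ∪ D₂) (c * ∏ l ∈ D₁ ∪ D₂, l) ℚ) ≤ SQ e ℚ := by
    rw [lam_eq_pls hT, show Pls (D₁ ∪ D₂) ℚ = Pls D₁ ℚ ∪ Pls D₂ ℚ from
      Set.ext fun _ => Finset.mem_union]
    exact hZ₂
  obtain ⟨v₀, -⟩ := exists_over_prime K Nat.prime_two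
  refine ⟨_, hD, c, ⟨hc, hcl, nK _ hD hT, Setup.bottomM (D₁ := ∅) (v₁ := fun _ => v₀)
    (v₂ := fun _ => v₀) (nK _ hD hT) (by simp)
    (fun l hl _ => ⟨(hQ l (hD hl)).2.2, (hT l hl).not_dvd⟩) ?_ (by simp)
    (fun v hv _ => (Finset.mem_union.1 hv).imp id fun h => q2 _ (hD₂ h)) hZ₁ hZ, hZ⟩,
    fun l hl => (hT l hl).not_dvd⟩
  rw [lam_eq_pls hT]
  exact fun _ h => Finset.mem_union_left _ h

theorem coreQ (hK : Fm e C N K) (hQ' : Fm e C N ℚ) (hd : DescM K C) (h0 : d₀ ≠ 0)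
    (htow : ∀ N', N ∣ N' → ∀ 𝒯 : Subgroup (Cub e K)ˣ, SQ e K ≤ 𝒯 → 𝒯 ≤ Sel N' e K →
      (∀ g : K ≃ₐ[ℚ] K, ∀ d ∈ 𝒯, uz e (g : K →+* K) d ∈ 𝒯) →
      (∀ d₀ ∈ Sel N' e ℚ, uz e (algebraMap ℚ K) d₀ ∈ 𝒯 → d₀ ∈ SQ e ℚ) → 𝒯 ≤ SQ e K)
    {Q : Finset ℕ} (hQ : ∀ l ∈ Q, l.Prime ∧ ¬ l ∣ N ∧ SQ0 K l)
    (b2 : ¬ ∃ d : (Cub e ℚ)ˣ, Esc (2 ^ 78) Q d) :
    ∃ D ⊆ Q, ∃ c, Out e d₀ K D c ∧ ∀ l ∈ D, ¬ (l : ℤ) ∣ disc e := by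
  have nK : ∀ D ⊆ Q, (∀ l ∈ D, Ty e l) → TyD e D K := fun D hD hT =>
    tyD_top hK.unr hK.sq fun l hl => ⟨(hQ l (hD hl)).2.1, Or.inr ⟨(hQ l (hD hl)).2.2, hT l hl⟩⟩
  obtain ⟨D, hD, hT, hZ⟩ := kill_rat (Λ := ∅) dvd_rfl (by simp) (fun l hl => (hQ l hl).1) (by simp)
    (fun D a1 a2 => hK.niceM ((nK D a1 a2).down (algebraMap ℚ K)) (Set.empty_union _).subset) b2
  rw [Set.empty_union] at hZ
  obtain ⟨c, hc, hcl⟩ := exists_cls' h0 (D := D) fun l hl => (hQ l (hD hl)).1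
  refine ⟨D, hD, c, ⟨hc, hcl, nK D hD hT, ?_, ?_⟩, fun l hl => (hT l hl).not_dvd⟩
  all_goals rw [lam_eq_pls hT]
  · exact bottom_two hK hQ' hd htow (nK D hD hT) (fun l hl => ⟨(hQ l (hD hl)).1, (hQ l (hD hl)).2.2⟩)
      (fun g _ h => uz_mem_ZM _ h) hZ
  · exact hZ

end Pool.Agent.Lib.MP_775b3b_nt
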