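import Pool.Agent.Lib.MP_775b3b_nt.M2.LCd
import Pool.Agent.Lib.MP_775b3b_nt.YD1

/-! Definitions for curves with multiplicative reduction at two. -/

namespace Pool.Agent.Lib.MP_775b3b_nt

open Cub MP_439fea_co WithZero

section Place

variable {e : ℤ × ℤ} {k : Type} [Field k] [NumberField k] {v : P k}

theorem pr_eq_two : pr v = 2 ↔ val v (2 : k) < 1 :=
  ⟨fun h => by exact_mod_cast val_lt_of_pr h, fun h => pr_eq Nat.prime_two (by exact_mod_cast h)⟩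

/-- the Selmer group with transverse conditions at the places of `Λ` -/
noncomputable def ZM (e : ℤ × ℤ) (Λ : Set (P k)) : Subgroup (Cub e k)ˣ :=
  nsq e k ⊓ ((⨅ v : P k, L2m e (val v)) ⊓ ((⨅ v ∈ Λ, Tv e v (rg e (pr v))) ⊓
    ⨅ (v : P k) (_ : v ∉ Λ) (_ : pr v ≠ 2), usv e v))

theorem mem_ZM {Λ : Set (P k)} {d : (Cub e k)ˣ} : d ∈ ZM e Λ ↔ d ∈ nsq e k ∧
    (∀ v : P k, d ∈ L2m e (val v)) ∧ (∀ v ∈ Λ, d ∈ Tv e v (rg e (pr v))) ∧
      ∀ v ∉ Λ, pr v ≠ 2 → d ∈ usv e v := by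
  simp only [ZM, Subgroup.mem_inf, Subgroup.mem_iInf]

theorem SQ_le_ZM {Λ : Set (P k)} : SQ e k ≤ ZM e Λ := fun _ h =>
  mem_ZM.2 ⟨SQ_le_nsq h, fun _ => SQ_le_L2m h, fun _ _ => sqv_le_Tv (SQ_le_sqv h),
    fun _ _ _ => sqv_le_usv (SQ_le_sqv h)⟩

/-- the standing local hypotheses for the set `Λ` of places -/
structure NiceM (e : ℤ × ℤ) (Λ : Set (P k)) : Prop where
  pos : 0 < e.1
  two : ∃ C, Tate e C
  ty : ∀ v ∈ Λ, TyA e v (rg e (pr v))

theorem NiceM.mono {Λ Λ' : Set (P k)} (h : NiceM e Λ) (h' : Λ' ⊆ Λ) : NiceM e Λ' :=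
  ⟨h.pos, h.two, fun v hv => h.ty v (h' hv)⟩

/-- all places above `D` are twisting places -/
def TyD (e : ℤ × ℤ) (D : Finset ℕ) (k : Type) [Field k] [NumberField k] : Prop :=
  ∀ v : P k, pr v ∈ D → TyB e v

theorem TyD.mono {D D' : Finset ℕ} (h : TyD e D k) (h' : D' ⊆ D) : TyD e D' k :=
  fun v hv => h v (h' hv)

/-- rational units that become squares at a place above `l` are squares -/
def SQ0 (k : Type) [Field k] [NumberField k] (l : ℕ) : Prop :=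
  ∀ w : P k, pr w = l → SqDesc (algebraMap ℚ k) w

/-- the twist by `D` has the standard local condition above two -/
def GdA (C : ℤ) (D : k) : Prop := ∀ v : P k, val v (2 : k) < 1 → Good (val v) (C : k) D

/-- the twists by `d δ`, for `d` in the class of `d₀`, have the standard local condition -/
def GdB (C d₀ : ℤ) (δ : k) : Prop := ∀ d : ℤ, Cls d₀ d → GdA C ((d : k) * δ)

/-- the local condition above two descends from `k` to the rationals -/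
def DescM (k : Type) [Field k] [NumberField k] (C : ℤ) : Prop :=
  ∀ (v : P k) (u : P ℚ), val v (2 : k) < 1 → Lies (algebraMap ℚ k) (val v) (val u) →
    TD (algebraMap ℚ k) (val v) (val u) (C : ℚ)

/-- `δ` is a unit outside `N` -/
def Supp (N : ℕ) (δ : k) : Prop := ∀ v : P k, ¬ pr v ∣ N → val v δ = 1

theorem Supp.mono {N N' : ℕ} {δ : k} (h : Supp N δ) (h' : N ∣ N') : Supp N' δ :=
  fun v hv => h v fun h1 => hv (h1.trans h')

/-- the properties of the curves of the family -/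
structure Fm (e : ℤ × ℤ) (C : ℤ) (N : ℕ) (k : Type) [Field k] [NumberField k] : Prop where
  pos : 0 < e.1
  tate : Tate e C
  two : 2 ∣ N
  unr : Unr k N
  auto : ∀ v : P k, pr v ∣ N → pr v ≠ 2 → Auto e v
  sq : ∀ p : ℕ, p.Prime → ¬ p ∣ N → ¬ (p : ℤ) ^ 2 ∣ disc e

end Place

/-- the classes of all points of the twist by `D` are trivial -/
def Triv (e : ℤ × ℤ) {k : Type} [Field k] (D : k) : Prop :=
  ∀ x y : k, y ^ 2 = x ^ 3 + (e.1 : k) * D ^ 2 * x + (e.2 : k) * D ^ 3 →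
    ∀ t : (Cub e k)ˣ, (t : Cub e k) = algebraMap k (Cub e k) x - D • th → t ∈ SQ e k

/-- the classes of the points of the twist by `D` that are fixed by `H` are trivial -/
def TrivF (e : ℤ × ℤ) {F : Type} [Field F] [CharZero F] (H : Subgroup (F ≃ₐ[ℚ] F)) (D : F) : Prop :=
  ∀ x y : F, (∀ h ∈ H, h x = x ∧ h y = y) →
    y ^ 2 = x ^ 3 + (e.1 : F) * D ^ 2 * x + (e.2 : F) * D ^ 3 →
    ∀ t : (Cub e F)ˣ, (t : Cub e F) = algebraMap F (Cub e F) x - D • th → t ∈ SQ e F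

/-- the elements on which `H` acts through the signs `χ` are torsion -/
def AnnE {G M : Type} [Group G] [AddCommGroup M] (act : G → M →+ M) (H : Subgroup G)
    (χ : G → ℤˣ) : Prop :=
  ∃ r : ℤ, r ≠ 0 ∧ ∀ R : M, (∀ h ∈ H, act h R = ((χ h : ℤˣ) : ℤ) • R) → r • R = 0

/-- a positive proportion of the curves have a bounded squarefree twist with the property `p` -/
def Many (p : ℤ × ℤ → ℕ → Prop) : Prop := ∃ (m : ℕ) (c : ℝ) (T₀ : ℕ), 0 < c ∧
  ∀ T : ℕ, T₀ ≤ T → ∃ E ⊆ box T, c * (T : ℝ) ^ 5 ≤ E.card ∧ ∀ e ∈ E, ∃ d : ℕ, d ≤ m ∧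
    Squarefree d ∧ p e d ∧ ∀ q : ℕ, q.Prime → ¬ (q : ℤ) ^ 2 ∣ e.2 ∨ ¬ (q : ℤ) ^ 2 ∣ disc e

theorem Many.mono {p q : ℤ × ℤ → ℕ → Prop} (h : Many p)
    (hq : ∀ e d, disc e ≠ 0 → d ≠ 0 → p e d → q e d) : Many q := by
  obtain ⟨m, c, T₀, hc, h⟩ := h
  refine ⟨m, c, T₀, hc, fun T hT => ?_⟩
  obtain ⟨E, a1, a2, a3⟩ := h T hT
  refine ⟨E, a1, a2, fun e he => ?_⟩
  obtain ⟨d, b1, b2, b3, b4⟩ := a3 e he
  exact ⟨d, b1, b2, hq e d (mem_box.1 (a1 he)).2.2 b2.ne_zero b3, b4⟩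

end Pool.Agent.Lib.MP_775b3b_nt
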