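import Pool.Agent.Lib.MP_775b3b_nt.M2.Defs
import Pool.Agent.Lib.MP_775b3b_nt.ZFin
import Pool.Agent.Lib.MP_775b3b_nt.ZPt
import Pool.Agent.Lib.MP_775b3b_nt.YRep2

/-! From the boxes to the height, with a fixed twist; eigenpoints; equivariant maps. -/

namespace Pool.Agent.Lib.MP_775b3b_nt

open WeierstrassCurve WeierstrassCurve.Affine TensorProduct

open Classical in
/-- `d * δ.natAbs = u^2 * n` with `n` squarefree (`Nat.sq_mul_squarefree`), `n ≤ m * δ.natAbs`,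
`D = δ.sign * n`; `tw (e.1, δ.sign * e.2) n = tw e D`; see the end of `many_ann`; `density`,
`tw_minimal`. -/
theorem Many.dens {p : ℤ × ℤ → ℕ → Prop} (hp : Many p) {δ : ℤ} (hδ : δ ≠ 0) (r : ℤ × ℤ → Prop)
    (h : ∀ (e : ℤ × ℤ) (d : ℕ) (D u : ℤ), disc e ≠ 0 → d ≠ 0 → u ≠ 0 → d * δ = D * u ^ 2 →
      p e d → r (tw e D)) :
    ∃ c' : ℝ, 0 < c' ∧ ∃ X₀ : ℝ, ∀ X : ℝ, X₀ ≤ X → ∀ S : Finset (ℤ × ℤ),
      (∀ e : ℤ × ℤ, e ∈ S ↔ 4 * e.1 ^ 3 + 27 * e.2 ^ 2 ≠ 0 ∧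
        (∀ p : ℕ, p.Prime → ¬ ((p : ℤ) ^ 4 ∣ e.1 ∧ (p : ℤ) ^ 6 ∣ e.2)) ∧
        ((max (4 * |e.1| ^ 3) (27 * e.2 ^ 2) : ℤ) : ℝ) < X) →
      c' * S.card ≤ (S.filter r).card := by
  obtain ⟨m, c, T₀, hc, hm⟩ := hp
  refine density r (m := m * δ.natAbs) hc (T₀ := T₀) fun T hT => ?_
  obtain ⟨E, a1, a2, a3⟩ := hm T hT
  have s1 : δ.sign ^ 2 = 1 := by
    rw [sq, ← Int.sign_mul, Int.sign_eq_one_of_pos (mul_self_pos.2 hδ)]
  have s2 : IsUnit δ.sign := IsUnit.of_pow_eq_one s1 two_ne_zero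
  have s3 : ∀ e : ℤ × ℤ, disc (e.1, δ.sign * e.2) = disc e := fun e => by
    simp only [disc, mul_pow, s1, one_mul]
  refine ⟨E.image fun e => (e.1, δ.sign * e.2), fun e' he' => ?_, ?_, fun e' he' => ?_⟩
  · obtain ⟨e, he, rfl⟩ := Finset.mem_image.1 he'
    obtain ⟨b1, b2, b3⟩ := mem_box.1 (a1 he)
    refine mem_box.2 ⟨b1, ?_, s3 e ▸ b3⟩
    rwa [abs_mul, Int.abs_sign_of_ne_zero hδ, one_mul]
  · rwa [Finset.card_image_of_injective _ fun e e' hh => Prod.ext (Prod.mk.inj hh).1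
      (s2.mul_left_cancel (Prod.mk.inj hh).2)]
  obtain ⟨e, he, rfl⟩ := Finset.mem_image.1 he'
  obtain ⟨d, b1, b2, b3, b4⟩ := a3 e he
  obtain ⟨n, u, c1, c2⟩ := Nat.sq_mul_squarefree (d * δ.natAbs)
  have c3 : d * δ.natAbs ≠ 0 := mul_ne_zero b2.ne_zero (Int.natAbs_ne_zero.2 hδ)
  have c4 : u ≠ 0 := fun h0 => c3 (by rw [← c1, h0]; simp)
  refine ⟨n, Nat.pos_of_ne_zero c2.ne_zero, ?_, ?_, tw_minimal c2 fun p hp => ?_⟩
  · exact (Nat.le_of_dvd (Nat.pos_of_ne_zero c3) (Dvd.intro_left _ c1)).trans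
      (Nat.mul_le_mul_right _ b1)
  · have b8 : tw (e.1, δ.sign * e.2) (n : ℤ) = tw e (δ.sign * n) := by
      simp only [tw]
      refine Prod.ext ?_ ?_
      · linear_combination (-e.1 * n ^ 2) * s1
      · linear_combination (-δ.sign * e.2 * n ^ 3) * s1
    rw [b8]
    refine h e d _ u (mem_box.1 (a1 he)).2.2 b2.ne_zero (Int.natCast_ne_zero.2 c4) ?_ b3
    have b9 := Int.sign_mul_natAbs δ
    have c5 : (u : ℤ) ^ 2 * n = d * δ.natAbs := by exact_mod_cast c1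
    linear_combination (-(d : ℤ)) * b9 - δ.sign * c5
  · rw [s3, s2.dvd_mul_left]
    exact b4 p hp

open Classical in
/-- `density`, `tw_minimal` -/
theorem Many.dens_one {r : ℤ × ℤ → Prop} (hp : Many fun e d => r (tw e d)) :
    ∃ c' : ℝ, 0 < c' ∧ ∃ X₀ : ℝ, ∀ X : ℝ, X₀ ≤ X → ∀ S : Finset (ℤ × ℤ),
      (∀ e : ℤ × ℤ, e ∈ S ↔ 4 * e.1 ^ 3 + 27 * e.2 ^ 2 ≠ 0 ∧
        (∀ p : ℕ, p.Prime → ¬ ((p : ℤ) ^ 4 ∣ e.1 ∧ (p : ℤ) ^ 6 ∣ e.2)) ∧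
        ((max (4 * |e.1| ^ 3) (27 * e.2 ^ 2) : ℤ) : ℝ) < X) →
      c' * S.card ≤ (S.filter r).card := by
  obtain ⟨m, c, T₀, hc, hm⟩ := hp
  refine density r (m := m) hc (T₀ := T₀) fun T hT => ?_
  obtain ⟨E, a1, a2, a3⟩ := hm T hT
  refine ⟨E, a1, a2, fun e he => ?_⟩
  obtain ⟨d, b1, b2, b3, b4⟩ := a3 e he
  exact ⟨d, Nat.pos_of_ne_zero b2.ne_zero, b1, b3, tw_minimal b2 b4⟩

/-- the proof of `eigen_finite` -/
theorem eigen_finite' {L F : Type} [Field L] [CharZero L] [Field F] [CharZero F] [DecidableEq F]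
    (ι : L →+* F) {e : ℤ × ℤ} {d D : ℤ} (he : disc (tw e d) ≠ 0) {β : F}
    (hβ : (D : F) = d * β ^ 2) (h0 : β ≠ 0) (H : Subgroup (F ≃ₐ[ℚ] F)) (χ : (F ≃ₐ[ℚ] F) → ℤˣ)
    (h1 : ∀ γ ∈ H, γ β = (((χ γ : ℤˣ) : ℤ) : F) * β)
    (h2 : ∀ x : F, (∀ γ ∈ H, γ x = x) → ∃ y, ι y = x)
    (h : Finite (crv (tw e d) L).toAffine.Point) :
    {R : ((crv (tw e D) ℚ).toAffine⁄F).Point |
      ∀ γ ∈ H, Point.map (γ : F →ₐ[ℚ] F) R = ((χ γ : ℤˣ) : ℤ) • R}.Finite := by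
  have := crv_isElliptic (F := L) he
  refine Set.Finite.of_finite_image ((Set.finite_range fun Q : (crv (tw e d) L).toAffine.Point =>
    (crd Q).map fun p => (β ^ 2 * ι p.1, β ^ 3 * ι p.2)).subset ?_) crd_inj.injOn
  rintro _ ⟨_ | ⟨x, y, hxy⟩, hR, rfl⟩
  · exact ⟨0, rfl⟩
  have h3 : ∀ γ ∈ H, γ x = x ∧ γ y = (((χ γ : ℤˣ) : ℤ) : F) * y := fun γ hγ => by
    have h4 := hR γ hγ
    rw [Point.map_some] at h4
    rcases Int.units_eq_one_or (χ γ) with h5 | h5 <;> rw [h5] at h4 ⊢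
    · simpa using h4
    · rw [Units.val_neg, Units.val_one, neg_one_zsmul, Point.neg_some] at h4
      simpa [negY, Affine.baseChange, WeierstrassCurve.baseChange] using h4
  have hε : ∀ ε : ℤˣ, ((ε : ℤ) : F) ^ 2 = 1 := fun ε => by
    rcases Int.units_eq_one_or ε with rfl | rfl <;> simp
  have hε0 : ∀ ε : ℤˣ, ((ε : ℤ) : F) ≠ 0 := fun ε => Int.cast_ne_zero.2 ε.ne_zero
  obtain ⟨a, ha⟩ := h2 (x / β ^ 2) fun γ hγ => by
    rw [map_div₀, map_pow, (h3 γ hγ).1, h1 γ hγ, mul_pow, hε, one_mul]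
  obtain ⟨b, hb⟩ := h2 (y / β ^ 3) fun γ hγ => by
    rw [map_div₀, map_pow, (h3 γ hγ).2, h1 γ hγ, mul_pow, pow_succ _ 2, hε, one_mul,
      mul_div_mul_left _ _ (hε0 _)]
  have h5 : y ^ 2 = x ^ 3 + (e.1 : F) * (d * β ^ 2) ^ 2 * x + (e.2 : F) * (d * β ^ 2) ^ 3 := by
    rw [← hβ]
    simpa [equation_iff, tw, Affine.baseChange, WeierstrassCurve.baseChange] using hxy.1
  have h6 : (crv (tw e d) L).toAffine.Nonsingular a b :=
    equation_iff_nonsingular.1 (pt_eqn.2 (ι.injective (by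
      rw [map_pow, map_add, map_add, map_mul, map_pow, map_intCast, map_intCast, ha, hb]
      simp only [tw]
      push_cast
      field_simp
      linear_combination h5)))
  refine ⟨.some a b h6, ?_⟩
  simp only [crd, Option.map_some, ha, hb]
  rw [mul_div_cancel₀ _ (pow_ne_zero 2 h0), mul_div_cancel₀ _ (pow_ne_zero 3 h0)]

/-- the proof of `intertw_eq_zero` -/
theorem intertw_eq_zero' {G M W : Type} [Group G] [Finite G] [AddCommGroup M] [AddCommGroup W]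
    [Module ℂ W] (a : G → M →+ M) (H : Subgroup G) (χ : G → ℤˣ)
    (h : {x | ∀ γ ∈ H, a γ x = ((χ γ : ℤˣ) : ℤ) • x}.Finite)
    {ρ : Representation ℂ G W} (hρ : ρ.IsIrreducible) {w : W} (h0 : w ≠ 0)
    (hw : ∀ γ ∈ H, ρ γ w = (((χ γ : ℤˣ) : ℤ) : ℂ) • w) {T : W →ₗ[ℂ] ℂ ⊗[ℤ] M}
    (hT : ∀ g w, T (ρ g w) = (a g).toIntLinearMap.baseChange ℂ (T w)) : T = 0 := by
  have h1 : T w = 0 := tensor_eq_zero
    (fun γ : H => (a γ).toIntLinearMap - ((χ γ : ℤˣ) : ℤ) • LinearMap.id)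
    (h.subset fun x hx γ hγ => by simpa [sub_eq_zero] using hx ⟨γ, hγ⟩) fun γ => by
      rw [LinearMap.baseChange_sub, LinearMap.baseChange_smul, LinearMap.baseChange_id,
        LinearMap.sub_apply, ← hT, hw γ γ.2, map_smul, LinearMap.smul_apply, LinearMap.id_apply,
        Int.cast_smul_eq_zsmul, sub_self]
  let U : Subrepresentation ρ := ⟨LinearMap.ker T, fun g v hv => by
    rw [LinearMap.mem_ker] at hv ⊢
    rw [hT, hv, map_zero]⟩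
  rcases eq_bot_or_eq_top U with h2 | h2
  · have h3 : w ∈ U.toSubmodule := h1
    rw [h2] at h3
    exact absurd h3 h0
  · exact LinearMap.ker_eq_top.1 (congrArg Subrepresentation.toSubmodule h2)

/-- `γ₀ = ∑ g, ψ g • b g` with `b = IsGalois.normalBasis ℚ F`; `γ₀^2` is fixed by the group, so
rational (`IsGalois.mem_range_algebraMap_iff_fixed`); multiply by the denominator -/
theorem exists_sign_root {F : Type} [Field F] [NumberField F] [IsGalois ℚ F]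
    (ψ : (F ≃ₐ[ℚ] F) →* ℤˣ) : ∃ (δ : ℤ) (γ : F), δ ≠ 0 ∧ γ ^ 2 = δ ∧
      ∀ g : F ≃ₐ[ℚ] F, g γ = (((ψ g : ℤˣ) : ℤ) : F) * γ := by
  classical
  have hε : ∀ ε : ℤˣ, ((ε : ℤ) : F) * ((ε : ℤ) : F) = 1 := fun ε => by
    rcases Int.units_eq_one_or ε with rfl | rfl <;> simp
  obtain ⟨γ, h0, h1⟩ : ∃ γ : F, γ ≠ 0 ∧ ∀ g : F ≃ₐ[ℚ] F, g γ = (((ψ g : ℤˣ) : ℤ) : F) * γ := by
    refine ⟨∑ g, (((ψ g : ℤˣ) : ℤ) : ℚ) • IsGalois.normalBasis ℚ F g, fun h => ?_, fun g => ?_⟩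
    · exact Int.cast_ne_zero.2 (ψ 1).ne_zero
        (Fintype.linearIndependent_iff.1 (IsGalois.normalBasis ℚ F).linearIndependent _ h 1)
    · rw [map_sum, Finset.mul_sum, ← Equiv.sum_comp (Equiv.mulLeft g) (fun x =>
        (((ψ g : ℤˣ) : ℤ) : F) * ((((ψ x : ℤˣ) : ℤ) : ℚ) • IsGalois.normalBasis ℚ F x))]
      refine Finset.sum_congr rfl fun x _ => ?_
      rw [Equiv.coe_mulLeft, Int.cast_smul_eq_zsmul, Int.cast_smul_eq_zsmul, zsmul_eq_mul,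
        zsmul_eq_mul, map_mul, map_intCast, IsGalois.normalBasis_apply (g * x),
        IsGalois.normalBasis_apply x, map_mul ψ, AlgEquiv.mul_apply, Units.val_mul, Int.cast_mul,
        ← mul_assoc, ← mul_assoc, hε, one_mul]
  obtain ⟨q, hq⟩ := (IsGalois.mem_range_algebraMap_iff_fixed (F := ℚ) (γ ^ 2)).2 fun g => by
    rw [map_pow, h1, mul_pow, sq, hε, one_mul]
  have h2 : ((q.den : ℕ) : F) ≠ 0 := Nat.cast_ne_zero.2 q.den_ne_zero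
  have h3 : ((q.den : F) * γ) ^ 2 = ((q.num * q.den : ℤ) : F) := by
    rw [mul_pow, ← hq, eq_ratCast, Rat.cast_def]
    push_cast
    field_simp
  refine ⟨q.num * q.den, q.den * γ, fun h => ?_, h3, fun g => ?_⟩
  · rw [h, Int.cast_zero] at h3
    exact pow_ne_zero 2 (mul_ne_zero h2 h0) h3
  · rw [map_mul, map_natCast, h1, mul_left_comm]

end Pool.Agent.Lib.MP_775b3b_nt
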