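import Pool.Agent.Lib.MP_775b3b_nt.M2.Defs
import Pool.Agent.Lib.MP_775b3b_nt.YD4

/-! Eigenpoints are torsion. -/

namespace Pool.Agent.Lib.MP_775b3b_nt

open Cub WeierstrassCurve WeierstrassCurve.Affine

variable {e : ℤ × ℤ} {K F : Type} [Field K] [Field F] [NumberField F]
  {H H' : Subgroup (F ≃ₐ[ℚ] F)}

/-- `x = ι x₀`, `y = ι y₀`; `t = uz e ι (lu e D x₀)` (`Dom.down`, `Dom.lu_val`, `Dom.uz_lu`) -/
theorem Triv.trivF (ι : K →+* F) (hfix : ∀ x : F, (∀ h ∈ H, h x = x) → ∃ y, ι y = x)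
    (hd : Dom e F) {D : K} (hD : D ≠ 0) (h : Triv e D) : TrivF e H (ι D) := by
  intro x y hxy h1 t ht
  obtain ⟨x₀, rfl⟩ := hfix x fun g hg => (hxy g hg).1
  obtain ⟨y₀, rfl⟩ := hfix y fun g hg => (hxy g hg).2
  have h2 : t = uz e ι (lu e D x₀) := Units.ext (by
    rw [hd.uz_lu ι hD, hd.lu_val ((map_ne_zero ι).2 hD), ht])
  rw [h2]
  exact uz_mem_SQ ι (h x₀ y₀ (ι.injective (by simpa using h1)) _ ((hd.down ι).lu_val hD x₀))

/-- the point `(x / s^2, y / s^3)`, and `t = s^2 • t'` (`ZTy3_sc`) -/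
theorem TrivF.scale {D s : F} (h : TrivF e H D) (hs : s ≠ 0) (hf : ∀ h ∈ H, h s = s) :
    TrivF e H (D * s ^ 2) := by
  intro x y hxy h1 t ht
  obtain ⟨z, hz⟩ := ZTy3_sc (e := e) (inv_ne_zero hs)
  refine (Subgroup.mul_mem_cancel_left _ (sq_mem_SQ z)).1
    (h (x / s ^ 2) (y / s ^ 3) (fun g hg => ?_) ?_ _ ?_)
  · simp only [map_div₀, map_pow, hf g hg, (hxy g hg).1, (hxy g hg).2, and_self]
  · field_simp
    linear_combination h1
  · rw [Units.val_mul, Units.val_pow_eq_pow_val, hz, ht, ← map_pow, ← Algebra.smul_def]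
    ext <;> simp <;> field_simp

/-- apply `g⁻¹` to the point, `uz_mem_SQ` -/
theorem TrivF.conj {D : F} (h : TrivF e H D) (g : F ≃ₐ[ℚ] F) (hg : ∀ h ∈ H, g * h * g⁻¹ ∈ H') :
    TrivF e H' (g D) := by
  intro x y hxy h1 t ht
  have h2 : ∀ z : F, (∀ p ∈ H', p z = z) → ∀ p ∈ H, p (g⁻¹ z) = g⁻¹ z := fun z hz p hp =>
    g.injective (by simpa using hz _ (hg p hp))
  have h3 := uz_mem_SQ (g : F →+* F) (h (g⁻¹ x) (g⁻¹ y)
    (fun p hp => ⟨h2 x (fun q hq => (hxy q hq).1) p hp, h2 y (fun q hq => (hxy q hq).2) p hp⟩)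
    (g.injective (by simpa using h1)) (uz e ((g⁻¹ : F ≃ₐ[ℚ] F) : F →+* F) t) (by
      rw [uz_val, ht, map_sub, map_algebraMap, map_smul', map_th]
      simp))
  have h4 : uz e (g : F →+* F) (uz e ((g⁻¹ : F ≃ₐ[ℚ] F) : F →+* F) t) = t :=
    Units.ext (by rw [uz_val, uz_val]; ext <;> simp)
  rwa [h4] at h3

/-- As the end of `ann_of_kill`.  `A` = submodule of eigenpoints.  For `R = (x, y) ∈ A`: `h x = x`,
`h y = χ h * y`, so `(β^2 x, β^3 y)` is fixed by `H` and lies on the twist by `D β^2`; its class is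
`β^2 • lu e D x`, so `kum e D R = 1`.  `Dom.half`, `Dom.two_tors`, `ann_of_half`. -/
theorem ann_eig [DecidableEq F] (he : disc e ≠ 0) (hd : Dom e F) {D : ℤ} (hD : D ≠ 0)
    {χ : (F ≃ₐ[ℚ] F) → ℤˣ} {β : F} (h0 : β ≠ 0)
    (hβ : ∀ h ∈ H, h β = (((χ h : ℤˣ) : ℤ) : F) * β) (h : TrivF e H ((D : F) * β ^ 2)) :
    AnnE (act (tw e D)) H χ := by
  have hD' : (D : F) ≠ 0 := Int.cast_ne_zero.2 hD
  have he' : disc (tw e D) ≠ 0 := by
    rw [disc_tw]
    exact mul_ne_zero (pow_ne_zero 6 hD) he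
  have : Module.Finite ℤ ((crv (tw e D) ℚ).toAffine⁄F).Point := by
    have := crv_isElliptic (F := F) he'
    rw [crv_base]
    exact Module.Finite.iff_addGroup_fg.mpr (Pool.Agent.MP_651af7_nt.MW.fg (crv (tw e D) F))
  let A : Submodule ℤ ((crv (tw e D) ℚ).toAffine⁄F).Point := ⨅ p ∈ H, LinearMap.ker
    ((act _ p).toIntLinearMap - ((χ p : ℤˣ) : ℤ) • LinearMap.id)
  have hA : ∀ R, R ∈ A ↔ ∀ p ∈ H, act _ p R = ((χ p : ℤˣ) : ℤ) • R := fun R => by
    simp only [A, Submodule.mem_iInf, LinearMap.mem_ker, LinearMap.sub_apply,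
      LinearMap.smul_apply, LinearMap.id_apply, AddMonoidHom.coe_toIntLinearMap, sub_eq_zero]
  have hk : ∀ R ∈ A, kum e (D : F) R = 1 := by
    rintro (_ | ⟨x, y, hxy⟩) hR
    · rfl
    have h3 := tw_eqn (crv_base (F := F) ▸ hxy.1)
    have h4 := h (β ^ 2 * x) (β ^ 3 * y) (fun p hp => by
      have a5 := (hA _).1 hR p hp
      have a6 := hβ p hp
      rw [Point.map_some] at a5
      rcases Int.units_eq_one_or (χ p) with a | a
      · rw [a] at a5 a6
        have a7 : p x = x ∧ p y = y := by simpa using a5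
        simp [a6, a7.1, a7.2]
      · rw [a] at a5 a6
        rw [Units.val_neg, Units.val_one, neg_one_zsmul, Point.neg_some] at a5
        have a7 : p x = x ∧ p y = -y := by
          simpa [negY, Affine.baseChange, WeierstrassCurve.baseChange] using a5
        rw [map_mul, map_mul, map_pow, map_pow, a6, a7.1, a7.2]
        constructor <;> push_cast <;> ring) (by linear_combination β ^ 6 * h3) _
      (hd.lu_val (mul_ne_zero hD' (pow_ne_zero 2 h0)) _)
    have h5 := hd.lu_tw hD' h0 (β ^ 2 * x)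
    rw [mul_div_cancel_left₀ _ (pow_ne_zero 2 h0), (QuotientGroup.eq_one_iff _).2 h4] at h5
    exact h5.symm
  obtain ⟨r, hr, h4⟩ := ann_of_half A fun R hR => by
    obtain ⟨Q, rfl⟩ := hd.half he hD crv_base (hk R hR)
    refine ⟨Q, ?_, rfl⟩
    simp only [A, Submodule.mem_iInf, LinearMap.mem_ker] at hR ⊢
    exact fun p hp => hd.two_tors hD crv_base (by rw [← map_nsmul, hR p hp])
  exact ⟨r, hr, fun R hR => h4 R ((hA R).2 hR)⟩

end Pool.Agent.Lib.MP_775b3b_nt
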