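import Pool.Agent.Lib.MP_775b3b_nt.M2.Defs
import Pool.Agent.Lib.MP_775b3b_nt.YFam
import Pool.Agent.Lib.MP_775b3b_nt.ZFamCnt

/-! The family of curves. -/

namespace Pool.Agent.Lib.MP_775b3b_nt

open Cub MP_439fea_co WithZero

/-- `finite_supp`, product of the primes under the support -/
theorem exists_supp {k : Type} [Field k] [NumberField k] {δ : k} (h : δ ≠ 0) :
    ∃ N : ℕ, N ≠ 0 ∧ Supp N δ := by
  refine ⟨∏ v ∈ (finite_supp h).toFinset, pr v,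
    Finset.prod_ne_zero_iff.2 fun v _ => (pr_prime v).ne_zero, fun v hv => by_contra fun h1 => ?_⟩
  exact hv (Finset.dvd_prod_of_mem _ ((finite_supp h).mem_toFinset.2 h1))

theorem fam_dich {K : Type} [Field K] [NumberField K] (h3 : Module.finrank ℚ K ≤ 3) {p : ℕ}
    (hp : p.Prime) (h : ¬ ∀ v : P K, val v (p : K) < 1 → val v (p : K) = exp (-1 : ℤ)) (v : P K)
    (hv : val v (p : K) < 1) : Res1 v := by
  refine res1_of_absNorm ?_
  push Not at h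
  obtain ⟨v0, h0, h1⟩ := h
  have hp0 : (p : K) ≠ 0 := Nat.cast_ne_zero.2 hp.ne_zero
  have hc : ((p : NumberField.RingOfIntegers K) : K) = (p : K) := map_natCast (algebraMap _ K) p
  have h4 : val v0 ((p : NumberField.RingOfIntegers K) : K) ≤ exp (-((2 : ℕ) : ℤ)) := by
    rw [hc]
    rw [val_eq_exp v0 hp0] at h0 h1 ⊢
    rw [← exp_zero, exp_lt_exp] at h0
    rw [exp_le_exp]
    have h5 : -ord v0 (p : K) ≠ -1 := fun h => h1 (by rw [h])
    omega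
  have h4' : val v ((p : NumberField.RingOfIntegers K) : K) ≤ exp (-((1 : ℕ) : ℤ)) := by
    rw [hc]
    rw [val_eq_exp v hp0] at hv ⊢
    rw [← exp_zero, exp_lt_exp] at hv
    rw [exp_le_exp]
    omega
  rw [Val_le_iff_mem] at h4 h4'
  have key : ∀ I : Ideal (NumberField.RingOfIntegers K), (p : NumberField.RingOfIntegers K) ∈ I →
      Ideal.absNorm I ∣ p ^ 3 := fun I hI => by
    have h5 := Ideal.absNorm_dvd_absNorm_of_le ((Ideal.span_singleton_le_iff_mem _).2 hI)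
    rw [Ideal.absNorm_span_singleton,
      show (p : NumberField.RingOfIntegers K) = algebraMap ℤ _ (p : ℤ) by simp,
      Algebra.norm_algebraMap, NumberField.RingOfIntegers.rank, Int.natAbs_pow,
      Int.natAbs_natCast] at h5
    exact h5.trans (pow_dvd_pow p h3)
  have key2 : ∀ w : P K, Ideal.absNorm w.asIdeal ∣ p ^ 3 →
      ∃ i, i ≠ 0 ∧ Ideal.absNorm w.asIdeal = p ^ i := fun w hw => by
    obtain ⟨i, -, hi⟩ := (Nat.dvd_prime_pow hp).1 hw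
    refine ⟨i, ?_, hi⟩
    rintro rfl
    rw [pow_zero, Ideal.absNorm_eq_one_iff] at hi
    exact w.isPrime.ne_top hi
  rw [pow_one] at h4'
  obtain ⟨i, h6, hi⟩ := key2 v (key _ h4')
  obtain ⟨j, h7, hj⟩ := key2 v0 (key _ (Ideal.pow_le_self two_ne_zero h4))
  suffices h8 : i = 1 by rw [hi, h8, pow_one]; exact hp
  by_cases e : v = v0
  · subst e
    have h5 := key _ h4
    rw [map_pow, hi, ← pow_mul, Nat.pow_dvd_pow_iff_le_right hp.one_lt] at h5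
    omega
  · have h8 : IsCoprime (v0.asIdeal ^ 2) v.asIdeal := IsCoprime.pow_left
      (Ideal.isCoprime_iff_sup_eq.2 (v0.isMaximal.coprime_of_ne v.isMaximal
        fun h => e (IsDedekindDomain.HeightOneSpectrum.ext h.symm)))
    have h5 := key (v0.asIdeal ^ 2 * v.asIdeal) (by
      rw [Ideal.mul_eq_inf_of_isCoprime h8]
      exact ⟨h4, h4'⟩)
    rw [map_mul, map_pow, hi, hj, ← pow_mul, ← pow_add,
      Nat.pow_dvd_pow_iff_le_right hp.one_lt] at h5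
    omega

theorem fam_prime {K : Type} [Field K] [NumberField K] (h3 : Module.finrank ℚ K ≤ 3) {p : ℕ}
    (hp : p.Prime) : ∃ a b : ℤ, ∀ e : ℤ × ℤ, (p : ℤ) ^ 2 ∣ e.1 - a → (p : ℤ) ^ 2 ∣ e.2 - b →
      ¬ (p : ℤ) ^ 2 ∣ e.2 ∧ (∀ v : P K, val v (p : K) < 1 → Auto e v) ∧
        (∀ v : P ℚ, val v (p : ℚ) < 1 → Auto e v) ∧
        ((∀ v : P K, val v (p : K) < 1 → val v (p : K) = exp (-1 : ℤ)) →
          (p : ℤ) ∣ e.1 ∧ (p : ℤ) ^ 2 ∣ e.2 - p) := by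
  have hd : (p : ℤ) ∣ (p : ℤ) ^ 2 := dvd_pow_self _ two_ne_zero
  by_cases h : ∀ v : P K, val v (p : K) < 1 → val v (p : K) = exp (-1 : ℤ)
  · refine ⟨0, p, fun e hA hB => ?_⟩
    have hA' : (p : ℤ) ∣ e.1 := hd.trans (by simpa using hA)
    refine ⟨fun h1 => ?_, fun v hv => (eis_of hp (h v hv) hA' hB).auto,
      fun v hv => (eis_of hp (deg1_rat hp v hv).1 hA' hB).auto, fun _ => ⟨hA', hB⟩⟩
    have h2 : (p : ℤ) ^ 2 ∣ (p : ℤ) := by simpa using dvd_sub h1 hB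
    have h4 := Int.le_of_dvd (by exact_mod_cast hp.pos) h2
    have h5 : (2 : ℤ) ≤ p := by exact_mod_cast hp.two_le
    nlinarith
  · have : Fact p.Prime := ⟨hp⟩
    have hn : ¬ Function.Surjective fun x : ZMod p => x - x ^ 3 := by
      intro hs
      have h1 := Finite.injective_iff_surjective.2 hs (a₁ := 0) (a₂ := 1) (by simp)
      exact zero_ne_one h1
    obtain ⟨b, hb⟩ := not_forall.1 hn
    obtain ⟨b, rfl⟩ := ZMod.intCast_surjective b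
    refine ⟨-1, b, fun e hA hB => ?_⟩
    have h1 : (e.1 : ZMod p) = -1 := by
      have := (ZMod.intCast_zmod_eq_zero_iff_dvd _ p).2 (hd.trans hA)
      push_cast at this
      exact sub_eq_zero.1 this
    have h2 : (e.2 : ZMod p) = b := by
      have := (ZMod.intCast_zmod_eq_zero_iff_dvd _ p).2 (hd.trans hB)
      push_cast at this
      exact sub_eq_zero.1 this
    have h5 : ∀ r : ZMod p, fv e r ≠ 0 := fun r hr => hb ⟨r, by
      rw [fv, h1, h2] at hr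
      linear_combination -hr⟩
    refine ⟨fun h4 => hb ⟨0, ?_⟩, fun v hv => auto_of_noroot hp hv (fam_dich h3 hp h v hv) h5,
      fun v hv => auto_of_noroot hp hv (res1_rat v) h5, fun h4 => absurd h4 h⟩
    rw [← h2, (ZMod.intCast_zmod_eq_zero_iff_dvd _ p).2 (hd.trans h4)]
    simp

theorem fam_crt (f : ℕ → ℤ) (c : ℤ) (s : Finset ℕ) (hs : ∀ p ∈ s, p.Prime ∧ p ≠ 2) :
    ∃ a : ℤ, 2 ^ 13 ∣ a - c ∧ ∀ p ∈ s, (p : ℤ) ^ 2 ∣ a - f p := by
  obtain ⟨a, ha⟩ := zfam_crt f s fun p hp => (hs p hp).1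
  have hc : IsCoprime (∏ p ∈ s, (p : ℤ) ^ 2) (((2 : ℕ) : ℤ) ^ 13) := by
    refine IsCoprime.prod_left fun p hp => IsCoprime.pow ?_
    rw [Nat.isCoprime_iff_coprime, Nat.coprime_primes (hs p hp).1 Nat.prime_two]
    exact (hs p hp).2
  obtain ⟨u, w, huw⟩ := hc
  rw [Nat.cast_ofNat] at huw
  refine ⟨a + (∏ p ∈ s, (p : ℤ) ^ 2) * (u * (c - a)), ⟨w * (a - c), ?_⟩, fun p hp => ?_⟩
  · linear_combination (c - a) * huw
  · rw [add_sub_right_comm]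
    exact dvd_add (ha p hp) ((Finset.dvd_prod_of_mem (fun p : ℕ => (p : ℤ) ^ 2) hp).mul_right _)

/-- `N = N₀ * N_K * N_ℚ * N_F * 64! * p₀` (`exists_unr`) with `p₀` a prime larger than the other
factors.  Class modulo `p^2` at odd `p ∣ N`: as `exists_class_prime'`, with `cubic_dichotomy'`
generalised to degree at most three (replace `p^3` by `p^n`, `n ≤ 3`); both choices give `Auto` over
`ℚ` too (`deg1_rat`, `res1_rat`).  At `p₀` take the Eisenstein class `(0, p₀)`: `eis_of`,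
`Eis.auto`, `Eis.dom` over `F`.  At two the class `(-27 - C, 54 - 6 C)` modulo `2^13 ∣ N^2`
(`Tate.exists`, `Tate.not_four`); Chinese remainder as in `zfam_crt` with one more modulus. -/
theorem exists_fam (K F : Type) [Field K] [NumberField K] [Field F] [NumberField F]
    (hK : Module.finrank ℚ K ≤ 3) {C : ℤ} (h1 : 2 ^ 7 ∣ C) (h2 : ¬ 2 ^ 10 ∣ C) {N₀ : ℕ}
    (h0 : N₀ ≠ 0) : ∃ (N : ℕ) (a b : ℤ), N ≠ 0 ∧ N₀ ∣ N ∧ (∀ p : ℕ, p.Prime → p ≤ 64 → p ∣ N) ∧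
      210 ∣ N ∧ ∀ e : ℤ × ℤ, Fam N a b e → Fm e C N K ∧ Fm e C N ℚ ∧ Dom e F ∧
        ∀ q : ℕ, q.Prime → ¬ (q : ℤ) ^ 2 ∣ e.2 ∨ ¬ (q : ℤ) ^ 2 ∣ disc e := by
  obtain ⟨N₁, n1, u1⟩ := exists_unr K
  obtain ⟨N₂, n2, u2⟩ := exists_unr ℚ
  obtain ⟨N₃, n3, u3⟩ := exists_unr F
  obtain ⟨M, hM⟩ : ∃ M, M = N₀ * N₁ * N₂ * N₃ * (Nat.factorial 64 * (210 * 2 ^ 7)) := ⟨_, rfl⟩
  have m0 : M ≠ 0 := by
    rw [hM]
    positivity
  obtain ⟨p₀, hp1, hp⟩ := Nat.exists_infinite_primes (M + 1)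
  have hp2 : ¬ p₀ ∣ M := fun h => absurd (Nat.le_of_dvd (Nat.pos_of_ne_zero m0) h) (by omega)
  have n0 : M * p₀ ≠ 0 := mul_ne_zero m0 hp.ne_zero
  have d0 : N₀ ∣ M := hM ▸ (((dvd_mul_right _ _).mul_right _).mul_right _).mul_right _
  have d1 : N₁ ∣ M := hM ▸ (((dvd_mul_left _ _).mul_right _).mul_right _).mul_right _
  have d2 : N₂ ∣ M := hM ▸ ((dvd_mul_left _ _).mul_right _).mul_right _
  have d3 : N₃ ∣ M := hM ▸ (dvd_mul_left _ _).mul_right _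
  have d4 : Nat.factorial 64 ∣ M := hM ▸ (dvd_mul_right _ _).mul_left _
  have d5 : 210 ∣ M := hM ▸ ((dvd_mul_right _ _).mul_left _).mul_left _
  have d6 : 2 ^ 7 ∣ M := hM ▸ ((dvd_mul_left _ _).mul_left _).mul_left _
  clear hM
  have d7 : 2 ∣ M * p₀ := Dvd.dvd.mul_right (by omega) _
  have key : ∀ p : ℕ, ∃ a b : ℤ, p.Prime → _ := fun p => by
    by_cases hp : p.Prime
    · obtain ⟨a, b, h⟩ := fam_prime hK hp
      exact ⟨a, b, fun _ => h⟩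
    · exact ⟨0, 0, fun h => absurd h hp⟩
  choose f g hfg using key
  have hs : ∀ p ∈ (M * p₀).primeFactors.erase 2, p.Prime ∧ p ≠ 2 := fun p hp =>
    ⟨Nat.prime_of_mem_primeFactors (Finset.mem_of_mem_erase hp), Finset.ne_of_mem_erase hp⟩
  obtain ⟨a, ha2, ha⟩ := fam_crt f (-27 - C) _ hs
  obtain ⟨b, hb2, hb⟩ := fam_crt g (54 - 6 * C) _ hs
  refine ⟨M * p₀, a, b, n0, d0.mul_right _, fun p hp h => ((hp.dvd_factorial.2 h).trans d4).mul_right _,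
    d5.mul_right _, fun e ⟨hpos, hA, hB, hsq⟩ => ?_⟩
  have h := fun (p : ℕ) (hp : p.Prime) (hpN : p ∣ M * p₀) (hp2 : p ≠ 2) =>
    have hm : p ∈ (M * p₀).primeFactors.erase 2 :=
      Finset.mem_erase.2 ⟨hp2, Nat.mem_primeFactors.2 ⟨hp, hpN, n0⟩⟩
    have hd : (p : ℤ) ^ 2 ∣ ((M * p₀ : ℕ) : ℤ) ^ 2 :=
      pow_dvd_pow_of_dvd (Int.natCast_dvd_natCast.2 hpN) 2
    hfg p hp e (by simpa using dvd_add (hd.trans hA) (ha p hm))
      (by simpa using dvd_add (hd.trans hB) (hb p hm))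
  have hd : (2 : ℤ) ^ 13 ∣ ((M * p₀ : ℕ) : ℤ) ^ 2 := by
    have h3 : ((2 ^ 7 : ℕ) : ℤ) ^ 2 ∣ ((M * p₀ : ℕ) : ℤ) ^ 2 :=
      pow_dvd_pow_of_dvd (Int.natCast_dvd_natCast.2 (d6.mul_right _)) 2
    exact Dvd.dvd.trans (by norm_num) h3
  have ht : Tate e C := Tate.exists h1 h2 (by simpa using dvd_add (hd.trans hA) ha2)
    (by simpa using dvd_add (hd.trans hB) hb2)
  refine ⟨⟨hpos, ht, d7, u1 _ (d1.mul_right _), fun v a1 a2 =>
      (h _ (pr_prime v) a1 a2).2.1 v (val_pr v), hsq⟩,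
    ⟨hpos, ht, d7, u2 _ (d2.mul_right _), fun v a1 a2 =>
      (h _ (pr_prime v) a1 a2).2.2.1 v (val_pr v), hsq⟩, ?_, fun q hq => ?_⟩
  · obtain ⟨w, hw⟩ := exists_over_prime F hp
    obtain ⟨a1, a2⟩ := (h p₀ hp (dvd_mul_left _ _) fun h3 => hp2 (by omega)).2.2.2
      fun v hv => u1 M d1 v ⟨p₀, hp⟩ hp2 hv
    exact (eis_of hp (u3 M d3 w ⟨p₀, hp⟩ hp2 hw) a1 a2).dom
  · by_cases h3 : q ∣ M * p₀
    · by_cases h4 : q = 2
      · subst h4
        exact Or.inl ht.not_four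
      · exact Or.inl (h q hq h3 h4).1
    · exact Or.inr (hsq q hq h3)

/-- `card_fam` gives `c`; take `ε = c / 4` and remove the two bad sets, see the end of `many4` -/
theorem many_of {N : ℕ} (hN : N ≠ 0) (hsm : ∀ p : ℕ, p.Prime → p ≤ 64 → p ∣ N) (a b : ℤ)
    {p : ℤ × ℤ → ℕ → Prop}
    (h : ∀ ε : ℝ, 0 < ε → ∃ (m T₀ : ℕ) (b₁ b₂ : ℤ × ℤ → Prop),
      (∀ T : ℕ, T₀ ≤ T → ∀ E ⊆ box T, (∀ e ∈ E, Fam N a b e ∧ b₁ e) →
        (E.card : ℝ) ≤ ε * (T : ℝ) ^ 5) ∧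
      (∀ T : ℕ, T₀ ≤ T → ∀ E ⊆ box T, (∀ e ∈ E, b₂ e) → (E.card : ℝ) ≤ ε * (T : ℝ) ^ 5) ∧
      ∀ e, Fam N a b e → ¬ b₁ e → ¬ b₂ e → ∃ d : ℕ, d ≤ m ∧ Squarefree d ∧ p e d ∧
        ∀ q : ℕ, q.Prime → ¬ (q : ℤ) ^ 2 ∣ e.2 ∨ ¬ (q : ℤ) ^ 2 ∣ disc e) : Many p := by
  classical
  obtain ⟨c, hc, T₁, hT₁⟩ := card_fam hN hsm a b
  obtain ⟨m, T₀, b₁, b₂, h1, h2, h3⟩ := h (c / 4) (by positivity)
  refine ⟨m, c / 2, max T₁ T₀, by positivity, fun T hT => ?_⟩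
  let B₁ := ((box T).filter (Fam N a b)).filter b₁
  let B₂ := (box T).filter b₂
  have e1 := hT₁ T ((le_max_left _ _).trans hT)
  have e2 := h1 T ((le_max_right _ _).trans hT) B₁
    ((Finset.filter_subset _ _).trans (Finset.filter_subset _ _)) fun e he =>
      ⟨(Finset.mem_filter.1 (Finset.mem_filter.1 he).1).2, (Finset.mem_filter.1 he).2⟩
  have e3 := h2 T ((le_max_right _ _).trans hT) B₂ (Finset.filter_subset _ _)
    fun e he => (Finset.mem_filter.1 he).2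
  refine ⟨(box T).filter (Fam N a b) \ (B₁ ∪ B₂),
    Finset.sdiff_subset.trans (Finset.filter_subset _ _), ?_, fun e he => ?_⟩
  · have e4 : (((box T).filter (Fam N a b)).card : ℝ) ≤
        ((box T).filter (Fam N a b) \ (B₁ ∪ B₂)).card + (B₁.card + B₂.card) := by
      exact_mod_cast Finset.card_le_card_sdiff_add_card.trans
        (Nat.add_le_add_left (Finset.card_union_le _ _) _)
    linarith
  · obtain ⟨a1, a2⟩ := Finset.mem_sdiff.1 he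
    obtain ⟨a3, a4⟩ := Finset.mem_filter.1 a1
    exact h3 e a4 (fun h => a2 (Finset.mem_union_left _ (Finset.mem_filter.2 ⟨a1, h⟩)))
      fun h => a2 (Finset.mem_union_right _ (Finset.mem_filter.2 ⟨a3, h⟩))

end Pool.Agent.Lib.MP_775b3b_nt
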