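import Pool.Agent.Lib.MP_775b3b_nt.YPrime2
import Pool.Agent.Lib.MP_775b3b_nt.YD2

/-! Auxiliary primes. -/

namespace Pool.Agent.Lib.MP_775b3b_nt

open Cub MP_439fea_co WithZero

variable {K F : Type} [Field K] [NumberField K] [Field F] [NumberField F]

/-- the proof of `exists_IP` with `2` added to the list given to `exists_ext`;
`ZMod.exists_sq_eq_two_iff` -/
theorem exists_IP8 (S : Setup K F) {j : ℕ} (hF : Module.finrank ℚ F = 3 * 2 ^ j) (Q : Finset ℕ)
    (hQ : ∀ q ∈ Q, q.Prime ∧ q ≠ 2) (Y : ℕ) :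
    ∃ l : ℕ, Y < l ∧ IP S l ∧ l % 8 = 1 ∧ ∀ q ∈ Q, IsSquare (l : ZMod q) := by
  classical
  have := S.gal
  obtain ⟨F', _, _, _, _, i, hi, hsq⟩ :=
    exists_ext F (insert 2 (insert (-1) (Q.image fun q : ℕ => (q : ℤ))))
  have : IsScalarTower ℚ F F' := IsScalarTower.of_algebraMap_eq' (Subsingleton.elim _ _)
  have hF' : Module.finrank ℚ F' = 3 * 2 ^ (j + i) := by
    rw [← Module.finrank_mul_finrank ℚ F F', hF, hi, pow_add, mul_assoc]
  obtain ⟨N₀, hN, hU⟩ := exists_unr F'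
  obtain ⟨l, hl, hY, h3⟩ := exists_stab_three F' (hF' ▸ dvd_mul_right _ _) (max Y (max N₀ 2))
  have hu : ∀ w : P F', val w (l : F') < 1 → val w (l : F') = exp (-1 : ℤ) := fun w hw =>
    hU N₀ dvd_rfl w ⟨l, hl⟩ (fun hd => absurd (Nat.le_of_dvd (Nat.pos_of_ne_zero hN) hd)
      (not_le.2 (((le_max_left _ _).trans (le_max_right _ _)).trans_lt hY))) hw
  obtain ⟨w, hw⟩ := exists_over_prime F' hl
  obtain ⟨v, ho⟩ := exists_over_hom (algebraMap ℚ F') w (x := (l : ℚ))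
    (by rw [map_natCast]; exact hu w hw)
  have hv : val v (l : ℚ) < 1 := by rw [← ho.natCast]; exact hw
  have hz : SqZ w l := SqZ.up ho hl hv (sqDesc_of_three (h3 w hw)) (sqZ_of_res1 hl hv (res1_rat v))
  have hz' : ∀ a ∈ insert (2 : ℤ) (insert (-1 : ℤ) (Q.image fun q : ℕ => (q : ℤ))),
      IsSquare (a : ZMod l) := fun a ha => by
    obtain ⟨x, hx⟩ := hsq a ha
    exact hz a ⟨x, by rw [hx, sub_self, map_zero]; exact zero_lt_one⟩
  have := Fact.mk hl
  have h1 : l % 4 ≠ 3 := ZMod.exists_sq_eq_neg_one_iff.1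
    (by simpa using hz' (-1) (Finset.mem_insert_of_mem (Finset.mem_insert_self _ _)))
  have h2 : 2 < l := ((le_max_right _ _).trans (le_max_right _ _)).trans_lt hY
  have h4 : l % 2 = 1 := hl.eq_two_or_odd.resolve_left h2.ne'
  have h5 : l % 8 = 1 ∨ l % 8 = 7 := (ZMod.exists_sq_eq_two_iff h2.ne').1
    (by simpa using hz' 2 (Finset.mem_insert_self _ _))
  refine ⟨l, (le_max_left _ _).trans_lt hY, IP_of_three S hF' hl hu h3, by omega, fun q hq => ?_⟩
  have := Fact.mk (hQ q hq).1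
  refine (ZMod.exists_sq_eq_prime_iff_of_mod_four_eq_one (by omega) (hQ q hq).2).1 ?_
  simpa using hz' q (Finset.mem_insert_of_mem
    (Finset.mem_insert_of_mem (Finset.mem_image_of_mem _ hq)))

/-- `v` is under `w` along some `S.s j` (see the proof of `TP.exists_tp2`).  `j = 0`: `TP.res` for
`β`.  `j = 1, 2`: `TP.sqDesc_of_move`, and `S.s j δ = (g β)^2` with `g` from `Setup.exists_aut0`. -/
theorem TP.sq_of_fix {τ : F ≃ₐ[ℚ] F} {q : ℕ} {w : P F} (S : Setup K F)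
    (hc : S.Cmp τ (Equiv.swap 1 2)) (h : TP τ q w) {δ : K} {β : F} (hβ : β ^ 2 = S.s 0 δ)
    (hτ : τ β = β) {v : P K} (hv : pr v = q) (h1 : val v δ = 1) :
    ∃ a : K, val v (δ - a ^ 2) < 1 := by
  have := S.gal
  obtain ⟨W, hW⟩ := exists_over_of_unr (S.s 0) v (x := (q : K)) fun W hW => by
    rw [map_natCast]
    exact YTP_unr h (hW.trans hv)
  obtain ⟨g, rfl⟩ := exists_smul_eq_of_prime h.prime h.lt (val_lt_of_pr (hW.pr_eq.trans hv))
  obtain ⟨π, hπ⟩ := S.exists_cmp g⁻¹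
  have ho : Over (S.s (π 0)) w v := fun x => by
    rw [← hW, ← hπ, ← val_smul g w]
    exact congrArg _ (g.apply_symm_apply _)
  generalize π 0 = j at ho
  by_cases hj : j = 0
  · subst hj
    have h2 : val w β ≤ 1 := by
      have h3 : val w β ^ 2 = 1 := by rw [← map_pow, hβ, ho, h1]
      exact (pow_le_one_iff_of_nonneg zero_le two_ne_zero).1 h3.le
    obtain ⟨n, hn⟩ := h.res β hτ h2
    refine ⟨n, ?_⟩
    rw [← ho, map_sub, map_pow, map_intCast, ← hβ, show β ^ 2 - (n : F) ^ 2 = (β - n) * (β + n) by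
      ring, map_mul]
    exact mul_lt_one_of_lt_of_le hn (Valuation.map_add_le _ h2 (val_int_le w n))
  · have h2 : ∃ x, τ (S.s j x) ≠ S.s j x := by
      by_contra h3
      push Not at h3
      have h4 := S.s_inj (RingHom.ext fun x => (hc j x).symm.trans (h3 x) :
        S.s (Equiv.swap 1 2 j) = S.s j)
      clear ho h3
      revert j
      decide
    obtain ⟨g', hg'⟩ := S.exists_aut0 j
    obtain ⟨y, hy⟩ := h.sqDesc_of_move (S.s j) h2 δ (by rw [ho, h1]) ⟨g' β, by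
      rw [← map_pow, hβ, ← hg']
      simp⟩
    exact ⟨y, by rwa [← ho]⟩

end Pool.Agent.Lib.MP_775b3b_nt
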