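import Pool.Agent.Lib.MP_775b3b_nt.YUBad
import Pool.Agent.Lib.MP_775b3b_nt.ZGlue

/-! The sifting sets for classes with a defect. -/

namespace Pool.Agent.Lib.MP_775b3b_nt

open Cub MP_439fea_co WithZero Matrix

variable {K Kt : Type} [Field K] [NumberField K] [Field Kt] [NumberField Kt]

/-- the local data are exact at the prime `l` -/
def LocAt {e : ℤ × ℤ} (l : ℕ) (d : (Cub e K)ˣ) (z : Nat.Primes → (Cub e K)ˣ) : Prop :=
  ∀ hl : l.Prime, ((d * z ⟨l, hl⟩ ^ 2 : (Cub e K)ˣ) : Cub e K) ∈ Ord ⟨l, hl⟩ e K ∧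
    (((d * z ⟨l, hl⟩ ^ 2)⁻¹ : (Cub e K)ˣ) : Cub e K) ∈ Ord ⟨l, hl⟩ e K

theorem LocD.locAt {e : ℤ × ℤ} {n l : ℕ} {d : (Cub e K)ˣ} {z : Nat.Primes → (Cub e K)ˣ}
    (h : LocD n d z) (hn : ¬ l ∣ n) : LocAt l d z := by
  intro hl
  refine ⟨(h.2 _).1, mem_Ord_iff.2 fun v hv => ?_⟩
  have h1 : val v (n : K) = 1 := by
    simpa using ordp_val_one (p := ⟨l, hl⟩) v hv (m := (n : ℤ)) (Int.natCast_dvd_natCast.not.2 hn)
  have h2 : (n : K) ≠ 0 := fun h0 => by simp [h0] at h1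
  have h3 := smul_mem_Ov (a := (n : K)⁻¹) (by rw [map_inv₀, h1, inv_one])
    (mem_Ord_iff.1 (h.2 ⟨l, hl⟩).2 v hv)
  rwa [smul_smul, inv_mul_cancel₀ h2, one_smul] at h3

theorem upoint_badD (φ : K →+* Kt) {l : ℕ} [Fact l.Prime] (h5 : 5 ≤ l) {w : P Kt}
    (hw : val w (l : Kt) = exp (-1 : ℤ)) {ρ : (val w).integer →+* ZMod l} (hρ : RedAt w ρ)
    {A B : Fin 5 → Matrix (Fin 4) (Fin 4) Kt}
    (hAB : ∀ m i j, val w (A m i j) ≤ 1 ∧ val w (B m i j) ≤ 1) {κ : Kt} (hκ : val w κ = 1)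
    {e : ℤ × ℤ} {N : ℕ} (hN : ¬ l ∣ N) {C T : ℝ} {d : (Cub e K)ˣ} {ν : K}
    {z : Nat.Primes → (Cub e K)ˣ} {ε : (K →+* ℂ) → Cub e ℂ} {j : ℕ} {v0 v1 v2 : Cub e K}
    (hz : LocAt l d z) (h : Red N C T (d : Cub e K) ν z ε j v0 v1 v2) {g : ℤ} (hg : ¬ (l : ℤ) ∣ g)
    {Sm : Matrix (Fin 4) (Fin 4) ℚ} (hi : IntS g Sm)
    (hq : ∀ m, κ * φ (quart (d : Cub e K) v0 v1 v2 (pt5 m).1 (pt5 m).2) =
      g * (A m + B m * Sm.map (Rat.cast : ℚ → Kt)).det) (hesc : Ty e l → d ∈ St e K l) :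
    ¬ GoodS (fun m => (A m).map (rd ρ)) (fun m => (B m).map (rd ρ))
        (Sm.map fun x => rd ρ (x : Kt)) ∧ RedS l g Sm (Sm.map fun x => rd ρ (x : Kt)) := by
  have hl : l.Prime := Fact.out
  have hw1 : val w (l : Kt) < 1 := by
    rw [hw, ← exp_zero, exp_lt_exp]
    norm_num
  obtain ⟨v, ho⟩ := exists_over_hom φ w (x := (l : K)) (by rw [map_natCast]; exact hw)
  have hv : val v (l : K) < 1 := by rw [← ho.natCast]; exact hw1
  have hg1 : val w (g : Kt) = 1 := ordp_val_one (p := ⟨l, hl⟩) w hw1 hg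
  have hg0 : (g : ZMod l) ≠ 0 := fun h0 => hg ((ZMod.intCast_zmod_eq_zero_iff_dvd g l).1 h0)
  have hc : ∀ i j (n : ℤ), (n : ℚ) = g * Sm i j → (n : Kt) = g * (Sm i j : Kt) := by
    intro i j n hn
    have h1 := congrArg (Rat.cast : ℚ → Kt) hn
    simpa only [Rat.cast_mul, Rat.cast_intCast] using h1
  have hS : ∀ i j, val w ((Sm.map (Rat.cast : ℚ → Kt)) i j) ≤ 1 := by
    intro i j
    obtain ⟨n, hn⟩ := hi.entry i j
    have h1 := val_int_le w n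
    rwa [hc i j n hn.symm, map_mul, hg1, one_mul] at h1
  refine ⟨fun hG => ?_, fun i j n hn => ?_⟩
  · have hu : ((uz e φ d * uz e φ (z ⟨l, hl⟩) ^ 2 : (Cub e Kt)ˣ) : Cub e Kt) ∈ Ov e w := by
      rw [← map_pow, ← map_mul, uz_val]
      exact ho.mem_Ov.2 (lociso_le v hv (hz hl).1)
    have hu' : (((uz e φ d * uz e φ (z ⟨l, hl⟩) ^ 2)⁻¹ : (Cub e Kt)ˣ) : Cub e Kt) ∈ Ov e w := by
      rw [← map_pow, ← map_mul, ← map_inv, uz_val]
      exact ho.mem_Ov.2 (lociso_le v hv (hz hl).2)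
    have hx : ∀ x : Cub e K, InLat z ((N : K) • x) →
        (((uz e φ (z ⟨l, hl⟩))⁻¹ : (Cub e Kt)ˣ) : Cub e Kt) * map φ x ∈ Ov e w := by
      intro x hx
      rw [← map_inv, uz_val, ← map_mul]
      exact ho.mem_Ov.2 (InLat.mem_Ov (p := ⟨l, hl⟩) hv hN hx)
    have hκ0 : rd ρ κ ≠ 0 := fun h0 => ((hρ.rd_eq_zero hκ.le).1 h0).ne hκ
    have hI := hG.smul (mul_ne_zero (inv_ne_zero hκ0) hg0)
    have key := not_sqv_of_irr h5 hw hρ (d := uz e φ d) (zubad_hyp φ h.hyp) hu hu' (hx _ h.l0)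
      (hx _ h.l1) (hx _ h.l2) (by
        refine (congrArg IrrV (funext fun m => ?_)).mpr hI
        have h1 := val_quart_le hu (hx _ h.l0) (hx _ h.l1) (hx _ h.l2) (pt5 m).1 (pt5 m).2
        have h2 := rd_matrix_mul ρ (fun i j => (hAB m i j).2) hS
        have h3 : ∀ i j, val w ((A m + B m * Sm.map (Rat.cast : ℚ → Kt)) i j) ≤ 1 := fun i j =>
          Valuation.map_add_le _ (hAB m i j).1 (h2.1 i j)
        have h4 := rd_det ρ h3
        have h5 : (A m + B m * Sm.map (Rat.cast : ℚ → Kt)).map (rd ρ) =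
            (A m).map (rd ρ) + (B m).map (rd ρ) * Sm.map fun x => rd ρ (x : Kt) := by
          have h6 : (Sm.map fun x => rd ρ (x : Kt)) =
              (Sm.map (Rat.cast : ℚ → Kt)).map (rd ρ) := rfl
          rw [h6, ← h2.2]
          ext i j
          exact rd_add ρ (hAB m i j).1 (h2.1 i j)
        have h6 := congrArg (rd ρ) (hq m)
        rw [← zubad_quart, ← uz_val, rd_mul ρ hκ.le h1, rd_mul ρ hg1.le h4.1, rd_intCast, h4.2,
          h5] at h6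
        rw [Pi.smul_apply, smul_eq_mul, mul_assoc, ← h6, inv_mul_cancel_left₀ hκ0])
    exact key.2 (ho.sqv (mem_St.1 (hesc key.1) v hv))
  · rw [← rd_intCast ρ n, hc i j n hn, rd_mul ρ (b := (Sm i j : Kt)) hg1.le (hS i j), rd_intCast]
    rfl

theorem exists_badD (φ : K →+* Kt) {W H : Fin 7 → Matrix (Fin 3) (Fin 3) Kt}
    {A B : Fin 7 → Fin 5 → Matrix (Fin 4) (Fin 4) Kt} {κ : Kt} (hκ : κ ≠ 0)
    (hWH : ∀ s, (W s)ᵀ * H s = 1)
    (hAB : ∀ s m, Zm Kt m = A s m * PhiX (W s) (H s) + B s m * PhiY (W s) (H s)) {N : ℕ}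
    (hN : N ≠ 0) : ∃ (L₀ : ℕ) (Bad : Fin 7 → ∀ l : ℕ, Finset (Matrix (Fin 4) (Fin 4) (ZMod l))),
      ∀ l : ℕ, l.Prime → L₀ < l → Deg1 Kt l →
        (∀ s, ((Bad s l).card : ℝ) ≤ 29 / 30 * (l : ℝ) ^ 10) ∧
        ∀ (e : ℤ × ℤ) (C T : ℝ) (d : (Cub e K)ˣ) (ν : K) (z : Nat.Primes → (Cub e K)ˣ)
          (ε : (K →+* ℂ) → Cub e ℂ) (j : ℕ) (v0 v1 v2 : Cub e K) (s : Fin 7) (g : ℤ)
          (Sm : Matrix (Fin 4) (Fin 4) ℚ), LocAt l d z → Red N C T (d : Cub e K) ν z ε j v0 v1 v2 →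
          Sm.IsSymm → IntS g Sm →
          (∀ m, κ * φ (quart (d : Cub e K) v0 v1 v2 (pt5 m).1 (pt5 m).2) =
            g * (A s m + B s m * Sm.map (Rat.cast : ℚ → Kt)).det) → (Ty e l → d ∈ St e K l) →
          ¬ (l : ℤ) ∣ g → ∃ X ∈ Bad s l, RedS l g Sm X := by
  classical
  have E1 : ∀ᶠ l : ℕ in Filter.atTop, ∀ (s : Fin 7) (i j : Fin 3), l.Prime → ∀ w : P Kt,
      val w (l : Kt) < 1 → val w (W s i j) ≤ 1 :=
    Filter.eventually_all.2 fun _ => Filter.eventually_all.2 fun _ =>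
      Filter.eventually_all.2 fun _ => zubad_ev _
  have E2 : ∀ᶠ l : ℕ in Filter.atTop, ∀ (s : Fin 7) (i j : Fin 3), l.Prime → ∀ w : P Kt,
      val w (l : Kt) < 1 → val w (H s i j) ≤ 1 :=
    Filter.eventually_all.2 fun _ => Filter.eventually_all.2 fun _ =>
      Filter.eventually_all.2 fun _ => zubad_ev _
  have E3 : ∀ᶠ l : ℕ in Filter.atTop, ∀ (s : Fin 7) (m : Fin 5) (i j : Fin 4), l.Prime →
      ∀ w : P Kt, val w (l : Kt) < 1 → val w (A s m i j) ≤ 1 :=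
    Filter.eventually_all.2 fun _ => Filter.eventually_all.2 fun _ =>
      Filter.eventually_all.2 fun _ => Filter.eventually_all.2 fun _ => zubad_ev _
  have E4 : ∀ᶠ l : ℕ in Filter.atTop, ∀ (s : Fin 7) (m : Fin 5) (i j : Fin 4), l.Prime →
      ∀ w : P Kt, val w (l : Kt) < 1 → val w (B s m i j) ≤ 1 :=
    Filter.eventually_all.2 fun _ => Filter.eventually_all.2 fun _ =>
      Filter.eventually_all.2 fun _ => Filter.eventually_all.2 fun _ => zubad_ev _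
  obtain ⟨L₀, hL⟩ := Filter.eventually_atTop.1 ((E1.and E2).and ((E3.and E4).and
    (((zubad_ev κ).and (zubad_ev κ⁻¹)).and
      ((Filter.eventually_ge_atTop 1100).and (Filter.eventually_gt_atTop N)))))
  have key : ∀ l : ℕ, ∃ Bad : Fin 7 → Finset (Matrix (Fin 4) (Fin 4) (ZMod l)),
      l.Prime → L₀ < l → Deg1 Kt l →
        (∀ s, ((Bad s).card : ℝ) ≤ 29 / 30 * (l : ℝ) ^ 10) ∧
        ∀ (e : ℤ × ℤ) (C T : ℝ) (d : (Cub e K)ˣ) (ν : K) (z : Nat.Primes → (Cub e K)ˣ)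
          (ε : (K →+* ℂ) → Cub e ℂ) (j : ℕ) (v0 v1 v2 : Cub e K) (s : Fin 7) (g : ℤ)
          (Sm : Matrix (Fin 4) (Fin 4) ℚ), LocAt l d z → Red N C T (d : Cub e K) ν z ε j v0 v1 v2 →
          Sm.IsSymm → IntS g Sm →
          (∀ m, κ * φ (quart (d : Cub e K) v0 v1 v2 (pt5 m).1 (pt5 m).2) =
            g * (A s m + B s m * Sm.map (Rat.cast : ℚ → Kt)).det) → (Ty e l → d ∈ St e K l) →
          ¬ (l : ℤ) ∣ g → ∃ X ∈ Bad s, RedS l g Sm X := by
    intro l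
    by_cases hc : l.Prime ∧ L₀ < l ∧ Deg1 Kt l
    swap
    · exact ⟨fun _ => ∅, fun h1 h2 h3 => absurd ⟨h1, h2, h3⟩ hc⟩
    obtain ⟨hl, hlL, hD⟩ := hc
    have : Fact l.Prime := ⟨hl⟩
    obtain ⟨⟨hW, hH⟩, ⟨hA, hB⟩, ⟨hκ1, hκ2⟩, h1100, hNl⟩ := hL l hlL.le
    obtain ⟨w, hw⟩ := exists_over_prime Kt hl
    obtain ⟨ρ, hρ⟩ := exists_redAt_zmod hl hw (hD w hw).2
    have hκv : val w κ = 1 := by
      refine le_antisymm (hκ1 hl w hw) ?_
      have h1 := hκ2 hl w hw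
      rwa [map_inv₀, inv_le_one₀ (zero_lt_iff.2 ((Valuation.ne_zero_iff _).2 hκ))] at h1
    refine ⟨fun s => Finset.univ.filter fun S : Matrix (Fin 4) (Fin 4) (ZMod l) => S.IsSymm ∧
      ¬ GoodS (fun m => (A s m).map (rd ρ)) (fun m => (B s m).map (rd ρ)) S,
      fun _ _ _ => ⟨fun s => ?_, ?_⟩⟩
    · obtain ⟨W', hW1, -⟩ := zubad_lift ρ (W s) fun i j => hW s i j hl w hw
      obtain ⟨H', hH1, -⟩ := zubad_lift ρ (H s) fun i j => hH s i j hl w hw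
      have hinj : Function.Injective (val w).integer.subtype := Subtype.val_injective
      have h1 : W'ᵀ * H' = 1 := by
        apply Matrix.map_injective hinj
        have h2 := hWH s
        rw [hW1, hH1, ← Matrix.transpose_map, ← Matrix.map_mul] at h2
        simp only [h2]
        exact (Matrix.map_one _ (map_zero _) (map_one _)).symm
      have h2 : (W'.map ρ)ᵀ * H'.map ρ = 1 := by
        rw [← Matrix.transpose_map, ← Matrix.map_mul, h1]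
        exact Matrix.map_one _ (map_zero _) (map_one _)
      convert card_badS l h1100 h2 (A := fun m => (A s m).map (rd ρ))
        (B := fun m => (B s m).map (rd ρ)) fun m => ?_
      obtain ⟨A', hA1, hA2⟩ := zubad_lift ρ (A s m) fun i j => hA s m i j hl w hw
      obtain ⟨B', hB1, hB2⟩ := zubad_lift ρ (B s m) fun i j => hB s m i j hl w hw
      have h3 : Zm (val w).integer m = A' * PhiX W' H' + B' * PhiY W' H' := by
        apply Matrix.map_injective hinj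
        have h4 := hAB s m
        rw [hW1, hH1, hA1, hB1, ← (PhiX_map _ W' H').1, ← (PhiX_map _ W' H').2, ← Matrix.map_mul,
          ← Matrix.map_mul, ← Matrix.map_add _ (map_add _),
          ← zubad_Zm (val w).integer.subtype] at h4
        exact h4
      rw [hA2, hB2, ← (PhiX_map ρ W' H').1, ← (PhiX_map ρ W' H').2, ← Matrix.map_mul,
        ← Matrix.map_mul, ← Matrix.map_add _ (map_add _), ← h3, zubad_Zm]
    · intro e C T d ν z ε j v0 v1 v2 s g Sm hz hr hs hi hq hesc hg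
      have h1 := upoint_badD φ (by omega) (hD w hw).1 hρ
        (fun m i j => ⟨hA s m i j hl w hw, hB s m i j hl w hw⟩) hκv
        (Nat.not_dvd_of_pos_of_lt (Nat.pos_of_ne_zero hN) hNl) hz hr hg hi hq hesc
      exact ⟨_, Finset.mem_filter.2 ⟨Finset.mem_univ _, hs.map _, h1.1⟩, h1.2⟩
  choose Bad hBad using key
  exact ⟨L₀, fun s l => Bad l s, hBad⟩

theorem upoint_badMD {φ : K →+* Kt} {w : P Kt} {v : P K} (ho : Over φ w v) {l : ℕ} [Fact l.Prime]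
    (h5 : 5 ≤ l) (hw : val w (l : Kt) = exp (-1 : ℤ)) {ρ₁ : (val v).integer →+* ZMod l}
    (h₁ : RedAt v ρ₁) {Λ : Type*} [Field Λ] {ρ : (val w).integer →+* Λ} (hρ : RedAt w ρ)
    (ι : ZMod l →+* Λ) {A B : Fin 5 → Matrix (Fin 4) (Fin 4) Kt}
    (hAB : ∀ m i j, val w (A m i j) ≤ 1 ∧ val w (B m i j) ≤ 1) {κ : Kt} (hκ : val w κ = 1)
    {e : ℤ × ℤ} (he : ¬ (l : ℤ) ^ 2 ∣ disc e) {N : ℕ} (hN : ¬ l ∣ N) {C T : ℝ} {d : (Cub e K)ˣ}
    {ν : K} {z : Nat.Primes → (Cub e K)ˣ} {ε : (K →+* ℂ) → Cub e ℂ} {j : ℕ} {v0 v1 v2 : Cub e K}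
    (hz : LocAt l d z) (h : Red N C T (d : Cub e K) ν z ε j v0 v1 v2) {g : ℤ} (hg : ¬ (l : ℤ) ∣ g)
    {Sm : Matrix (Fin 4) (Fin 4) ℚ} (hi : IntS g Sm)
    (hq : ∀ m, κ * φ (quart (d : Cub e K) v0 v1 v2 (pt5 m).1 (pt5 m).2) =
      g * (A m + B m * Sm.map (Rat.cast : ℚ → Kt)).det) (hesc : (l : ℤ) ∣ disc e → d ∈ sqv e v) :
    ¬ GoodM ι (fun m => (A m).map (rd ρ)) (fun m => (B m).map (rd ρ))
        (Sm.map fun x => rd ρ₁ (x : K)) ∧ RedS l g Sm (Sm.map fun x => rd ρ₁ (x : K)) := by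
  have hl : l.Prime := Fact.out
  have hvl : val v (l : K) = exp (-1 : ℤ) := by rw [← ho.natCast]; exact hw
  have hv : val v (l : K) < 1 := by
    rw [hvl, ← exp_zero, exp_lt_exp]
    norm_num
  have hg1 : val v (g : K) = 1 := ordp_val_one (p := ⟨l, hl⟩) v hv hg
  have hg0 : (g : ZMod l) ≠ 0 := fun h0 => hg ((ZMod.intCast_zmod_eq_zero_iff_dvd g l).1 h0)
  have hc : ∀ i j (n : ℤ), (n : ℚ) = g * Sm i j → (n : K) = g * (Sm i j : K) := by
    intro i j n hn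
    have h1 := congrArg (Rat.cast : ℚ → K) hn
    simpa only [Rat.cast_mul, Rat.cast_intCast] using h1
  have hS : ∀ i j, val v (Sm i j : K) ≤ 1 := by
    intro i j
    obtain ⟨n, hn⟩ := hi.entry i j
    have h1 := val_int_le v n
    rwa [hc i j n hn.symm, map_mul, hg1, one_mul] at h1
  have hS' : ∀ i j, val w ((Sm.map (Rat.cast : ℚ → Kt)) i j) ≤ 1 := by
    intro i j
    rw [Matrix.map_apply, ← map_ratCast φ, ho]
    exact hS i j
  refine ⟨fun hG => ?_, fun i j n hn => ?_⟩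
  · have hu : ((d * z ⟨l, hl⟩ ^ 2 : (Cub e K)ˣ) : Cub e K) ∈ Ov e v :=
      lociso_le (p := ⟨l, hl⟩) v hv (hz hl).1
    have hu' : (((d * z ⟨l, hl⟩ ^ 2)⁻¹ : (Cub e K)ˣ) : Cub e K) ∈ Ov e v :=
      lociso_le (p := ⟨l, hl⟩) v hv (hz hl).2
    have hx : ∀ x : Cub e K, InLat z ((N : K) • x) →
        (((z ⟨l, hl⟩)⁻¹ : (Cub e K)ˣ) : Cub e K) * x ∈ Ov e v := fun x hx =>
      InLat.mem_Ov (p := ⟨l, hl⟩) hv hN hx
    have hκ0 : rd ρ κ ≠ 0 := fun h0 => ((hρ.rd_eq_zero hκ.le).1 h0).ne hκ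
    obtain ⟨c, hc0, r, t, n, hn, hy⟩ := hG
    have hm : ∀ m, rd ρ κ * ι (rd ρ₁ (quart (d : Cub e K) v0 v1 v2 (pt5 m).1 (pt5 m).2)) =
        ι g * (c * ι (dq r t n ((pt5 m).1 : ZMod l) ((pt5 m).2 : ZMod l))) := by
      intro m
      have h1 := val_quart_le hu (hx _ h.l0) (hx _ h.l1) (hx _ h.l2) (pt5 m).1 (pt5 m).2
      have h2 := rd_matrix_mul ρ (fun i j => (hAB m i j).2) hS'
      have h3 : ∀ i j, val w ((A m + B m * Sm.map (Rat.cast : ℚ → Kt)) i j) ≤ 1 := fun i j =>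
        Valuation.map_add_le _ (hAB m i j).1 (h2.1 i j)
      have h4 := rd_det ρ h3
      have h5 : (A m + B m * Sm.map (Rat.cast : ℚ → Kt)).map (rd ρ) =
          (A m).map (rd ρ) + (B m).map (rd ρ) * (Sm.map fun x => rd ρ₁ (x : K)).map ι := by
        have h6 : (Sm.map fun x => rd ρ₁ (x : K)).map ι =
            (Sm.map (Rat.cast : ℚ → Kt)).map (rd ρ) := by
          ext i j
          simp only [Matrix.map_apply]
          rw [← map_ratCast φ, rd_over ho h₁ hρ ι (hS i j)]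
        rw [h6, ← h2.2]
        ext i j
        exact rd_add ρ (hAB m i j).1 (h2.1 i j)
      have h6 := congrArg (rd ρ) (hq m)
      rw [rd_mul ρ hκ.le ((ho _).trans_le h1), rd_over ho h₁ hρ ι h1,
        rd_mul ρ (val_int_le w g) h4.1, rd_intCast, h4.2, h5] at h6
      rw [h6, map_intCast, ← hy m]
    have h0 := hm 0
    rw [show dq r t n ((pt5 0).1 : ZMod l) ((pt5 0).2 : ZMod l) = 1 by simp [pt5, dq], map_one,
      mul_one] at h0
    have key := not_sqv_of_dbl h5 he hvl h₁ h.hyp hu hu' (hx _ h.l0) (hx _ h.l1) (hx _ h.l2)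
      ⟨rd ρ₁ (quart (d : Cub e K) v0 v1 v2 (pt5 0).1 (pt5 0).2), fun h1 => by
        rw [h1, map_zero, mul_zero] at h0
        exact mul_ne_zero ((map_ne_zero ι).2 hg0) hc0 h0.symm, r, t, n, hn, fun m => by
        apply ι.injective
        apply mul_left_cancel₀ hκ0
        rw [hm m, map_mul, ← mul_assoc (rd ρ κ), h0, mul_assoc]
        rfl⟩
    exact key.2 (hesc key.1)
  · rw [← rd_intCast ρ₁ n, hc i j n hn, rd_mul ρ₁ hg1.le (hS i j), rd_intCast]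
    rfl

theorem exists_badMD (φ : K →+* Kt) {τ : Kt ≃ₐ[ℚ] Kt} {W H : Fin 7 → Matrix (Fin 3) (Fin 3) Kt}
    {A B : Fin 7 → Fin 5 → Matrix (Fin 4) (Fin 4) Kt} {κ : Kt} (hκ : κ ≠ 0)
    (hWH : ∀ s, (W s)ᵀ * H s = 1)
    (hAB : ∀ s m, Zm Kt m = A s m * PhiX (W s) (H s) + B s m * PhiY (W s) (H s))
    (hτ : ∀ s, (W s).map τ = (W s).submatrix (Equiv.swap 1 2) id ∧
      (H s).map τ = (H s).submatrix (Equiv.swap 1 2) id) {N : ℕ} (hN : N ≠ 0) :
    ∃ L₀ : ℕ, ∀ (l : ℕ) (w : P Kt) (v : P K), L₀ < l → TP τ l w → Over φ w v → Res1 v →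
      ∃ Bad : Fin 7 → Finset (Matrix (Fin 4) (Fin 4) (ZMod l)),
        (∀ s, ((Bad s).card : ℝ) ≤ (1 - 1 / 5 / l) * (l : ℝ) ^ 10) ∧
        ∀ (e : ℤ × ℤ) (C T : ℝ) (d : (Cub e K)ˣ) (ν : K) (z : Nat.Primes → (Cub e K)ˣ)
          (ε : (K →+* ℂ) → Cub e ℂ) (j : ℕ) (v0 v1 v2 : Cub e K) (s : Fin 7) (g : ℤ)
          (Sm : Matrix (Fin 4) (Fin 4) ℚ), ¬ (l : ℤ) ^ 2 ∣ disc e → LocAt l d z →
          Red N C T (d : Cub e K) ν z ε j v0 v1 v2 → Sm.IsSymm → IntS g Sm →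
          (∀ m, κ * φ (quart (d : Cub e K) v0 v1 v2 (pt5 m).1 (pt5 m).2) =
            g * (A s m + B s m * Sm.map (Rat.cast : ℚ → Kt)).det) →
          ((l : ℤ) ∣ disc e → d ∈ sqv e v) → ¬ (l : ℤ) ∣ g → ∃ X ∈ Bad s, RedS l g Sm X := by
  classical
  have E1 : ∀ᶠ l : ℕ in Filter.atTop, ∀ (s : Fin 7) (i j : Fin 3), l.Prime → ∀ w : P Kt,
      val w (l : Kt) < 1 → val w (W s i j) ≤ 1 :=
    Filter.eventually_all.2 fun _ => Filter.eventually_all.2 fun _ =>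
      Filter.eventually_all.2 fun _ => zubad_ev _
  have E2 : ∀ᶠ l : ℕ in Filter.atTop, ∀ (s : Fin 7) (i j : Fin 3), l.Prime → ∀ w : P Kt,
      val w (l : Kt) < 1 → val w (H s i j) ≤ 1 :=
    Filter.eventually_all.2 fun _ => Filter.eventually_all.2 fun _ =>
      Filter.eventually_all.2 fun _ => zubad_ev _
  have E3 : ∀ᶠ l : ℕ in Filter.atTop, ∀ (s : Fin 7) (m : Fin 5) (i j : Fin 4), l.Prime →
      ∀ w : P Kt, val w (l : Kt) < 1 → val w (A s m i j) ≤ 1 :=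
    Filter.eventually_all.2 fun _ => Filter.eventually_all.2 fun _ =>
      Filter.eventually_all.2 fun _ => Filter.eventually_all.2 fun _ => zubad_ev _
  have E4 : ∀ᶠ l : ℕ in Filter.atTop, ∀ (s : Fin 7) (m : Fin 5) (i j : Fin 4), l.Prime →
      ∀ w : P Kt, val w (l : Kt) < 1 → val w (B s m i j) ≤ 1 :=
    Filter.eventually_all.2 fun _ => Filter.eventually_all.2 fun _ =>
      Filter.eventually_all.2 fun _ => Filter.eventually_all.2 fun _ => zubad_ev _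
  obtain ⟨L₀, hL⟩ := Filter.eventually_atTop.1 ((E1.and E2).and ((E3.and E4).and
    (((zubad_ev κ).and (zubad_ev κ⁻¹)).and
      ((Filter.eventually_ge_atTop 200).and (Filter.eventually_gt_atTop N)))))
  refine ⟨L₀, fun l w v hlL hT ho hv1 => ?_⟩
  have hl := hT.prime
  have : Fact l.Prime := ⟨hl⟩
  have hw := hT.lt
  obtain ⟨⟨hW, hH⟩, ⟨hA, hB⟩, ⟨hκ1, hκ2⟩, h200, hNl⟩ := hL l hlL.le
  obtain ⟨Λ, _, ρ, ι, ψ, hρ, hψ, hψ2, hψ3⟩ := hT.exists_res
  obtain ⟨ρ₁, h₁⟩ := exists_redAt_zmod hl (by rw [← ho.natCast]; exact hw) hv1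
  have hκv : val w κ = 1 := by
    refine le_antisymm (hκ1 hl w hw) ?_
    have h1 := hκ2 hl w hw
    rwa [map_inv₀, inv_le_one₀ (zero_lt_iff.2 ((Valuation.ne_zero_iff _).2 hκ))] at h1
  refine ⟨fun s => Finset.univ.filter fun S : Matrix (Fin 4) (Fin 4) (ZMod l) => S.IsSymm ∧
    ¬ GoodM ι (fun m => (A s m).map (rd ρ)) (fun m => (B s m).map (rd ρ)) S, fun s => ?_, ?_⟩
  · obtain ⟨W', hW1, hW2⟩ := zubad_lift ρ (W s) fun i j => hW s i j hl w hw
    obtain ⟨H', hH1, hH2⟩ := zubad_lift ρ (H s) fun i j => hH s i j hl w hw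
    have hinj : Function.Injective (val w).integer.subtype := Subtype.val_injective
    have h1 : W'ᵀ * H' = 1 := by
      apply Matrix.map_injective hinj
      have h2 := hWH s
      rw [hW1, hH1, ← Matrix.transpose_map, ← Matrix.map_mul] at h2
      simp only [h2]
      exact (Matrix.map_one _ (map_zero _) (map_one _)).symm
    have h2 : (W'.map ρ)ᵀ * H'.map ρ = 1 := by
      rw [← Matrix.transpose_map, ← Matrix.map_mul, h1]
      exact Matrix.map_one _ (map_zero _) (map_one _)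
    have h5 : ∀ M : Matrix (Fin 3) (Fin 3) Kt, (∀ i j, val w (M i j) ≤ 1) →
        M.map τ = M.submatrix (Equiv.swap 1 2) id →
        (M.map (rd ρ)).map ψ = (M.map (rd ρ)).submatrix (Equiv.swap 1 2) id := by
      intro M hM hM'
      ext i j
      exact (hψ _ (hM i j)).symm.trans (congrArg (rd ρ) (congrFun (congrFun hM' i) j))
    have h6 := card_badM l h200 ι ψ hψ2 hψ3 h2
      (hW2 ▸ h5 _ (fun i j => hW s i j hl w hw) (hτ s).1)
      (hH2 ▸ h5 _ (fun i j => hH s i j hl w hw) (hτ s).2) (A := fun m => (A s m).map (rd ρ))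
      (B := fun m => (B s m).map (rd ρ)) fun m => by
        obtain ⟨A', hA1, hA2⟩ := zubad_lift ρ (A s m) fun i j => hA s m i j hl w hw
        obtain ⟨B', hB1, hB2⟩ := zubad_lift ρ (B s m) fun i j => hB s m i j hl w hw
        have h3 : Zm (val w).integer m = A' * PhiX W' H' + B' * PhiY W' H' := by
          apply Matrix.map_injective hinj
          have h4 := hAB s m
          rw [hW1, hH1, hA1, hB1, ← (PhiX_map _ W' H').1, ← (PhiX_map _ W' H').2,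
            ← Matrix.map_mul, ← Matrix.map_mul, ← Matrix.map_add _ (map_add _),
            ← zubad_Zm (val w).integer.subtype] at h4
          exact h4
        rw [hA2, hB2, ← (PhiX_map ρ W' H').1, ← (PhiX_map ρ W' H').2, ← Matrix.map_mul,
          ← Matrix.map_mul, ← Matrix.map_add _ (map_add _), ← h3, zubad_Zm]
    refine le_trans (Nat.cast_le.2 (Finset.card_le_card fun S hS => ?_)) h6
    simpa only [Finset.mem_filter] using hS
  · intro e C T d ν z ε j v0 v1 v2 s g Sm he hz hr hs hi hq hesc hg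
    have h1 := upoint_badMD ho hT.five hT.unr h₁ hρ ι
      (fun m i j => ⟨hA s m i j hl w hw, hB s m i j hl w hw⟩) hκv he
      (Nat.not_dvd_of_pos_of_lt (Nat.pos_of_ne_zero hN) hNl) hz hr hg hi hq hesc
    exact ⟨_, Finset.mem_filter.2 ⟨Finset.mem_univ _, hs.map _, h1.1⟩, h1.2⟩

end Pool.Agent.Lib.MP_775b3b_nt
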