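import Pool.Agent.Lib.MP_775b3b_nt.M2.Core
import Pool.Agent.Lib.MP_775b3b_nt.M2.FamM
import Pool.Agent.Lib.MP_775b3b_nt.M2.IP8
import Pool.Agent.Lib.MP_775b3b_nt.M2.UD3
import Pool.Agent.Lib.MP_775b3b_nt.ZQCount
import Pool.Agent.Lib.MP_775b3b_nt.ZTower

/-! The three counting theorems. -/

namespace Pool.Agent.Lib.MP_775b3b_nt

open Cub MP_439fea_co WithZero

variable {K F : Type} [Field K] [NumberField K] [Field F] [NumberField F]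

theorem not_dvd_of_lt {N l : ℕ} (hN : N ≠ 0) (h : N < l) : ¬ l ∣ N := fun h1 =>
  absurd (Nat.le_of_dvd (Nat.pos_of_ne_zero hN) h1) (not_le.2 h)

theorem many_out {N : ℕ} {a b : ℤ} (n0 : N ≠ 0) (hsm : ∀ p : ℕ, p.Prime → p ≤ 64 → p ∣ N)
    (h210 : 210 ∣ N) {p : ℤ × ℤ → ℕ → Prop}
    (hq : ∀ e, Fam N a b e → ∀ q : ℕ, q.Prime → ¬ (q : ℤ) ^ 2 ∣ e.2 ∨ ¬ (q : ℤ) ^ 2 ∣ disc e)
    (h : ∀ ε : ℝ, 0 < ε → ∃ (Q : Finset ℕ) (T₀ : ℕ) (b₁ b₂ : ℤ × ℤ → Prop),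
      (∀ l ∈ Q, l.Prime ∧ ¬ l ∣ N) ∧
      (∀ T : ℕ, T₀ ≤ T → ∀ E ⊆ box T, (∀ e ∈ E, Fam N a b e ∧ b₁ e) →
        (E.card : ℝ) ≤ ε * (T : ℝ) ^ 5) ∧
      (∀ T : ℕ, T₀ ≤ T → ∀ E ⊆ box T, (∀ e ∈ E, b₂ e) → (E.card : ℝ) ≤ ε * (T : ℝ) ^ 5) ∧
      ∀ e, Fam N a b e → ¬ b₁ e → ¬ b₂ e → ∃ D ⊆ Q, ∃ c, c ∣ 210 ∧ p e (c * ∏ l ∈ D, l)) :
    Many p := by
  refine many_of n0 hsm a b fun ε hε => ?_
  obtain ⟨Q, T₀, b₁, b₂, hQ, h1, h2, h3⟩ := h ε hε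
  refine ⟨210 * ∏ l ∈ Q, l, T₀, b₁, b₂, h1, h2, fun e he a1 a2 => ?_⟩
  obtain ⟨D, hD, c, hc, hp⟩ := h3 e he a1 a2
  refine ⟨_, Nat.mul_le_mul (Nat.le_of_dvd (by norm_num) hc) (Nat.le_of_dvd
    (Finset.prod_pos fun l hl => (hQ l hl).1.pos) (Finset.prod_dvd_prod_of_subset _ _ _ hD)),
    squarefree_c_prod (fun l hl => hQ l (hD hl)) (hc.trans h210)
      (Squarefree.squarefree_of_dvd hc (by decide +kernel)), hp, hq e he⟩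

/-- the second set of auxiliary primes -/
theorem exists_Q2 {N : ℕ} (n0 : N ≠ 0) {Q₁ : Finset ℕ} (h1 : ∀ l ∈ Q₁, l.Prime ∧ ¬ l ∣ N)
    (q : ℕ → Prop) (hq : ∀ Y, ∃ l, Y < l ∧ q l) (hp : ∀ l, q l → l.Prime) {ε : ℝ} (hε : 0 < ε) :
    ∃ (Q₂ : Finset ℕ) (T₀ : ℕ), Disjoint Q₁ Q₂ ∧ (∀ l ∈ Q₂, q l) ∧
      (∀ l ∈ Q₁ ∪ Q₂, l.Prime ∧ ¬ l ∣ N) ∧ ∀ T : ℕ, T₀ ≤ T → ∀ E ⊆ box T,
        (∀ e ∈ E, ∃ d : (Cub e ℚ)ˣ, Esc (2 ^ 78 * ∏ l ∈ Q₁, l) Q₂ d) →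
          (E.card : ℝ) ≤ ε * (T : ℝ) ^ 5 := by
  have p1 : ∏ l ∈ Q₁, l ≠ 0 := Finset.prod_ne_zero_iff.2 fun l hl => (h1 l hl).1.ne_zero
  obtain ⟨m, L, hm⟩ := countQ2 (mul_ne_zero (pow_ne_zero 78 two_ne_zero) p1) hε
  obtain ⟨Q₂, c2, q2⟩ := exists_primes q hq m (max (max L N) (∏ l ∈ Q₁, l))
  obtain ⟨T₀, hT⟩ := hm Q₂ c2 fun l hl =>
    ⟨hp l (q2 l hl).2, ((le_max_left _ _).trans (le_max_left _ _)).trans_lt (q2 l hl).1⟩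
  exact ⟨Q₂, T₀, Finset.disjoint_left.2 fun l a1 a2 => not_dvd_of_lt p1
    ((le_max_right _ _).trans_lt (q2 l a2).1) (Finset.dvd_prod_of_mem _ a1),
    fun l hl => (q2 l hl).2, Finset.forall_mem_union.2 ⟨h1, fun l hl => ⟨hp l (q2 l hl).2,
      not_dvd_of_lt n0 (((le_max_right _ _).trans (le_max_left _ _)).trans_lt (q2 l hl).1)⟩⟩, hT⟩

theorem many3M (S : Setup K F) {j : ℕ} (hF : Module.finrank ℚ F = 3 * 2 ^ j) {δ : K} {β : F}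
    (h0 : δ ≠ 0) (hβ : β ^ 2 = S.s 0 δ)
    (hN : ∃ r : ℚ, ∏ j, S.s j δ = algebraMap ℚ F (r ^ 2))
    (hτ : IsGalois ℚ K ∨ ∃ τ : F ≃ₐ[ℚ] F, S.Cmp τ (Equiv.swap 1 2) ∧ τ * τ = 1 ∧ τ β = β) :
    Many fun e d => Dom e F ∧ Triv e (d : ℚ) ∧ Triv e ((d : K) * δ) := by
  classical
  have := S.gal
  obtain ⟨C, d₀, c1, c2, d0, g1, g2⟩ := S.exists_Cd h0 hN
  obtain ⟨N₁, n1, s1⟩ := exists_supp h0
  obtain ⟨N₂, n2, u2⟩ := exists_unr F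
  obtain ⟨N, a, b, n0, dv, hsm, h210, hf⟩ :=
    exists_fam K F S.finrank_eq.le c1 c2 (mul_ne_zero n1 n2)
  have hs : Supp N δ := s1.mono ((dvd_mul_right _ _).trans dv)
  refine many_out n0 hsm h210 (fun e he => (hf e he).2.2.2) fun ε hε => ?_
  rcases hτ with hG | ⟨τ, hc, ht, hb⟩
  · obtain ⟨S'⟩ := exists_setup K K S.finrank_eq
    obtain ⟨m₁, L₁, hm₁⟩ := countU2D S' (pow_ne_zero 78 two_ne_zero) hε
    obtain ⟨Q₁, k1, q1⟩ := exists_primes (fun l => l.Prime ∧ Deg1 K l) (fun Y => by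
      obtain ⟨l, h⟩ := exists_deg1 K Y
      exact ⟨l, h.2.1, h.1, h.2.2⟩) m₁ (max L₁ N)
    obtain ⟨T₁, hT₁⟩ := hm₁ Q₁ k1 fun l hl =>
      ⟨(q1 l hl).2.1, (le_max_left _ _).trans_lt (q1 l hl).1, (q1 l hl).2.2⟩
    obtain ⟨Q₂, T₂, hdis, q2, hQ, hT₂⟩ := exists_Q2 n0 (Q₁ := Q₁) (fun l hl => ⟨(q1 l hl).2.1,
      not_dvd_of_lt n0 ((le_max_right _ _).trans_lt (q1 l hl).1)⟩) (IP S') (fun Y => by
        obtain ⟨l, h⟩ := exists_IP S' (j := 0) S.finrank_eq ∅ (by simp) Y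
        exact ⟨l, h.1, h.2.1⟩) (fun _ h => h.prime) hε
    refine ⟨_, max T₁ T₂, _, _, hQ, fun T hT E hE h => hT₁ T ((le_max_left _ _).trans hT) E hE
      fun e he => (h e he).2, fun T hT => hT₂ T ((le_max_right _ _).trans hT), fun e he b1 b2 => ?_⟩
    obtain ⟨fK, fQ, dom, -⟩ := hf e he
    obtain ⟨D, hD, c, o, hn⟩ := coreC S' fK d0 hdis (fun l hl => ⟨(hQ l hl).1, (hQ l hl).2,
      (Finset.mem_union.1 hl).elim (fun h => (q1 l h).2.2.sq0) fun h => (q2 l h).sq0⟩) q2 b1 b2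
    exact ⟨D, hD, c, o.dvd, dom, o.trivQ fQ h210 (fun l hl => hQ l (hD hl)) g2,
      o.trivK fK h210 (fun l hl => hQ l (hD hl)) hs g1 fun v hv h => absurd h (hn _ hv)⟩
  · have hτ1 : τ ≠ 1 := fun h => by
      have a1 : S.s 1 = S.s 2 := RingHom.ext fun x => by simpa [h] using hc 1 x
      exact absurd (S.s_inj a1) (by decide)
    obtain ⟨B₀, L₁, hm₁⟩ := countU3D S hc (pow_ne_zero 78 two_ne_zero) hε
    obtain ⟨Q₁, w, k1, q1⟩ := exists_TP hτ1 ht (max L₁ N) B₀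
    have key : ∀ q : ℕ, ∃ v₁ v₂ : P K, q ∈ Q₁ → TP2 S q v₁ v₂ ∧ Over (S.s 0) (w q) v₁ := fun q => by
      by_cases hq : q ∈ Q₁
      · obtain ⟨v₁, v₂, h⟩ := (q1 q hq).2.exists_tp2 S hc
        exact ⟨v₁, v₂, fun _ => h⟩
      · obtain ⟨v, -⟩ := exists_over_prime K Nat.prime_two
        exact ⟨v, v, fun h => absurd h hq⟩
    choose v₁ v₂ hv using key
    have p1 : ∀ l ∈ Q₁, l.Prime ∧ ¬ l ∣ N := fun l hl =>
      ⟨(q1 l hl).2.prime, not_dvd_of_lt n0 ((le_max_right _ _).trans_lt (q1 l hl).1)⟩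
    obtain ⟨T₁, hT₁⟩ := hm₁ Q₁ w v₁ k1 fun l hl =>
      ⟨(le_max_left _ _).trans_lt (q1 l hl).1, (q1 l hl).2, (hv l hl).2, (hv l hl).1.res1⟩
    obtain ⟨Q₂, T₂, hdis, q2, hQ, hT₂⟩ := exists_Q2 n0 p1
      (fun l => IP S l ∧ l % 8 = 1 ∧ ∀ q ∈ Q₁, IsSquare (l : ZMod q))
      (exists_IP8 S hF Q₁ fun q hq => ⟨(p1 q hq).1, fun h =>
        (p1 q hq).2 (h ▸ hsm 2 Nat.prime_two (by norm_num))⟩) (fun _ h => h.1.prime) hε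
    refine ⟨_, max T₁ T₂, _, _, hQ, fun T hT E hE h => hT₁ T ((le_max_left _ _).trans hT) E hE
      fun e he => ⟨fun l hl => (h e he).1.2.2.2 l (p1 l hl).1 (p1 l hl).2, (h e he).2⟩,
      fun T hT => hT₂ T ((le_max_right _ _).trans hT), fun e he b1 b2 => ?_⟩
    obtain ⟨fK, fQ, dom, -⟩ := hf e he
    obtain ⟨D, hD, c, o, hn⟩ := coreY S fK (u2 N ((dvd_mul_left _ _).trans dv)) h210 d0 hdis hQ
      (fun q hq => ⟨(q1 q hq).2.five, (hv q hq).1⟩) q2 b1 b2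
    exact ⟨D, hD, c, o.dvd, dom, o.trivQ fQ h210 (fun l hl => hQ l (hD hl)) g2,
      o.trivK fK h210 (fun l hl => hQ l (hD hl)) hs g1 fun v hv h =>
        TP.sq_of_fix S hc (q1 _ (hn _ hv h)).2 hβ hb rfl (hs v (hQ _ (hD hv)).2)⟩

/-- extensions of degree one or two -/
theorem many_low (F : Type) [Field F] [NumberField F] [IsGalois ℚ K] {j : ℕ}
    (hj : Module.finrank ℚ K = 2 ^ j) (h3 : Module.finrank ℚ K ≤ 3) {C d₀ : ℤ} (c1 : 2 ^ 7 ∣ C)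
    (c2 : ¬ 2 ^ 10 ∣ C) (d0 : d₀ ≠ 0) (hd : DescM K C) {N₀ : ℕ} (h0 : N₀ ≠ 0) :
    Many fun e d => Dom e F ∧ (∀ δ : K, Supp N₀ δ → GdB C d₀ δ → Triv e ((d : K) * δ)) ∧
      ∀ δ : ℚ, Supp N₀ δ → GdB C d₀ δ → Triv e ((d : ℚ) * δ) := by
  classical
  obtain ⟨N₁, n1, t1⟩ := tower_exact ℚ j K hj
  obtain ⟨N, a, b, n0, dv, hsm, h210, hf⟩ := exists_fam K F h3 c1 c2 (mul_ne_zero h0 n1)
  refine many_out n0 hsm h210 (fun e he => (hf e he).2.2.2) fun ε hε => ?_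
  obtain ⟨Q, T₀, -, q2, hQ, hT⟩ := exists_Q2 n0 (Q₁ := ∅) (by simp)
    (fun l => l.Prime ∧ Deg1 K l) (fun Y => by
      obtain ⟨l, h⟩ := exists_deg1 K Y
      exact ⟨l, h.2.1, h.1, h.2.2⟩) (fun _ h => h.1) hε
  rw [Finset.empty_union] at hQ
  rw [Finset.prod_empty, mul_one] at hT
  refine ⟨Q, T₀, fun _ => False, _, hQ, fun T _ E _ h => ?_, hT, fun e he _ b2 => ?_⟩
  · rw [Finset.eq_empty_of_forall_notMem fun e he => (h e he).2, Finset.card_empty, Nat.cast_zero]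
    positivity
  obtain ⟨fK, fQ, dom, -⟩ := hf e he
  obtain ⟨D, hD, c, o, hn⟩ := coreQ fK fQ hd d0
    (fun N' h => t1 N' (((dvd_mul_left _ _).trans dv).trans h) e)
    (fun l hl => ⟨(hQ l hl).1, (hQ l hl).2, (q2 l hl).2.sq0⟩) b2
  have a1 := (dvd_mul_right _ _).trans dv
  exact ⟨D, hD, c, o.dvd, dom, fun δ s g => o.trivK fK h210 (fun l hl => hQ l (hD hl)) (s.mono a1) g
    fun v hv h => absurd h (hn _ hv), fun δ s g => o.rat.trivK fQ h210 (fun l hl => hQ l (hD hl))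
      (s.mono a1) g fun v hv h => absurd h (hn _ hv)⟩

theorem many2M (F : Type) [Field F] [NumberField F] [IsGalois ℚ K] {σ : K ≃ₐ[ℚ] K}
    (hσ : ∀ g : K ≃ₐ[ℚ] K, g = 1 ∨ g = σ) (h1 : σ ≠ 1) {δ : K} (h0 : δ ≠ 0) {a : ℚ}
    (ha : algebraMap ℚ K a = δ * σ δ) :
    Many fun e d => Dom e F ∧ Triv e (d : ℚ) ∧ Triv e ((d : ℚ) * a) ∧ Triv e ((d : K) * δ) := by
  have a0 : a ≠ 0 := fun h => by
    rw [h, map_zero] at ha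
    exact mul_ne_zero h0 ((map_ne_zero σ).2 h0) ha.symm
  have h2 : Module.finrank ℚ K = 2 := by
    rw [← IsGalois.card_aut_eq_finrank, Nat.card_eq_two_iff]
    exact ⟨1, σ, h1.symm, Set.eq_univ_of_forall hσ⟩
  obtain ⟨C, d₀, c1, c2, d0, g1, g2, g3, hd⟩ := exists_Cd2 σ hσ h0 ha
  obtain ⟨N₁, n1, s1⟩ := exists_supp h0
  obtain ⟨N₂, n2, s2⟩ := exists_supp a0
  refine (many_low F (j := 1) h2 (by omega) c1 c2 d0 hd (mul_ne_zero n1 n2)).mono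
    fun e d _ _ h => ⟨h.1, ?_, h.2.2 a (s2.mono (dvd_mul_left _ _)) g3,
      h.2.1 δ (s1.mono (dvd_mul_right _ _)) g1⟩
  simpa only [mul_one] using h.2.2 1 (fun v _ => map_one _) g2

theorem many1M (F : Type) [Field F] [NumberField F] {a b : ℚ} (ha : a ≠ 0) (hb : b ≠ 0) :
    Many fun e d => Dom e F ∧ Triv e (d : ℚ) ∧ Triv e ((d : ℚ) * a) ∧ Triv e ((d : ℚ) * b) ∧
      Triv e ((d : ℚ) * (a * b)) := by
  have := zty0_gal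
  obtain ⟨C, d₀, c1, c2, d0, g1, g2, g3, g4⟩ := exists_Cd1 ha hb
  obtain ⟨N₁, n1, s1⟩ := exists_supp ha
  obtain ⟨N₂, n2, s2⟩ := exists_supp hb
  have t1 := s1.mono (dvd_mul_right N₁ N₂)
  have t2 := s2.mono (dvd_mul_left N₂ N₁)
  have h1 : @Module.finrank ℚ ℚ _ _ (DivisionRing.toRatAlgebra (R := ℚ)).toModule = 2 ^ 0 :=
    Subsingleton.elim (Algebra.id ℚ) DivisionRing.toRatAlgebra ▸ Module.finrank_self ℚ
  refine (many_low (K := ℚ) F h1 (h1.trans_le (by norm_num)) c1 c2 d0 (fun v u _ hL => ?_)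
    (mul_ne_zero n1 n2)).mono fun e d _ _ h => ⟨h.1, ?_, h.2.2 a t1 g2, h.2.2 b t2 g3,
      h.2.2 _ (fun v hv => by rw [map_mul, t1 v hv, t2 v hv, mul_one]) g4⟩
  · rintro x ⟨y, hy⟩ -
    refine ⟨y, hL.ap.1 ?_⟩
    simpa only [eq_ratCast, Rat.cast_id] using hy
  · simpa only [mul_one] using h.2.2 1 (fun v _ => map_one _) g1

end Pool.Agent.Lib.MP_775b3b_nt
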