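import Pool.Agent.Lib.MP_775b3b_nt.M2.FourA
import Pool.Agent.Lib.MP_775b3b_nt.M2.Eig
import Pool.Agent.Lib.MP_775b3b_nt.M2.Main

/-! Groups that fix a partition. -/

namespace Pool.Agent.Lib.MP_775b3b_nt

open Equiv IntermediateField

variable {F : Type} [Field F] [NumberField F] [IsGalois ℚ F]

omit [IsGalois ℚ F] in
theorem fc_sq {φ : (F ≃ₐ[ℚ] F) →* Perm (Fin 4)} {β : Fin 3 → F} (hβ : Beta4 φ β) (g : F ≃ₐ[ℚ] F)
    (j : Fin 3) : g (β j ^ 2) = β (pi4 (φ g) j) ^ 2 := by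
  rw [map_pow, hβ.act, mul_pow]
  rcases Int.units_eq_one_or (sg4 (pi4 (φ g) j) (φ g 0)) with h | h <;> rw [h] <;> simp

theorem fc_rat {x : F} (h : ∀ g : F ≃ₐ[ℚ] F, g x = x) : ∃ a : ℚ, algebraMap ℚ F a = x :=
  (IsGalois.mem_range_algebraMap_iff_fixed x).2 h

theorem fc_top {e : ℤ × ℤ} {H : Subgroup (F ≃ₐ[ℚ] F)} (hH : ∀ g, g ∈ H) (hd : Dom e F) {D : ℚ}
    (hD : D ≠ 0) (h : Triv e D) {s : ℚ} (hs : s ≠ 0) : TrivF e H (algebraMap ℚ F (D * s ^ 2)) := by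
  rw [map_mul, map_pow]
  exact (Triv.trivF (algebraMap ℚ F) (fun x hx => fc_rat fun g => hx g (hH g)) hd hD h).scale
    ((map_ne_zero _).2 hs) fun g _ => g.commutes s

theorem fc_prod {R : Type} [CommMonoid R] (β : Fin 3 → R) {a b c : Fin 3} (hab : a ≠ b)
    (hac : a ≠ c) (hbc : b ≠ c) : β 0 * β 1 * β 2 = β a * β b * β c := by
  have h : ∀ a b c : Fin 3, a ≠ b → a ≠ c → b ≠ c → (a = 0 ∧ b = 1 ∧ c = 2) ∨
      (a = 0 ∧ b = 2 ∧ c = 1) ∨ (a = 1 ∧ b = 0 ∧ c = 2) ∨ (a = 1 ∧ b = 2 ∧ c = 0) ∨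
      (a = 2 ∧ b = 0 ∧ c = 1) ∨ (a = 2 ∧ b = 1 ∧ c = 0) := by decide
  rcases h a b c hab hac hbc with h | h | h | h | h | h <;> obtain ⟨rfl, rfl, rfl⟩ := h <;> ac_rfl

theorem fc_two : ∀ (σ τ : Perm (Fin 4)) (a b : Fin 3), pi4 σ a = a → pi4 τ a = a → pi4 σ b ≠ b →
    pi4 τ b ≠ b → pi4 (σ⁻¹ * τ) b = b := by decide +kernel

theorem fc_conj : ∀ (σ τ : Perm (Fin 4)) (b : Fin 3), pi4 τ b = b →
    pi4 (σ * τ * σ⁻¹) (pi4 σ b) = pi4 σ b := by decide +kernel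

theorem fc_norm : ∀ (σ τ : Perm (Fin 4)) (a b : Fin 3), a ≠ b → pi4 σ a = a → pi4 τ a = a →
    pi4 τ b = b → pi4 (σ * τ * σ⁻¹) b = b := by decide +kernel

theorem fc_three : ∀ (σ : Perm (Fin 4)) (a b : Fin 3), pi4 σ a = a → pi4 σ b ≠ b →
    a ≠ b ∧ a ≠ pi4 σ b ∧ pi4 σ (pi4 σ b) = b ∧ ∀ j, j = a ∨ j = b ∨ j = pi4 σ b := by
  decide +kernel

theorem fc_even : ∀ (σ : Perm (Fin 4)) (b : Fin 3), pi4 σ b ≠ b → (σ ^ 3 = 1 → σ = 1) →
    ∃ a, ∀ τ : Perm (Fin 4), (τ ^ 3 = 1 → τ = 1) → ((σ * τ) ^ 3 = 1 → σ * τ = 1) →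
      pi4 τ a = a := by decide +kernel

/-- All `β j ^ 2` are rational: `a = β 0 ^ 2`, `b = β 1 ^ 2`, `β 2 ^ 2 = a b s^2` with
`s = r / (a b)` (`Beta4.prod`); `many1M`, `Triv.trivF`, `TrivF.scale`. -/
theorem many4_one {φ : (F ≃ₐ[ℚ] F) →* Perm (Fin 4)} {β : Fin 3 → F} (hβ : Beta4 φ β)
    (h : ∀ g j, pi4 (φ g) j = j) : Many (Triv4 φ β) := by
  have hr : ∀ j, ∃ a : ℚ, algebraMap ℚ F a = β j ^ 2 := fun j =>
    fc_rat fun g => by rw [fc_sq hβ, h]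
  choose c hc using hr
  have h0 : ∀ j, c j ≠ 0 := fun j hj => by
    have := hc j
    rw [hj, map_zero] at this
    exact pow_ne_zero 2 (hβ.ne j) this.symm
  obtain ⟨r, hr0, hr⟩ := hβ.prod
  have hp : c 0 * c 1 * c 2 = r ^ 2 := (algebraMap ℚ F).injective (by
    rw [map_mul, map_mul, hc, hc, hc, map_pow, ← hr]; ring)
  refine (many1M F (h0 0) (h0 1)).mono fun e d _ hd ⟨t0, t1, t2, t3, t4⟩ => ?_
  have hd' : (d : ℚ) ≠ 0 := Nat.cast_ne_zero.2 hd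
  have hH : ∀ j g, g ∈ H4 φ j := fun j g => mem_H4.2 (h g j)
  have e1 : ∀ j, (d : F) * β j ^ 2 = algebraMap ℚ F (d * c j) := fun j => by
    rw [map_mul, map_natCast, hc]
  refine ⟨t0, ?_, fun j => ?_⟩
  · simpa using fc_top (H := ⊤) (fun _ => Subgroup.mem_top _) t0 hd' t1 one_ne_zero
  · rw [e1]
    have hj : ∀ j : Fin 3, j = 0 ∨ j = 1 ∨ j = 2 := by decide
    rcases hj j with rfl | rfl | rfl
    · have := fc_top (hH 0) t0 (mul_ne_zero hd' (h0 0)) t2 one_ne_zero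
      rwa [one_pow, mul_one] at this
    · have := fc_top (hH 1) t0 (mul_ne_zero hd' (h0 1)) t3 one_ne_zero
      rwa [one_pow, mul_one] at this
    · have h01 := mul_ne_zero (h0 0) (h0 1)
      have := fc_top (hH 2) t0 (mul_ne_zero hd' h01) t4 (div_ne_zero hr0 h01)
      have e2 : (d : ℚ) * (c 0 * c 1) * (r / (c 0 * c 1)) ^ 2 = d * c 2 := by
        have a0 := h0 0
        have a1 := h0 1
        rw [div_pow, ← hp]
        field_simp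
      rwa [e2] at this

/-- `j₁ = pi4 (φ s) j₂`, `H = H4 φ j₁ = H4 φ j₂` is normal of index two, `K = fixedField H`,
`σ` = restriction of `s` (`AlgEquiv.restrictNormalHom_surjective`), `δ = ⟨β j₁ ^ 2, _⟩`,
`σ δ = β j₂ ^ 2`, `a = (β j₁ β j₂)^2` is rational, `β j₀ ^ 2 = a (r / a)^2`; `many2M`,
`Triv.trivF`, `TrivF.scale`, `TrivF.conj`. -/
theorem many4_two {φ : (F ≃ₐ[ℚ] F) →* Perm (Fin 4)} {β : Fin 3 → F} (hβ : Beta4 φ β) {j₀ : Fin 3}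
    (h : ∀ g, pi4 (φ g) j₀ = j₀) {s : F ≃ₐ[ℚ] F} {j₁ : Fin 3} (hs : pi4 (φ s) j₁ ≠ j₁) :
    Many (Triv4 φ β) := by
  obtain ⟨n01, n02, hss, hall⟩ := fc_three (φ s) j₀ j₁ (h s) hs
  have hN : (H4 φ j₁).Normal := ⟨fun t ht g => mem_H4.2 (by
    rw [map_mul, map_mul, map_inv]
    exact fc_norm _ _ j₀ j₁ n01 (h g) (h t) (mem_H4.1 ht))⟩
  have hG : IsGalois ℚ (fixedField (H4 φ j₁)) := IsGalois.of_fixedField_normal_subgroup _
  have hG' : Normal ℚ (fixedField (H4 φ j₁)) := hG.to_normal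
  obtain ⟨c, hc⟩ : ∃ c : ℚ, algebraMap ℚ F c = β j₀ ^ 2 := fc_rat fun g => by rw [fc_sq hβ, h]
  have c0 : c ≠ 0 := fun hj => by
    rw [hj, map_zero] at hc
    exact pow_ne_zero 2 (hβ.ne j₀) hc.symm
  obtain ⟨r, hr0, hr⟩ := hβ.prod
  rw [fc_prod β n01 n02 hs.symm] at hr
  have hδ : β j₁ ^ 2 ∈ fixedField (H4 φ j₁) :=
    (mem_fixedField_iff _ _).2 fun g hg => by rw [fc_sq hβ, mem_H4.1 hg]
  obtain ⟨ρ, hρ, hsu⟩ : ∃ ρ : (F ≃ₐ[ℚ] F) →* (fixedField (H4 φ j₁) ≃ₐ[ℚ] fixedField (H4 φ j₁)),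
      (∀ g (x : fixedField (H4 φ j₁)), (ρ g x : F) = g x) ∧ Function.Surjective ρ :=
    ⟨AlgEquiv.restrictNormalHom (fixedField (H4 φ j₁)),
      fun g x => AlgEquiv.restrictNormal_commutes g (fixedField (H4 φ j₁)) x,
      AlgEquiv.restrictNormalHom_surjective F⟩
  have hres : ∀ t ∈ H4 φ j₁, ρ t = 1 := fun t ht => AlgEquiv.ext fun x =>
    Subtype.ext ((hρ t x).trans ((mem_fixedField_iff _ _).1 x.2 t ht))
  have hσ : ∀ g : fixedField (H4 φ j₁) ≃ₐ[ℚ] fixedField (H4 φ j₁),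
      g = 1 ∨ g = ρ s := fun g => by
    obtain ⟨t, rfl⟩ := hsu g
    by_cases ht : pi4 (φ t) j₁ = j₁
    · exact Or.inl (hres t (mem_H4.2 ht))
    · have h1 : s⁻¹ * t ∈ H4 φ j₁ := mem_H4.2 (by
        rw [map_mul, map_inv]
        exact fc_two _ _ j₀ j₁ (h s) (h t) hs ht)
      have h2 := hres _ h1
      rw [map_mul, map_inv, inv_mul_eq_one] at h2
      exact Or.inr h2.symm
  have h1 : ρ s ≠ 1 := fun h1 => by
    have h2 : s ∈ fixingSubgroup (fixedField (H4 φ j₁)) :=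
      (IntermediateField.mem_fixingSubgroup_iff _ _).2 fun x hx => by
        have h3 := hρ s ⟨x, hx⟩
        rw [h1] at h3
        exact h3.symm
    rw [fixingSubgroup_fixedField] at h2
    exact hs (mem_H4.1 h2)
  have h0 : (⟨β j₁ ^ 2, hδ⟩ : fixedField (H4 φ j₁)) ≠ 0 := fun h0 =>
    pow_ne_zero 2 (hβ.ne j₁) (congrArg Subtype.val h0)
  have ha : algebraMap ℚ (fixedField (H4 φ j₁)) (r ^ 2 / c) =
      ⟨β j₁ ^ 2, hδ⟩ * ρ s ⟨β j₁ ^ 2, hδ⟩ := by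
    apply (algebraMap (fixedField (H4 φ j₁)) F).injective
    have e1 : algebraMap (fixedField (H4 φ j₁)) F (algebraMap ℚ _ (r ^ 2 / c)) =
        algebraMap ℚ F (r ^ 2 / c) := by simp
    have e2 : algebraMap (fixedField (H4 φ j₁)) F (⟨β j₁ ^ 2, hδ⟩ * ρ s ⟨β j₁ ^ 2, hδ⟩) =
        β j₁ ^ 2 * s (β j₁ ^ 2) := by
      rw [map_mul]
      exact congrArg (β j₁ ^ 2 * ·) (hρ s ⟨β j₁ ^ 2, hδ⟩)
    have b0 := hβ.ne j₀
    rw [e1, e2, fc_sq hβ, map_div₀, map_pow, ← hr, hc]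
    field_simp
  refine (many2M F hσ h1 h0 ha).mono fun e d _ hd ⟨t0, t1, t2, t3⟩ => ?_
  have hd' : (d : ℚ) ≠ 0 := Nat.cast_ne_zero.2 hd
  have k1 : TrivF e (H4 φ j₁) ((d : F) * β j₁ ^ 2) := by
    have := Triv.trivF (H := H4 φ j₁) (algebraMap (fixedField (H4 φ j₁)) F)
      (fun x hx => ⟨⟨x, (mem_fixedField_iff _ _).2 hx⟩, rfl⟩) t0
      (mul_ne_zero (Nat.cast_ne_zero.2 hd) h0) t3
    rwa [map_mul, map_natCast] at this
  refine ⟨t0, ?_, fun j => ?_⟩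
  · simpa using fc_top (H := ⊤) (fun _ => Subgroup.mem_top _) t0 hd' t1 one_ne_zero
  · rcases hall j with rfl | rfl | rfl
    · have := fc_top (fun g => mem_H4.2 (h g)) t0
        (mul_ne_zero hd' (div_ne_zero (pow_ne_zero 2 hr0) c0)) t2 (div_ne_zero c0 hr0)
      have e2 : (d : ℚ) * (r ^ 2 / c) * (c / r) ^ 2 = d * c := by field_simp
      rwa [e2, map_mul, map_natCast, hc] at this
    · exact k1
    · have := k1.conj (H' := H4 φ (pi4 (φ s) j₁)) s fun t ht => mem_H4.2 (by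
        rw [map_mul, map_mul, map_inv]
        exact fc_conj _ _ _ (mem_H4.1 ht))
      rwa [map_mul, map_natCast, fc_sq hβ] at this

/-- if no `φ c` has order three, all `φ g` fix one partition (two elements moving different pairs
of partitions have a product that permutes the three cyclically, and such an element of `S₄` has
order three: `decide +kernel`) -/
theorem many4_even {φ : (F ≃ₐ[ℚ] F) →* Perm (Fin 4)} {β : Fin 3 → F} (hβ : Beta4 φ β)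
    (h : ∀ c, φ c ^ 3 = 1 → φ c = 1) : Many (Triv4 φ β) := by
  by_cases h1 : ∀ g j, pi4 (φ g) j = j
  · exact many4_one hβ h1
  · simp only [not_forall] at h1
    obtain ⟨s, j, hs⟩ := h1
    obtain ⟨a, ha⟩ := fc_even (φ s) j hs (h s)
    exact many4_two hβ (j₀ := a) (fun g => ha (φ g) (h g) (by rw [← map_mul]; exact h _)) hs

end Pool.Agent.Lib.MP_775b3b_nt
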