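import Pool.Agent.Lib.MP_775b3b_nt.M2.FourB
import Pool.Agent.Lib.MP_775b3b_nt.M2.FourC
import Pool.Agent.Lib.MP_775b3b_nt.LowDeg

/-! Finitely many points over a field of degree at most four. -/

namespace Pool.Agent.Lib.MP_775b3b_nt

open Equiv WeierstrassCurve WeierstrassCurve.Affine

/-- As `LowDeg.finite_of_degree_le_four`: `exists_closure`, `exists_perm`, `exists_beta4`,
`many4_three` or `many4_even`, `Many.mono`, `ann_eig` (with `β = 1` for `⊤`; `mem_H4`), `tors4`. -/
theorem many_fin (K : Type) [Field K] [NumberField K] (h4 : Module.finrank ℚ K ≤ 4) :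
    Many fun e d => Finite (crv (tw e d) K).toAffine.Point := by
  classical
  obtain ⟨F, _, _, _, ⟨σ₀⟩, hf⟩ := LowDeg.exists_closure K
  obtain ⟨φ, ι, hφ, h1, h2⟩ := LowDeg.exists_perm h4 hf
  obtain ⟨β, hβ⟩ := exists_beta4 φ
  have hM : Many (Triv4 φ β) := by
    by_cases h : ∀ c, φ c ^ 3 = 1 → φ c = 1
    · exact many4_even hβ h
    · simp only [not_forall] at h
      obtain ⟨c, h3, h5⟩ := h
      exact many4_three hφ hβ h5 h3
  refine hM.mono fun e d he hd h => ?_
  obtain ⟨hD, t0, t1⟩ := h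
  have hd' : (d : ℤ) ≠ 0 := by exact_mod_cast hd
  have a0 : AnnE (act (F := F) (tw e d)) ⊤ fun _ => 1 :=
    ann_eig he hD hd' (β := 1) one_ne_zero (by simp) (by simpa using t0)
  have a1 : ∀ j, AnnE (act (F := F) (tw e d)) (H4 φ j) fun g => sg4 j (φ g 0) := fun j =>
    ann_eig he hD hd' (hβ.ne j) (fun g hg => by
      have h3 := hβ.act g j
      rwa [mem_H4.1 hg] at h3) (by simpa using t1 j)
  obtain ⟨r, hr, b4⟩ := tors4 a0 a1
  have b5 : ∀ R : ((crv (tw e d) ℚ).toAffine⁄K).Point, r • R = 0 := fun R => by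
    have b6 := b4 (Function.extend ι (fun σ => Point.map σ R) 0) (fun g i => by
      by_cases hi : i ∈ Set.range ι
      · obtain ⟨σ, rfl⟩ := hi
        rw [h1, ι.injective.extend_apply, ι.injective.extend_apply, Point.map_map]
      · rw [h2 g i hi, Function.extend_apply' _ _ _ hi, Pi.zero_apply, map_zero]) (ι σ₀)
    rw [ι.injective.extend_apply, ← map_zsmul] at b6
    exact Point.map_injective σ₀ (b6.trans (map_zero _).symm)
  rw [crv_base] at b5
  have := crv_isElliptic (F := K) (e := tw e d) (by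
    rw [disc_tw]
    exact mul_ne_zero (pow_ne_zero _ hd') he)
  have : Module.Finite ℤ (crv (tw e d) K).toAffine.Point :=
    Module.Finite.iff_addGroup_fg.mpr (Pool.Agent.MP_651af7_nt.MW.fg (crv (tw e d) K))
  exact Module.finite_of_fg_torsion (crv (tw e d) K).toAffine.Point fun R =>
    ⟨⟨r, mem_nonZeroDivisors_of_ne_zero hr⟩, b5 R⟩

end Pool.Agent.Lib.MP_775b3b_nt
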