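import Pool.Agent.Lib.MP_775b3b_nt.M2.Defs
import Pool.Agent.Lib.MP_775b3b_nt.LowA

/-! The three partitions of four letters into two pairs. -/

namespace Pool.Agent.Lib.MP_775b3b_nt

open Equiv

/-- the sign of the letter `i` in the partition `{0, j + 1 | the others}` -/
def sg4 (j : Fin 3) (i : Fin 4) : ℤˣ := if i = 0 ∨ i = j.succ then 1 else -1

/-- the double transposition of the partition `j` -/
def z4 (j : Fin 3) : Perm (Fin 4) :=
  ![swap 0 1 * swap 2 3, swap 0 2 * swap 1 3, swap 0 3 * swap 1 2] j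

/-- the index of the image of the partition `j` under `σ` -/
def pi4 (σ : Perm (Fin 4)) (j : Fin 3) : Fin 3 :=
  if σ * z4 j * σ⁻¹ = z4 0 then 0 else if σ * z4 j * σ⁻¹ = z4 1 then 1 else 2

theorem pi4_spec : ∀ (σ : Perm (Fin 4)) (j : Fin 3), σ * z4 j * σ⁻¹ = z4 (pi4 σ j) := by
  decide +kernel

theorem pi4_mul : ∀ (σ τ : Perm (Fin 4)) (j : Fin 3), pi4 (σ * τ) j = pi4 σ (pi4 τ j) := by
  decide +kernel

theorem pi4_one : ∀ j : Fin 3, pi4 1 j = j := by decide +kernel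

theorem sg4_pi4 : ∀ (σ : Perm (Fin 4)) (j : Fin 3) (i : Fin 4),
    sg4 (pi4 σ j) (σ i) = sg4 (pi4 σ j) (σ 0) * sg4 j i := by decide +kernel

theorem sg4_prod : ∀ σ : Perm (Fin 4),
    sg4 (pi4 σ 0) (σ 0) * sg4 (pi4 σ 1) (σ 0) * sg4 (pi4 σ 2) (σ 0) = 1 := by decide +kernel

/-- the stabiliser of the partition `j` -/
def H4 {G : Type} [Group G] (φ : G →* Perm (Fin 4)) (j : Fin 3) : Subgroup G :=
  (Subgroup.centralizer {z4 j}).comap φ

theorem mem_H4 {G : Type} [Group G] {φ : G →* Perm (Fin 4)} {j : Fin 3} {g : G} :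
    g ∈ H4 φ j ↔ pi4 (φ g) j = j := by
  have h : ∀ (σ : Perm (Fin 4)) (j : Fin 3), σ * z4 j = z4 j * σ ↔ pi4 σ j = j := by decide +kernel
  exact Subgroup.mem_centralizer_singleton_iff.trans (h _ _)

theorem fa_sg : ∀ (σ : Perm (Fin 4)) (j : Fin 3) (i : Fin 4),
    sg4 j i = sg4 (pi4 σ j) (σ 0) * sg4 (pi4 σ j) (σ i) := fun σ j i => by
  rw [sg4_pi4 σ j i, ← mul_assoc, Int.units_mul_self, one_mul]

theorem fa_orth : ∀ i k : Fin 4, (1 : ℤ) + ∑ j, ((sg4 j i : ℤˣ) : ℤ) * ((sg4 j k : ℤˣ) : ℤ) =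
    if k = i then 4 else 0 := by decide +kernel

/-- `Q j = ∑ i, sg4 j i • y i` is an eigenvector of `H4 φ j` (`sg4_pi4`, `Equiv.sum_comp`),
`S = ∑ i, y i` is fixed, and `4 • y i = S + ∑ j, sg4 j i • Q j`. -/
theorem tors4 {G M : Type} [Group G] [AddCommGroup M] {act : G → M →+ M}
    {φ : G →* Perm (Fin 4)} (h0 : AnnE act ⊤ fun _ => 1)
    (h1 : ∀ j, AnnE act (H4 φ j) fun g => sg4 j (φ g 0)) : ∃ r : ℤ, r ≠ 0 ∧
      ∀ y : Fin 4 → M, (∀ g i, act g (y i) = y (φ g i)) → ∀ i, r • y i = 0 := by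
  obtain ⟨r0, hr0, h0⟩ := h0
  choose r hr h1 using h1
  refine ⟨r0 * (∏ j, r j) * 4, mul_ne_zero (mul_ne_zero hr0
    (Finset.prod_ne_zero_iff.2 fun j _ => hr j)) (by norm_num), fun y hy i => ?_⟩
  have hS : r0 • ∑ k, y k = 0 := h0 _ fun g _ => by
    rw [map_sum, Units.val_one, one_smul]
    simp only [hy]
    exact Equiv.sum_comp (φ g) y
  have hQ : ∀ j, r j • ∑ k, ((sg4 j k : ℤˣ) : ℤ) • y k = 0 := fun j => h1 j _ fun g hg => by
    rw [map_sum, ← Equiv.sum_comp (φ g) fun k => ((sg4 j k : ℤˣ) : ℤ) • y k, Finset.smul_sum]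
    refine Finset.sum_congr rfl fun k _ => ?_
    rw [map_zsmul, hy, smul_smul, ← Units.val_mul]
    have h2 := fa_sg (φ g) j k
    rw [mem_H4.1 hg] at h2
    rw [← h2]
  have h4 : (4 : ℤ) • y i = ∑ k, y k + ∑ j, ((sg4 j i : ℤˣ) : ℤ) •
      ∑ k, ((sg4 j k : ℤˣ) : ℤ) • y k := by
    simp only [Finset.smul_sum, smul_smul]
    rw [Finset.sum_comm, ← Finset.sum_add_distrib]
    have h5 : ∀ k, y k + ∑ j, (((sg4 j i : ℤˣ) : ℤ) * ((sg4 j k : ℤˣ) : ℤ)) • y k =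
        if k = i then (4 : ℤ) • y k else 0 := fun k => by
      have h6 := congrArg (· • y k) (fa_orth i k)
      simp only [add_smul, one_smul, ite_smul, zero_smul] at h6
      rw [← Finset.sum_smul, h6]
    simp only [h5, Finset.sum_ite_eq', Finset.mem_univ, if_true]
  rw [mul_smul, h4, smul_add, mul_comm r0, mul_smul, hS, smul_zero, zero_add, Finset.smul_sum]
  refine Finset.sum_eq_zero fun j _ => ?_
  obtain ⟨c, hc⟩ := Finset.dvd_prod_of_mem r (Finset.mem_univ j)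
  rw [smul_smul, hc, show r j * c * r0 * ((sg4 j i : ℤˣ) : ℤ) =
    c * r0 * ((sg4 j i : ℤˣ) : ℤ) * r j by ring, mul_smul, hQ j, smul_zero]

/-- the data of three square roots permuted up to sign -/
structure Beta4 {F : Type} [Field F] [CharZero F] (φ : (F ≃ₐ[ℚ] F) →* Perm (Fin 4))
    (β : Fin 3 → F) : Prop where
  ne : ∀ j, β j ≠ 0
  act : ∀ g j, g (β j) = (((sg4 (pi4 (φ g) j) (φ g 0) : ℤˣ) : ℤ) : F) * β (pi4 (φ g) j)

/-- `b = IsGalois.normalBasis ℚ F`, `β j = ∑ g, sg4 j (φ g 0) • b g`; nonzero because `b` is a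
basis; `normalBasis_apply`, `sg4_pi4` -/
theorem exists_beta4 {F : Type} [Field F] [NumberField F] [IsGalois ℚ F]
    (φ : (F ≃ₐ[ℚ] F) →* Perm (Fin 4)) : ∃ β, Beta4 φ β := by
  classical
  let b := IsGalois.normalBasis ℚ F
  refine ⟨fun j => ∑ h, (((sg4 j (φ h 0) : ℤˣ) : ℤ) : ℚ) • b h, fun j h0 => ?_, fun g j => ?_⟩
  · have h1 := Fintype.linearIndependent_iff.1 b.linearIndependent _ h0 1
    exact (sg4 j (φ 1 0)).ne_zero (by exact_mod_cast h1)
  · rw [map_sum, Finset.mul_sum]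
    refine Fintype.sum_equiv (Equiv.mulLeft g) _ _ fun h => ?_
    have h1 : g (b h) = b (g * h) := by
      rw [IsGalois.normalBasis_apply h, IsGalois.normalBasis_apply (g * h), AlgEquiv.mul_apply]
    rw [Equiv.coe_mulLeft, Algebra.smul_def, Algebra.smul_def, map_mul g, h1,
      fa_sg (φ g) j (φ h 0), map_mul φ, Perm.mul_apply]
    simp only [Units.val_mul, Int.cast_mul, map_mul, map_intCast, mul_assoc]

/-- the product is fixed by the group (`sg4_prod`; `pi4 σ` is a bijection) -/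
theorem Beta4.prod {F : Type} [Field F] [NumberField F] [IsGalois ℚ F]
    {φ : (F ≃ₐ[ℚ] F) →* Perm (Fin 4)} {β : Fin 3 → F} (h : Beta4 φ β) :
    ∃ r : ℚ, r ≠ 0 ∧ β 0 * β 1 * β 2 = algebraMap ℚ F r := by
  have h1 : ∀ σ : Perm (Fin 4), Function.Bijective (pi4 σ) := fun σ =>
    Finite.injective_iff_bijective.1 (Function.LeftInverse.injective (g := pi4 σ⁻¹) fun j => by
      rw [← pi4_mul, inv_mul_cancel, pi4_one])
  have h2 : ∀ g : F ≃ₐ[ℚ] F, g (β 0 * β 1 * β 2) = β 0 * β 1 * β 2 := fun g => by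
    have h3 := (h1 (φ g)).prod_comp β
    have h4 := congrArg (fun u : ℤˣ => ((u : ℤ) : F)) (sg4_prod (φ g))
    simp only [Units.val_mul, Int.cast_mul, Units.val_one, Int.cast_one] at h4
    rw [Fin.prod_univ_three, Fin.prod_univ_three] at h3
    rw [map_mul, map_mul, h.act, h.act, h.act]
    linear_combination h3 + β (pi4 (φ g) 0) * β (pi4 (φ g) 1) * β (pi4 (φ g) 2) * h4
  obtain ⟨r, hr⟩ := (IsGalois.mem_range_algebraMap_iff_fixed _).2 h2
  refine ⟨r, fun h0 => ?_, hr.symm⟩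
  rw [h0, map_zero] at hr
  exact mul_ne_zero (mul_ne_zero (h.ne 0) (h.ne 1)) (h.ne 2) hr.symm

/-- the property that is counted -/
def Triv4 {F : Type} [Field F] [CharZero F] (φ : (F ≃ₐ[ℚ] F) →* Perm (Fin 4)) (β : Fin 3 → F)
    (e : ℤ × ℤ) (d : ℕ) : Prop :=
  Dom e F ∧ TrivF e (⊤ : Subgroup (F ≃ₐ[ℚ] F)) (d : F) ∧ ∀ j, TrivF e (H4 φ j) ((d : F) * β j ^ 2)

end Pool.Agent.Lib.MP_775b3b_nt
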