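import Pool.Agent.Lib.MP_775b3b_nt.M2.FourA
import Pool.Agent.Lib.MP_775b3b_nt.M2.Eig
import Pool.Agent.Lib.MP_775b3b_nt.M2.Main

/-! Groups with an element of order three. -/

namespace Pool.Agent.Lib.MP_775b3b_nt

open Equiv IntermediateField

variable {F : Type} [Field F] [NumberField F] [IsGalois ℚ F]

theorem fb_rot : ∀ σ : Perm (Fin 4), σ ≠ 1 → σ ^ 3 = 1 → pi4 σ 0 ≠ 0 ∧
    ((pi4 σ 0 = 1 ∧ pi4 σ (pi4 σ 0) = 2) ∨ (pi4 σ 0 = 2 ∧ pi4 σ (pi4 σ 0) = 1)) := by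
  decide +kernel

theorem fb_swap : ∀ p c : Perm (Fin 4), c ≠ 1 → c ^ 3 = 1 → pi4 p 0 = 0 →
    (∀ g : Perm (Fin 4), pi4 (g * p * g⁻¹) 0 = 0) ∨ ∃ k : Fin 3,
      (c ^ (k : ℕ) * p * (c ^ (k : ℕ))⁻¹ = swap 0 1 ∨
        c ^ (k : ℕ) * p * (c ^ (k : ℕ))⁻¹ = swap 2 3) ∨
      (c ^ (k : ℕ) * (p * (c * p ^ 2 * c⁻¹)) * (c ^ (k : ℕ))⁻¹ = swap 0 1 ∨
        c ^ (k : ℕ) * (p * (c * p ^ 2 * c⁻¹)) * (c ^ (k : ℕ))⁻¹ = swap 2 3) := by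
  decide +kernel

theorem fb_tau : ∀ s : Perm (Fin 4), s = swap 0 1 ∨ s = swap 2 3 → s * s = 1 ∧ pi4 s 0 = 0 ∧
    sg4 0 (s 0) = 1 ∧ ∀ g : Perm (Fin 4), pi4 (g * s * g⁻¹) 0 = 0 → pi4 g 0 = 0 := by
  decide +kernel

theorem fb_conj : ∀ g h : Perm (Fin 4), pi4 h 0 = 0 →
    pi4 (g * h * g⁻¹) (pi4 g 0) = pi4 g 0 := by decide +kernel

theorem fb_perm : ∀ π : Perm (Fin 3), (∀ j, π j ≠ j) →
    (π 0 = 1 ∧ π 1 = 2) ∨ (π 0 = 2 ∧ π 2 = 1) := by decide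

omit [IsGalois ℚ F] in
theorem fb_sq {φ : (F ≃ₐ[ℚ] F) →* Perm (Fin 4)} {β : Fin 3 → F} (hβ : Beta4 φ β)
    (g : F ≃ₐ[ℚ] F) (j : Fin 3) : g (β j ^ 2) = β (pi4 (φ g) j) ^ 2 := by
  rw [map_pow, hβ.act, mul_pow]
  rcases Int.units_eq_one_or (sg4 (pi4 (φ g) j) (φ g 0)) with h | h <;> simp [h]

theorem fb_setup (K : IntermediateField ℚ F) (h3 : Module.finrank ℚ K = 3) :
    ∃ S : Setup K F, S.s 0 = algebraMap K F := by
  obtain ⟨S₀⟩ := exists_setup K F h3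
  obtain ⟨j, hj⟩ := S₀.bij.2 (S₀.i.comp (algebraMap _ F))
  exact ⟨⟨fun l => S₀.s (Equiv.swap 0 j l), S₀.i, S₀.bij.comp (Equiv.swap 0 j).bijective, S₀.gal⟩,
    RingHom.ext fun x => S₀.i.injective (by simpa using DFunLike.congr_fun hj x)⟩

/-- `H = H4 φ 0` is a 2-group of index three (`LowDeg.syl`, `LowDeg.zz = z4 0`; the index is not one
since `c ∉ H`), `K = fixedField H`, `finrank ℚ F = 3 * 2^j`, `finrank ℚ K = 3` (see `many_ann`),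
`δ = ⟨β 0 ^ 2, _⟩`.  If `H` is normal, `K` is Galois and `S` is built as in `exists_setup0` (with
`S.s 0 = algebraMap`).  Otherwise there is `τ` with `φ τ = swap 0 1` or `swap 2 3`
(`LowDeg.d5` gives a transposition `φ t`; conjugate `t` by a power of `c`), `exists_setup0`
(`LowDeg.d4` and its analogue), `τ * τ = 1`, `τ (β 0) = β 0`.  The norm: `S.exists_cmp c` gives `π`
without fixed point (`YPrime2_fix`, `YPrime2_perm`), so `∏ j, S.s j δ = δ * c δ * c (c δ) =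
(β 0 * β 1 * β 2)^2`, `Beta4.prod`.  Then `many3M`, `Many.mono`, `Triv.trivF` (for `ℚ`:
`IsGalois.mem_range_algebraMap_iff_fixed`), and `TrivF.conj` with `c`, `c^2` for `j = 1, 2`. -/
theorem many4_three {φ : (F ≃ₐ[ℚ] F) →* Perm (Fin 4)} (hφ : Function.Injective φ) {β : Fin 3 → F}
    (hβ : Beta4 φ β) {c : F ≃ₐ[ℚ] F} (h1 : φ c ≠ 1) (h3 : φ c ^ 3 = 1) : Many (Triv4 φ β) := by
  classical
  have : Fact (Nat.Prime 2) := ⟨Nat.prime_two⟩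
  obtain ⟨a1, a2⟩ : IsPGroup 2 (H4 φ 0) ∧ (H4 φ 0).index ∣ 3 := LowDeg.syl φ hφ h1 h3
  obtain ⟨r0, r1⟩ := fb_rot _ h1 h3
  obtain ⟨j, hj⟩ := IsPGroup.iff_card.1 a1
  replace a2 : (H4 φ 0).index = 3 := ((Nat.dvd_prime Nat.prime_three).1 a2).resolve_left fun h =>
    r0 (mem_H4.1 (Subgroup.index_eq_one.1 h ▸ Subgroup.mem_top c))
  have hF : Module.finrank ℚ F = 3 * 2 ^ j := by
    rw [← IsGalois.card_aut_eq_finrank ℚ F, ← (H4 φ 0).index_mul_card, a2, hj]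
  have hK : Module.finrank ℚ (fixedField (H4 φ 0)) = 3 := by
    have h1 := Module.finrank_mul_finrank ℚ (fixedField (H4 φ 0)) F
    rw [finrank_fixedField_eq_card, hj, hF] at h1
    exact Nat.eq_of_mul_eq_mul_right (Nat.two_pow_pos j) h1
  let δ : fixedField (H4 φ 0) := ⟨β 0 ^ 2, fun g => (fb_sq hβ g.1 0).trans (by rw [mem_H4.1 g.2])⟩
  have d0 : δ ≠ 0 := fun h => pow_ne_zero 2 (hβ.ne 0) (congrArg Subtype.val h)
  obtain ⟨S, h0, hτ⟩ : ∃ S : Setup (fixedField (H4 φ 0)) F, S.s 0 = algebraMap _ F ∧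
      (IsGalois ℚ (fixedField (H4 φ 0)) ∨
        ∃ τ : F ≃ₐ[ℚ] F, S.Cmp τ (Equiv.swap 1 2) ∧ τ * τ = 1 ∧ τ (β 0) = β 0) := by
    by_cases hn : (H4 φ 0).Normal
    · obtain ⟨S, h0⟩ := fb_setup _ hK
      exact ⟨S, h0, Or.inl (IsGalois.of_fixedField_normal_subgroup _)⟩
    obtain ⟨τ, ht⟩ : ∃ τ : F ≃ₐ[ℚ] F, φ τ = swap 0 1 ∨ φ τ = swap 2 3 := by
      by_contra hc
      refine hn ⟨fun p hp g => mem_H4.2 ?_⟩
      rcases fb_swap _ _ h1 h3 (mem_H4.1 hp) with h | ⟨k, h | h⟩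
      · simpa using h (φ g)
      · exact absurd ⟨c ^ (k : ℕ) * p * (c ^ (k : ℕ))⁻¹, by simpa using h⟩ hc
      · exact absurd ⟨c ^ (k : ℕ) * (p * (c * p ^ 2 * c⁻¹)) * (c ^ (k : ℕ))⁻¹,
          by simpa using h⟩ hc
    obtain ⟨t1, t2, t3, t4⟩ := fb_tau _ ht
    obtain ⟨S, h0, hc⟩ := exists_setup0 (H4 φ 0) hK (τ := τ) (mem_H4.2 t2) (fun g hg p hp => by
      have b4 : g ∈ H4 φ 0 := mem_H4.2 (t4 _ (by simpa using mem_H4.1 hg))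
      exact mul_mem (mul_mem b4 hp) (inv_mem b4)) hn
    refine ⟨S, h0, Or.inr ⟨τ, hc, hφ (by rw [map_mul, t1, map_one]), ?_⟩⟩
    rw [hβ.act, t2, t3]
    simp
  have s0 : β 0 ^ 2 = S.s 0 δ := by rw [h0]; rfl
  have hN : ∃ r : ℚ, ∏ j, S.s j δ = algebraMap ℚ F (r ^ 2) := by
    obtain ⟨r, -, hr⟩ := hβ.prod
    obtain ⟨π, hπ⟩ := S.exists_cmp c
    have c3 : c ^ 3 = 1 := hφ (by simpa using h3)
    have h8 : ∀ j, π j ≠ j := fun i hi => h1 (by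
      rw [YPrime2_fix hK hF (S.s i) c3 fun x => by rw [hπ, hi], map_one])
    have e1 : S.s (π 0) δ = β (pi4 (φ c) 0) ^ 2 := by rw [← hπ, ← s0, fb_sq hβ]
    have e2 : S.s (π (π 0)) δ = β (pi4 (φ c) (pi4 (φ c) 0)) ^ 2 := by rw [← hπ, e1, fb_sq hβ]
    refine ⟨r, ?_⟩
    rw [map_pow, ← hr, Fin.prod_univ_three, ← s0]
    rcases fb_perm π h8 with ⟨p1, p2⟩ | ⟨p1, p2⟩ <;> rcases r1 with ⟨q1, q2⟩ | ⟨q1, q2⟩ <;>
      rw [q2, p1, p2] at e2 <;> rw [q1, p1] at e1 <;> rw [e1, e2] <;> ring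
  refine (many3M S hF d0 s0 hN hτ).mono fun e d _ hd ⟨b1, b2, b3⟩ => ⟨b1, ?_, fun i => ?_⟩
  · simpa using Triv.trivF (H := ⊤) (algebraMap ℚ F) (fun x hx =>
      (IsGalois.mem_range_algebraMap_iff_fixed x).2 fun g => hx g trivial) b1
      (Nat.cast_ne_zero.2 hd) b2
  have b4 : TrivF e (H4 φ 0) ((d : F) * β 0 ^ 2) := by
    have b5 := Triv.trivF (H := H4 φ 0) (algebraMap (fixedField (H4 φ 0)) F)
      (fun x hx => ⟨⟨x, fun g => hx g.1 g.2⟩, rfl⟩) b1 (mul_ne_zero (Nat.cast_ne_zero.2 hd) d0) b3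
    rwa [map_mul, map_natCast] at b5
  have b6 : ∀ g : F ≃ₐ[ℚ] F,
      TrivF e (H4 φ (pi4 (φ g) 0)) ((d : F) * β (pi4 (φ g) 0) ^ 2) := fun g => by
    have b5 := b4.conj (H' := H4 φ (pi4 (φ g) 0)) g fun h hh =>
      mem_H4.2 (by simpa using fb_conj (φ g) (φ h) (mem_H4.1 hh))
    rwa [map_mul, map_natCast, fb_sq hβ] at b5
  have b7 := b6 c
  have b8 := b6 (c * c)
  rw [map_mul, pi4_mul] at b8
  rcases r1 with ⟨q1, q2⟩ | ⟨q1, q2⟩ <;> rw [q2] at b8 <;> rw [q1] at b7 <;> fin_cases i <;>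
    assumption

end Pool.Agent.Lib.MP_775b3b_nt
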