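import Pool.Agent.Lib.MP_775b3b_nt.M2.LDefs

/-! Bounded defect at two: every class modulo squares has a representative `u` in the local order
such that `2 ^ 78 / u` is in the local order. -/

namespace Pool.Agent.Lib.MP_775b3b_nt

open Cub MP_439fea_co WithZero Filter

theorem Tate.not_dvd_disc {e : ℤ × ℤ} {C : ℤ} (ht : Tate e C) : ¬ (2 : ℤ) ^ 12 ∣ disc e := by
  intro h
  have d : (2 : ℤ) ^ 12 ∣ 2 ^ 13 := pow_dvd_pow 2 (by norm_num)
  have a : -27 - C ≡ e.1 [ZMOD 2 ^ 12] := Int.modEq_iff_dvd.2 (by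
    rw [show e.1 - (-27 - C) = e.1 + 27 + C by ring]
    exact d.trans ht.a)
  have b : 54 - 6 * C ≡ e.2 [ZMOD 2 ^ 12] := Int.modEq_iff_dvd.2 (by
    rw [show e.2 - (54 - 6 * C) = e.2 - 54 + 6 * C by ring]
    exact d.trans ht.b)
  have c := Int.modEq_iff_dvd.1 (((a.pow 3).mul_left 4).add ((b.pow 2).mul_left 27))
  have h1 : (4 : ℤ) * 2 ^ 10 ∣ 4 * (C * (81 - C) ^ 2) := by
    rw [show (4 : ℤ) * 2 ^ 10 = 2 ^ 12 by norm_num, show 4 * (C * (81 - C) ^ 2) =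
      4 * e.1 ^ 3 + 27 * e.2 ^ 2 - (4 * (-27 - C) ^ 3 + 27 * (54 - 6 * C) ^ 2) - disc e by
        rw [disc]
        ring]
    exact dvd_sub c h
  obtain ⟨s, hs⟩ := ht.lo
  have h2 : IsCoprime ((2 : ℤ) ^ 10) ((81 - C) ^ 2) :=
    IsCoprime.pow ⟨64 * s - 40, 1, by rw [hs]; ring⟩
  exact ht.hi (h2.dvd_of_dvd_mul_right ((mul_dvd_mul_iff_left (by norm_num)).1 h1))

theorem dfc_pow_le_val {k : Type*} [Field k] {ν : Valuation k ℤᵐ⁰} (h2 : ν 2 < 1) (n : ℕ) :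
    ∀ m : ℤ, ¬ (2 : ℤ) ^ (n + 1) ∣ m → ν 2 ^ n ≤ ν (m : k) := by
  have odd : ∀ q : ℤ, ν ((2 * q + 1 : ℤ) : k) = 1 := fun q => by
    rw [Int.cast_add, Int.cast_one, add_comm]
    refine ν.map_one_add_of_lt ?_
    rw [Int.cast_mul, map_mul, Int.cast_ofNat]
    exact (mul_le_of_le_one_right' (val_intCast_le ν q)).trans_lt h2
  induction n with
  | zero =>
    intro m hm
    obtain ⟨q, rfl | rfl⟩ := Int.even_or_odd' m
    · exact absurd (by simp) hm
    · rw [odd, pow_zero]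
  | succ n ih =>
    intro m hm
    obtain ⟨q, rfl | rfl⟩ := Int.even_or_odd' m
    · rw [Int.cast_mul, map_mul, Int.cast_ofNat, pow_succ']
      refine mul_le_mul_right (ih q fun h => hm ?_) _
      rw [pow_succ' _ (n + 1)]
      exact mul_dvd_mul_left 2 h
    · rw [odd]
      exact pow_le_one' h2.le _

theorem dfc_nm_second {R : Type*} [CommRing R] {e : ℤ × ℤ} (t : R) (x c : Cub e R) :
    2 * t ^ 2 * tr (x * adj c) = nm (x + t • c) + nm (x + t • -c) - 2 * nm (x + t • 0) := by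
  simp only [nm, tr, adj, mul_c0, mul_c2, add_c0, add_c1, add_c2, smul_c0, smul_c1, smul_c2,
    neg_c0, neg_c1, neg_c2, zero_c0, zero_c1, zero_c2, smul_eq_mul]
  ring

theorem dfc_comb {k : Type*} [Field k] {ν : Valuation k ℤᵐ⁰} {γ : ℤᵐ⁰} {x y z : k}
    (hx : ν x ≤ γ) (hy : ν y ≤ γ) (hz : ν z ≤ γ) (a b c : ℤ) :
    ν (a * x + b * y + c * z) ≤ γ := by
  have h : ∀ (n : ℤ) (w : k), ν w ≤ γ → ν (n * w) ≤ γ := fun n w hw => by
    rw [map_mul]
    exact (mul_le_of_le_one_left' (val_intCast_le ν n)).trans hw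
  exact ν.map_add_le (ν.map_add_le (h a x hx) (h b y hy)) (h c z hz)

variable {e : ℤ × ℤ} {C : ℤ} {k : Type} [Field k] [NumberField k] {v : P k}

omit [NumberField k] in
theorem dfc_ne (u : (Cub e k)ˣ) : (u : Cub e k) ≠ 0 := fun h => nm_ne_zero u (by simp [h, nm])

/-- a primitive element has a translate of large norm -/
theorem Tate.exists_shift (ht : Tate e C) (hv : val v (2 : k) < 1) {x : Cub e k}
    (hx : ¬ Sm v x) :
    ∃ c ∈ Ov e v, val v (((2 : k) ^ 13) ^ 3) < val v (nm (x + ((2 : k) ^ 13) • c)) := by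
  by_contra h
  simp only [not_exists, not_and, not_lt] at h
  have p2 : 0 < val v (2 : k) := zero_lt_iff.2 ((Valuation.ne_zero_iff _).2 two_ne_zero)
  have key : ∀ c ∈ Ov e v, val v (tr (x * adj c)) ≤ val v (2 : k) ^ 12 := fun c hc => by
    have h1 : val v (2 * ((2 : k) ^ 13) ^ 2 * tr (x * adj c)) ≤ val v (((2 : k) ^ 13) ^ 3) := by
      rw [dfc_nm_second]
      refine Valuation.map_sub_le _ (Valuation.map_add_le _ (h c hc) (h _ (neg_mem hc))) ?_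
      rw [map_mul]
      exact (mul_le_of_le_one_left' hv.le).trans (h 0 (zero_mem _))
    have h2 : ((2 : k) ^ 13) ^ 3 = 2 * ((2 : k) ^ 13) ^ 2 * 2 ^ 12 := by norm_num
    rw [h2, map_mul _ _ (tr _), map_mul _ _ (2 ^ 12), map_pow _ _ 12] at h1
    exact le_of_mul_le_mul_left h1 (zero_lt_iff.2 ((Valuation.ne_zero_iff _).2 (by norm_num)))
  have k0 := key 1 (one_mem _)
  have k1 := key th th_mem_Ov
  have k2 := key (1 + th) (add_mem (one_mem _) th_mem_Ov)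
  have hd : val v (2 : k) ^ 12 < val v ((disc e : ℤ) : k) :=
    lt_of_lt_of_le (pow_lt_pow_right_of_lt_one₀ p2 hv (by norm_num))
      (dfc_pow_le_val hv 11 _ ht.not_dvd_disc)
  have fin : ∀ (y : k) (a b c : ℤ), ((disc e : ℤ) : k) * y = a * tr (x * adj 1) +
      b * tr (x * adj th) + c * tr (x * adj (1 + th)) → val v y < 1 := fun y a b c hy => by
    have h1 := (dfc_comb k0 k1 k2 a b c).trans_lt hd
    rw [← hy, map_mul] at h1
    by_contra h3
    exact absurd h1 (not_lt.2 (le_mul_of_one_le_right' (not_lt.1 h3)))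
  refine hx ⟨fin _ (9 * e.2 ^ 2 - 6 * e.1 * e.2) (4 * e.1 ^ 2 - 6 * e.1 * e.2) (6 * e.1 * e.2) ?_,
    fin _ (3 * e.1 * e.2 - 2 * e.1 ^ 2) (-2 * e.1 ^ 2 - 9 * e.2) (2 * e.1 ^ 2) ?_,
    fin _ (-2 * e.1 ^ 2 - 9 * e.2) (6 * e.1 - 9 * e.2) (9 * e.2) ?_⟩
  all_goals
    simp only [disc, tr, adj, mul_c0, mul_c2, add_c0, add_c1, add_c2, one_c0, one_c1, one_c2,
      th_c0, th_c1, th_c2]
    push_cast
    ring

/-- an element of small norm can be improved -/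
theorem Tate.dfc_step (ht : Tate e C) (hv : val v (2 : k) < 1) {u : (Cub e k)ˣ}
    (hu : (u : Cub e k) ∈ Ov e v) (hn : val v (nm (u : Cub e k)) < val v (2 : k) ^ 78) :
    ∃ z : (Cub e k)ˣ, ((u * z ^ 2 : (Cub e k)ˣ) : Cub e k) ∈ Ov e v ∧
      val v (nm (u : Cub e k)) < val v (nm ((u * z ^ 2 : (Cub e k)ˣ) : Cub e k)) := by
  obtain ⟨m, -, hx, hx'⟩ := exists_prim v (dfc_ne u⁻¹)
  set x : Cub e k := m • ((u⁻¹ : (Cub e k)ˣ) : Cub e k) with hxd
  have ux : (u : Cub e k) * x = m • 1 := by rw [hxd, mul_smul_comm, Units.mul_inv]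
  obtain ⟨t, htd⟩ : ∃ t : k, t = 2 ^ 13 := ⟨_, rfl⟩
  have t0 : t ≠ 0 := by rw [htd]; norm_num
  have pt : 0 < val v t := zero_lt_iff.2 ((Valuation.ne_zero_iff _).2 t0)
  have t1 : val v t ≤ 1 := by rw [htd, map_pow]; exact pow_le_one' hv.le _
  have hm : val v (m / t ^ 2) ≤ 1 := by
    have h1 : val v m ^ 3 = val v (nm (u : Cub e k)) * val v (nm x) := by
      rw [← map_mul, ← nm_mul, ux, nm_smul, nm_one, mul_one, map_pow]
    have h2 : val v m ^ 3 < (val v t ^ 2) ^ 3 := by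
      rw [h1, htd, map_pow, ← pow_mul, ← pow_mul]
      exact (mul_le_of_le_one_right' (val_nm_le hx)).trans_lt hn
    rw [map_div₀, map_pow, div_le_one₀ (pow_pos pt 2)]
    exact (lt_of_pow_lt_pow_left' 3 h2).le
  obtain ⟨c, hc, h⟩ := ht.exists_shift hv hx'
  rw [← htd] at h
  have h1 : 1 < val v (nm (t⁻¹ • (x + t • c))) := by
    rw [nm_smul, map_mul, inv_pow, map_inv₀, one_lt_inv_mul₀ (by rw [map_pow]; exact pow_pos pt 3)]
    exact h
  have h0 : nm (t⁻¹ • (x + t • c)) ≠ 0 := fun h0 => by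
    rw [h0, map_zero] at h1
    exact not_lt_zero h1
  refine ⟨(isUnit_iff.2 h0).unit, ?_, ?_⟩
  · rw [Units.val_mul, Units.val_pow_eq_pow_val, IsUnit.unit_spec]
    have h2 : (u : Cub e k) * (t⁻¹ • (x + t • c)) ^ 2 =
        (m / t ^ 2) • (x + t • (c + c)) + u * c ^ 2 := by
      have e1 : (u : Cub e k) * (t⁻¹ • (x + t • c)) ^ 2 =
          (t⁻¹ ^ 2) • ((u * x) * (x + t • (c + c))) + (t⁻¹ * t) ^ 2 • (u * c ^ 2) := by
        simp only [Algebra.smul_def, map_mul, map_pow]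
        ring
      rw [e1, ux, inv_mul_cancel₀ t0, one_pow, one_smul, smul_mul_assoc, one_mul, smul_smul,
        inv_pow, inv_mul_eq_div]
    rw [h2]
    exact add_mem (smul_mem_Ov hm (add_mem hx (smul_mem_Ov t1 (add_mem hc hc))))
      (mul_mem hu (pow_mem hc 2))
  · rw [Units.val_mul, Units.val_pow_eq_pow_val, IsUnit.unit_spec, nm_mul, nm_pow, map_mul, map_pow]
    exact lt_mul_of_one_lt_right (zero_lt_iff.2 ((Valuation.ne_zero_iff _).2 (nm_ne_zero u)))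
      (one_lt_pow₀ h1 two_ne_zero)

theorem Tate.dfc_ind (ht : Tate e C) (hv : val v (2 : k) < 1) (n : ℕ) : ∀ u : (Cub e k)ˣ,
    (u : Cub e k) ∈ Ov e v → exp (-(n : ℤ)) ≤ val v (nm (u : Cub e k)) →
    ∃ z : (Cub e k)ˣ, ((u * z ^ 2 : (Cub e k)ˣ) : Cub e k) ∈ Ov e v ∧
      val v (2 : k) ^ 78 ≤ val v (nm ((u * z ^ 2 : (Cub e k)ˣ) : Cub e k)) := by
  induction n with
  | zero =>
    intro u hu hn
    refine ⟨1, by simpa using hu, ?_⟩
    rw [one_pow, mul_one]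
    exact (pow_le_one' hv.le _).trans (by simpa using hn)
  | succ n ih =>
    intro u hu hn
    rcases le_or_gt (val v (2 : k) ^ 78) (val v (nm (u : Cub e k))) with h | h
    · exact ⟨1, by simpa using hu, by rwa [one_pow, mul_one]⟩
    obtain ⟨z, h1, h2⟩ := ht.dfc_step hv hu h
    obtain ⟨w, h3, h4⟩ := ih (u * z ^ 2) h1 (by
      have h5 := hn.trans_lt h2
      rw [← exp_log ((Valuation.ne_zero_iff (val v)).2 (nm_ne_zero (u * z ^ 2)))] at h5 ⊢
      rw [exp_lt_exp] at h5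
      rw [exp_le_exp]
      omega)
    rw [mul_assoc, ← mul_pow] at h3 h4
    exact ⟨z * w, h3, h4⟩

theorem Tate.dfc (ht : Tate e C) {v : P k} (hv : val v (2 : k) < 1) (d : (Cub e k)ˣ) :
    ∃ z : (Cub e k)ˣ, ((d * z ^ 2 : (Cub e k)ˣ) : Cub e k) ∈ Ov e v ∧
      ((2 ^ 78 : ℕ) : k) • (((d * z ^ 2)⁻¹ : (Cub e k)ˣ) : Cub e k) ∈ Ov e v := by
  obtain ⟨y, hy⟩ : ∃ y : (Cub e k)ˣ, ((d * y ^ 2 : (Cub e k)ˣ) : Cub e k) ∈ Ov e v := by
    obtain ⟨c, c0, hc, -⟩ := exists_prim v (dfc_ne d)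
    rcases le_total (val v c) 1 with h | h
    · refine ⟨Units.map (algebraMap k (Cub e k)).toMonoidHom (Units.mk0 c c0), ?_⟩
      convert smul_mem_Ov h hc using 1
      simp only [Algebra.smul_def, Units.val_mul, Units.val_pow_eq_pow_val, Units.coe_map,
        Units.val_mk0, RingHom.toMonoidHom_eq_coe, MonoidHom.coe_coe]
      ring
    · refine ⟨1, ?_⟩
      have h2 := smul_mem_Ov (a := c⁻¹) (by rw [map_inv₀]; exact inv_le_one_of_one_le₀ h) hc
      rwa [smul_smul, inv_mul_cancel₀ c0, one_smul, ← mul_one d, ← one_pow 2] at h2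
  obtain ⟨n, hn⟩ := Val_exists_exp_le ((Valuation.ne_zero_iff (val v)).2 (nm_ne_zero (d * y ^ 2)))
  obtain ⟨z, h1, h2⟩ := ht.dfc_ind hv n _ hy hn
  rw [mul_assoc, ← mul_pow] at h1 h2
  refine ⟨y * z, h1, ?_⟩
  generalize d * (y * z) ^ 2 = u at h1 h2
  have h3 : ((u⁻¹ : (Cub e k)ˣ) : Cub e k) = (nm (u : Cub e k))⁻¹ • adj (u : Cub e k) := by
    refine Units.inv_eq_of_mul_eq_one_right ?_
    rw [mul_smul_comm, mul_adj, Algebra.algebraMap_eq_smul_one, smul_smul,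
      inv_mul_cancel₀ (nm_ne_zero u), one_smul]
  rw [h3, smul_smul]
  refine smul_mem_Ov ?_ (adj_mem_Ov h1)
  rw [map_mul, map_inv₀, mul_inv_le_iff₀ (zero_lt_iff.2 ((Valuation.ne_zero_iff _).2
    (nm_ne_zero u))), one_mul, Nat.cast_pow, map_pow, Nat.cast_ofNat]
  exact h2

end Pool.Agent.Lib.MP_775b3b_nt
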