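import Pool.Agent.Lib.MP_775b3b_nt.M2.L1

/-! Local isotropy at two. -/

namespace Pool.Agent.Lib.MP_775b3b_nt

open Cub MP_439fea_co WithZero Filter

variable {e : ℤ × ℤ} {C : ℤ} {k : Type} [Field k] [NumberField k]

theorem exists_small (v : P k) (a : k) : ∃ m : k, m ≠ 0 ∧ val v (m ^ 2 * a) ≤ 1 := by
  rcases le_or_gt (val v a) 1 with h | h
  · exact ⟨1, one_ne_zero, by simpa using h⟩
  · have h0 : a ≠ 0 := (val v).ne_zero_iff.1 (zero_lt_one.trans h).ne'
    refine ⟨a⁻¹, inv_ne_zero h0, ?_⟩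
    rw [sq, mul_assoc, inv_mul_cancel₀ h0, mul_one, map_inv₀]
    exact inv_le_one_of_one_le₀ h.le

/-- a binary subform whose discriminant is a local square -/
theorem locIso_of_disc {v : P k} {d x y : Cub e k}
    (h : SqK (val v) (Bf d x y ^ 2 - Bf d x x * Bf d y y)) : LocIso v d := by
  have hl : ∀ (a b c f : k), Bf d (a • x + b • y) (c • x + f • y) =
      a * c * Bf d x x + (a * f + b * c) * Bf d x y + b * f * Bf d y y := fun a b c f => by
    simp [Bf]
    ring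
  have h4 : (4 : k) ≠ 0 := by norm_num
  rcases eq_or_ne (Bf d y y) 0 with hc | hc
  · obtain ⟨m, m0, hm⟩ := exists_small v (Bf d x x)
    have hb : Bf d x y ≠ 0 := fun h0 => h.ne (by simp [h0, hc])
    refine ⟨(0 : k) • x + (m * Bf d x y)⁻¹ • y, m • x + (0 : k) • y, ?_, ?_, ?_⟩ <;> rw [hl, hc]
    · convert (val v).map_one using 2
      field_simp
      ring
    · convert hm using 2
      ring
    · simpa using val_pos_of_ne (val v) h4
  · obtain ⟨m, m0, hm⟩ := exists_small v (Bf d y y)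
    obtain ⟨n, h1, h2⟩ := h.arb (γ := val v (4 * (m ^ 2 * Bf d y y *
      (Bf d x y ^ 2 - Bf d x x * Bf d y y)))) ((val v).ne_zero_iff.2
        (mul_ne_zero h4 (mul_ne_zero (mul_ne_zero (pow_ne_zero 2 m0) hc) h.ne)))
    have n0 : n ≠ 0 := fun h0 => h1.ne (by simp [h0])
    refine ⟨(m * n)⁻¹ • x + ((n - Bf d x y) / (m * n * Bf d y y)) • y, (0 : k) • x + m • y,
      ?_, ?_, ?_⟩ <;> rw [hl]
    · convert (val v).map_one using 2
      field_simp
      ring
    · convert hm using 2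
      ring
    · rw [map_mul, map_mul, h1.val_eq, ← map_mul] at h2
      have h3 := val_pos_of_ne (val v)
        (mul_ne_zero (mul_ne_zero (pow_ne_zero 2 m0) hc) (pow_ne_zero 2 n0))
      refine lt_of_mul_lt_mul_right (lt_of_eq_of_lt ?_ h2) h3.le
      rw [← map_mul, ← Valuation.map_neg]
      congr 1
      field_simp
      ring

theorem L2m_iso (ht : Tate e C) {v : P k} (hv : val v (2 : k) < 1) {d : (Cub e k)ˣ}
    (hn : d ∈ nsq e k) (hd : d ∈ L2m e (val v)) : LocIso v (d : Cub e k) := by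
  have := ht.neBot
  obtain ⟨t, hn⟩ := hn
  have t0 : t ≠ 0 := fun h0 => nm_ne_zero d (by simp [hn, h0])
  obtain ⟨γ, g0, hγ⟩ := ev_lower hv (nm_ne_zero d)
  have hb : Bdd (val v) fun r => (d : Cub e k).c1 + 2 * (d : Cub e k).c2 * (r : k) :=
    (Bdd.const _).add ((Bdd.const _).mul Bdd.cast)
  obtain ⟨r, h1, h2, ⟨s, hs, h3, h4⟩, h5⟩ := ((hd hv).and (hγ.and (ht.ev.and (hb.small (e := e) hv
    (mul_ne_zero ((val v).ne_zero_iff.2 (by norm_num : (4 : k) ≠ 0)) g0))))).exists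
  have h6 := ht.lo
  have h7 : Ap (val v) ((3 * r ^ 2 + e.1 : ℤ) : k) ((9 * s ^ 2 : ℤ) : k) :=
    ap_int hv (j := 0) (fun h => by
      rcases Int.prime_two.dvd_or_dvd (show 2 ∣ 9 * s ^ 2 by simpa using h) with h | h
      · omega
      · have := Int.prime_two.dvd_of_dvd_pow h
        omega) (by
      rw [hs, mul_pow]
      omega)
  have h8 : SqK (val v) ((3 * r ^ 2 + e.1 : ℤ) : k) := ⟨3 * s, by
    convert h7 using 1
    push_cast
    ring⟩
  have h9 : Ap (val v) ((d : Cub e k) * tau e (r : k) * tau e (r : k)).c2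
      (evr (r : k) (d : Cub e k) * ((3 * r ^ 2 + e.1 : ℤ) : k)) := by
    rw [Ap, Valuation.map_sub_swap, map_mul, map_mul, val_odd hv (n := 3 * r ^ 2 + e.1) (by
      have := ht.a
      rw [hs, mul_pow]
      omega), mul_one]
    refine lt_of_eq_of_lt ?_ (h5.trans_le (mul_le_mul_right h2 _))
    congr 1
    simp [tau, evr, fv]
    ring
  refine locIso_of_disc (x := adj (d : Cub e k) * ⟨-r, 1, 0⟩)
    (y := adj (d : Cub e k) * ⟨-r ^ 2, 0, 1⟩) ?_
  have e1 : ∀ x y : Cub e k, Bf (d : Cub e k) (adj (d : Cub e k) * x) (adj (d : Cub e k) * y) =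
      t ^ 2 * (adj (d : Cub e k) * x * y).c2 := fun x y => by
    rw [Bf, ← mul_assoc (d : Cub e k), mul_adj, hn, Algebra.algebraMap_eq_smul_one, smul_mul_assoc,
      one_mul, smul_mul_assoc, smul_c2, smul_eq_mul, mul_left_comm x, mul_assoc]
  have e2 : adj (adj (d : Cub e k)) = t ^ 2 • (d : Cub e k) := by
    rw [← hn]
    ext <;> simp [adj, nm] <;> ring
  have e3 : cross (⟨-r, 1, 0⟩ : Cub e k) ⟨-r ^ 2, 0, 1⟩ = tau e (r : k) := by
    ext <;> simp [cross, tau]
  have e4 := adj_cross_sq (adj (d : Cub e k)) ⟨-r, 1, 0⟩ ⟨-r ^ 2, 0, 1⟩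
  rw [e2, e3, smul_mul_assoc, smul_mul_assoc, smul_c2, smul_eq_mul] at e4
  rw [e1, e1, e1]
  convert (sqK_sq (pow_ne_zero 3 t0)).mul ((h1.mul h8).of_ap h9) using 1
  linear_combination (-t ^ 4) * e4

end Pool.Agent.Lib.MP_775b3b_nt
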