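import Pool.Agent.Lib.MP_775b3b_nt.M2.Defs
import Pool.Agent.Lib.MP_775b3b_nt.M2.LIso
import Pool.Agent.Lib.MP_775b3b_nt.M2.LDfc
import Pool.Agent.Lib.MP_775b3b_nt.YKey
import Pool.Agent.Lib.MP_775b3b_nt.YTow
import Pool.Agent.Lib.MP_775b3b_nt.ZStep

/-! The key lemma for curves with multiplicative reduction at two. -/

namespace Pool.Agent.Lib.MP_775b3b_nt

open Cub MP_439fea_co WithZero

variable {e : ℤ × ℤ} {k : Type} [Field k] [NumberField k] {Λ Ω : Set (P k)}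

theorem NiceM.loc (h : NiceM e Λ) {d : (Cub e k)ˣ} {v : P k} (hn : d ∈ nsq e k)
    (h2 : d ∈ L2m e (val v)) (hT : v ∈ Λ → d ∈ Tv e v (rg e (pr v)) ∨ d ∈ usv e v)
    (hU : v ∉ Λ → pr v ≠ 2 → d ∈ usv e v) : LocIso v (d : Cub e k) := by
  by_cases hv : val v (2 : k) < 1
  · obtain ⟨C, hC⟩ := h.two
    exact L2m_iso hC hv hn h2
  · by_cases hD : v ∈ Λ
    · exact (hT hD).elim (h.ty v hD).iso (usv_iso (ZKey_two hv))
    · exact usv_iso (ZKey_two hv) (hU hD fun h0 => hv (pr_eq_two.1 h0))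

theorem NiceM.iso (h : NiceM e Λ) {d : (Cub e k)ˣ} (hd : d ∈ ZM e Λ) : Iso (d : Cub e k) := by
  obtain ⟨h1, h2, h3, h4⟩ := mem_ZM.1 hd
  obtain ⟨ν, hν⟩ := id h1
  obtain ⟨ε, hε⟩ := exists_eps (disc_ne_zero_of_pos h.pos) (nsq_le_pos h.pos h1) hν
  have hν0 : ν ≠ 0 := fun h0 => nm_ne_zero d (by rw [hν, h0]; ring)
  exact exists_isotropic hν hν0 hε fun v => h.loc h1 (h2 v) (fun hv => Or.inl (h3 v hv)) (h4 v)

theorem NiceM.dfc (h : NiceM e Λ) {n : ℕ} (h2 : 2 ^ 78 ∣ n) (hn : ∀ v ∈ Λ, pr v ∣ n)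
    {d : (Cub e k)ˣ} (hd : d ∈ ZM e Λ) : Dfc n d := by
  intro p
  obtain ⟨-, -, h3, h4⟩ := mem_ZM.1 hd
  refine glue n p fun v _ => ?_
  have easy : d ∈ usv e v → ∃ z : (Cub e k)ˣ, ((d * z ^ 2 : (Cub e k)ˣ) : Cub e k) ∈ Ov e v ∧
      (n : k) • (((d * z ^ 2)⁻¹ : (Cub e k)ˣ) : Cub e k) ∈ Ov e v := fun ⟨z, h1, h2⟩ =>
    ⟨z, h1, smul_mem_Ov (val_natCast_le_one v n) h2⟩
  by_cases hl : v ∈ Λ
  · rcases h3 v hl with h5 | ⟨z, h5⟩
    · exact easy (sqv_le_usv h5)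
    · have hf := (h.ty v hl).unif
      set r := rg e (pr v) with hr
      have hf0 : fv e (r : k) ≠ 0 := (val v).ne_zero_iff.1 (hf ▸ exp_ne_zero)
      have a1 := h5.val_nm.1
      have a2 := inv_mem_Ov a1 h5.val_nm.2
      have e1 : d * (tauU e k r * z) ^ 2 = tauU e k r * (d * tauU e k r * z ^ 2) := by
        rw [mul_pow, sq (tauU e k r)]
        ac_rfl
      have e2 : (((tauU e k r)⁻¹ : (Cub e k)ˣ) : Cub e k) = (fv e (r : k))⁻¹ • lin e (r : k) := by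
        refine Units.inv_eq_of_mul_eq_one_right ?_
        rw [tauU_val hf0, mul_smul_comm, mul_comm, lin_mul_tau, Algebra.algebraMap_eq_smul_one,
          smul_smul, inv_mul_cancel₀ hf0, one_smul]
      have hn' : val v ((n : k) * (fv e (r : k))⁻¹) ≤ 1 := by
        obtain ⟨m, hm⟩ := hn v hl
        rw [map_mul, map_inv₀, hf, mul_inv_le_iff₀ (zero_lt_iff.2 exp_ne_zero), one_mul, hm,
          Nat.cast_mul, map_mul]
        exact (mul_le_of_le_one_right' (val_natCast_le_one v m)).trans (val_le_exp (val_pr v))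
      refine ⟨tauU e k r * z, ?_, ?_⟩
      · rw [e1, Units.val_mul, tauU_val hf0]
        exact mul_mem (tau_mem_Ov (val_int_le v r)) a1
      · rw [e1, mul_inv, Units.val_mul, e2, ← smul_mul_assoc, smul_smul]
        exact mul_mem (smul_mem_Ov hn' (lin_mem_Ov (val_int_le v r))) a2
  · by_cases hv : pr v = 2
    · obtain ⟨C, hC⟩ := h.two
      obtain ⟨z, a1, a2⟩ := hC.dfc (pr_eq_two.1 hv) d
      obtain ⟨m, rfl⟩ := h2
      refine ⟨z, a1, ?_⟩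
      rw [Nat.cast_mul, mul_comm, mul_smul]
      exact smul_mem_Ov (val_natCast_le_one v m) a2
    · exact easy (h4 v hl hv)

theorem NiceM.esc (h : NiceM e Λ) {n : ℕ} (h2 : 2 ^ 78 ∣ n) (hn : ∀ v ∈ Λ, pr v ∣ n)
    {Q : Finset ℕ} {d : (Cub e k)ˣ} (hd : d ∈ ZM e Λ) (h0 : d ∉ SQ e k)
    (hQ : ∀ l ∈ Q, Ty e l → d ∈ St e k l) : Esc n Q d :=
  ⟨(mem_ZM.1 hd).1, nsq_le_pos h.pos (mem_ZM.1 hd).1, h.dfc h2 hn hd, h.iso hd, h0, hQ⟩

theorem TyA.pr_ne {v : P k} {r : ℤ} (h : TyA e v r) : pr v ≠ 2 := fun h0 =>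
  (pr_eq_two.1 h0).ne h.two

theorem key_M (h : NiceM e (Λ ∪ Ω)) (hΩ : ∀ v ∈ Ω, v ∉ Λ) {s t : (Cub e k)ˣ} (hs : s ∈ ZM e Λ)
    (ht : t ∈ ZM e (Λ ∪ Ω)) {w : P k} (hw : w ∈ Ω) (hsw : s ∉ sqv e w)
    (ho : ∀ v ∈ Ω, v ≠ w → s ∈ sqv e v ∨ t ∈ sqv e v) : t ∈ sqv e w := by
  obtain ⟨s1, s2, s3, s4⟩ := mem_ZM.1 hs
  obtain ⟨t1, t2, t3, t4⟩ := mem_ZM.1 ht
  have hsu : ∀ v ∈ Ω, s ∈ usv e v := fun v hv => s4 v (hΩ v hv) (h.ty v (Or.inr hv)).pr_ne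
  have hty := h.ty w (Or.inr hw)
  rcases mem_Tv.1 (t3 w (Or.inr hw)) with h1 | h1
  · exact h1
  exfalso
  obtain ⟨hani, hodd⟩ := hty.aniso (hsu w hw) s1 hsw h1
  have hst : s * t ∈ nsq e k := mul_mem s1 t1
  obtain ⟨ν, hν⟩ := id hst
  obtain ⟨ε, hε⟩ := exists_eps (disc_ne_zero_of_pos h.pos) (nsq_le_pos h.pos hst) hν
  have hν0 : ν ≠ 0 := fun h0 => nm_ne_zero (s * t) (by rw [hν, h0]; ring)
  refine hani (exists_isotropic1 hν hν0 hε w hty.two (fun v hv => ?_) hodd)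
  refine h.loc hst (mul_mem (s2 v) (t2 v)) (fun hl => ?_) fun hl h2 =>
    mul_mem (s4 v (fun h0 => hl (Or.inl h0)) h2) (t4 v hl h2)
  rcases id hl with h3 | h3
  · exact Or.inl (mul_mem (s3 v h3) (t3 v hl))
  · rcases ho v h3 hv with h4 | h4
    · exact Or.inl (mul_mem (sqv_le_Tv h4) (t3 v hl))
    · exact Or.inr (mul_mem (hsu v h3) (sqv_le_usv h4))

theorem mem_ZM_of_sqv {t : (Cub e k)ˣ} (ht : t ∈ ZM e (Λ ∪ Ω)) (h : ∀ v ∈ Ω, t ∈ sqv e v) :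
    t ∈ ZM e Λ := by
  obtain ⟨t1, t2, t3, t4⟩ := mem_ZM.1 ht
  refine mem_ZM.2 ⟨t1, t2, fun v hv => t3 v (Or.inl hv), fun v hv h2 => ?_⟩
  by_cases hl : v ∈ Ω
  · exact sqv_le_usv (h v hl)
  · exact t4 v (fun h0 => h0.elim hv hl) h2

theorem step_M {w : P k} (h : NiceM e (insert w Λ)) (hw : w ∉ Λ) {s : (Cub e k)ˣ}
    (hs : s ∈ ZM e Λ) (hsw : s ∉ sqv e w) : ZM e (insert w Λ) ≤ ZM e Λ ⊓ sqv e w := by
  intro t ht
  rw [← Set.union_singleton] at h ht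
  have key : t ∈ sqv e w := key_M h (by rintro _ rfl; exact hw) hs ht rfl hsw
    fun v hv hne => absurd hv hne
  exact ⟨mem_ZM_of_sqv ht (by rintro _ rfl; exact key), key⟩

theorem uz_mem_ZM (φ : k →+* k) {D : Finset ℕ} {d : (Cub e k)ˣ} (h : d ∈ ZM e (Pls D k)) :
    uz e φ d ∈ ZM e (Pls D k) := by
  obtain ⟨h1, h2, h3, h4⟩ := mem_ZM.1 h
  refine mem_ZM.2 ⟨uz_mem_nsq φ h1, L2m_up_all φ h2, fun w hw => ?_, fun w hw hw' => ?_⟩
  all_goals obtain ⟨v, ho⟩ := exists_over_end φ w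
  · rw [ho.pr_eq]
    exact ho.Tv (h3 v (show pr v ∈ D from ho.pr_eq ▸ hw))
  · exact ho.usv (h4 v (fun h0 => hw (show pr w ∈ D from ho.pr_eq ▸ h0)) (ho.pr_eq ▸ hw'))

/-- killing the Selmer group over the rationals -/
theorem kill_rat {Λ : Set (P ℚ)} {Q : Finset ℕ} {n : ℕ} (h2 : 2 ^ 78 ∣ n)
    (hn : ∀ v ∈ Λ, pr v ∣ n) (hQ : ∀ l ∈ Q, l.Prime) (hd : ∀ v ∈ Λ, pr v ∉ Q)
    (h : ∀ D ⊆ Q, (∀ l ∈ D, Ty e l) → NiceM e (Λ ∪ Pls D ℚ))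
    (b : ¬ ∃ d : (Cub e ℚ)ˣ, Esc n Q d) :
    ∃ D ⊆ Q, (∀ l ∈ D, Ty e l) ∧ ZM e (Λ ∪ Pls D ℚ) ≤ SQ e ℚ := by
  obtain ⟨D, hD, hT, hZ⟩ := exists_kill (fun D => ZM e (Λ ∪ Pls D ℚ)) (St e ℚ) (SQ e ℚ) (Ty e) ∅ Q
    (Finset.disjoint_empty_left _)
    (fun s hs h0 => by
      by_contra hc
      push Not at hc
      refine b ⟨s, (h ∅ (Finset.empty_subset _) (by simp)).esc h2 (fun v hv => ?_) hs h0 hc⟩
      rcases hv with hv | hv
      · exact hn v hv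
      · exact absurd hv (Finset.notMem_empty _))
    (fun D hD hT l hl hTl hn s hs hst => by
      rw [Finset.empty_union] at hn hs ⊢
      have hp := hQ l hl
      obtain ⟨w, hw⟩ := exists_over_prime ℚ hp
      have hw' := pr_eq hp hw
      have a1 := h (insert l D) (Finset.insert_subset hl hD)
        (Finset.forall_mem_insert _ _ _ |>.2 ⟨hTl, hT⟩)
      rw [St_rat hw'] at hst ⊢
      rw [pls_insert_rat hw', Set.union_insert] at a1 ⊢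
      refine step_M a1 ?_ hs hst
      rintro (h | h)
      · exact hd w h (hw' ▸ hl)
      · exact hn (hw' ▸ h))
  rw [Finset.empty_union] at hZ
  exact ⟨D, hD, hT, hZ⟩

variable {K : Type} [Field K] [NumberField K]

/-- the proof of `Setup.step` -/
theorem Setup.stepM (S : Setup K K) {D : Finset ℕ} {l : ℕ} (hp : l.Prime)
    (h : NiceM e (Pls (insert l D) K)) (hV : ∀ v : P K, pr v = l → TyV e v (rg e l)) (hl : l ∉ D)
    {s : (Cub e K)ˣ} (hs : s ∈ ZM e (Pls D K) ⊓ S.TY e) (hn : s ∉ St e K l) :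
    ZM e (Pls (insert l D) K) ⊓ S.TY e ≤ (ZM e (Pls D K) ⊓ S.TY e) ⊓ St e K l := by
  have := S.gal
  have hU : Pls (insert l D) K = Pls D K ∪ {v | val v (l : K) < 1} := by
    ext v
    refine Finset.mem_insert.trans (or_comm.trans (or_congr_right ?_))
    exact ⟨val_lt_of_pr, pr_eq hp⟩
  have hΩ : ∀ (g : K ≃ₐ[ℚ] K) (v : P K), val v (l : K) < 1 → val (g • v) (l : K) < 1 :=
    fun g v hv => by rwa [(over_smul g v).natCast]
  have hsq : ∀ (g : K ≃ₐ[ℚ] K) (v : P K) (d : (Cub e K)ˣ),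
      uz e (g : K →+* K) d ∈ sqv e v ↔ d ∈ sqv e (g⁻¹ • v) := fun g v d => by
    rw [← sqv_smul_iff g (g⁻¹ • v) d, smul_inv_smul]
  have hnD : ∀ v : P K, val v (l : K) < 1 → v ∉ Pls D K := fun v hv h0 =>
    hl (pr_eq hp hv ▸ (h0 : pr v ∈ D))
  have hex : ∀ x ∈ S.TY e, x ∈ ZM e (Pls D K) ∨ x ∈ ZM e (Pls (insert l D) K) →
      ∃ v : P K, val v (l : K) < 1 ∧ x ∈ sqv e v := by
    intro x hx hZ
    by_contra hc
    push Not at hc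
    obtain ⟨v, hv⟩ := exists_over_prime K hp
    have hv' := pr_eq hp hv
    have hm : v ∈ Pls (insert l D) K := hU ▸ Or.inr hv
    have h1 : ∀ j, uz e (S.s j) x ∉ sqv e v := fun j hj => by
      obtain ⟨g, hg⟩ := S.exists_aut j
      rw [← hg, hsq] at hj
      exact hc _ (hΩ _ _ hv) hj
    have h2 : uz e (S.s 0) x * uz e (S.s 1) x * uz e (S.s 2) x ∈ sqv e v := by
      rw [← S.uz_cor]
      exact SQ_le_sqv (uz_mem_SQ _ hx)
    refine h1 2 ((Subgroup.mul_mem_cancel_left _ ?_).1 h2)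
    rcases hZ with hZ | hZ
    · have h3 : ∀ j, uz e (S.s j) x ∈ usv e v := fun j =>
        (mem_ZM.1 (uz_mem_ZM (S.s j) hZ)).2.2.2 v (hnD v hv) (h.ty v hm).pr_ne
      exact (hV v hv').mul_mem_sqv (h3 0)
        (mem_ZM.1 (uz_mem_ZM _ hZ)).1 (h3 1) (mem_ZM.1 (uz_mem_ZM _ hZ)).1 (h1 0) (h1 1)
    · have h3 : ∀ j, uz e (S.s j) x * tauU e K (rg e (pr v)) ∈ sqv e v := fun j =>
        (mem_Tv.1 ((mem_ZM.1 (uz_mem_ZM (S.s j) hZ)).2.2.1 v hm)).resolve_left (h1 j)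
      have h4 := mul_mem (h3 0) (h3 1)
      rw [mul_mul_mul_comm, ← sq] at h4
      exact (Subgroup.mul_mem_cancel_right _ (SQ_le_sqv (sq_mem_SQ _))).1 h4
  rintro t ⟨ht, ht'⟩
  have h1 : t ∈ St e K l := by
    by_contra hc
    rw [mem_St] at hn hc
    push Not at hn hc
    obtain ⟨x, hx, hx'⟩ := hex s hs.2 (Or.inl hs.1)
    obtain ⟨y, hy, hy'⟩ := hex t ht' (Or.inr ht)
    obtain ⟨g, w, h2, h3, h4⟩ := comb3 (G := K ≃ₐ[ℚ] K) {v : P K | val v (l : K) < 1}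
      {v | val v (l : K) < 1 ∧ s ∉ sqv e v} {v | val v (l : K) < 1 ∧ t ∉ sqv e v}
      (finite_over_prime ⟨l, hp⟩) ((ncard_over_prime_le ⟨l, hp⟩).trans S.finrank_eq.le) hΩ
      (fun x hx y hy => exists_smul_eq_of_prime hp hx hy) (fun _ h => h.1) (fun _ h => h.1)
      hn hc ⟨x, hx, fun h => h.2 hx'⟩ ⟨y, hy, fun h => h.2 hy'⟩
    refine h3.2 (key_M (hU ▸ h) hnD (uz_mem_ZM (g : K →+* K) hs.1) (hU ▸ ht) h3.1
      (by rw [hsq]; exact h2.2) fun v hv hne => ?_)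
    rcases h4 v hv hne with h5 | h5
    · left
      rw [hsq]
      by_contra h6
      exact h5 ⟨hΩ _ _ hv, h6⟩
    · right
      by_contra h6
      exact h5 ⟨hv, h6⟩
  exact ⟨⟨mem_ZM_of_sqv (hU ▸ ht) (mem_St.1 h1), ht'⟩, h1⟩

end Pool.Agent.Lib.MP_775b3b_nt
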