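import Pool.Agent.Lib.MP_775b3b_nt.M2.LDefs

/-! Basic properties of the local condition at two. -/

namespace Pool.Agent.Lib.MP_775b3b_nt

open Cub MP_439fea_co WithZero Filter

section Basic

variable {k k' k'' : Type*} [Field k] [Field k'] [Field k''] {ν : Valuation k ℤᵐ⁰}
  {μ : Valuation k' ℤᵐ⁰} {φ : k →+* k'} {a b c C C' : k}

theorem val_pos_of_ne (ν : Valuation k ℤᵐ⁰) (h : a ≠ 0) : 0 < ν a :=
  zero_lt_iff.2 ((Valuation.ne_zero_iff ν).2 h)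

theorem ap_of_lt (h : ν (a - b) < ν (4 * a)) : Ap ν a b :=
  Ap.symm (by rwa [Ap, Valuation.map_sub_swap])

theorem Ap.lt (h : Ap ν a b) : ν (a - b) < ν (4 * a) := by
  have h1 := h.symm
  rwa [Ap, Valuation.map_sub_swap] at h1

theorem Ap.mul_right (h : Ap ν a b) (hc : c ≠ 0) : Ap ν (a * c) (b * c) := by
  simpa only [mul_comm] using h.mul_left hc

theorem le_exp_mul {x y : ℤᵐ⁰} (h : x < y) : x ≤ exp (-1 : ℤ) * y := by
  rcases eq_or_ne x 0 with rfl | h0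
  · exact zero_le
  have h1 : y ≠ 0 := (zero_le.trans_lt h).ne'
  rw [← exp_log h0, ← exp_log h1] at h ⊢
  rw [exp_lt_exp] at h
  rw [← exp_add, exp_le_exp]
  omega

theorem exp_neg_one_lt : (exp (-1 : ℤ) : ℤᵐ⁰) < 1 := by
  rw [← exp_zero, exp_lt_exp]
  norm_num

/-- Newton iteration -/
theorem SqK.arb [CharZero k] (h : SqK ν a) {γ : ℤᵐ⁰} (hγ : γ ≠ 0) :
    ∃ y : k, Ap ν a (y ^ 2) ∧ ν (a - y ^ 2) < γ := by
  have h4 : 0 < ν (4 * a) := val_pos_of_ne ν (mul_ne_zero (by norm_num) h.ne)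
  have key : ∀ n : ℕ, ∃ y : k, Ap ν a (y ^ 2) ∧
      ν (a - y ^ 2) ≤ exp (-1 : ℤ) ^ n * ν (4 * a) := by
    intro n
    induction n with
    | zero =>
      obtain ⟨y, hy⟩ := h
      exact ⟨y, hy, by simpa using hy.lt.le⟩
    | succ n ih =>
      obtain ⟨y, hy, h1⟩ := ih
      have y0 : y ≠ 0 := fun h0 => hy.ne (by simp [h0])
      have h2 : ν (a - ((y ^ 2 + a) / (2 * y)) ^ 2) * ν (4 * a) = ν (a - y ^ 2) * ν (a - y ^ 2) := by
        rw [map_mul ν 4 a, hy.val_eq, ← map_mul, ← map_mul, ← map_mul, ← Valuation.map_neg]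
        congr 1
        field_simp
        ring
      have h3 : ν (a - ((y ^ 2 + a) / (2 * y)) ^ 2) ≤ exp (-1 : ℤ) ^ (n + 1) * ν (4 * a) := by
        refine le_of_mul_le_mul_right ?_ h4
        rw [h2]
        refine (mul_le_mul' (le_exp_mul hy.lt) h1).trans_eq ?_
        rw [pow_succ]
        ac_rfl
      exact ⟨_, ap_of_lt (h3.trans_lt (mul_lt_of_lt_one_left h4
        (pow_lt_one₀ zero_le exp_neg_one_lt n.succ_ne_zero))), h3⟩
  obtain ⟨n, hn⟩ := exists_pow_lt exp_neg_one_lt (div_ne_zero hγ h4.ne')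
  obtain ⟨y, h1, h2⟩ := key n
  exact ⟨y, h1, h2.trans_lt ((lt_div_iff₀ h4).1 hn)⟩

theorem NmK.ne (h : NmK ν C a) : a ≠ 0 := h.choose_spec.choose_spec.ne'

theorem NmK.of_ap (h : NmK ν C b) (h' : Ap ν a b) : NmK ν C a :=
  h.imp fun _ hX => hX.imp fun _ hY => h'.trans hY

theorem NmK.mul (h : NmK ν C a) (h' : NmK ν C b) : NmK ν C (a * b) := by
  obtain ⟨X, Y, h1⟩ := h
  obtain ⟨X', Y', h2⟩ := h'
  refine ⟨X * X' + C * Y * Y', X * Y' + X' * Y, ?_⟩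
  convert h1.mul h2 using 1
  ring

theorem SqK.nmK (h : SqK ν a) : NmK ν C a := h.imp fun y hy => ⟨0, by simpa using hy⟩

theorem NmK.cancel (h : NmK ν C a) (h' : NmK ν C (a * b)) : NmK ν C b := by
  obtain ⟨X, Y, hy⟩ := h.mul h'
  have h1 := hy.mul_left (inv_ne_zero (pow_ne_zero 2 h.ne))
  have h2 := h.ne
  refine ⟨X / a, Y / a, ?_⟩
  convert h1 using 1 <;> field_simp

theorem NmK.congr [CharZero k] (hC : SqK ν (C * C')) (h : NmK ν C a) : NmK ν C' a := by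
  obtain ⟨X, Y, h1⟩ := h
  have c0 : C' ≠ 0 := right_ne_zero_of_mul hC.ne
  rcases eq_or_ne Y 0 with rfl | hY
  · exact ⟨X, 0, by simpa using h1⟩
  obtain ⟨y, -, hy⟩ := hC.arb (γ := ν (4 * a * C' / Y ^ 2)) ((Valuation.ne_zero_iff ν).2
    (div_ne_zero (mul_ne_zero (mul_ne_zero (by norm_num) h1.ne') c0) (pow_ne_zero 2 hY)))
  refine ⟨X, y * Y / C', ap_of_lt ?_⟩
  have h2 : a - (X ^ 2 - C' * (y * Y / C') ^ 2) =
      a - (X ^ 2 - C * Y ^ 2) - (C * C' - y ^ 2) * (Y ^ 2 / C') := by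
    field_simp
    ring
  rw [h2]
  refine ν.map_sub_lt h1.lt ?_
  have h3 := mul_lt_mul_of_pos_right hy (val_pos_of_ne ν (div_ne_zero (pow_ne_zero 2 hY) c0))
  rw [← map_mul, ← map_mul] at h3
  convert h3 using 2
  field_simp

theorem Good.congr (h : Good ν C a) (h' : SqK ν (a * b)) : Good ν C b := by
  rcases h with h | h
  · exact Or.inl (h.cancel h')
  · exact Or.inr fun h1 => h (h1.cancel (mul_comm a b ▸ h'.nmK))

theorem Lies.two (h : Lies φ μ ν) : μ 2 < 1 ↔ ν 2 < 1 := by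
  simpa only [map_ofNat, map_one] using h 2 1

theorem Lies.ap (h : Lies φ μ ν) : Ap μ (φ a) (φ b) ↔ Ap ν a b := by
  simpa only [Ap, map_sub φ, map_mul φ, map_ofNat] using h (a - b) (4 * b)

theorem Lies.sqK (h : Lies φ μ ν) (h' : SqK ν a) : SqK μ (φ a) := by
  obtain ⟨y, hy⟩ := h'
  exact ⟨φ y, map_pow φ y 2 ▸ h.ap.2 hy⟩

theorem Lies.nmK (h : Lies φ μ ν) (h' : NmK ν C a) : NmK μ (φ C) (φ a) := by
  obtain ⟨X, Y, hy⟩ := h'
  exact ⟨φ X, φ Y, by simpa only [map_sub, map_mul, map_pow] using h.ap.2 hy⟩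

theorem lies_comap (φ : k →+* k') (μ : Valuation k' ℤᵐ⁰) : Lies φ μ (μ.comap φ) :=
  fun _ _ => Iff.rfl

theorem Lies.comp {ψ : k' →+* k''} {ξ : Valuation k'' ℤᵐ⁰} (h' : Lies ψ ξ μ) (h : Lies φ μ ν) :
    Lies (ψ.comp φ) ξ ν := fun x y => (h' _ _).trans (h x y)

theorem Lies.id {ν' : Valuation k ℤᵐ⁰} (h : Lies φ μ ν) (h' : Lies φ μ ν') :
    Lies (RingHom.id k) ν ν' := fun x y => (h x y).symm.trans (h' x y)

theorem val_odd (h2 : ν 2 < 1) {n : ℤ} (hn : ¬ 2 ∣ n) : ν (n : k) = 1 := by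
  obtain ⟨m, rfl⟩ : ∃ m, n = 1 + 2 * m := ⟨n / 2, by omega⟩
  push_cast
  exact ν.map_one_add_of_lt (by
    rw [map_mul]
    exact (mul_le_of_le_one_right' (val_intCast_le ν m)).trans_lt h2)

theorem le_val_of_not_dvd (h2 : ν 2 < 1) (j : ℕ) {n : ℤ} (hn : ¬ 2 ^ (j + 1) ∣ n) :
    ν 2 ^ j ≤ ν (n : k) := by
  induction j generalizing n with
  | zero => rw [val_odd h2 (by simpa using hn), pow_zero]
  | succ j ih =>
    by_cases h : 2 ∣ n
    · obtain ⟨m, rfl⟩ := h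
      rw [Int.cast_mul, map_mul, pow_succ', Int.cast_ofNat]
      exact mul_le_mul_right (ih fun h1 => hn (pow_succ' (2 : ℤ) _ ▸ mul_dvd_mul_left 2 h1)) _
    · rw [val_odd h2 h]
      exact pow_le_one₀ zero_le h2.le

theorem val_four_eq (ν : Valuation k ℤᵐ⁰) : ν 4 = ν 2 ^ 2 := by
  rw [← map_pow]
  norm_num

theorem two_pow_lt [CharZero k] (h2 : ν 2 < 1) {i j : ℕ} (h : i < j) : ν 2 ^ j < ν 2 ^ i :=
  pow_lt_pow_right_of_lt_one₀ (val_pos_of_ne ν two_ne_zero) h2 h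

theorem ap_int [CharZero k] (h2 : ν 2 < 1) {m n : ℤ} {j : ℕ} (hn : ¬ 2 ^ (j + 1) ∣ n)
    (h : 2 ^ (j + 3) ∣ m - n) : Ap ν (m : k) (n : k) := by
  rw [Ap, ← Int.cast_sub, map_mul, val_four_eq]
  refine ((val_le_of_dvd h).trans_lt (two_pow_lt h2 (by omega : 2 + j < j + 3))).trans_le ?_
  rw [pow_add]
  exact mul_le_mul_right (le_val_of_not_dvd h2 j hn) _

end Basic

section Tate

variable {e : ℤ × ℤ} {C : ℤ}

theorem Tate.exists {C : ℤ} (h1 : 2 ^ 7 ∣ C) (h2 : ¬ 2 ^ 10 ∣ C) {e : ℤ × ℤ}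
    (ha : 2 ^ 13 ∣ e.1 - (-27 - C)) (hb : 2 ^ 13 ∣ e.2 - (54 - 6 * C)) : Tate e C :=
  ⟨h1, h2, by convert ha using 1; ring, by convert hb using 1; ring⟩

theorem Tate.not_four (ht : Tate e C) : ¬ (2 : ℤ) ^ 2 ∣ e.2 := by
  have h1 := ht.lo
  have h2 := ht.b
  omega

theorem Tate.neBot (ht : Tate e C) : (FR e).NeBot := by
  have h1 := ht.lo
  have h2 := ht.a
  have h3 := ht.b
  have key : ∀ n : ℕ, ∃ r : ℤ, 2 ∣ r ∧ 2 ^ (n + 1) ∣ fv e r := by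
    intro n
    induction n with
    | zero => exact ⟨0, dvd_zero _, by simp only [fv, Int.cast_id]; omega⟩
    | succ n ih =>
      obtain ⟨_, ⟨s, rfl⟩, t, ht⟩ := ih
      obtain ⟨a, ha⟩ : ∃ a, e.1 = 2 * a + 1 := ⟨e.1 / 2, by omega⟩
      refine ⟨2 * (s - 2 ^ n * t), dvd_mul_right _ _,
        -t * (6 * s ^ 2 + a) + 6 * s * 2 ^ n * t ^ 2 - 2 * (2 ^ n) ^ 2 * t ^ 3, ?_⟩
      simp only [fv, Int.cast_id, ha, pow_succ] at ht ⊢
      linear_combination ht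
  refine ⟨fun h => ?_⟩
  obtain ⟨n, hn⟩ := (eventually_FR (e := e) (p := fun _ => False)).1 (h ▸ eventually_bot)
  obtain ⟨r, a1, a2⟩ := key n
  exact hn r a1 ((pow_dvd_pow 2 n.le_succ).trans a2)

theorem Tate.ev (ht : Tate e C) : ∀ᶠ r : ℤ in FR e, ∃ s : ℤ, r = 2 * s ∧ 2 ^ 12 ∣ s + 3 ∧
    2 ^ 13 ∣ -3 * s ^ 2 - e.1 - C := by
  have h1 := ht.lo
  have h2 := ht.a
  have h3 := ht.b
  refine eventually_FR.2 ⟨13, ?_⟩
  rintro _ ⟨s, rfl⟩ hr
  have h4 : 2 ^ 13 ∣ (2 * s + 6) * (2 * (2 * s ^ 2 - 6 * s + 18) + e.1) := by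
    have h6 := dvd_sub (dvd_add hr (h2.mul_left 6)) h3
    simp only [fv, Int.cast_id] at h6
    exact (dvd_iff_dvd_of_dvd_sub (by ring_nf; exact dvd_zero _)).1 h6
  have h5 := Int.prime_two.pow_dvd_of_dvd_mul_right 13 (by omega) h4
  obtain ⟨t, ht⟩ : 2 ^ 12 ∣ s + 3 := by omega
  refine ⟨s, rfl, ⟨t, ht⟩, ?_⟩
  obtain rfl : s = 2 ^ 12 * t - 3 := by omega
  have h6 : 2 ^ 13 ∣ 2 ^ 13 * (-3 * t * (2 ^ 11 * t - 3)) - (e.1 + 27 + C) :=
    dvd_sub (dvd_mul_right _ _) h2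
  exact (dvd_iff_dvd_of_dvd_sub (by ring_nf; exact dvd_zero _)).1 h6

variable {k k' : Type*} [Field k] [CharZero k] [Field k'] [CharZero k']
  {ν : Valuation k ℤᵐ⁰} {μ : Valuation k' ℤᵐ⁰} {φ : k →+* k'}

theorem SQ_le_L2m : SQ e k ≤ L2m e ν := by
  rintro d ⟨z, rfl⟩ h2
  filter_upwards [ev_mul h2 (nm_ne_zero z) (nm_ne_zero z)] with r hr
  exact ⟨_, by rwa [sq]⟩

omit [CharZero k] [CharZero k'] in
theorem evr_map (φ : k →+* k') (r : ℤ) (x : Cub e k) :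
    evr (r : k') (map φ x) = φ (evr (r : k) x) := by
  simp [evr]

theorem L2m_up (h : Lies φ μ ν) {d : (Cub e k)ˣ} (hd : d ∈ L2m e ν) : uz e φ d ∈ L2m e μ := by
  intro h2
  filter_upwards [hd (h.two.1 h2)] with r hr
  rw [uz_val, evr_map]
  exact h.sqK hr

theorem Tate.sqK_mul (ht : Tate e C) (h2 : ν 2 < 1) {C' : ℤ} (h : 2 ^ 13 ∣ C' - C) :
    SqK ν ((C' : k) * C) := by
  have h1 : Ap ν (C' : k) (C : k) := ap_int h2 (j := 9) ht.hi ((pow_dvd_pow 2 (by norm_num)).trans h)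
  exact ⟨C, sq (C : k) ▸ h1.mul_right h1.ne⟩

/-- the value at the simple root is a local norm -/
theorem Tate.ev_nmK (ht : Tate e C) (h2 : ν 2 < 1) {d : (Cub e k)ˣ} (hn : d ∈ nsq e k) :
    ∀ᶠ r : ℤ in FR e, NmK ν C (evr (r : k) (d : Cub e k)) := by
  obtain ⟨t, hn⟩ := hn
  filter_upwards [ev_nm h2 (nm_ne_zero d), ht.ev] with r h1 ⟨s, hs, _, h3⟩
  have h4 : NmK ν ((-3 * s ^ 2 - e.1 : ℤ) : k) (n2r (r : k) (d : Cub e k)) := by
    refine ⟨(d : Cub e k).c0 - (r ^ 2 + e.1) * (d : Cub e k).c2 -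
      s * ((d : Cub e k).c1 - r * (d : Cub e k).c2), (d : Cub e k).c1 - r * (d : Cub e k).c2, ?_⟩
    convert Ap.refl (ν := ν) (right_ne_zero_of_mul h1.ne') using 1
    rw [hs, n2r]
    push_cast
    ring
  exact (h4.congr (ht.sqK_mul h2 h3)).cancel (SqK.nmK ⟨t, by rwa [mul_comm, ← hn]⟩)

theorem L2m_desc (ht : Tate e C) (h : Lies φ μ ν) (hT : TD φ μ ν C) {d : (Cub e k)ˣ}
    (hn : d ∈ nsq e k) (hd : uz e φ d ∈ L2m e μ) : d ∈ L2m e ν := by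
  intro h2
  filter_upwards [hd (h.two.2 h2), ht.ev_nmK h2 hn] with r h1 h3
  rw [uz_val, evr_map] at h1
  exact hT _ h1 h3

theorem pt_mem_L2m (ht : Tate e C) {D x y : k} (hD : D ≠ 0) (hG : Good ν C D)
    (hxy : y ^ 2 = x ^ 3 + (e.1 : k) * D ^ 2 * x + (e.2 : k) * D ^ 3) {δ : (Cub e k)ˣ}
    (hδ : (δ : Cub e k) = algebraMap k (Cub e k) x - D • th) : δ ∈ L2m e ν := by
  intro h2
  have hn : nm (δ : Cub e k) = y ^ 2 := by
    rw [hδ, hxy]
    simp [nm]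
    ring
  filter_upwards [ev_nm h2 (nm_ne_zero δ), ht.ev, ht.ev_nmK h2 ⟨y, hn⟩] with r h1 ⟨s, hs, h3, h4⟩ h5
  have e1 : evr (r : k) (δ : Cub e k) = D * ((x / D + s) - 3 * s) := by
    rw [hδ, hs]
    simp [evr]
    field_simp
    ring
  have e2 : n2r (r : k) (δ : Cub e k) =
      D ^ 2 * ((x / D + s) ^ 2 - ((-3 * s ^ 2 - e.1 : ℤ) : k)) := by
    rw [hδ, hs]
    simp [n2r]
    field_simp
    ring
  generalize x / D + s = T at e1 e2
  rcases lt_or_ge (ν T) (ν 4) with h6 | h6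
  · have h7 : Ap ν (T - 3 * s) ((-3 * s : ℤ) : k) := by
      rw [Ap, map_mul, val_odd h2 (by omega), mul_one]
      convert h6 using 2
      push_cast
      ring
    have h8 : Ap ν ((-3 * s : ℤ) : k) ((9 : ℤ) : k) := ap_int h2 (j := 0) (by omega) (by omega)
    have h9 : SqK ν (T - 3 * s) := ⟨3, by
      convert h7.trans h8 using 1
      norm_num⟩
    rw [e1] at h5 ⊢
    exact (hG.resolve_right fun h0 => h0 (h9.nmK.cancel (mul_comm D _ ▸ h5))).mul h9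
  · have h7 : Ap ν (T ^ 2 - ((-3 * s ^ 2 - e.1 : ℤ) : k)) (T ^ 2) := by
      have h8 := ht.lo
      rw [Ap, sub_sub_cancel_left, Valuation.map_neg, map_mul, map_pow]
      refine ((val_le_of_dvd (n := 7) (by omega)).trans_lt
        (two_pow_lt h2 (by norm_num : 6 < 7))).trans_le ?_
      refine le_of_eq_of_le ?_ (mul_le_mul_right (pow_le_pow_left' h6 2) _)
      rw [val_four_eq, ← pow_mul, ← pow_add]
    have h9 : SqK ν (n2r (r : k) (δ : Cub e k)) := e2 ▸ (sqK_sq hD).mul ⟨T, h7⟩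
    exact h9.cancel ⟨y, by rwa [mul_comm, ← hn]⟩

end Tate

section Place

variable {e : ℤ × ℤ} {k k' : Type} [Field k] [NumberField k] [Field k'] [NumberField k']

theorem exists_lies_under (φ : k →+* k') (w : P k') : ∃ v : P k, Lies φ (val w) (val v) := by
  let _ := φ.toAlgebra
  exact ⟨und k w, fun x y => val_algebraMap_lt_iff w x y⟩

theorem exists_lies_over (φ : k →+* k') (v : P k) : ∃ w : P k', Lies φ (val w) (val v) := by
  let _ := φ.toAlgebra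
  obtain ⟨w, rfl⟩ := exists_over k' v
  exact ⟨w, fun x y => val_algebraMap_lt_iff w x y⟩

theorem Over.lies {φ : k →+* k'} {w : P k'} {v : P k} (h : Over φ w v) :
    Lies φ (val w) (val v) := fun x y => by rw [h, h]

/-- all places above two at once -/
theorem L2m_up_all (φ : k →+* k') {d : (Cub e k)ˣ} (hd : ∀ v : P k, d ∈ L2m e (val v))
    (w : P k') : uz e φ d ∈ L2m e (val w) := by
  obtain ⟨v, hv⟩ := exists_lies_under φ w
  exact L2m_up hv (hd v)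

end Place

end Pool.Agent.Lib.MP_775b3b_nt
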