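import Pool.Agent.Lib.MP_775b3b_nt.M2.LCd2
import Pool.Agent.Lib.MP_775b3b_nt.Gal
import Pool.Agent.Lib.MP_775b3b_nt.YDefs

/-! The choice of the constant `C` and of the class at two of the integer twist. -/

namespace Pool.Agent.Lib.MP_775b3b_nt

open Cub MP_439fea_co WithZero Filter

variable {k k' : Type} [Field k] [NumberField k] [Field k'] [NumberField k']

theorem lcd_apx [IsGalois ℚ k] (w : P k) {z : k} (h : ∀ g : k ≃ₐ[ℚ] k, g • w = w → g z = z) :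
    lcdApx (val w) z := fun γ hγ => by
  obtain ⟨x, h1, h2⟩ := avg (⊤ : Subgroup (k ≃ₐ[ℚ] k)) w z (exp (-1 : ℤ) * γ)
    (mul_ne_zero exp_ne_zero hγ) fun g _ hg => by
      rw [show g • z = z from h g hg, sub_self, map_zero]
      exact zero_le
  obtain ⟨r, rfl⟩ := (IsGalois.mem_range_algebraMap_iff_fixed (F := ℚ) x).2 fun g =>
    h1 g (Subgroup.mem_top g)
  refine ⟨r, ?_⟩
  rw [Valuation.map_sub_swap]
  exact h2.trans_lt (mul_lt_of_lt_one_left (zero_lt_iff.2 hγ) exp_neg_one_lt)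

theorem lcd_C (x : Fin 8) : 2 ^ 7 ∣ 256 * lcdG x ∧ ¬ 2 ^ 10 ∣ 256 * lcdG x := by
  have h := lcdG_four x
  omega

theorem lcd_two (k : Type) [Field k] [NumberField k] : ∃ w : P k, val w (2 : k) < 1 := by
  simpa using exists_over_prime k Nat.prime_two

theorem lcd_move [IsGalois ℚ k] {w v : P k} (hw : val w (2 : k) < 1) (hv : val v (2 : k) < 1) :
    ∃ g : k ≃ₐ[ℚ] k, g • v = w ∧ Lies (g : k →+* k) (val w) (val v) := by
  obtain ⟨g, rfl⟩ := exists_smul_eq_of_prime Nat.prime_two (w := v) (w' := w) (by simpa using hv)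
    (by simpa using hw)
  exact ⟨g, rfl, fun x y => (val_smul g v x).symm ▸ (val_smul g v y).symm ▸ Iff.rfl⟩

theorem Setup.lcd_place (S : Setup k k') {w : P k'} (hw : val w (2 : k') < 1) {v : P k}
    (hv : val v (2 : k) < 1) : ∃ j, Lies (S.s j) (val w) (val v) := by
  have := S.gal
  obtain ⟨u, hu⟩ := exists_lies_over (S.s 0) v
  obtain ⟨g, -, hg⟩ := lcd_move hw (hu.two.2 hv)
  obtain ⟨π, hπ⟩ := S.exists_cmp g
  exact ⟨π 0, fun x y => by rw [← hπ, ← hπ]; exact (hg _ _).trans (hu x y)⟩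

theorem Setup.lcd_apx (S : Setup k k') (w : P k') {z : k'}
    (h : ∀ (g : k' ≃ₐ[ℚ] k') (π : Equiv.Perm (Fin 3)), S.Cmp g π →
      (∀ j a, val w (S.s (π j) a) = val w (S.s j a)) → g z = z) : lcdApx (val w) z := by
  have := S.gal
  refine MP_775b3b_nt.lcd_apx w fun g hg => ?_
  obtain ⟨π, hπ⟩ := S.exists_cmp g
  exact h g π hπ fun j a => hπ j a ▸ (mem_stabilizer_iff_val g w).1 hg _

/-- the conclusion of the choice -/
def lcdOut (k : Type) [Field k] [NumberField k] (δ : k) (x c : Fin 8) : Prop :=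
  ∀ d : ℤ, Cls (lcdG c) d → ∀ v : P k, val v (2 : k) < 1 →
    Good (val v) (256 * lcdG x : ℤ) (d * δ)

theorem lcd_rat [IsGalois ℚ k] {w : P k} (hw : val w (2 : k) < 1) {a : ℚ} {b x c : Fin 8}
    (hb : lcdCl (val w) (a : k) b) (h : c = b ∨ lcdB x (c ^^^ b)) : lcdOut ℚ a x c := by
  intro d hd u h2
  obtain ⟨v, hv⟩ := exists_lies_over (algebraMap ℚ k) u
  obtain ⟨g, -, hg⟩ := lcd_move hw (hv.two.2 h2)
  exact lcd_single hw (φ := (g : k →+* k).comp (algebraMap ℚ k))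
    (fun a => eq_ratCast ((g : k →+* k).comp (algebraMap ℚ k)) a ▸ lcd_apx_rat a)
    (eq_ratCast ((g : k →+* k).comp (algebraMap ℚ k)) a ▸ hb) (hg.comp hv) hd h

theorem lcd_one [IsGalois ℚ k] {w : P k} (hw : val w (2 : k) < 1) {x c : Fin 8}
    (h : c = 0 ∨ lcdB x (c ^^^ 0)) : lcdOut ℚ 1 x c :=
  lcd_rat hw (by simpa using lcd_cl_sq (μ := val w) one_ne_zero) h

theorem Setup.lcd_12 (S : Setup k k') {w : P k'} (hw : val w (2 : k') < 1) {δ : k} (hδ : δ ≠ 0)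
    (i j l : Fin 3) (hall : ∀ n, n = i ∨ n = j ∨ n = l) (hjl : j ≠ l)
    (hj : ¬ ∀ a, val w (S.s j a) = val w (S.s i a)) (h : ∀ a, val w (S.s l a) = val w (S.s j a))
    {r : ℚ} (hr : r ≠ 0) (hN : S.s i δ * (S.s j δ * S.s l δ) = (r : k') ^ 2) :
    ∃ x c, lcdOut k δ x c ∧ (c = 0 ∨ lcdB x (c ^^^ 0)) := by
  have hi : ∀ π : Equiv.Perm (Fin 3), (∀ j a, val w (S.s (π j) a) = val w (S.s j a)) → π i = i := by
    intro π hπ
    rcases hall (π i) with e | e | e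
    · exact e
    · exact (hj fun a => e ▸ hπ i a).elim
    · exact (hj fun a => (h a).symm.trans (e ▸ hπ i a)).elim
  have hA : ∀ a, lcdApx (val w) (S.s i a) := fun a => S.lcd_apx w fun g π h1 h2 => by
    rw [h1, hi π h2]
  obtain ⟨b, hb⟩ := (hA δ).exists_cl hw ((map_ne_zero _).2 hδ)
  obtain ⟨t, ht⟩ := lcd_pair hw h (fun a b => S.lcd_apx w fun g π h1 h2 => by
    have e0 := hi π h2
    have e1 : π j ≠ i := fun e => hj fun a => (h2 j a).symm.trans (e ▸ rfl)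
    have e2 : π l ≠ i := fun e => hj fun a => ((h2 l a).trans (h a)).symm.trans (e ▸ rfl)
    have e3 : π j ≠ π l := π.injective.ne hjl
    simp only [map_add, map_mul, h1 _ _]
    rcases (hall (π j)).resolve_left e1 with e | e <;>
      rcases (hall (π l)).resolve_left e2 with e' | e' <;> rw [e, e'] at e3 ⊢
    · exact (e3 rfl).elim
    · ring
    · exact (e3 rfl).elim) (hb.cancel hr hN)
  obtain ⟨x, c, -, h1, h2, h3⟩ := lcd_ch2 0 b t
  refine ⟨x, c, fun d hd v hv => ?_, h2⟩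
  obtain ⟨n, hn⟩ := S.lcd_place hw hv
  rcases hall n with rfl | rfl | rfl
  exacts [lcd_single hw hA hb hn hd h3, ht _ x c d hn hd h1,
    ht _ x c d (lcd_lies (fun a => (h a).symm) hn) hd h1]

theorem Setup.lcd_3 (S : Setup k k') {w : P k'} (hw : val w (2 : k') < 1) {δ : k}
    (h1 : ∀ a, val w (S.s 1 a) = val w (S.s 0 a)) (h2 : ∀ a, val w (S.s 2 a) = val w (S.s 0 a))
    {r : ℚ} (hr : r ≠ 0) (hN : S.s 0 δ * S.s 1 δ * S.s 2 δ = (r : k') ^ 2) :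
    ∃ x c, lcdOut k δ x c ∧ (c = 0 ∨ lcdB x (c ^^^ 0)) := by
  obtain ⟨x, c, h3, -⟩ := lcd_ch1 0 0
  refine ⟨x, c, fun d hd v hv => ?_, Or.inr h3⟩
  obtain ⟨n, hn⟩ := S.lcd_place hw hv
  refine lcd_triple hw h1 h2 (fun a b => S.lcd_apx w fun g π h _ => ?_) (hN ▸ lcd_cl_sq hr)
    (lcd_lies (fun a => ?_) hn) hd h3
  · simp only [map_add, map_mul, h _ _]
    have e : ∀ π : Equiv.Perm (Fin 3), (π 0, π 1, π 2) ∈ ([(0, 1, 2), (0, 2, 1), (1, 0, 2),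
        (1, 2, 0), (2, 0, 1), (2, 1, 0)] : List (Fin 3 × Fin 3 × Fin 3)) := by decide +kernel
    have e' := e π
    simp only [List.mem_cons, Prod.mk.injEq, List.not_mem_nil, or_false] at e'
    rcases e' with e' | e' | e' | e' | e' | e' <;> rw [e'.1, e'.2.1, e'.2.2] <;> ring
  · fin_cases n
    exacts [rfl, (h1 a).symm, (h2 a).symm]

theorem Setup.lcd_111 (S : Setup k k') {w : P k'} (hw : val w (2 : k') < 1) {δ : k} (hδ : δ ≠ 0)
    (h : ∀ i j, (∀ a, val w (S.s j a) = val w (S.s i a)) → j = i)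
    {r : ℚ} (hr : r ≠ 0) (hN : S.s 0 δ * S.s 1 δ * S.s 2 δ = (r : k') ^ 2) :
    ∃ x c, lcdOut k δ x c ∧ (c = 0 ∨ lcdB x (c ^^^ 0)) := by
  have hA : ∀ i a, lcdApx (val w) (S.s i a) := fun i a => S.lcd_apx w fun g π h1 h2 => by
    rw [h1, h i _ (h2 i)]
  obtain ⟨a, ha⟩ := (hA 0 δ).exists_cl hw ((map_ne_zero _).2 hδ)
  obtain ⟨b, hb⟩ := (hA 1 δ).exists_cl hw ((map_ne_zero _).2 hδ)
  obtain ⟨x, c, h0, h1, h2, h3⟩ := lcd_ch1 a b
  refine ⟨x, c, fun d hd v hv => ?_, Or.inr h0⟩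
  obtain ⟨n, hn⟩ := S.lcd_place hw hv
  fin_cases n
  exacts [lcd_single hw (hA 0) ha hn hd (Or.inr h1), lcd_single hw (hA 1) hb hn hd (Or.inr h2),
    lcd_single hw (hA 2) ((ha.mul hb).cancel hr hN) hn hd (Or.inr h3)]

/-- choice of `C` and of the class of the twist, cubic fields (Galois or not) -/
theorem Setup.exists_Cd (S : Setup k k') {δ : k} (hδ : δ ≠ 0)
    (hN : ∃ r : ℚ, ∏ j, S.s j δ = algebraMap ℚ k' (r ^ 2)) : ∃ C d₀ : ℤ, 2 ^ 7 ∣ C ∧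
    ¬ 2 ^ 10 ∣ C ∧ d₀ ≠ 0 ∧
      (∀ d : ℤ, Cls d₀ d → ∀ v : P k, val v (2 : k) < 1 → Good (val v) C (d * δ)) ∧
      ∀ d : ℤ, Cls d₀ d → ∀ v : P ℚ, val v (2 : ℚ) < 1 → Good (val v) C (d * (1 : ℚ)) := by
  have := S.gal
  obtain ⟨w, hw⟩ := lcd_two k'
  obtain ⟨r, hN⟩ := hN
  have hr : r ≠ 0 := by
    rintro rfl
    exact Finset.prod_ne_zero_iff.2 (fun j _ => (map_ne_zero (S.s j)).2 hδ) (by simpa using hN)
  rw [Fin.prod_univ_three, eq_ratCast, Rat.cast_pow] at hN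
  obtain ⟨x, c, h, h'⟩ : ∃ x c, lcdOut k δ x c ∧ (c = 0 ∨ lcdB x (c ^^^ 0)) := by
    by_cases h1 : ∀ a, val w (S.s 1 a) = val w (S.s 0 a)
    · by_cases h2 : ∀ a, val w (S.s 2 a) = val w (S.s 0 a)
      · exact S.lcd_3 hw h1 h2 hr hN
      · exact S.lcd_12 hw hδ 2 0 1 (by decide) (by decide) (fun h => h2 fun a => (h a).symm) h1 hr
          (by linear_combination hN)
    by_cases h2 : ∀ a, val w (S.s 2 a) = val w (S.s 0 a)
    · exact S.lcd_12 hw hδ 1 0 2 (by decide) (by decide) (fun h => h1 fun a => (h a).symm) h2 hr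
        (by linear_combination hN)
    by_cases h3 : ∀ a, val w (S.s 2 a) = val w (S.s 1 a)
    · exact S.lcd_12 hw hδ 0 1 2 (by decide) (by decide) h1 h3 hr (by linear_combination hN)
    refine S.lcd_111 hw hδ (fun i j h => ?_) hr hN
    fin_cases i <;> fin_cases j
    exacts [rfl, (h1 h).elim, (h2 h).elim, (h1 fun a => (h a).symm).elim, rfl, (h3 h).elim,
      (h2 fun a => (h a).symm).elim, (h3 fun a => (h a).symm).elim, rfl]
  exact ⟨_, _, (lcd_C x).1, (lcd_C x).2, lcdG_ne c, h, lcd_one hw h'⟩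

/-- the same for the rationals -/
theorem exists_Cd1 {a b : ℚ} (ha : a ≠ 0) (hb : b ≠ 0) : ∃ C d₀ : ℤ, 2 ^ 7 ∣ C ∧
    ¬ 2 ^ 10 ∣ C ∧ d₀ ≠ 0 ∧
      (∀ d : ℤ, Cls d₀ d → ∀ v : P ℚ, val v (2 : ℚ) < 1 → Good (val v) C (d * (1 : ℚ))) ∧
      (∀ d : ℤ, Cls d₀ d → ∀ v : P ℚ, val v (2 : ℚ) < 1 → Good (val v) C (d * a)) ∧
      (∀ d : ℤ, Cls d₀ d → ∀ v : P ℚ, val v (2 : ℚ) < 1 → Good (val v) C (d * b)) ∧
      ∀ d : ℤ, Cls d₀ d → ∀ v : P ℚ, val v (2 : ℚ) < 1 → Good (val v) C (d * (a * b)) := by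
  have : @IsGalois ℚ _ ℚ _ DivisionRing.toRatAlgebra :=
    Subsingleton.elim (Algebra.id ℚ) DivisionRing.toRatAlgebra ▸ IsGalois.self ℚ
  obtain ⟨w, hw⟩ := lcd_two ℚ
  obtain ⟨i, hi⟩ := (lcd_apx_rat (μ := val w) a).exists_cl hw ha
  obtain ⟨j, hj⟩ := (lcd_apx_rat (μ := val w) b).exists_cl hw hb
  obtain ⟨x, c, h0, h1, h2, h3⟩ := lcd_ch1 i j
  exact ⟨_, _, (lcd_C x).1, (lcd_C x).2, lcdG_ne c, lcd_one hw (Or.inr h0),
    lcd_rat hw hi (Or.inr h1), lcd_rat hw hj (Or.inr h2), lcd_rat hw (hi.mul hj) (Or.inr h3)⟩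

section Two

variable {M : Type*} [Field M] [CharZero M] {μ : Valuation M ℤᵐ⁰}

omit [CharZero M] in
theorem lcd_ap_part {a p q : M} (h : Ap μ a ((p + q) ^ 2)) (h1 : μ (p * q) < μ (4 * a))
    (h2 : μ (p + q) ≤ μ p) : Ap μ a (p ^ 2) := by
  have h0 : 0 < μ (p + q) := val_pos_of_ne μ fun h0 => h.ne (by simp [h0])
  have h3 : μ q < μ 4 * μ (p + q) := by
    rw [map_mul, map_mul, h.val_eq, map_pow, sq, mul_left_comm] at h1
    exact lt_of_mul_lt_mul_left ((mul_le_mul_left h2 _).trans_lt h1) h0.le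
  have h4 : μ (q * q) < μ (4 * a) := by
    rw [map_mul, map_mul, h.val_eq, map_pow, sq, ← mul_assoc]
    exact mul_lt_mul'' h3 (h3.trans_le (mul_le_of_le_one_left' (val_four_le_one μ))) zero_le zero_le
  refine ap_of_lt (lt_of_eq_of_lt (congrArg μ ?_)
    (μ.map_add_lt h.lt (μ.map_add_lt (μ.map_add_lt h1 h1) h4)))
  ring

/-- rational numbers that become squares at an inert or ramified place -/
theorem lcd_desc (h2 : μ 2 < 1) (σ : M →+* M) (hv : ∀ a, μ (σ a) = μ a) (hσ : ∀ a, σ (σ a) = a)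
    (hA : ∀ a, σ a = a → ∃ r : ℚ, a = r) :
    ∃ e, ∀ a : ℚ, SqK μ (a : M) → lcdCl μ a 0 ∨ lcdCl μ a e := by
  obtain ⟨θ, e, hr, hθ⟩ : ∃ (θ : M) (e : Fin 8), lcdCl μ (θ ^ 2) e ∧
      ∀ q, σ q = -q → ∃ s : ℚ, q = s * θ := by
    by_cases h : ∃ θ : M, θ ≠ 0 ∧ σ θ = -θ
    · obtain ⟨θ, t0, h⟩ := h
      obtain ⟨r, hr⟩ := hA (θ ^ 2) (by rw [map_pow, h, neg_sq])
      obtain ⟨e, he⟩ := (hr ▸ lcd_apx_rat r : lcdApx μ (θ ^ 2)).exists_cl h2 (pow_ne_zero 2 t0)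
      refine ⟨θ, e, he, fun q hq => ?_⟩
      obtain ⟨s, hs⟩ := hA (q / θ) (by rw [map_div₀, hq, h, neg_div_neg_eq])
      exact ⟨s, by rw [← hs, div_mul_cancel₀ _ t0]⟩
    · exact ⟨1, 0, ⟨1, by simpa [lcdG] using Ap.refl (ν := μ) one_ne_zero⟩,
        fun q hq => ⟨0, by simpa using not_not.1 fun h0 => h ⟨q, h0, hq⟩⟩⟩
  refine ⟨e, fun a ha => ?_⟩
  obtain ⟨y, h1, h3⟩ := ha.arb
    (val_pos_of_ne μ (mul_ne_zero (by norm_num : (16 : M) ≠ 0) ha.ne)).ne'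
  obtain ⟨p, hp⟩ := hA ((y + σ y) / 2) (by rw [map_div₀, map_add, hσ, map_ofNat, add_comm])
  obtain ⟨q, hq⟩ := hθ ((y - σ y) / 2) (by rw [map_div₀, map_sub, hσ, map_ofNat]; ring)
  have e1 : y = p + q * θ := by linear_combination hp + hq
  have h4 : μ (p * (q * θ)) < μ (4 * a) := by
    have h5 := μ.map_sub_lt ((hv _).trans_lt h3) h3
    rw [map_sub σ, map_pow σ, map_ratCast σ, show a - σ y ^ 2 - (a - y ^ 2) = 4 * (p * (q * θ)) by
      rw [← hp, ← hq]; ring, show (16 : M) * a = 4 * (4 * a) by ring, map_mul μ 4,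
      map_mul μ 4] at h5
    exact lt_of_mul_lt_mul_left h5 zero_le
  rw [e1] at h1
  rcases μ.map_add' p (q * θ) with h5 | h5
  · exact Or.inl ⟨p, by simpa [lcdG] using lcd_ap_part h1 h4 h5⟩
  · have h6 := lcd_ap_part (add_comm (p : M) _ ▸ h1) (mul_comm (p : M) _ ▸ h4)
      (add_comm (p : M) _ ▸ h5)
    have q0 : q ≠ 0 := fun h => h6.ne (by simp [h])
    exact Or.inr ((hr.mul_sq q0).of_ap (by rwa [mul_comm, ← mul_pow]))

end Two

/-- the same for fields of degree at most two (`σ = 1` is allowed), with descent to `ℚ` -/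
theorem exists_Cd2 [IsGalois ℚ k] (σ : k ≃ₐ[ℚ] k) (hσ : ∀ g : k ≃ₐ[ℚ] k, g = 1 ∨ g = σ) {δ : k}
    (hδ : δ ≠ 0) {a : ℚ} (ha : algebraMap ℚ k a = δ * σ δ) :
    ∃ C d₀ : ℤ, 2 ^ 7 ∣ C ∧ ¬ 2 ^ 10 ∣ C ∧ d₀ ≠ 0 ∧
      (∀ d : ℤ, Cls d₀ d → ∀ v : P k, val v (2 : k) < 1 → Good (val v) C (d * δ)) ∧
      (∀ d : ℤ, Cls d₀ d → ∀ v : P ℚ, val v (2 : ℚ) < 1 → Good (val v) C (d * (1 : ℚ))) ∧
      (∀ d : ℤ, Cls d₀ d → ∀ v : P ℚ, val v (2 : ℚ) < 1 → Good (val v) C (d * a)) ∧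
      ∀ (v : P k) (u : P ℚ), val v (2 : k) < 1 → Lies (algebraMap ℚ k) (val v) (val u) →
        TD (algebraMap ℚ k) (val v) (val u) C := by
  obtain ⟨w, hw⟩ := lcd_two k
  rw [eq_ratCast] at ha
  have hs : ∀ (v : P k) (u : P ℚ) (a : ℚ), Lies (algebraMap ℚ k) (val v) (val u) →
      lcdCl (val v) a 0 → SqK (val u) a := fun v u a hL h => by
    simpa [lcdG] using lcdCl.sqK hL h
  by_cases h : σ • w = w
  · have hv : ∀ a, val w (σ a) = val w a := (mem_stabilizer_iff_val σ w).1 h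
    have hσ2 : ∀ a, σ (σ a) = a := fun a => by
      rcases hσ (σ * σ) with e | e
      · exact DFunLike.congr_fun e a
      · rw [mul_eq_left.1 e]
        rfl
    have hA : ∀ a, σ a = a → ∃ r : ℚ, a = r := fun a ha => by
      obtain ⟨r, rfl⟩ := (IsGalois.mem_range_algebraMap_iff_fixed (F := ℚ) a).2 fun g => by
        rcases hσ g with rfl | rfl
        exacts [rfl, ha]
      exact ⟨r, rfl⟩
    have hu : ∀ v : P k, val v (2 : k) < 1 → v = w := fun v h2 => by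
      obtain ⟨g, hg, -⟩ := lcd_move h2 hw
      rcases hσ g with rfl | rfl
      exacts [hg.symm.trans (one_smul _ w), hg.symm.trans h]
    obtain ⟨e, he⟩ := lcd_desc hw (σ : k →+* k) hv hσ2 hA
    obtain ⟨b, hb'⟩ := (lcd_apx_rat (μ := val w) a).exists_cl hw
      (ha ▸ mul_ne_zero hδ ((map_ne_zero σ).2 hδ))
    obtain ⟨t, hb⟩ := lcd_pair hw (α := RingHom.id k) (β := (σ : k →+* k)) hv (fun a b => by
      obtain ⟨r, hr⟩ := hA (a * σ b + b * σ a) (by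
        simp only [map_add, map_mul, hσ2]
        ring)
      exact (hr ▸ lcd_apx_rat r : lcdApx (val w) (a * σ b + b * σ a))) (δ := δ) (ha ▸ hb')
    obtain ⟨x, c, h1, h2, h7, h8⟩ := lcd_ch2 e b t
    refine ⟨_, _, (lcd_C x).1, (lcd_C x).2, lcdG_ne c, fun d hd v h3 => ?_, lcd_one hw h7,
      lcd_rat hw hb' h8, fun v u h3 hL a h4 ⟨X, Y, h5⟩ => ?_⟩
    · exact hb _ x c d (hu v h3 ▸ fun _ _ => Iff.rfl) hd h2
    · obtain rfl := hu v h3
      rcases he a h4 with h6 | h6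
      · exact hs v u a hL h6
      rcases h1 with rfl | h1
      · exact hs v u a hL h6
      · refine (lcd_nn h3 h1 h6 (lcd_apx_rat X) (lcd_apx_rat Y) ?_).elim
        simpa only [map_mul, map_sub, map_pow, map_intCast, eq_ratCast] using hL.ap.2 h5
  · have hA : ∀ a, lcdApx (val w) a := fun a => lcd_apx w fun g hg => by
      rcases hσ g with rfl | rfl
      exacts [rfl, (h hg).elim]
    choose b hb using fun g : k ≃ₐ[ℚ] k => (hA (g δ)).exists_cl hw ((map_ne_zero g).2 hδ)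
    obtain ⟨x, c, h0, h1, h2, h7⟩ := lcd_ch1 (b 1) (b σ)
    have h8 : lcdCl (val w) (a : k) (b 1 ^^^ b σ) := by
      rw [ha]
      exact (hb 1).mul (hb σ)
    refine ⟨_, _, (lcd_C x).1, (lcd_C x).2, lcdG_ne c, fun d hd v h3 => ?_, lcd_one hw (Or.inr h0),
      lcd_rat hw h8 (Or.inr h7), fun v u h3 hL a ⟨y, h4⟩ _ => ?_⟩
    · obtain ⟨g, -, hg⟩ := lcd_move hw h3
      refine lcd_single hw (φ := (g : k →+* k)) (δ := δ) (fun a => hA _) (hb g) hg hd (Or.inr ?_)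
      rcases hσ g with rfl | rfl
      exacts [h1, h2]
    · obtain ⟨g, -, hg⟩ := lcd_move hw h3
      have h5 := hg.ap.2 h4
      obtain ⟨r, hr⟩ := (hA ((g : k →+* k) y)).sq 1
        (val_pos_of_ne (val w) (mul_ne_zero (by norm_num : (4 : k) ≠ 0) h5.ne')).ne'
      refine ⟨r, (hg.comp hL).ap.1 (ap_of_lt (lt_of_eq_of_lt (congrArg _ ?_)
        ((val w).map_add_lt h5.lt hr)))⟩
      simp

end Pool.Agent.Lib.MP_775b3b_nt
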