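import Pool.Agent.Lib.MP_775b3b_nt.M2.L1

/-! Square classes of rational numbers at two and the Hilbert pairing. -/

namespace Pool.Agent.Lib.MP_775b3b_nt

open Cub MP_439fea_co WithZero Filter

/-- The class of the integer twist at two.  `Cls d₀ d` means that `d d₀` is a 2-adic square; it is
stable under `d ↦ d l` for `l ≡ 1 mod 8`. -/
def Cls (d₀ d : ℤ) : Prop := ∃ (j : ℕ) (t : ℤ), d * d₀ = 4 ^ j * t ∧ 8 ∣ t - 1

theorem lcd_four {m : ℤ} (hm : m ≠ 0) : ∃ (j : ℕ) (t : ℤ), m = 4 ^ j * t ∧ ¬ 4 ∣ t := by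
  induction h : m.natAbs using Nat.strong_induction_on generalizing m with
  | _ n ih =>
    by_cases h4 : 4 ∣ m
    · obtain ⟨u, rfl⟩ := h4
      obtain ⟨j, t, rfl, ht⟩ := ih u.natAbs (by omega) (show u ≠ 0 by omega) rfl
      exact ⟨j + 1, t, by ring, ht⟩
    · exact ⟨0, m, by simp, h4⟩

theorem lcd_cls_odd {d₀ m c t : ℤ} {j : ℕ} (h : d₀ * m = 4 ^ j * t) (h1 : 8 ∣ c * t - 1) :
    Cls d₀ (c * m) := ⟨j, c * t, by linear_combination c * h, h1⟩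

theorem lcd_cls_even {d₀ m c t : ℤ} {j : ℕ} (h : d₀ * m = 4 ^ j * (2 * t)) (h1 : 8 ∣ c * t - 1) :
    Cls d₀ (2 * c * m) := ⟨j + 1, c * t, by linear_combination 2 * c * h, h1⟩

theorem lcd_odd {u : ℤ} (h : ¬ 2 ∣ u) : u % 8 = 1 ∨ u % 8 = 3 ∨ u % 8 = 5 ∨ u % 8 = 7 := by omega

theorem exists_cls {d₀ m : ℤ} (h0 : d₀ ≠ 0) (hm : m ≠ 0) :
    ∃ c ∈ ({1, 3, 5, 7, 2, 6, 10, 14} : Finset ℕ), Cls d₀ (c * m) := by
  obtain ⟨j, t, h, ht⟩ := lcd_four (mul_ne_zero h0 hm)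
  by_cases h2 : 2 ∣ t
  · obtain ⟨u, rfl⟩ := h2
    rcases lcd_odd (show ¬ 2 ∣ u by omega) with h3 | h3 | h3 | h3
    exacts [⟨2, by decide, lcd_cls_even (c := 1) h (by omega)⟩,
      ⟨6, by decide, lcd_cls_even (c := 3) h (by omega)⟩,
      ⟨10, by decide, lcd_cls_even (c := 5) h (by omega)⟩,
      ⟨14, by decide, lcd_cls_even (c := 7) h (by omega)⟩]
  · rcases lcd_odd h2 with h3 | h3 | h3 | h3
    exacts [⟨1, by decide, lcd_cls_odd (c := 1) h (by omega)⟩,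
      ⟨3, by decide, lcd_cls_odd (c := 3) h (by omega)⟩,
      ⟨5, by decide, lcd_cls_odd (c := 5) h (by omega)⟩,
      ⟨7, by decide, lcd_cls_odd (c := 7) h (by omega)⟩]

theorem Cls.mul {d₀ d l : ℤ} (h : Cls d₀ d) (hl : 8 ∣ l - 1) : Cls d₀ (d * l) := by
  obtain ⟨j, t, h1, a, ha⟩ := h
  obtain ⟨b, hb⟩ := hl
  exact ⟨j, t * l, by linear_combination l * h1, a * l + b, by linear_combination l * ha + hb⟩

/-- representatives of the eight square classes -/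
def lcdG : Fin 8 → ℤ := ![1, -1, 2, -2, 5, -5, 10, -10]

/-- the Hilbert symbol at two of two representatives is `-1` -/
def lcdB (x y : Fin 8) : Bool :=
  (x.1 % 2 * (y.1 % 2) + x.1 / 2 % 2 * (y.1 / 4) + y.1 / 2 % 2 * (x.1 / 4)) % 2 == 1

theorem lcdG_mul : ∀ x y : Fin 8, ∃ n ∈ ({1, 2, 5, 10} : Finset ℤ),
    lcdG x * lcdG y = lcdG (x ^^^ y) * n ^ 2 := by decide +kernel

theorem lcdG_four : ∀ x : Fin 8, ¬ 4 ∣ lcdG x := by decide +kernel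

theorem lcdG_ne (x : Fin 8) : lcdG x ≠ 0 := fun h => lcdG_four x (h ▸ dvd_zero _)

theorem lcd_ch1 : ∀ a b : Fin 8, ∃ x c : Fin 8, lcdB x (c ^^^ 0) ∧
    lcdB x (c ^^^ a) ∧ lcdB x (c ^^^ b) ∧ lcdB x (c ^^^ (a ^^^ b)) := by decide +kernel

theorem lcd_ch2 : ∀ a b t : Fin 8, ∃ x c : Fin 8, (a = 0 ∨ lcdB x a) ∧
    (b = 0 ∧ c = t ∨ lcdB x b) ∧ (c = 0 ∨ lcdB x (c ^^^ 0)) ∧ (c = b ∨ lcdB x (c ^^^ b)) := by
  decide +kernel

theorem lcd_exists_cls {m : ℤ} (hm : m ≠ 0) : ∃ c, Cls (lcdG c) m := by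
  have key : ∀ (c : ℤ) {c' : ℤ}, Cls m (c * 1) → c' = c → Cls c' m := fun c _ ⟨j, t, h1, h2⟩ h3 =>
    ⟨j, t, by linear_combination h1 + m * h3, h2⟩
  obtain ⟨j, t, h, ht⟩ := lcd_four hm
  rw [← mul_one m] at h
  by_cases h2 : 2 ∣ t
  · obtain ⟨u, rfl⟩ := h2
    rcases lcd_odd (show ¬ 2 ∣ u by omega) with h3 | h3 | h3 | h3
    exacts [⟨2, key _ (lcd_cls_even (c := 1) h (by omega)) (by decide)⟩,
      ⟨7, key _ (lcd_cls_even (c := -5) h (by omega)) (by decide)⟩,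
      ⟨6, key _ (lcd_cls_even (c := 5) h (by omega)) (by decide)⟩,
      ⟨3, key _ (lcd_cls_even (c := -1) h (by omega)) (by decide)⟩]
  · rcases lcd_odd h2 with h3 | h3 | h3 | h3
    exacts [⟨0, key _ (lcd_cls_odd (c := 1) h (by omega)) (by decide)⟩,
      ⟨5, key _ (lcd_cls_odd (c := -5) h (by omega)) (by decide)⟩,
      ⟨4, key _ (lcd_cls_odd (c := 5) h (by omega)) (by decide)⟩,
      ⟨1, key _ (lcd_cls_odd (c := -1) h (by omega)) (by decide)⟩]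

theorem lcd_sq_mod (a : ℤ) : ∃ A ∈ ([0, 1, 4, 9, 16, 17, 25] : List ℤ), ∃ u, a ^ 2 = 32 * u + A := by
  have h : ∀ r : Fin 16, (r.1 : ℤ) ^ 2 % 32 ∈ ([0, 1, 4, 9, 16, 17, 25] : List ℤ) := by
    decide +kernel
  obtain ⟨q, r, rfl⟩ : ∃ (q : ℤ) (r : Fin 16), a = 16 * q + r.1 :=
    ⟨a / 16, ⟨(a % 16).toNat, by omega⟩, by simp only; omega⟩
  exact ⟨_, h r, 8 * q ^ 2 + q * r.1 + (r.1 : ℤ) ^ 2 / 32, by
    linear_combination (Int.mul_ediv_add_emod ((r.1 : ℤ) ^ 2) 32).symm⟩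

theorem lcd_res : ∀ x y : Fin 8, lcdB x y → ∀ A ∈ ([0, 1, 4, 9, 16, 17, 25] : List ℤ),
    ∀ B ∈ ([0, 1, 4, 9, 16, 17, 25] : List ℤ), ∀ N ∈ ([0, 1, 4, 9, 16, 17, 25] : List ℤ),
      8 ∣ A - lcdG x * B - lcdG y * N → (2 ∣ lcdG y * N → 16 ∣ A - lcdG x * B - lcdG y * N) →
      (4 ∣ lcdG y * N → 32 ∣ A - lcdG x * B - lcdG y * N) → 2 ∣ A ∧ 2 ∣ B ∧ 2 ∣ N := by
  decide +kernel

theorem lcd_prim {x y : Fin 8} (hB : lcdB x y) {a b n : ℤ}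
    (h : ∀ j : ℕ, 2 ^ j ∣ lcdG y * n ^ 2 → 2 ^ (j + 3) ∣ a ^ 2 - lcdG x * b ^ 2 - lcdG y * n ^ 2) :
    2 ∣ a ∧ 2 ∣ b ∧ 2 ∣ n := by
  obtain ⟨A, hA, u, ha⟩ := lcd_sq_mod a
  obtain ⟨B, hB', v, hb⟩ := lcd_sq_mod b
  obtain ⟨N, hN, w, hn⟩ := lcd_sq_mod n
  have e1 : a ^ 2 - lcdG x * b ^ 2 - lcdG y * n ^ 2 =
      32 * (u - lcdG x * v - lcdG y * w) + (A - lcdG x * B - lcdG y * N) := by
    rw [ha, hb, hn]
    ring
  have e2 : lcdG y * n ^ 2 = 32 * (lcdG y * w) + lcdG y * N := by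
    rw [hn]
    ring
  rw [e1, e2] at h
  have h0 := h 0
  have h1 := h 1
  have h2 := h 2
  obtain ⟨a1, a2, a3⟩ := lcd_res x y hB A hA B hB' N hN (by omega) (by omega) (by omega)
  exact ⟨Int.prime_two.dvd_of_dvd_pow (n := 2) (by omega),
    Int.prime_two.dvd_of_dvd_pow (n := 2) (by omega),
    Int.prime_two.dvd_of_dvd_pow (n := 2) (by omega)⟩

end Pool.Agent.Lib.MP_775b3b_nt
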