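import Pool.Agent.Lib.MP_775b3b_nt.M2.LCd1

/-! Elements of the closure of the rational numbers at a place above two. -/

namespace Pool.Agent.Lib.MP_775b3b_nt

open Cub MP_439fea_co WithZero Filter

variable {k M : Type*} [Field k] [CharZero k] [Field M] [CharZero M] {μ : Valuation M ℤᵐ⁰}
  {ν : Valuation k ℤᵐ⁰} {z z' : M} {x y c : Fin 8} {d : ℤ}

/-- limits of rational numbers -/
def lcdApx (μ : Valuation M ℤᵐ⁰) (z : M) : Prop := ∀ γ : ℤᵐ⁰, γ ≠ 0 → ∃ r : ℚ, μ (z - r) < γ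

/-- `z` is in the square class of the representative `c` -/
def lcdCl (μ : Valuation M ℤᵐ⁰) (z : M) (c : Fin 8) : Prop :=
  ∃ r : ℚ, Ap μ (z * lcdG c) ((r : M) ^ 2)

theorem lcdApx.add (h : lcdApx μ z) (h' : lcdApx μ z') : lcdApx μ (z + z') := fun γ hγ => by
  obtain ⟨r, hr⟩ := h γ hγ
  obtain ⟨s, hs⟩ := h' γ hγ
  exact ⟨r + s, by simpa only [Rat.cast_add, add_sub_add_comm] using μ.map_add_lt hr hs⟩

omit [CharZero M] in
theorem lcd_apx_rat (r : ℚ) : lcdApx μ r := fun γ hγ =>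
  ⟨r, by simpa only [sub_self, map_zero] using zero_lt_iff.2 hγ⟩

omit [CharZero M] in
theorem lcdApx.sq (h : lcdApx μ z) (a : M) {γ : ℤᵐ⁰} (hγ : γ ≠ 0) :
    ∃ r : ℚ, μ (a * z ^ 2 - a * (r : M) ^ 2) < γ := by
  rcases eq_or_ne a 0 with rfl | ha
  · exact ⟨0, by simpa using zero_lt_iff.2 hγ⟩
  have h0 : 0 < μ a * max (μ z) 1 := mul_pos (val_pos_of_ne μ ha) (lt_max_of_lt_right zero_lt_one)
  obtain ⟨r, hr⟩ := h (min 1 (γ / (μ a * max (μ z) 1)))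
    (lt_min zero_lt_one (div_pos (zero_lt_iff.2 hγ) h0)).ne'
  rw [lt_min_iff, lt_div_iff₀ h0] at hr
  have h1 : μ (z + z - (z - r)) ≤ max (μ z) 1 := μ.map_sub_le
    (μ.map_add_le (le_max_left _ _) (le_max_left _ _)) (le_max_of_le_right hr.1.le)
  refine ⟨r, lt_of_le_of_lt ?_ hr.2⟩
  rw [show a * z ^ 2 - a * (r : M) ^ 2 = (z - r) * (a * (z + z - (z - r))) by ring, map_mul, map_mul]
  exact mul_le_mul_right (mul_le_mul_right h1 _) _

omit [CharZero M] in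
theorem lcd_dvd_of_ap (h2 : μ 2 < 1) {m n : ℤ} (h : Ap μ (m : M) (n : M)) (j : ℕ)
    (hj : 2 ^ j ∣ n) : 2 ^ (j + 3) ∣ m - n := by
  by_contra h0
  have h1 := le_val_of_not_dvd h2 (j + 2) h0
  rw [Ap, ← Int.cast_sub, map_mul, val_four_eq] at h
  refine (h1.trans_lt (h.trans_le (mul_le_mul_right (val_le_of_dvd hj) _))).ne ?_
  rw [pow_add, mul_comm]

theorem lcd_nn_int (h2 : μ 2 < 1) (hB : lcdB x y) {a b n : ℤ} :
    ¬ Ap μ ((a ^ 2 - lcdG x * b ^ 2 : ℤ) : M) ((lcdG y * n ^ 2 : ℤ) : M) := by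
  induction h : n.natAbs using Nat.strong_induction_on generalizing a b n with
  | _ N ih =>
    intro h1
    obtain ⟨⟨a, rfl⟩, ⟨b, rfl⟩, n, rfl⟩ := lcd_prim hB (lcd_dvd_of_ap h2 h1)
    have h0 : n ≠ 0 := by
      rintro rfl
      exact h1.ne (by simp)
    refine ih n.natAbs (by omega) (a := a) (b := b) rfl ?_
    have h3 := h1.mul_left (c := 4⁻¹) (by norm_num)
    have e1 : (4⁻¹ : M) * (((2 * a) ^ 2 - lcdG x * (2 * b) ^ 2 : ℤ) : M) =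
        ((a ^ 2 - lcdG x * b ^ 2 : ℤ) : M) := by
      push_cast
      ring
    have e2 : (4⁻¹ : M) * ((lcdG y * (2 * n) ^ 2 : ℤ) : M) = ((lcdG y * n ^ 2 : ℤ) : M) := by
      push_cast
      ring
    rwa [e1, e2] at h3

theorem lcd_nn_rat (h2 : μ 2 < 1) (hB : lcdB x y) {a b n : ℚ} :
    ¬ Ap μ ((a : M) ^ 2 - lcdG x * (b : M) ^ 2) (lcdG y * (n : M) ^ 2) := by
  intro h
  have ha : (a.den : M) ≠ 0 := Nat.cast_ne_zero.2 a.den_nz
  have hb : (b.den : M) ≠ 0 := Nat.cast_ne_zero.2 b.den_nz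
  have hn : (n.den : M) ≠ 0 := Nat.cast_ne_zero.2 n.den_nz
  have h1 := h.mul_left (pow_ne_zero 2 (mul_ne_zero (mul_ne_zero ha hb) hn))
  refine lcd_nn_int h2 hB (a := a.num * b.den * n.den) (b := b.num * a.den * n.den)
    (n := n.num * a.den * b.den) ?_
  have e1 : ((a.den : M) * b.den * n.den) ^ 2 * ((a : M) ^ 2 - lcdG x * (b : M) ^ 2) =
      (((a.num * b.den * n.den) ^ 2 - lcdG x * (b.num * a.den * n.den) ^ 2 : ℤ) : M) := by
    rw [Rat.cast_def, Rat.cast_def]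
    push_cast
    field_simp
  have e2 : ((a.den : M) * b.den * n.den) ^ 2 * (lcdG y * (n : M) ^ 2) =
      ((lcdG y * (n.num * a.den * b.den) ^ 2 : ℤ) : M) := by
    rw [Rat.cast_def]
    push_cast
    field_simp
  rwa [e1, e2] at h1

theorem lcdG_cast_ne (x : Fin 8) : (lcdG x : M) ≠ 0 := Int.cast_ne_zero.2 (lcdG_ne x)

/-- the class of a norm pairs trivially -/
theorem lcd_nn (h2 : μ 2 < 1) (hB : lcdB x y) (hz : lcdCl μ z y) {X Y : M} (hX : lcdApx μ X)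
    (hY : lcdApx μ Y) : ¬ Ap μ z (X ^ 2 - (256 * lcdG x : ℤ) * Y ^ 2) := by
  intro h
  have h0 : μ (4 * z) ≠ 0 := (val_pos_of_ne μ (mul_ne_zero (by norm_num) h.ne')).ne'
  obtain ⟨a, ha⟩ := hX.sq 1 h0
  obtain ⟨b, hb⟩ := hY.sq (256 * lcdG x : ℤ) h0
  obtain ⟨r, hr⟩ := hz
  have h1 : Ap μ z ((a : M) ^ 2 - (256 * lcdG x : ℤ) * (b : M) ^ 2) := ap_of_lt (by
    refine lt_of_eq_of_lt (congrArg μ ?_) (μ.map_add_lt h.lt (μ.map_sub_lt ha hb))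
    ring)
  have h3 := ((h1.symm.mul_right (lcdG_cast_ne y)).trans hr).mul_left (lcdG_cast_ne y)
  refine lcd_nn_rat h2 hB (a := lcdG y * a) (b := 16 * lcdG y * b) (n := r) ?_
  have e1 : ((lcdG y * a : ℚ) : M) ^ 2 - lcdG x * ((16 * lcdG y * b : ℚ) : M) ^ 2 =
      lcdG y * (((a : M) ^ 2 - (256 * lcdG x : ℤ) * (b : M) ^ 2) * lcdG y) := by
    push_cast
    ring
  rwa [e1]

theorem lcdCl.of_ap (h : lcdCl μ z' c) (h' : Ap μ z z') : lcdCl μ z c :=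
  h.imp fun _ hr => (h'.mul_right (lcdG_cast_ne c)).trans hr

theorem lcdCl.mul_sq (h : lcdCl μ z c) {n : ℚ} (hn : n ≠ 0) : lcdCl μ (z * (n : M) ^ 2) c := by
  obtain ⟨r, hr⟩ := h
  refine ⟨r * n, ?_⟩
  rw [Rat.cast_mul, mul_pow, mul_right_comm]
  exact hr.mul_right (pow_ne_zero 2 (Rat.cast_ne_zero.2 hn))

theorem lcdCl.mul (h : lcdCl μ z x) (h' : lcdCl μ z' y) : lcdCl μ (z * z') (x ^^^ y) := by
  obtain ⟨r, hr⟩ := h
  obtain ⟨s, hs⟩ := h'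
  obtain ⟨n, hn, e⟩ := lcdG_mul x y
  have h0 : (n : M) ≠ 0 := Int.cast_ne_zero.2 (by rintro rfl; exact absurd hn (by decide))
  have e0 : (lcdG x : M) * lcdG y = lcdG (x ^^^ y) * (n : M) ^ 2 := by exact_mod_cast e
  have h1 := (hr.mul hs).mul_right (inv_ne_zero (pow_ne_zero 2 h0))
  have e1 : z * lcdG x * (z' * lcdG y) * ((n : M) ^ 2)⁻¹ = z * z' * lcdG (x ^^^ y) := by
    rw [mul_mul_mul_comm, e0]
    field_simp
  have e2 : (r : M) ^ 2 * (s : M) ^ 2 * ((n : M) ^ 2)⁻¹ = ((r * s / n : ℚ) : M) ^ 2 := by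
    push_cast
    field_simp
  exact ⟨r * s / n, by rwa [e1, e2] at h1⟩

theorem lcd_cl_sq {r : ℚ} (hr : r ≠ 0) : lcdCl μ ((r : M) ^ 2) 0 :=
  ⟨r, by simpa [lcdG] using Ap.refl (ν := μ) (pow_ne_zero 2 (Rat.cast_ne_zero.2 hr : (r : M) ≠ 0))⟩

theorem lcdCl.cancel (h : lcdCl μ z c) {r : ℚ} (hr : r ≠ 0) (e : z * z' = (r : M) ^ 2) :
    lcdCl μ z' c := by
  obtain ⟨s, hs⟩ := h
  have s0 : (s : M) ≠ 0 := fun h => hs.ne (by simp [h])
  have z0 : z' ≠ 0 := right_ne_zero_of_mul (e ▸ pow_ne_zero 2 (Rat.cast_ne_zero.2 hr))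
  have h1 := hs.symm.mul_left (mul_ne_zero (mul_ne_zero z0 (lcdG_cast_ne c))
    (inv_ne_zero (pow_ne_zero 2 s0)))
  have e2 : z' * lcdG c * ((s : M) ^ 2)⁻¹ * (z * lcdG c) = ((r * lcdG c / s : ℚ) : M) ^ 2 := by
    push_cast
    rw [div_pow, mul_pow, ← e]
    field_simp
  exact ⟨r * lcdG c / s, by rwa [e2, inv_mul_cancel_right₀ (pow_ne_zero 2 s0)] at h1⟩

theorem Cls.lcdCl (h2 : μ 2 < 1) (h : Cls (lcdG c) d) : lcdCl μ d c := by
  obtain ⟨j, t, h1, h3⟩ := h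
  have h4 := (ap_int (ν := μ) h2 (j := 0) (n := 1) (by decide) h3).mul_left
    (c := (2 ^ j) ^ 2) (pow_ne_zero 2 (pow_ne_zero j two_ne_zero))
  refine ⟨2 ^ j, ?_⟩
  have e : (d : M) * lcdG c = (2 ^ j) ^ 2 * t := by
    rw [← Int.cast_mul, h1, ← pow_mul, mul_comm j, pow_mul]
    norm_num
  rw [e]
  simpa using h4

theorem lcdApx.exists_cl (h2 : μ 2 < 1) (h : lcdApx μ z) (hz : z ≠ 0) : ∃ c, lcdCl μ z c := by
  obtain ⟨r, hr⟩ := h _ (val_pos_of_ne μ (mul_ne_zero (by norm_num : (4 : M) ≠ 0) hz)).ne'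
  have h1 := ap_of_lt hr
  have h0 : r ≠ 0 := Rat.cast_ne_zero.1 h1.ne
  have hd : (r.den : M) ≠ 0 := Nat.cast_ne_zero.2 r.den_nz
  obtain ⟨c, hc⟩ := lcd_exists_cls (m := r.num * r.den)
    (mul_ne_zero (Rat.num_ne_zero.2 h0) (Nat.cast_ne_zero.2 r.den_nz))
  have h3 := (hc.lcdCl h2).mul_sq (inv_ne_zero (Nat.cast_ne_zero.2 r.den_nz : (r.den : ℚ) ≠ 0))
  have e : ((r.num * r.den : ℤ) : M) * (((r.den : ℚ)⁻¹ : ℚ) : M) ^ 2 = r := by
    rw [Rat.cast_def r]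
    push_cast
    field_simp
  rw [e] at h3
  exact ⟨c, h3.of_ap h1⟩

omit [CharZero k] [CharZero M] in
theorem lcdCl.sqK {φ : k →+* M} (hL : Lies φ μ ν) {a : k} (h : lcdCl μ (φ a) c) :
    SqK ν (a * lcdG c) := by
  obtain ⟨r, hr⟩ := h
  exact ⟨r, hL.ap.1 (by simpa only [map_mul, map_pow, map_intCast, map_ratCast] using hr)⟩

theorem lcd_good_sq {φ : k →+* M} (hL : Lies φ μ ν) (h2 : μ 2 < 1) {δ C : k}
    (h : SqK ν (δ * lcdG c)) (hd : Cls (lcdG c) d) : Good ν C (d * δ) := by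
  have h1 : SqK ν ((d : k) * lcdG c) := lcdCl.sqK hL (by rw [map_intCast]; exact hd.lcdCl h2)
  refine Or.inl ((sqK_sq (lcdG_cast_ne c)).cancel ?_)
  rw [show (lcdG c : k) ^ 2 * (d * δ) = d * lcdG c * (δ * lcdG c) by ring]
  exact h1.mul h

/-- places of degree one -/
theorem lcd_single (h2 : μ 2 < 1) {φ : k →+* M} (hA : ∀ a, lcdApx μ (φ a)) {δ : k} {b : Fin 8}
    (hb : lcdCl μ (φ δ) b) (hL : Lies φ μ ν) (hd : Cls (lcdG c) d)
    (h : c = b ∨ lcdB x (c ^^^ b)) : Good ν (256 * lcdG x : ℤ) (d * δ) := by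
  rcases h with rfl | h
  · exact lcd_good_sq hL h2 (hb.sqK hL) hd
  · refine Or.inr fun ⟨X, Y, h1⟩ => lcd_nn h2 h ((hd.lcdCl h2).mul hb) (hA X) (hA Y) ?_
    simpa only [map_mul, map_sub, map_pow, map_intCast] using hL.ap.2 h1

theorem lcdCl.arb (h : lcdApx μ z) (h0 : lcdCl μ z 0) {γ : ℤᵐ⁰} (hγ : γ ≠ 0) :
    ∃ m : ℚ, Ap μ z ((m : M) ^ 2) ∧ μ (z - (m : M) ^ 2) < γ := by
  obtain ⟨s, hs⟩ := h0
  have h1 : Ap μ z ((s : M) ^ 2) := by simpa [lcdG] using hs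
  have h3 := val_pos_of_ne μ (mul_ne_zero (by norm_num : (4 : M) ≠ 0) h1.ne')
  obtain ⟨r, hr⟩ := h _ (lt_min (zero_lt_iff.2 hγ) h3).ne'
  rw [lt_min_iff] at hr
  have hL := lies_comap (Rat.castHom M) μ
  obtain ⟨m, h4, h5⟩ := SqK.arb (ν := μ.comap (Rat.castHom M)) (a := r)
    ⟨s, hL.ap.1 (by simpa using (ap_of_lt hr.2).symm.trans h1)⟩ hγ
  refine ⟨m, (ap_of_lt hr.2).trans (by simpa using hL.ap.2 h4), ?_⟩
  rw [← sub_add_sub_cancel z r]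
  exact μ.map_add_lt hr.1 (by simpa using h5)

omit [CharZero k] [CharZero M] in
theorem lcd_lies {α β : k →+* M} (hv : ∀ a, μ (β a) = μ (α a)) (hL : Lies α μ ν) : Lies β μ ν :=
  fun a b => by rw [hv, hv, hL]

/-- Hilbert 90 at a place of degree two -/
theorem lcd_h90 (h2 : μ 2 < 1) {α β : k →+* M} (hv : ∀ a, μ (β a) = μ (α a))
    (hp : ∀ a b, lcdApx μ (α a * β b + α b * β a)) {δ : k} (hN : lcdApx μ (α δ * β δ))
    (h0 : lcdCl μ (α δ * β δ) 0) :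
    ∃ t, ∀ ν : Valuation k ℤᵐ⁰, Lies α μ ν → SqK ν (δ * lcdG t) := by
  have n0 : α δ * β δ ≠ 0 := left_ne_zero_of_mul h0.choose_spec.ne'
  have a0 : α δ ≠ 0 := left_ne_zero_of_mul n0
  obtain ⟨m₀, h1, h3⟩ := h0.arb hN
    (val_pos_of_ne μ (mul_ne_zero (by norm_num : (16 : M) ≠ 0) n0)).ne'
  have key : ∀ m : ℚ, (m : M) ^ 2 = (m₀ : M) ^ 2 → μ (4 * m₀) ≤ μ (α δ + β δ + 2 * m) →
      ∃ t, ∀ ν : Valuation k ℤᵐ⁰, Lies α μ ν → SqK ν (δ * lcdG t) := by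
    intro m hm h4
    have m0 : (m₀ : M) ≠ 0 := fun h => h1.ne (by simp [h])
    have t0 : α δ + β δ + 2 * m ≠ 0 := fun h => by
      rw [h, map_zero] at h4
      exact (val_pos_of_ne μ (mul_ne_zero (by norm_num) m0)).not_ge h4
    have h5 : lcdApx μ (α δ + β δ + 2 * m) := by
      have h6 := hp (δ + m) 1
      simp only [map_add, map_one, map_ratCast, mul_one, one_mul] at h6
      rwa [show α δ + m + (β δ + m) = α δ + β δ + 2 * m by ring] at h6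
    obtain ⟨t, r, hr⟩ := h5.exists_cl h2 t0
    have h6 : μ (m₀ : M) = μ (α δ) := by
      have h7 := h1.val_eq
      rw [map_mul, hv, map_pow, ← sq] at h7
      exact (pow_left_inj₀ zero_le zero_le two_ne_zero).1 h7.symm
    have h7 : Ap μ (α (δ + m) ^ 2) (α δ * (α δ + β δ + 2 * m)) := by
      rw [Ap, show α (δ + m) ^ 2 - α δ * (α δ + β δ + 2 * m) = (m : M) ^ 2 - α δ * β δ by
        rw [map_add, map_ratCast]
        ring, hm, Valuation.map_sub_swap]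
      refine h3.trans_le ?_
      rw [show (16 : M) * (α δ * β δ) = 4 * (α δ * (4 * β δ)) by ring, map_mul μ 4, map_mul μ 4,
        map_mul μ (α δ), map_mul μ (α δ), map_mul μ 4, hv, ← h6, ← map_mul μ 4]
      exact mul_le_mul_right (mul_le_mul_right h4 _) _
    refine ⟨t, fun ν hL => ?_⟩
    have h8 := (hr.mul_left (mul_ne_zero a0 (lcdG_cast_ne t))).symm.trans
      (show Ap μ (α δ * lcdG t * ((α δ + β δ + 2 * m) * lcdG t)) (α (δ + m) ^ 2 * lcdG t ^ 2) by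
        rw [show α δ * lcdG t * ((α δ + β δ + 2 * m) * lcdG t) =
          α δ * (α δ + β δ + 2 * m) * lcdG t ^ 2 by ring]
        exact h7.symm.mul_right (pow_ne_zero 2 (lcdG_cast_ne t)))
    have r0 : (r : k) ≠ 0 := Rat.cast_ne_zero.2 fun h => hr.ne (by simp [h])
    refine (sqK_sq r0).cancel ⟨(δ + m) * lcdG t, hL.ap.1 ?_⟩
    rw [mul_comm, mul_pow]
    simpa only [map_mul, map_pow, map_intCast, map_ratCast] using h8
  rcases le_or_gt (μ (4 * m₀)) (μ (α δ + β δ + 2 * m₀)) with h4 | h4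
  · exact key m₀ rfl h4
  · refine key (-m₀) (by simp) (not_lt.1 fun h5 => (μ.map_sub_lt h4 h5).ne (congrArg μ ?_))
    push_cast
    ring

/-- places of degree two -/
theorem lcd_pair (h2 : μ 2 < 1) {α β : k →+* M} (hv : ∀ a, μ (β a) = μ (α a))
    (hp : ∀ a b, lcdApx μ (α a * β b + α b * β a)) {δ : k} {b : Fin 8}
    (hb : lcdCl μ (α δ * β δ) b) :
    ∃ t, ∀ (ν : Valuation k ℤᵐ⁰) (x c : Fin 8) (d : ℤ), Lies α μ ν → Cls (lcdG c) d →
      b = 0 ∧ c = t ∨ lcdB x b → Good ν (256 * lcdG x : ℤ) (d * δ) := by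
  have hn : ∀ (n : ℤ) a, lcdApx μ (n * (α a * β a)) := fun n a => by
    have h := hp (n * a / 2) a
    simp only [map_mul, map_div₀, map_ofNat, map_intCast] at h
    rwa [show n * α a / 2 * β a + α a * (n * β a / 2) = n * (α a * β a) by ring] at h
  have hN : ∀ a, lcdApx μ (α a * β a) := fun a => by simpa using hn 1 a
  obtain ⟨t, ht⟩ : ∃ t, b = 0 → ∀ ν : Valuation k ℤᵐ⁰, Lies α μ ν → SqK ν (δ * lcdG t) := by
    by_cases h : b = 0
    · exact (lcd_h90 h2 hv hp (hN δ) (h ▸ hb)).imp fun _ h1 _ => h1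
    · exact ⟨0, fun h1 => (h h1).elim⟩
  refine ⟨t, fun ν x c d hL hd h => ?_⟩
  rcases h with ⟨h, rfl⟩ | h
  · exact lcd_good_sq hL h2 (ht h ν hL) hd
  refine Or.inr fun ⟨X, Y, h1⟩ => ?_
  have d0 : (d : ℚ) ≠ 0 := Int.cast_ne_zero.2 (Int.cast_ne_zero.1 (left_ne_zero_of_mul h1.ne'))
  refine lcd_nn h2 h (hb.mul_sq d0) ((hN X).add (hn (256 * lcdG x) Y)) (hp X Y) ?_
  have h3 := (hL.ap.2 h1).mul ((lcd_lies hv hL).ap.2 h1)
  simp only [map_mul, map_sub, map_pow, map_intCast] at h3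
  generalize ((256 * lcdG x : ℤ) : M) = C at h3 ⊢
  rwa [show d * α δ * (d * β δ) = α δ * β δ * ((d : ℚ) : M) ^ 2 by rw [Rat.cast_intCast]; ring,
    show (α X ^ 2 - C * α Y ^ 2) * (β X ^ 2 - C * β Y ^ 2) =
      (α X * β X + C * (α Y * β Y)) ^ 2 - C * (α X * β Y + α Y * β X) ^ 2 by ring] at h3

/-- places of degree three -/
theorem lcd_triple (h2 : μ 2 < 1) {α β γ : k →+* M} (hv : ∀ a, μ (β a) = μ (α a))
    (hv' : ∀ a, μ (γ a) = μ (α a))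
    (hp : ∀ a b, lcdApx μ (α a * β a * γ b + α a * β b * γ a + α b * β a * γ a)) {δ : k}
    {b : Fin 8} (hb : lcdCl μ (α δ * β δ * γ δ) b) (hL : Lies α μ ν) (hd : Cls (lcdG c) d)
    (h : lcdB x (c ^^^ b)) : Good ν (256 * lcdG x : ℤ) (d * δ) := by
  have hn : ∀ (n : ℤ) a, lcdApx μ (n * (α a * β a * γ a)) := fun n a => by
    have h := hp a (n * a / 3)
    simp only [map_mul, map_div₀, map_ofNat, map_intCast] at h
    rwa [show α a * β a * (n * γ a / 3) + α a * (n * β a / 3) * γ a + n * α a / 3 * β a * γ a =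
      n * (α a * β a * γ a) by ring] at h
  have hN : ∀ a, lcdApx μ (α a * β a * γ a) := fun a => by simpa using hn 1 a
  refine Or.inr fun ⟨X, Y, h1⟩ => ?_
  have d0 : (d : ℚ) ≠ 0 := Int.cast_ne_zero.2 (Int.cast_ne_zero.1 (left_ne_zero_of_mul h1.ne'))
  refine lcd_nn h2 h (((hd.lcdCl h2).mul hb).mul_sq d0)
    ((hN X).add (hp Y ((256 * lcdG x : ℤ) * X))) ((hp X Y).add (hn (256 * lcdG x) Y)) ?_
  have h3 := ((hL.ap.2 h1).mul ((lcd_lies hv hL).ap.2 h1)).mul ((lcd_lies hv' hL).ap.2 h1)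
  simp only [map_mul, map_sub, map_pow, map_intCast] at h3 ⊢
  generalize ((256 * lcdG x : ℤ) : M) = C at h3 ⊢
  rwa [show d * α δ * (d * β δ) * (d * γ δ) = d * (α δ * β δ * γ δ) * ((d : ℚ) : M) ^ 2 by
      rw [Rat.cast_intCast]; ring,
    show (α X ^ 2 - C * α Y ^ 2) * (β X ^ 2 - C * β Y ^ 2) * (γ X ^ 2 - C * γ Y ^ 2) =
      (α X * β X * γ X + (α Y * β Y * (C * γ X) + α Y * (C * β X) * γ Y + C * α X * β Y * γ Y)) ^ 2 -
        C * (α X * β X * γ Y + α X * β Y * γ X + α Y * β X * γ X + C * (α Y * β Y * γ Y)) ^ 2 by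
      ring] at h3

end Pool.Agent.Lib.MP_775b3b_nt
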