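import Pool.Agent.Lib.MP_775b3b_nt.ZGlue

/-! Definitions for the local condition at two of a curve with multiplicative reduction. -/

namespace Pool.Agent.Lib.MP_775b3b_nt

open Cub MP_439fea_co WithZero Filter

section Ap

variable {k k' : Type*} [Field k] [Field k']

/-- `a / b` is congruent to one modulo `4 𝔪` -/
def Ap (ν : Valuation k ℤᵐ⁰) (a b : k) : Prop := ν (a - b) < ν (4 * b)

/-- local squares -/
def SqK (ν : Valuation k ℤᵐ⁰) (a : k) : Prop := ∃ y : k, Ap ν a (y ^ 2)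

/-- local norms from `k (√C)` -/
def NmK (ν : Valuation k ℤᵐ⁰) (C a : k) : Prop := ∃ X Y : k, Ap ν a (X ^ 2 - C * Y ^ 2)

/-- `μ` lies over `ν` along `φ`, ramification allowed -/
def Lies (φ : k →+* k') (μ : Valuation k' ℤᵐ⁰) (ν : Valuation k ℤᵐ⁰) : Prop :=
  ∀ x y : k, μ (φ x) < μ (φ y) ↔ ν x < ν y

/-- the twist by `D` has the standard local condition -/
def Good (ν : Valuation k ℤᵐ⁰) (C D : k) : Prop := SqK ν D ∨ ¬ NmK ν C D

/-- local norms that become squares are squares -/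
def TD (φ : k →+* k') (μ : Valuation k' ℤᵐ⁰) (ν : Valuation k ℤᵐ⁰) (C : k) : Prop :=
  ∀ a : k, SqK μ (φ a) → NmK ν C a → SqK ν a

variable {ν : Valuation k ℤᵐ⁰} {a b c d : k}

theorem Ap.ne (h : Ap ν a b) : b ≠ 0 := by
  rintro rfl
  simp [Ap] at h

theorem Ap.pos (h : Ap ν a b) : 0 < ν 4 := by
  refine zero_lt_iff.2 fun h0 => ?_
  simp [Ap, h0] at h

theorem Ap.val_eq (h : Ap ν a b) : ν a = ν b := by
  have h1 : ν (a - b) < ν b := h.trans_le (by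
    rw [map_mul]
    exact mul_le_of_le_one_left' (val_four_le_one ν))
  simpa using ν.map_add_eq_of_lt_right h1

theorem Ap.ne' (h : Ap ν a b) : a ≠ 0 := fun h0 => by
  have h1 := h.val_eq
  rw [h0, map_zero] at h1
  exact h.ne ((Valuation.zero_iff ν).1 h1.symm)

theorem Ap.symm (h : Ap ν a b) : Ap ν b a := by
  have h1 := h.val_eq
  rw [Ap, map_mul] at h ⊢
  rwa [Valuation.map_sub_swap, h1]

theorem Ap.trans (h : Ap ν a b) (h' : Ap ν b c) : Ap ν a c := by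
  have h1 := h'.val_eq
  rw [Ap, map_mul] at h h' ⊢
  rw [← sub_add_sub_cancel a b c]
  exact ν.map_add_lt (h1 ▸ h) h'

theorem Ap.mul_left (h : Ap ν a b) (hc : c ≠ 0) : Ap ν (c * a) (c * b) := by
  rw [Ap, ← mul_sub, mul_left_comm, map_mul, map_mul]
  exact mul_lt_mul_of_pos_left h (zero_lt_iff.2 ((Valuation.ne_zero_iff ν).2 hc))

theorem Ap.mul (h : Ap ν a b) (h' : Ap ν c d) : Ap ν (a * c) (b * d) :=
  (h'.mul_left h.ne').trans (by simpa only [mul_comm] using h.mul_left h'.ne)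

theorem Ap.sq (h : Ap ν a b) : Ap ν (a ^ 2) (b ^ 2) := by
  rw [pow_two, pow_two]
  exact h.mul h

theorem Ap.refl [CharZero k] (ha : a ≠ 0) : Ap ν a a := by
  rw [Ap, sub_self, map_zero]
  exact zero_lt_iff.2 ((Valuation.ne_zero_iff ν).2 (mul_ne_zero (by norm_num) ha))

theorem SqK.ne (h : SqK ν a) : a ≠ 0 := h.choose_spec.ne'

theorem SqK.of_ap (h : SqK ν b) (h' : Ap ν a b) : SqK ν a := h.imp fun _ hy => h'.trans hy

theorem SqK.mul (h : SqK ν a) (h' : SqK ν b) : SqK ν (a * b) := by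
  obtain ⟨y, hy⟩ := h
  obtain ⟨z, hz⟩ := h'
  exact ⟨y * z, mul_pow y z 2 ▸ hy.mul hz⟩

theorem SqK.cancel (h : SqK ν a) (h' : SqK ν (a * b)) : SqK ν b := by
  obtain ⟨y, hy⟩ := h.mul h'
  have h1 := hy.mul_left (inv_ne_zero (pow_ne_zero 2 h.ne))
  have h2 := h.ne
  refine ⟨y / a, ?_⟩
  convert h1 using 1 <;> field_simp

theorem sqK_sq [CharZero k] (ha : a ≠ 0) : SqK ν (a ^ 2) := ⟨a, Ap.refl (pow_ne_zero 2 ha)⟩

end Ap

/-- even integers that are better and better roots of the cubic at two -/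
def FR (e : ℤ × ℤ) : Filter ℤ := ⨅ n : ℕ, 𝓟 {r : ℤ | 2 ∣ r ∧ 2 ^ n ∣ fv e r}

theorem eventually_FR {e : ℤ × ℤ} {p : ℤ → Prop} :
    (∀ᶠ r in FR e, p r) ↔ ∃ n : ℕ, ∀ r : ℤ, 2 ∣ r → 2 ^ n ∣ fv e r → p r := by
  rw [FR, Filter.Eventually, mem_iInf_of_directed]
  · simp only [mem_principal, Set.subset_def, Set.mem_ofPred_eq, and_imp]
  · exact directed_of_isDirected_le fun m n h => principal_mono.2 fun r hr =>
      ⟨hr.1, (pow_dvd_pow 2 h).trans hr.2⟩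

/-- the cubic is close to `(x + 6) ((x - 3)^2 - C)` -/
structure Tate (e : ℤ × ℤ) (C : ℤ) : Prop where
  lo : 2 ^ 7 ∣ C
  hi : ¬ 2 ^ 10 ∣ C
  a : 2 ^ 13 ∣ e.1 + 27 + C
  b : 2 ^ 13 ∣ e.2 - 54 + 6 * C

section Bdd

variable {k : Type*} [Field k] {ν : Valuation k ℤᵐ⁰} {e : ℤ × ℤ}

/-- bounded functions of an integer -/
def Bdd (ν : Valuation k ℤᵐ⁰) (g : ℤ → k) : Prop := ∃ B : ℤᵐ⁰, B ≠ 0 ∧ ∀ r, ν (g r) ≤ B

theorem val_intCast_le (ν : Valuation k ℤᵐ⁰) (n : ℤ) : ν (n : k) ≤ 1 := intCast_mem ν.integer n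

theorem Bdd.const (c : k) : Bdd ν fun _ => c :=
  ⟨max (ν c) 1, (lt_max_of_lt_right zero_lt_one).ne', fun _ => le_max_left _ _⟩

theorem Bdd.cast : Bdd ν fun r => (r : k) := ⟨1, one_ne_zero, val_intCast_le ν⟩

theorem Bdd.add {g h : ℤ → k} (hg : Bdd ν g) (hh : Bdd ν h) : Bdd ν fun r => g r + h r := by
  obtain ⟨A, a0, hA⟩ := hg
  obtain ⟨B, -, hB⟩ := hh
  exact ⟨max A B, (lt_max_of_lt_left (zero_lt_iff.2 a0)).ne', fun r =>
    ν.map_add_le (le_max_of_le_left (hA r)) (le_max_of_le_right (hB r))⟩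

theorem Bdd.sub {g h : ℤ → k} (hg : Bdd ν g) (hh : Bdd ν h) : Bdd ν fun r => g r - h r := by
  obtain ⟨A, a0, hA⟩ := hg
  obtain ⟨B, -, hB⟩ := hh
  exact ⟨max A B, (lt_max_of_lt_left (zero_lt_iff.2 a0)).ne', fun r =>
    ν.map_sub_le (le_max_of_le_left (hA r)) (le_max_of_le_right (hB r))⟩

theorem Bdd.mul {g h : ℤ → k} (hg : Bdd ν g) (hh : Bdd ν h) : Bdd ν fun r => g r * h r := by
  obtain ⟨A, a0, hA⟩ := hg
  obtain ⟨B, b0, hB⟩ := hh
  exact ⟨A * B, mul_ne_zero a0 b0, fun r => by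
    rw [map_mul]
    exact mul_le_mul' (hA r) (hB r)⟩

theorem Bdd.pow {g : ℤ → k} (hg : Bdd ν g) (n : ℕ) : Bdd ν fun r => g r ^ n := by
  obtain ⟨A, a0, hA⟩ := hg
  exact ⟨A ^ n, pow_ne_zero n a0, fun r => by
    rw [map_pow]
    exact pow_le_pow_left' (hA r) n⟩

theorem exists_pow_lt {x γ : ℤᵐ⁰} (hx : x < 1) (hγ : γ ≠ 0) : ∃ n : ℕ, x ^ n < γ := by
  obtain ⟨n, hn⟩ := Val_exists_exp_le hγ
  have h1 : x ≤ exp (-1 : ℤ) := by
    rcases eq_or_ne x 0 with rfl | h0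
    · exact zero_le
    rw [← exp_log h0] at hx ⊢
    rw [← exp_zero, exp_lt_exp] at hx
    exact exp_le_exp.2 (by omega)
  refine ⟨n + 1, ((pow_le_pow_left' h1 _).trans_lt ?_).trans_le hn⟩
  rw [← exp_nsmul, exp_lt_exp]
  simp

theorem val_le_of_dvd {n : ℕ} {m : ℤ} (h : 2 ^ n ∣ m) : ν (m : k) ≤ ν 2 ^ n := by
  obtain ⟨t, rfl⟩ := h
  rw [Int.cast_mul, map_mul, Int.cast_pow, map_pow, Int.cast_ofNat]
  exact mul_le_of_le_one_right' (val_intCast_le ν t)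

theorem Bdd.small (h2 : ν 2 < 1) {g : ℤ → k} (hg : Bdd ν g) {γ : ℤᵐ⁰} (hγ : γ ≠ 0) :
    ∀ᶠ r : ℤ in FR e, ν (fv e (r : k) * g r) < γ := by
  obtain ⟨B, b0, hB⟩ := hg
  obtain ⟨n, hn⟩ := exists_pow_lt h2 (div_ne_zero hγ b0)
  refine eventually_FR.2 ⟨n, fun r _ hr => ?_⟩
  rw [map_mul, fv_intCast]
  rw [lt_div_iff₀ (zero_lt_iff.2 b0)] at hn
  exact (mul_le_mul' (val_le_of_dvd hr) (hB r)).trans_lt hn

theorem Bdd.fv : Bdd ν fun r => fv e (r : k) := ⟨1, one_ne_zero, fun r =>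
  (congrArg ν (fv_intCast r)).trans_le (val_intCast_le ν _)⟩

/-- the norm of the component of degree two -/
def n2r {R : Type*} [CommRing R] {e : ℤ × ℤ} (r : R) (x : Cub e R) : R :=
  (x.c0 - (r ^ 2 + e.1) * x.c2) ^ 2 - r * (x.c0 - (r ^ 2 + e.1) * x.c2) * (x.c1 - r * x.c2) +
    (r ^ 2 + e.1) * (x.c1 - r * x.c2) ^ 2

theorem Bdd.evr (x : Cub e k) : Bdd ν fun r => evr (r : k) x :=
  ((Bdd.const _).add ((Bdd.const _).mul Bdd.cast)).add ((Bdd.const _).mul (Bdd.cast.pow 2))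

theorem Bdd.n2r (x : Cub e k) : Bdd ν fun r => n2r (r : k) x := by
  have a := (Bdd.cast (ν := ν).pow 2).add (Bdd.const (e.1 : k))
  have b := (Bdd.const x.c0).sub (a.mul (Bdd.const x.c2))
  have c := (Bdd.const (ν := ν) x.c1).sub (Bdd.cast.mul (Bdd.const x.c2))
  exact ((b.pow 2).sub ((Bdd.cast.mul b).mul c)).add (a.mul (c.pow 2))

/-- the norm splits approximately -/
theorem ev_nm [CharZero k] (h2 : ν 2 < 1) {x : Cub e k} (hx : nm x ≠ 0) :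
    ∀ᶠ r : ℤ in FR e, Ap ν (evr (r : k) x * n2r (r : k) x) (nm x) := by
  have hb : Bdd ν fun r => 3 * x.c0 * x.c1 * x.c2 - x.c1 ^ 3 - e.1 * x.c1 * x.c2 ^ 2 +
      (2 * e.2 - fv e (r : k)) * x.c2 ^ 3 :=
    (Bdd.const _).add (((Bdd.const _).sub Bdd.fv).mul (Bdd.const _))
  filter_upwards [hb.small h2 ((Valuation.ne_zero_iff ν).2
    (mul_ne_zero (by norm_num : (4 : k) ≠ 0) hx))] with r hr
  rw [Ap, Valuation.map_sub_swap]
  convert hr using 2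
  simp only [nm, evr, n2r, fv]
  ring

theorem ev_lower [CharZero k] (h2 : ν 2 < 1) {x : Cub e k} (hx : nm x ≠ 0) :
    ∃ γ : ℤᵐ⁰, γ ≠ 0 ∧ ∀ᶠ r : ℤ in FR e, γ ≤ ν (evr (r : k) x) := by
  obtain ⟨B, b0, hB⟩ := Bdd.n2r (ν := ν) x
  refine ⟨ν (nm x) / B, div_ne_zero ((Valuation.ne_zero_iff ν).2 hx) b0, ?_⟩
  filter_upwards [ev_nm h2 hx] with r hr
  rw [div_le_iff₀ (zero_lt_iff.2 b0), ← hr.val_eq, map_mul]
  exact mul_le_mul_right (hB r) _

theorem ev_mul [CharZero k] (h2 : ν 2 < 1) {x y : Cub e k} (hx : nm x ≠ 0) (hy : nm y ≠ 0) :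
    ∀ᶠ r : ℤ in FR e, Ap ν (evr (r : k) (x * y)) (evr (r : k) x * evr (r : k) y) := by
  obtain ⟨γ, g0, hγ⟩ := ev_lower h2 hx
  obtain ⟨δ, d0, hδ⟩ := ev_lower h2 hy
  have hb : Bdd ν fun r => x.c1 * y.c2 + x.c2 * y.c1 + x.c2 * y.c2 * (r : k) :=
    (Bdd.const _).add ((Bdd.const _).mul Bdd.cast)
  filter_upwards [hγ, hδ, hb.small h2 (mul_ne_zero ((Valuation.ne_zero_iff ν).2
    (by norm_num : (4 : k) ≠ 0)) (mul_ne_zero g0 d0))] with r h1 h3 hr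
  rw [Ap, Valuation.map_sub_swap, map_mul, map_mul]
  refine lt_of_eq_of_lt ?_ (hr.trans_le (mul_le_mul_right (mul_le_mul' h1 h3) _))
  congr 1
  simp only [evr, fv, mul_c0, mul_c1, mul_c2]
  ring

end Bdd

/-- the local condition above two: the value at the simple root is a local square -/
noncomputable def L2m (e : ℤ × ℤ) {k : Type*} [Field k] [CharZero k] (ν : Valuation k ℤᵐ⁰) :
    Subgroup (Cub e k)ˣ where
  carrier := {d | ν 2 < 1 → ∀ᶠ r : ℤ in FR e, SqK ν (evr (r : k) (d : Cub e k))}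
  one_mem' := fun _ => Eventually.of_forall fun r => by
    simpa [evr] using sqK_sq (ν := ν) (one_ne_zero (α := k))
  mul_mem' := by
    intro a b ha hb h2
    filter_upwards [ha h2, hb h2, ev_mul h2 (nm_ne_zero a) (nm_ne_zero b)] with r h1 h3 h4
    exact (h1.mul h3).of_ap h4
  inv_mem' := by
    intro a ha h2
    filter_upwards [ha h2, ev_mul h2 (nm_ne_zero a) (nm_ne_zero a⁻¹)] with r h1 h4
    rw [Units.mul_inv] at h4
    exact h1.cancel (SqK.of_ap (by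
      simpa [evr] using sqK_sq (ν := ν) (one_ne_zero (α := k))) h4.symm)

theorem mem_L2m {e : ℤ × ℤ} {k : Type*} [Field k] [CharZero k] {ν : Valuation k ℤᵐ⁰}
    {d : (Cub e k)ˣ} : d ∈ L2m e ν ↔
      (ν 2 < 1 → ∀ᶠ r : ℤ in FR e, SqK ν (evr (r : k) (d : Cub e k))) := Iff.rfl

end Pool.Agent.Lib.MP_775b3b_nt
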