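import Pool.Agent.Lib.MP_775b3b_nt.M2.L1

/-! Descent of local squares when the two-subgroups of the decomposition group are cyclic. -/

namespace Pool.Agent.Lib.MP_775b3b_nt

open Cub MP_439fea_co WithZero

/-- a finite group with cyclic two-subgroups has a normal two-complement -/
theorem cyc_struct {D : Type*} [Group D] [Finite D]
    (hD : ∀ Q : Subgroup D, IsPGroup 2 Q → IsCyclic Q) {h : D} {n : ℕ} (hn : h ^ 2 ^ n = 1) :
    ∃ (g : D) (N : Subgroup D) (m j : ℕ), N.Normal ∧ h = g ^ m ∧ g ^ 2 ^ j = 1 ∧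
      Odd (Nat.card N) ∧ ∀ d : D, ∃ x ∈ N, ∃ i : ℕ, d = x * g ^ i := by
  by_cases h2 : 2 ∣ Nat.card D
  · have hz : IsPGroup 2 (Subgroup.zpowers h) := by
      obtain ⟨i, -, hi⟩ := (Nat.dvd_prime_pow Nat.prime_two).1 (orderOf_dvd_of_pow_eq_one hn)
      exact IsPGroup.of_card (by rw [Nat.card_zpowers, hi])
    obtain ⟨S, hS⟩ := hz.exists_le_sylow
    have hc := hD S S.2
    have hp : (Nat.card D).minFac = 2 := (Nat.minFac_eq_two_iff _).2 h2
    have hco := IsCyclic.isComplement' hp hc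
    obtain ⟨g, hg⟩ := IsCyclic.exists_monoid_generator (α := S)
    obtain ⟨m, hm⟩ := hg ⟨h, hS (Subgroup.mem_zpowers h)⟩
    obtain ⟨j, hj⟩ := S.2 g
    refine ⟨g, (MonoidHom.transferSylow S (hc.normalizer_le_centralizer hp)).ker, m, j,
      inferInstance, (congrArg Subtype.val hm).symm, congrArg Subtype.val hj, ?_,
      fun d => ?_⟩
    · rw [← hco.index_eq_card, ← Nat.not_even_iff_odd, even_iff_two_dvd]
      exact S.not_dvd_index
    · obtain ⟨⟨x, s⟩, hx⟩ := hco.2 d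
      obtain ⟨i, hi⟩ := hg s
      exact ⟨x, x.2, i, by rw [← hx, ← hi]; rfl⟩
  · refine ⟨1, ⊤, 0, 0, inferInstance, ?_, by simp, ?_, fun d => ⟨d, trivial, 0, by simp⟩⟩
    · rw [pow_zero, ← orderOf_eq_one_iff]
      exact Nat.eq_one_of_dvd_coprimes ((Nat.Coprime.pow_left n
        ((Nat.Prime.coprime_iff_not_dvd Nat.prime_two).2 h2))) (orderOf_dvd_of_pow_eq_one hn)
        (orderOf_dvd_natCard h)
    · rwa [Subgroup.card_top, ← Nat.not_even_iff_odd, even_iff_two_dvd]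

section Ap2

variable {k : Type*} [Field k] {ν : Valuation k ℤᵐ⁰} {a b c d : k}

/-- `a / b` is congruent to one modulo `2 𝔪` -/
def Ap2 (ν : Valuation k ℤᵐ⁰) (a b : k) : Prop := ν (a - b) < ν (2 * b)

theorem Ap2.ne (h : Ap2 ν a b) : b ≠ 0 := by
  rintro rfl
  simp [Ap2] at h

theorem Ap2.val_eq (h : Ap2 ν a b) : ν a = ν b := by
  have h1 : ν (a - b) < ν b := h.trans_le (by
    rw [map_mul]
    exact mul_le_of_le_one_left' (by simpa using val_nat_le_one ν 2))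
  simpa using ν.map_add_eq_of_lt_right h1

theorem Ap2.ne' (h : Ap2 ν a b) : a ≠ 0 := fun h0 => by
  have h1 := h.val_eq
  rw [h0, map_zero] at h1
  exact h.ne ((Valuation.zero_iff ν).1 h1.symm)

theorem Ap2.symm (h : Ap2 ν a b) : Ap2 ν b a := by
  have h1 := h.val_eq
  rw [Ap2, map_mul] at h ⊢
  rwa [Valuation.map_sub_swap, h1]

theorem Ap2.trans (h : Ap2 ν a b) (h' : Ap2 ν b c) : Ap2 ν a c := by
  have h1 := h'.val_eq
  rw [Ap2, map_mul] at h h' ⊢
  rw [← sub_add_sub_cancel a b c]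
  exact ν.map_add_lt (h1 ▸ h) h'

theorem Ap2.mul_left (h : Ap2 ν a b) (hc : c ≠ 0) : Ap2 ν (c * a) (c * b) := by
  rw [Ap2, ← mul_sub, mul_left_comm, map_mul, map_mul]
  exact mul_lt_mul_of_pos_left h (val_pos_of_ne ν hc)

theorem Ap2.mul (h : Ap2 ν a b) (h' : Ap2 ν c d) : Ap2 ν (a * c) (b * d) :=
  (h'.mul_left h.ne').trans (by simpa only [mul_comm] using h.mul_left h'.ne)

theorem Ap2.neg (h : Ap2 ν a b) : Ap2 ν (-a) (-b) := by
  simpa using h.mul_left (c := -1) (by norm_num)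

theorem Ap2.refl [CharZero k] (ha : a ≠ 0) : Ap2 ν a a := by
  rw [Ap2, sub_self, map_zero]
  exact val_pos_of_ne ν (mul_ne_zero (by norm_num) ha)

theorem Ap2.not_neg (h : Ap2 ν a (-a)) : False := by
  rw [Ap2, sub_neg_eq_add, ← two_mul, mul_neg, Valuation.map_neg] at h
  exact h.false

theorem Ap.dich (h : Ap ν (a ^ 2) (b ^ 2)) : Ap2 ν a b ∨ Ap2 ν a (-b) := by
  by_contra h1
  rw [not_or, Ap2, Ap2, not_lt, not_lt, mul_neg, Valuation.map_neg] at h1
  have h2 := mul_le_mul' h1.1 h1.2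
  rw [← map_mul, ← map_mul] at h2
  refine absurd h (not_lt.2 ?_)
  convert h2 using 2 <;> ring

theorem Ap2.prod [CharZero k] {ι : Type*} (s : Finset ι) {f g : ι → k}
    (h : ∀ i, Ap2 ν (f i) (g i)) : Ap2 ν (∏ i ∈ s, f i) (∏ i ∈ s, g i) := by
  classical
  induction s using Finset.induction_on with
  | empty => simpa using Ap2.refl one_ne_zero
  | insert i s hi ih =>
    rw [Finset.prod_insert hi, Finset.prod_insert hi]
    exact (h i).mul ih

theorem Ap.prod [CharZero k] {ι : Type*} (s : Finset ι) {f g : ι → k}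
    (h : ∀ i, Ap ν (f i) (g i)) : Ap ν (∏ i ∈ s, f i) (∏ i ∈ s, g i) := by
  classical
  induction s using Finset.induction_on with
  | empty => simpa using Ap.refl one_ne_zero
  | insert i s hi ih =>
    rw [Finset.prod_insert hi, Finset.prod_insert hi]
    exact (h i).mul ih

theorem NmK.symm [CharZero k] (hb : b ≠ 0) (h : NmK ν b a) (ha : ¬ SqK ν a) : NmK ν a b := by
  obtain ⟨X, Y, h1⟩ := h
  have hY : Y ≠ 0 := by
    rintro rfl
    exact ha ⟨X, by simpa using h1⟩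
  have h2 : SqK ν (a * (X ^ 2 - b * Y ^ 2)) :=
    (sqK_sq h1.ne).of_ap (pow_two (X ^ 2 - b * Y ^ 2) ▸ h1.mul_right h1.ne)
  obtain ⟨z, -, hz⟩ := h2.arb (γ := ν (4 * b * Y ^ 2 * a * (X ^ 2 - b * Y ^ 2) / a ^ 2 * a))
    ((Valuation.ne_zero_iff ν).2 (mul_ne_zero (div_ne_zero (mul_ne_zero (mul_ne_zero (mul_ne_zero
      (mul_ne_zero (by norm_num) hb) (pow_ne_zero 2 hY)) h1.ne') h1.ne) (pow_ne_zero 2 h1.ne'))
      h1.ne'))
  have a0 := h1.ne'
  refine ⟨X / Y, z / (a * Y), ap_of_lt ?_⟩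
  have h3 := mul_lt_mul_of_pos_right hz (val_pos_of_ne ν
    (inv_ne_zero (mul_ne_zero a0 (pow_ne_zero 2 hY))))
  rw [← map_mul, ← map_mul, ← Valuation.map_neg] at h3
  refine lt_of_eq_of_lt ?_ (h3.trans_eq ?_)
  · congr 1
    field_simp
    ring
  · rw [map_mul, map_mul, map_div₀, map_mul, ← h1.val_eq, ← map_mul, ← map_div₀, ← map_mul,
      ← map_mul]
    congr 1
    field_simp

theorem sq_cont (ν : Valuation k ℤᵐ⁰) (c X : k) {δ : ℤᵐ⁰} (hδ : δ ≠ 0) :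
    ∃ γ : ℤᵐ⁰, γ ≠ 0 ∧ ∀ X' : k, ν (X' - X) ≤ γ → ν (c * X' ^ 2 - c * X ^ 2) < δ := by
  have b0 : 0 < max 1 (ν c) * max 1 (ν X) :=
    mul_pos (lt_max_of_lt_left zero_lt_one) (lt_max_of_lt_left zero_lt_one)
  refine ⟨min 1 (exp (-1 : ℤ) * δ / (max 1 (ν c) * max 1 (ν X))), (lt_min zero_lt_one
    (div_pos (mul_pos (zero_lt_iff.2 exp_ne_zero) (zero_lt_iff.2 hδ)) b0)).ne', fun X' h => ?_⟩
  have h1 : ν (X' - X + 2 * X) ≤ max 1 (ν X) := by
    refine ν.map_add_le (le_max_of_le_left (h.trans (min_le_left _ _))) (le_max_of_le_right ?_)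
    rw [map_mul]
    exact mul_le_of_le_one_left' (by simpa using val_nat_le_one ν 2)
  rw [show c * X' ^ 2 - c * X ^ 2 = (X' - X) * (c * (X' - X + 2 * X)) by ring, map_mul, map_mul]
  refine (mul_le_mul' (h.trans (min_le_right _ _)) (mul_le_mul' (le_max_right 1 _) h1)).trans_lt ?_
  rw [div_mul_cancel₀ _ b0.ne']
  exact mul_lt_of_lt_one_left (zero_lt_iff.2 hδ) exp_neg_one_lt

end Ap2

section Act

variable {F G : Type*} [Field F] [Group G] [MulSemiringAction G F] {μ : Valuation F ℤᵐ⁰}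
  {a b y z C : F} {g : G}

theorem smul_two' (g : G) : g • (2 : F) = 2 := map_ofNat (MulSemiringAction.toRingHom G F g) 2

theorem smul_four' (g : G) : g • (4 : F) = 4 := map_ofNat (MulSemiringAction.toRingHom G F g) 4

theorem Ap2.smul (hg : ∀ x, μ (g • x) = μ x) (h : Ap2 μ a b) : Ap2 μ (g • a) (g • b) := by
  rwa [Ap2, ← smul_sub, ← smul_two' g, ← smul_mul', hg, hg]

theorem Ap.smul (hg : ∀ x, μ (g • x) = μ x) (h : Ap μ a b) : Ap μ (g • a) (g • b) := by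
  rwa [Ap, ← smul_sub, ← smul_four' g, ← smul_mul', hg, hg]

theorem Ap.sign (hg : ∀ x, μ (g • x) = μ x) (ha : g • a = a) (h : Ap μ a (y ^ 2)) :
    Ap2 μ (g • y) y ∨ Ap2 μ (g • y) (-y) := by
  have h1 := h.smul hg
  rw [ha, smul_pow'] at h1
  exact (h1.symm.trans h).dich

theorem Ap2.pow_pos [CharZero F] (hg : ∀ x, μ (g • x) = μ x) (h : Ap2 μ (g • y) y) (n : ℕ) :
    Ap2 μ (g ^ n • y) y := by
  induction n with
  | zero => simpa using Ap2.refl h.ne
  | succ n ih =>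
    rw [pow_succ', mul_smul]
    exact (ih.smul hg).trans h

theorem Ap2.pow_neg [CharZero F] (hg : ∀ x, μ (g • x) = μ x) (h : Ap2 μ (g • y) (-y)) {n : ℕ}
    (hn : Odd n) : Ap2 μ (g ^ n • y) (-y) := by
  obtain ⟨m, rfl⟩ := hn
  induction m with
  | zero => simpa using h
  | succ n ih =>
    rw [show 2 * (n + 1) + 1 = 2 * n + 1 + 1 + 1 by ring, pow_succ', pow_succ', mul_smul, mul_smul]
    have h1 := ih.smul hg
    rw [smul_neg] at h1
    have h2 := h1.trans h.neg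
    rw [neg_neg] at h2
    exact (h2.smul hg).trans h

theorem Ap.sign_odd [CharZero F] (hg : ∀ x, μ (g • x) = μ x) (ha : g • a = a)
    (h : Ap μ a (y ^ 2)) {n : ℕ} (hn : Odd n) (h1 : g ^ n = 1) : Ap2 μ (g • y) y :=
  (h.sign hg ha).resolve_right fun h2 => by
    have h3 := h2.pow_neg hg hn
    rw [h1, one_smul] at h3
    exact h3.not_neg

/-- the action on pairs -/
def prAct (C : F) (g : G) (hC : g • C = C) :
    QuadraticAlgebra F C 0 →* QuadraticAlgebra F C 0 where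
  toFun z := ⟨g • z.re, g • z.im⟩
  map_one' := by ext <;> simp [QuadraticAlgebra.re_one, QuadraticAlgebra.im_one]
  map_mul' z w := by ext <;> simp [smul_add, smul_mul', hC]

/-- a norm fixed by `h` whose approximate square root changes sign under `h` -/
def NegNm (μ : Valuation F ℤᵐ⁰) (C : F) (h : G) : Prop :=
  ∃ X Y y : F, h • X = X ∧ h • Y = Y ∧ Ap μ (X ^ 2 - C * Y ^ 2) (y ^ 2) ∧ Ap2 μ (h • y) (-y)

theorem NegNm.half (hg : ∀ x, μ (g • x) = μ x) (hC : g • C = C) (h : NegNm μ C (g ^ 2)) :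
    NegNm μ C g := by
  obtain ⟨X, Y, y, hX, hY, h1, h2⟩ := h
  rw [pow_two, mul_smul] at hX hY h2
  refine ⟨X * g • X + C * (Y * g • Y), X * g • Y + Y * g • X, y * g • y, ?_, ?_, ?_, ?_⟩
  · simp only [smul_add, smul_mul', hC, hX, hY]
    ring
  · simp only [smul_add, smul_mul', hX, hY]
    ring
  · have h3 := h1.mul (h1.smul hg)
    simp only [smul_sub, smul_mul', smul_pow', hC] at h3
    convert h3 using 1 <;> ring
  · have y0 : g • y ≠ 0 := fun h0 => h2.ne' (by rw [h0, smul_zero])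
    rw [smul_mul']
    convert h2.mul_left y0 using 1
    ring

theorem NegNm.gen [CharZero F] (hG : ∀ (g : G) x, μ (g • x) = μ x) (hC : ∀ g : G, g • C = C)
    {j : ℕ} (hj : g ^ 2 ^ j = 1) (m : ℕ) (h : NegNm μ C (g ^ m)) : NegNm μ C g := by
  induction m using Nat.strong_induction_on with
  | _ m ih =>
    rcases Nat.even_or_odd m with ⟨l, hl⟩ | hm
    · rcases Nat.eq_zero_or_pos l with rfl | l0
      · obtain ⟨X, Y, y, -, -, -, h2⟩ := h
        rw [hl, pow_zero, one_smul] at h2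
        exact h2.not_neg.elim
      · refine ih l (by omega) (NegNm.half (hG _) (hC _) ?_)
        rwa [← pow_mul, mul_two, ← hl]
    · obtain ⟨X, Y, y, hX, hY, h1, h2⟩ := h
      have h3 : Subgroup.zpowers (g ^ m) ≤ MulAction.stabilizer G X ⊓ MulAction.stabilizer G Y :=
        Subgroup.zpowers_le_of_mem ⟨hX, hY⟩
      have h4 := h3 (mem_zpowers_pow_iff.2 (Nat.Coprime.coprime_dvd_right
        (orderOf_dvd_of_pow_eq_one hj) (Nat.Coprime.pow_right j (Nat.coprime_two_right.2 hm))))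
      have hX' : g • X = X := h4.1
      have hY' : g • Y = Y := h4.2
      refine ⟨X, Y, y, hX', hY', h1, (h1.sign (hG g) ?_).resolve_left fun h5 =>
        ((h5.pow_pos (hG g) m).symm.trans h2).not_neg⟩
      simp only [smul_sub, smul_mul', smul_pow', hC, hX', hY']

theorem NegNm.top [CharZero F] [Finite G] (hD : ∀ Q : Subgroup G, IsPGroup 2 Q → IsCyclic Q)
    (hG : ∀ (g : G) x, μ (g • x) = μ x) (hC : ∀ g : G, g • C = C) {h : G} {n : ℕ}
    (hn : h ^ 2 ^ n = 1) (H : NegNm μ C h) : ∃ (X Y y : F) (g : G), (∀ d : G, d • X = X) ∧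
      (∀ d : G, d • Y = Y) ∧ Ap μ (X ^ 2 - C * Y ^ 2) (y ^ 2) ∧ Ap2 μ (g • y) (-y) := by
  obtain ⟨g, N, m, j, hN, rfl, hj, ho, hd⟩ := cyc_struct hD hn
  obtain ⟨X, Y, y, hX, hY, h1, h2⟩ := NegNm.gen hG hC hj m H
  have := Fintype.ofFinite N
  let z : QuadraticAlgebra F C 0 := ∏ x : N, ⟨(x : G) • X, (x : G) • Y⟩
  have hz : ∀ d : G, prAct C d (hC d) z = z := by
    intro d
    obtain ⟨x, hx, i, rfl⟩ := hd d
    have h3 : g ^ i ∈ MulAction.stabilizer G X ⊓ MulAction.stabilizer G Y :=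
      Subgroup.pow_mem _ (Subgroup.mem_inf.2 ⟨hX, hY⟩) i
    have hX' : g ^ i • X = X := h3.1
    have hY' : g ^ i • Y = Y := h3.2
    rw [map_prod]
    refine Fintype.prod_equiv (((MulAut.conjNormal (g ^ i)).toEquiv).trans
      (Equiv.mulLeft (⟨x, hx⟩ : N))) _ _ fun t => ?_
    have h4 : ∀ W : F, g ^ i • W = W → (x * g ^ i) • (t : G) • W =
        (x * (g ^ i * t * (g ^ i)⁻¹)) • W := fun W hW => by
      rw [mul_smul, mul_smul, mul_smul, mul_smul, inv_smul_eq_iff.2 hW.symm]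
    ext
    · exact h4 X hX'
    · exact h4 Y hY'
  refine ⟨z.re, z.im, ∏ x : N, (x : G) • y, g, fun d => congrArg QuadraticAlgebra.re (hz d),
    fun d => congrArg QuadraticAlgebra.im (hz d), ?_, ?_⟩
  · have h3 : z.re ^ 2 - C * z.im ^ 2 = QuadraticAlgebra.norm z := by
      rw [QuadraticAlgebra.norm_def]
      ring
    rw [h3, map_prod, ← Finset.prod_pow]
    refine Ap.prod _ fun x => ?_
    have h4 := h1.smul (hG x)
    simp only [smul_sub, smul_mul', smul_pow', hC] at h4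
    convert h4 using 1
    rw [QuadraticAlgebra.norm_def]
    ring
  · have h3 : g • ∏ x : N, (x : G) • y = ∏ x : N, (x : G) • g • y := by
      rw [Finset.smul_prod']
      refine Fintype.prod_equiv (MulAut.conjNormal g).toEquiv _ _ fun t => ?_
      simp [mul_smul]
    have h4 : -∏ x : N, (x : G) • y = ∏ x : N, (x : G) • (-y) := by
      simp only [smul_neg]
      rw [Finset.prod_neg, Finset.card_univ, ← Nat.card_eq_fintype_card, ho.neg_one_pow,
        neg_one_mul]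
    rw [h3, h4]
    exact Ap2.prod _ fun x => h2.smul (hG x)

theorem sign_mul [CharZero F] [Finite G] (hD : ∀ Q : Subgroup G, IsPGroup 2 Q → IsCyclic Q)
    (hG : ∀ (g : G) x, μ (g • x) = μ x) (ha : ∀ g : G, g • a = a) (hb : ∀ g : G, g • b = b)
    (hy : Ap μ a (y ^ 2)) (hz : Ap μ b (z ^ 2)) (h1 : ¬ ∀ d : G, Ap2 μ (d • y) y)
    (h2 : ¬ ∀ d : G, Ap2 μ (d • z) z) (d : G) : Ap2 μ (d • (y * z)) (y * z) := by
  obtain ⟨g, N, -, -, -, -, -, ho, hd⟩ := cyc_struct hD (h := 1) (n := 0) (one_pow _)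
  have key : ∀ {c u : F}, (∀ g : G, g • c = c) → Ap μ c (u ^ 2) → Ap2 μ (g • u) u →
      ∀ d : G, Ap2 μ (d • u) u := by
    intro c u hc hu h d
    obtain ⟨x, hx, i, rfl⟩ := hd d
    rw [mul_smul]
    exact ((h.pow_pos (hG g) i).smul (hG x)).trans (hu.sign_odd (hG x) (hc x) ho
      (congrArg Subtype.val (pow_card_eq_one' (x := (⟨x, hx⟩ : N)))))
  have h3 := ((hy.sign (hG g) (ha g)).resolve_left fun h => h1 (key ha hy h)).mul
    ((hz.sign (hG g) (hb g)).resolve_left fun h => h2 (key hb hz h))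
  rw [neg_mul_neg, ← smul_mul'] at h3
  exact key (c := a * b) (fun g => by rw [smul_mul', ha, hb]) (mul_pow y z 2 ▸ hy.mul hz) h3 d

end Act

section Num

variable {F G : Type*} [Field F] [NumberField F] [Group G] [MulSemiringAction G F] [Finite G]
  {k : Type*} [Field k] {φ : k →+* F} {ν : Valuation k ℤᵐ⁰} {w : P F}

/-- a square root that is almost fixed by the decomposition group -/
theorem sq_avg (H : Subgroup G) {a y : F} (ha : ∀ h ∈ H, h • a = a) (hy : Ap (val w) a (y ^ 2))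
    (hs : ∀ h ∈ H, h • w = w → Ap2 (val w) (h • y) y) :
    ∃ z : F, (∀ h ∈ H, h • z = z) ∧ Ap (val w) a (z ^ 2) := by
  have y0 : y ≠ 0 := fun h0 => hy.ne (by simp [h0])
  obtain ⟨m, hm⟩ : ∃ m : ℕ, m = Nat.card (H ⊓ MulAction.stabilizer G w : Subgroup G) := ⟨_, rfl⟩
  have m0 : (m : F) ≠ 0 := Nat.cast_ne_zero.2 (by rw [hm]; exact Nat.card_pos.ne')
  have g0 : exp (-1 : ℤ) * val w (4 * y) ≠ 0 :=
    mul_ne_zero exp_ne_zero (val_pos_of_ne _ (mul_ne_zero (by norm_num) y0)).ne'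
  have p2 : 0 < val w (2 * y) := val_pos_of_ne _ (mul_ne_zero two_ne_zero y0)
  obtain ⟨u, hu, h1⟩ := SqK.arb ⟨y, hy⟩ (mul_ne_zero (mul_ne_zero g0 (val_pos_of_ne _ m0).ne') p2.ne')
  have h2 : ∃ ε : F, (∀ g : G, g • ε = ε) ∧ ε ≠ 0 ∧ val w ε = 1 ∧ Ap2 (val w) u (ε * y) := by
    rcases (hu.symm.trans hy).dich with h | h
    · exact ⟨1, fun g => smul_one g, one_ne_zero, map_one _, by simpa using h⟩
    · exact ⟨-1, fun g => by simp, by norm_num, by simp, by simpa using h⟩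
  obtain ⟨ε, e1, e0, e2, h2⟩ := h2
  have h3 : val w u = val w y := by rw [h2.val_eq, map_mul, e2, one_mul]
  obtain ⟨z, hz, h4⟩ := avg H w u _ g0 fun h hh hw => by
    have hv := (mem_stabilizer_iff_val h w).1 hw
    have h5 := h2.smul hv
    rw [smul_mul', e1] at h5
    have h6 : Ap2 (val w) (h • u) u := (h5.trans ((hs h hh hw).mul_left e0)).trans h2.symm
    have h7 : val w (h • u + u) = val w (2 * y) := by
      rw [map_mul, ← h3, ← map_mul, ← (val w).map_add_eq_of_lt_right h6]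
      congr 1
      ring
    have h8 : (h • u - u) * (h • u + u) = (a - u ^ 2) - h • (a - u ^ 2) := by
      rw [smul_sub, ha h hh, smul_pow']
      ring
    rw [← hm]
    refine le_of_mul_le_mul_right ?_ p2
    rw [← h7, ← map_mul, h8, h7]
    exact ((val w).map_sub_lt h1 (by rwa [hv])).le
  refine ⟨z, hz, hu.trans (ap_of_lt ?_)⟩
  have h5 : val w (z - u) < val w (4 * u) := by
    rw [map_mul, h3, ← map_mul]
    exact h4.trans_lt (mul_lt_of_lt_one_left (val_pos_of_ne _ (mul_ne_zero (by norm_num) y0))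
      exp_neg_one_lt)
  have h6 : val w (z - u + 2 * u) ≤ val w u := by
    refine (val w).map_add_le (h5.le.trans ?_) ?_
    · rw [map_mul]
      exact mul_le_of_le_one_left' (val_four_le_one _)
    · rw [map_mul]
      exact mul_le_of_le_one_left' (by simpa using val_nat_le_one (val w) 2)
  have u0 : 0 < val w u := val_pos_of_ne _ fun h0 => hu.ne (by simp [h0])
  rw [show u ^ 2 - z ^ 2 = -((z - u) * (z - u + 2 * u)) by ring, Valuation.map_neg, map_mul,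
    show 4 * u ^ 2 = 4 * u * u by ring, map_mul (val w) (4 * u)]
  exact (mul_le_mul_right h6 _).trans_lt (mul_lt_mul_of_pos_right h5 u0)

theorem sqK_of_sign (H : Subgroup G) (hL : Lies φ (val w) ν) (h1 : ∀ h ∈ H, ∀ x, h • φ x = φ x)
    (h2 : ∀ z : F, (∀ h ∈ H, h • z = z) → ∃ x, φ x = z) {a : k} {y : F}
    (hy : Ap (val w) (φ a) (y ^ 2)) (hs : ∀ h ∈ H, h • w = w → Ap2 (val w) (h • y) y) :
    SqK ν a := by
  obtain ⟨z, hz, h3⟩ := sq_avg H (fun h hh => h1 h hh a) hy hs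
  obtain ⟨x, rfl⟩ := h2 z hz
  exact ⟨x, hL.ap.1 (by rwa [map_pow])⟩

/-- descent along a two-extension -/
theorem td_of_not_negNm (H : Subgroup G) (hH : IsPGroup 2 H) (hL : Lies φ (val w) ν)
    (h1 : ∀ h ∈ H, ∀ x, h • φ x = φ x) (h2 : ∀ z : F, (∀ h ∈ H, h • z = z) → ∃ x, φ x = z) {C : k}
    (hN : ∀ (h : G) (n : ℕ), h • w = w → h ^ 2 ^ n = 1 → ¬ NegNm (val w) (φ C) h) :
    TD φ (val w) ν C := by
  rintro a ⟨y, hy⟩ ⟨X, Y, h3⟩
  refine sqK_of_sign H hL h1 h2 hy fun h hh hw =>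
    (hy.sign ((mem_stabilizer_iff_val h w).1 hw) (h1 h hh a)).resolve_right fun h4 => ?_
  obtain ⟨n, hn⟩ := hH ⟨h, hh⟩
  refine hN h n hw (congrArg Subtype.val hn) ⟨φ X, φ Y, y, h1 h hh X, h1 h hh Y, ?_, h4⟩
  have h5 := hL.ap.2 h3
  simp only [map_sub, map_mul, map_pow] at h5
  exact h5.symm.trans hy

omit [NumberField F] [Finite G] in
theorem cyc_stab (hc : ∀ Q : Subgroup G, IsPGroup 2 Q → (∀ g ∈ Q, g • w = w) → IsCyclic Q)
    (Q : Subgroup (MulAction.stabilizer G w)) (hQ : IsPGroup 2 Q) : IsCyclic Q := by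
  have h1 := hc (Q.map (MulAction.stabilizer G w).subtype) (hQ.map _) (by
    rintro _ ⟨g, -, rfl⟩
    exact g.2)
  exact (Q.equivMapOfInjective _ (MulAction.stabilizer G w).subtype_injective).isCyclic.2 h1

theorem not_negNm_of_td (hc : ∀ Q : Subgroup G, IsPGroup 2 Q → (∀ g ∈ Q, g • w = w) → IsCyclic Q)
    (hL : Lies φ (val w) ν) (h1 : ∀ (g : G) x, g • φ x = φ x)
    (h2 : ∀ z : F, (∀ g : G, g • z = z) → ∃ x, φ x = z) {C : k} (hT : TD φ (val w) ν C)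
    {h : G} {n : ℕ} (hw : h • w = w) (hn : h ^ 2 ^ n = 1) : ¬ NegNm (val w) (φ C) h := by
  intro H
  have hG : ∀ (g : MulAction.stabilizer G w) x, val w (g • x) = val w x := fun g =>
    (mem_stabilizer_iff_val (g : G) w).1 g.2
  obtain ⟨X, Y, y, g, hX, hY, h3, h4⟩ := NegNm.top (G := MulAction.stabilizer G w) (cyc_stab hc) hG
    (fun g => h1 g C) (h := ⟨h, hw⟩) (n := n) (Subtype.ext hn) H
  have d0 : val w (4 * y ^ 2) ≠ 0 := (zero_le.trans_lt h3).ne'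
  have key : ∀ c W : F, (∀ d : MulAction.stabilizer G w, d • W = W) →
      ∃ x : k, val w (c * φ x ^ 2 - c * W ^ 2) < val w (4 * y ^ 2) := by
    intro c W hW
    obtain ⟨γ, g0, hγ⟩ := sq_cont (val w) c W d0
    obtain ⟨W', h5, h6⟩ := avg (⊤ : Subgroup G) w W γ g0 fun d _ hd => by
      have h5 : d • W = W := hW ⟨d, hd⟩
      rw [h5, sub_self, map_zero]
      exact zero_le
    obtain ⟨x, rfl⟩ := h2 W' fun d => h5 d trivial
    exact ⟨x, hγ _ h6⟩
  obtain ⟨x, hx⟩ := key 1 X hX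
  obtain ⟨x', hx'⟩ := key (φ C) Y hY
  have h5 : Ap (val w) (φ (x ^ 2 - C * x' ^ 2)) (y ^ 2) := by
    have h5 := (val w).map_add_lt ((val w).map_sub_lt hx hx') h3
    rw [Ap, map_sub φ, map_mul φ, map_pow φ, map_pow φ]
    convert h5 using 2
    ring
  have : CharZero k := φ.charZero
  obtain ⟨r, hr⟩ := hT _ ⟨y, h5⟩ ⟨x, x', Ap.refl fun h0 => h5.ne' (by rw [h0, map_zero])⟩
  have h6 := hL.ap.2 hr
  rw [map_pow φ r] at h6
  have h7 : (g : G) • φ r = φ r := h1 g r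
  rcases (h5.symm.trans h6).dich with h8 | h8
  · have h9 : Ap2 (val w) ((g : G) • y) ((g : G) • φ r) := h8.smul (hG g)
    rw [h7] at h9
    exact ((h8.trans h9.symm).trans h4).not_neg
  · have h9 : Ap2 (val w) ((g : G) • y) ((g : G) • (-φ r)) := h8.smul (hG g)
    rw [smul_neg, h7] at h9
    exact ((h8.trans h9.symm).trans h4).not_neg

theorem sqK_mul_of_cyc (hc : ∀ Q : Subgroup G, IsPGroup 2 Q → (∀ g ∈ Q, g • w = w) → IsCyclic Q)
    (hL : Lies φ (val w) ν) (h1 : ∀ (g : G) x, g • φ x = φ x)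
    (h2 : ∀ z : F, (∀ g : G, g • z = z) → ∃ x, φ x = z) {a b : k} (ha : SqK (val w) (φ a))
    (hb : SqK (val w) (φ b)) (ha' : ¬ SqK ν a) (hb' : ¬ SqK ν b) : SqK ν (a * b) := by
  obtain ⟨y, hy⟩ := ha
  obtain ⟨z, hz⟩ := hb
  have hG : ∀ (g : MulAction.stabilizer G w) x, val w (g • x) = val w x := fun g =>
    (mem_stabilizer_iff_val (g : G) w).1 g.2
  have key : ∀ {c : k} {u : F}, Ap (val w) (φ c) (u ^ 2) →
      (∀ d : MulAction.stabilizer G w, Ap2 (val w) (d • u) u) → SqK ν c := fun hu h =>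
    sqK_of_sign (⊤ : Subgroup G) hL (fun g _ => h1 g) (fun z hz => h2 z fun g => hz g trivial) hu
      fun g _ hg => h ⟨g, hg⟩
  exact key (by rw [map_mul, mul_pow]; exact hy.mul hz) (sign_mul (cyc_stab hc) hG
    (fun g => h1 g a) (fun g => h1 g b) hy hz (fun h => ha' (key hy h)) fun h => hb' (key hz h))

end Num

theorem exists_CC (v : P ℚ) {a : ℚ} (a0 : a ≠ 0) (ha : ¬ SqK (val v) a) :
    ∃ C : ℤ, 2 ^ 7 ∣ C ∧ ¬ 2 ^ 10 ∣ C ∧ ¬ NmK (val v) (C : ℚ) a := by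
  obtain ⟨c, hc⟩ := nonnorm' v (Units.mk0 a a0) fun h => by
    obtain ⟨z, o, ho, h⟩ := mem_Sq.1 h
    refine ha ⟨z, ?_⟩
    have h1 : Ap (val v) (o : ℚ) 1 := by simpa [Ap] using mem_One.1 ho
    have h2 : a = (z : ℚ) ^ 2 * o := congrArg Units.val h
    rw [h2]
    simpa using h1.mul_left (pow_ne_zero 2 z.ne_zero)
  have h1 : ¬ NmK (val v) (c : ℚ) a := fun h => by
    obtain ⟨X, Y, h2⟩ := h.symm c.ne_zero ha
    refine hc (mem_Nm.2 ⟨Units.mk0 _ h2.ne, ⟨X, Y, rfl⟩, c * (Units.mk0 _ h2.ne)⁻¹, ?_, by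
      rw [mul_comm c, mul_inv_cancel_left]⟩)
    have h3 := h2.mul_right (inv_ne_zero h2.ne)
    rw [mul_inv_cancel₀ h2.ne, Ap, mul_one] at h3
    simpa [mem_One] using h3
  have n0 : ((c : ℚ).num * (c : ℚ).den : ℤ).natAbs ≠ 0 := Int.natAbs_ne_zero.2
    (mul_ne_zero (Rat.num_ne_zero.2 c.ne_zero) (Nat.cast_ne_zero.2 (c : ℚ).den_nz))
  obtain ⟨j, m, hm, h2⟩ := Nat.exists_eq_two_pow_mul_odd n0
  obtain ⟨u, hu, h3⟩ : ∃ u : ℤ, Odd u ∧ ((c : ℚ).num * (c : ℚ).den : ℤ) = 2 ^ j * u := by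
    rcases Int.natAbs_eq_iff.1 h2 with h | h
    · exact ⟨m, by exact_mod_cast hm, by rw [h]; push_cast; ring⟩
    · exact ⟨-m, Odd.neg (by exact_mod_cast hm), by rw [h]; push_cast; ring⟩
  have d0 : (((c : ℚ).den : ℕ) : ℚ) ≠ 0 := Nat.cast_ne_zero.2 (c : ℚ).den_nz
  have h4 : (c : ℚ) = 2 ^ j * u / ((c : ℚ).den : ℚ) ^ 2 := by
    have h5 : (((c : ℚ).num : ℚ) * (c : ℚ).den) = 2 ^ j * u := by exact_mod_cast h3
    rw [← h5, eq_div_iff (pow_ne_zero 2 d0), pow_two, ← mul_assoc, Rat.mul_den_eq_num]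
  have u0 : (u : ℚ) ≠ 0 := Int.cast_ne_zero.2 (by rintro rfl; simp at hu)
  refine ⟨2 ^ (8 + j % 2) * u, (pow_dvd_pow 2 (by omega)).mul_right _, fun h => ?_,
    fun h => h1 (h.congr ?_)⟩
  · have h5 : (2 : ℤ) ^ (8 + j % 2) * 2 ∣ 2 ^ (8 + j % 2) * u :=
      by rw [← pow_succ]; exact (pow_dvd_pow 2 (by omega)).trans h
    exact (Int.not_even_iff_odd.2 hu)
      (even_iff_two_dvd.2 ((mul_dvd_mul_iff_left (by positivity)).1 h5))
  · have h5 : ((2 ^ (8 + j % 2) * u : ℤ) : ℚ) * c =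
        (2 ^ (4 + j % 2 + j / 2) * u / ((c : ℚ).den : ℚ)) ^ 2 := by
      conv_lhs => rw [h4]
      have h6 : (2 : ℚ) ^ (8 + j % 2) * 2 ^ j = (2 ^ (4 + j % 2 + j / 2)) ^ 2 := by
        rw [← pow_add, ← pow_mul]
        congr 1
        omega
      push_cast
      rw [div_pow, mul_pow, ← h6]
      ring
    rw [h5]
    exact sqK_sq (div_ne_zero (mul_ne_zero (by positivity) u0) d0)

/-- the choice of the parameter of the Tate curve -/
theorem exists_td {F : Type} [Field F] [NumberField F] [IsGalois ℚ F]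
    (hc : ∀ w : P F, val w 2 < 1 → ∀ Q : Subgroup (F ≃ₐ[ℚ] F), IsPGroup 2 Q →
      (∀ g ∈ Q, g • w = w) → IsCyclic Q) :
    ∃ C : ℤ, 2 ^ 7 ∣ C ∧ ¬ 2 ^ 10 ∣ C ∧ ∀ {k : Type} [Field k] (φ : k →+* F)
      (H : Subgroup (F ≃ₐ[ℚ] F)), IsPGroup 2 H → (∀ h ∈ H, ∀ x, h (φ x) = φ x) →
      (∀ z : F, (∀ h ∈ H, h z = z) → ∃ x, φ x = z) → ∀ (w : P F) (ν : Valuation k ℤᵐ⁰),
      val w 2 < 1 → Lies φ (val w) ν → TD φ (val w) ν (C : k) := by
  obtain ⟨w₀, hw₀⟩ := exists_over_prime F Nat.prime_two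
  obtain ⟨v, hv⟩ := exists_lies_under (algebraMap ℚ F) w₀
  have h1 : ∀ (g : F ≃ₐ[ℚ] F) x, g • algebraMap ℚ F x = algebraMap ℚ F x := fun g x =>
    g.commutes x
  have h2 : ∀ z : F, (∀ g : F ≃ₐ[ℚ] F, g • z = z) → ∃ x, algebraMap ℚ F x = z := fun z hz =>
    (IsGalois.mem_range_algebraMap_iff_fixed z).2 hz
  have h3 : ∃ C : ℤ, 2 ^ 7 ∣ C ∧ ¬ 2 ^ 10 ∣ C ∧ TD (algebraMap ℚ F) (val w₀) (val v) (C : ℚ) := by
    by_cases h : ∃ a : ℚ, SqK (val w₀) (algebraMap ℚ F a) ∧ ¬ SqK (val v) a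
    · obtain ⟨a, ha, ha'⟩ := h
      obtain ⟨C, c1, c2, c3⟩ := exists_CC v (fun h0 => ha.ne (by rw [h0, map_zero])) ha'
      refine ⟨C, c1, c2, fun b hb hb' => by_contra fun h4 => c3 (hb'.cancel ?_)⟩
      exact (sqK_mul_of_cyc (hc w₀ (by exact_mod_cast hw₀)) hv h1 h2 hb ha h4 ha').nmK
    · exact ⟨2 ^ 7, dvd_rfl, by norm_num, fun b hb _ => by_contra fun h4 => h ⟨b, hb, h4⟩⟩
  obtain ⟨C, c1, c2, c3⟩ := h3
  refine ⟨C, c1, c2, fun φ H hH f1 f2 w ν hw hL => td_of_not_negNm H hH hL f1 f2 fun h n hh hn => ?_⟩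
  obtain ⟨g, rfl⟩ := exists_smul_eq_of_prime Nat.prime_two hw₀ (by exact_mod_cast hw)
  have h4 : ∀ x, val (g • w₀) (algebraMap ℚ F x) = val w₀ (algebraMap ℚ F x) := fun x => by
    rw [← val_smul g w₀, h1]
  rw [map_intCast, ← map_intCast (algebraMap ℚ F)]
  refine not_negNm_of_td (ν := val v) (hc _ hw) (fun x y => by rw [h4, h4]; exact hv x y) h1 h2
    (fun a ⟨y, hy⟩ => c3 a ⟨g⁻¹ • y, ?_⟩) hh hn
  rw [Ap, ← val_smul g w₀, ← val_smul g w₀, smul_sub, smul_mul', smul_pow', smul_inv_smul, h1,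
    smul_four']
  exact hy

end Pool.Agent.Lib.MP_775b3b_nt
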