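import Pool.Agent.Lib.MP_775b3b_nt.M2.Core
import Pool.Agent.Lib.MP_775b3b_nt.YD3

/-! Descent in towers for curves with multiplicative reduction at two. -/

namespace Pool.Agent.Lib.MP_775b3b_nt

open Cub MP_439fea_co WithZero

variable {e : ℤ × ℤ}

section Loc

variable {k k' : Type} [Field k] [NumberField k] [Field k'] [NumberField k'] {D : Finset ℕ}
  {d N : ℕ} {C : ℤ} {x : (Cub e k)ˣ} {φ : k →+* k'}

/-- the group containing the classes of the points of the twist by `d` -/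
noncomputable def TM (e : ℤ × ℤ) (N : ℕ) (D : Finset ℕ) (d : ℕ) (k : Type) [Field k]
    [NumberField k] : Subgroup (Cub e k)ˣ :=
  Sel N e k ⊓ ((⨅ v : P k, L2m e (val v)) ⊓ ((⨅ v ∈ Lam e D d k, Tv e v (rg e (pr v))) ⊓
      ⨅ (v : P k) (_ : pr v ∈ D) (_ : v ∉ Lam e D d k), usv e v))

theorem mem_TM : x ∈ TM e N D d k ↔ x ∈ Sel N e k ∧ (∀ v : P k, x ∈ L2m e (val v)) ∧
    (∀ v ∈ Lam e D d k, x ∈ Tv e v (rg e (pr v))) ∧
      ∀ v : P k, pr v ∈ D → v ∉ Lam e D d k → x ∈ usv e v := by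
  simp only [TM, Subgroup.mem_inf, Subgroup.mem_iInf]

theorem SQ_le_TM : SQ e k ≤ TM e N D d k := by
  intro x h
  refine mem_TM.2 ⟨?_, fun _ => SQ_le_L2m h, fun _ _ => sqv_le_Tv (SQ_le_sqv h),
    fun _ _ _ => sqv_le_usv (SQ_le_sqv h)⟩
  obtain ⟨z, rfl⟩ := h
  rw [← sq]
  exact step_sq_mem_Sel z

theorem uz_mem_TM {k₀ : Type*} [Field k₀] [Algebra k₀ k] (g : k ≃ₐ[k₀] k)
    (h : x ∈ TM e N D d k) : uz e (g : k →+* k) x ∈ TM e N D d k := by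
  obtain ⟨h1, h2, h3, h4⟩ := mem_TM.1 h
  have key : ∀ w : P k, ∃ v : P k, Over (g : k →+* k) w v ∧
      Over ((g⁻¹ : k ≃ₐ[k₀] k) : k →+* k) v w := fun w =>
    ⟨g⁻¹ • w, by simpa only [smul_inv_smul] using over_smul g (g⁻¹ • w), over_smul g⁻¹ w⟩
  refine mem_TM.2 ⟨uz_mem_Sel _ h1, L2m_up_all _ h2, fun w hw => ?_, fun w hw hw' => ?_⟩
  all_goals obtain ⟨v, ho, ho'⟩ := key w
  · rw [ho.pr_eq]
    exact ho.Tv (h3 v (ho'.lam_up hw))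
  · exact ho.usv (h4 v (ho.pr_eq ▸ hw) fun hv => hw' (ho.lam_up hv))

theorem Cls.sqK {d : ℤ} (h : Cls 1 d) {ν : Valuation k ℤᵐ⁰} (h2 : ν 2 < 1) : SqK ν (d : k) := by
  obtain ⟨j, t, h1, h3⟩ := h
  have h4 : Ap ν (t : k) ((1 : ℤ) : k) := ap_int h2 (j := 0) (by norm_num) (by simpa using h3)
  have h5 := h4.mul_left (c := ((2 : k) ^ j) ^ 2) (pow_ne_zero _ (pow_ne_zero _ two_ne_zero))
  refine ⟨2 ^ j, ?_⟩
  rw [mul_one] at h1
  rw [h1]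
  convert h5 using 1
  · push_cast
    rw [← pow_mul, mul_comm j, pow_mul]
    norm_num
  · simp

theorem PtC.mem_TM (ht : Tate e C) (hU : Unr k N) (h : TyD e D k)
    (hN : ∀ p : ℕ, p.Prime → p ∣ d → p ∣ N) (hc : Cls 1 (d : ℤ))
    (hd : ∀ w : P k, pr w ∈ D → val w (d : k) = exp (-1 : ℤ)) (hx : PtC (d : k) x) :
    x ∈ TM e N D d k := by
  rcases hx with hx | ⟨a, b, hxy, δ, hδ, hx⟩
  · exact SQ_le_TM hx
  refine (Subgroup.mul_mem_cancel_right _ ?_).1 (SQ_le_TM hx)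
  refine MP_775b3b_nt.mem_TM.2 ⟨?_, fun v hv => ?_, fun v hv => ?_, fun v hv hv' => ?_⟩
  · exact pt_mem_Sel_tw (d := (d : ℤ)) (x := a) (y := b) hU
      (fun p hp h0 => hN p hp (Int.natCast_dvd_natCast.1 h0))
      (by rw [Int.cast_natCast]; exact hxy) (by rw [Int.cast_natCast]; exact hδ)
  · have h1 : SqK (val v) (d : k) := by simpa only [Int.cast_natCast] using hc.sqK hv
    exact pt_mem_L2m ht h1.ne (Or.inl h1) hxy hδ hv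
  · exact ((h v hv.1).pt hv.1 (hd v hv.1) hxy hδ).1 hv
  · exact ((h v hv).pt hv (hd v hv) hxy hδ).2 hv'

theorem locL_descM {w : P k'} {v : P k} (ho : Over φ w v) (hs : SqDesc φ w) (h : TyD e D k')
    (hv : pr v ∈ D) (hd : val w (d : k') = exp (-1 : ℤ)) (hn : x ∈ nsq e k)
    (hT : uz e φ x ∈ TM e N D d k') : LocL D d v x := by
  obtain ⟨-, -, h3, h4⟩ := mem_TM.1 hT
  have hw : pr w ∈ D := ho.pr_eq ▸ hv
  have t := h w hw
  exact ⟨fun a => TyA.Tv_desc ho (ho.pr_eq ▸ t.tyA) (t.down ho).tyA hs hn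
      (ho.pr_eq ▸ h3 w (ho.lam_up a)),
    fun a => TyA.usv_desc ho (ho.pr_eq ▸ t.tyA) (t.down ho).tyA hn
      (h4 w hw fun h0 => a (ho.lam_down hs t hd h0))⟩

theorem mem_ZM_of_loc (hn : x ∈ nsq e k) (h0 : ∀ v : P k, x ∈ L2m e (val v))
    (h1 : ∀ v, pr v ∈ D → LocL D d v x) (h2 : ∀ v, pr v ∉ D → pr v ≠ 2 → x ∈ usv e v) :
    x ∈ ZM e (Lam e D d k) := by
  refine mem_ZM.2 ⟨hn, h0, fun v hv => (h1 v hv.1).1 hv, fun v hv hv2 => ?_⟩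
  by_cases hD : pr v ∈ D
  · exact (h1 v hD).2 hv
  · exact h2 v hD hv2

theorem Fm.usv_of_Sel {N' : ℕ} (h : Fm e C N k) (hN : ∀ p : ℕ, p.Prime → p ∣ N' → p ∣ N ∨ p ∈ D)
    (hx : x ∈ Sel N' e k) (v : P k) (hD : pr v ∉ D) (h2 : pr v ≠ 2) : x ∈ usv e v := by
  obtain ⟨hn, hs⟩ := mem_Sel.1 hx
  have hp := pr_prime v
  by_cases hpN : pr v ∣ N
  · exact h.auto v hpN h2 hn
  have hb : ¬ Bad N e ⟨pr v, hp⟩ := fun h0 => h0.elim hpN (h.sq _ hp hpN)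
  obtain ⟨z, h5, h6⟩ := hs ⟨pr v, hp⟩ fun h0 =>
    h0.elim (fun h1 => (hN _ hp h1).elim hpN hD) (h.sq _ hp hpN)
  exact ⟨z, lociso_le (p := ⟨pr v, hp⟩) v (val_pr v) (intP_le_Ord h.unr hb h5),
    lociso_le (p := ⟨pr v, hp⟩) v (val_pr v) (intP_le_Ord h.unr hb h6)⟩

theorem Fm.TM_le {N' : ℕ} (h : Fm e C N k) (hN : ∀ p : ℕ, p.Prime → p ∣ N' → p ∣ N ∨ p ∈ D) :
    TM e N' D d k ≤ ZM e (Lam e D d k) := fun _ hx => by
  obtain ⟨h1, h2, h3, h4⟩ := mem_TM.1 hx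
  exact mem_ZM_of_loc (mem_Sel.1 h1).1 h2 (fun v hv => ⟨h3 v, h4 v hv⟩) (h.usv_of_Sel hN h1)

/-- the local condition above two descends along `φ` -/
def DescA (φ : k →+* k') (C : ℤ) : Prop :=
  ∀ (w : P k') (v : P k), val w (2 : k') < 1 → Lies φ (val w) (val v) → TD φ (val w) (val v) (C : k)

theorem DescA.l2m (h : DescA φ C) (ht : Tate e C) (hn : x ∈ nsq e k)
    (hx : ∀ w : P k', uz e φ x ∈ L2m e (val w)) (v : P k) : x ∈ L2m e (val v) := fun hv => by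
  obtain ⟨w, ho⟩ := exists_lies_over φ v
  exact L2m_desc ht ho (h w v (ho.two.2 hv) ho) hn (hx w) hv

theorem TM_desc (ht : Tate e C) (h2 : DescA φ C) (h : TyD e D k')
    (hs : ∀ w : P k', pr w ∈ D → SqDesc φ w)
    (hd : ∀ w : P k', pr w ∈ D → val w (d : k') = exp (-1 : ℤ)) (hx : x ∈ Sel N e k)
    (hT : uz e φ x ∈ TM e N D d k') : x ∈ TM e N D d k := by
  have hn := (mem_Sel.1 hx).1
  have key : ∀ v : P k, pr v ∈ D → LocL D d v x := fun v hv => by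
    obtain ⟨w, ho⟩ := h.exists_over φ hv
    have hw : pr w ∈ D := ho.pr_eq ▸ hv
    exact locL_descM ho (hs w hw) h hv (hd w hw) hn hT
  exact mem_TM.2 ⟨hx, h2.l2m ht hn (mem_TM.1 hT).2.1, fun v hv => (key v hv.1).1 hv,
    fun v hv => (key v hv).2⟩

variable (k k') in
/-- the conclusion of `tower_exact` -/
def Tow [Algebra k k'] (N : ℕ) : Prop := ∀ N', N ∣ N' → ∀ (e : ℤ × ℤ)
  (𝒯 : Subgroup (Cub e k')ˣ), SQ e k' ≤ 𝒯 → 𝒯 ≤ Sel N' e k' →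
  (∀ g : k' ≃ₐ[k] k', ∀ d ∈ 𝒯, uz e (g : k' →+* k') d ∈ 𝒯) →
  (∀ d₀ ∈ Sel N' e k, uz e (algebraMap k k') d₀ ∈ 𝒯 → d₀ ∈ SQ e k) → 𝒯 ≤ SQ e k'

omit [NumberField k] [NumberField k'] in
theorem Tow.mono [Algebra k k'] {N' : ℕ} (h : Tow k k' N) (h' : N ∣ N') : Tow k k' N' :=
  fun _ h1 => h _ (h'.trans h1)

theorem TM_up [Algebra k k'] (htow : Tow k k' N) (ht : Tate e C) (h2 : DescA (algebraMap k k') C)
    (h : TyD e D k') (hs : ∀ w : P k', pr w ∈ D → SqDesc (algebraMap k k') w)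
    (hd : ∀ w : P k', pr w ∈ D → val w (d : k') = exp (-1 : ℤ))
    (hZ : TM e N D d k ≤ SQ e k) : TM e N D d k' ≤ SQ e k' :=
  htow N dvd_rfl e _ SQ_le_TM (fun _ hx => (mem_TM.1 hx).1) (fun g _ hx => uz_mem_TM g hx)
    fun _ h0 hx => hZ (TM_desc ht h2 h hs hd h0 hx)

theorem TyB.up {w : P k'} {v : P k} (ho : Over φ w v) (h : TyB e v)
    (hs : ¬ ((pr v : ℕ) : ℤ) ∣ disc e → SqDesc φ w) : TyB e w := by
  rw [TyB, ho.pr_eq]
  refine h.imp (fun h => ⟨h.1, ho.two ▸ h.2.1, ?_, fun y hy => ?_⟩) fun h => ⟨h.1, ho.tyM.2 h.2⟩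
  · rw [← h.2.2.1, ← ho, map_fv, map_intCast φ]
  · have h1 : val v (-(disc e : k)) = 1 := by
      rw [Valuation.map_neg]
      exact le_antisymm (val_int_le v _) (not_lt.1 fun h1 => h.2.2.2 0 (by simpa using h1))
    obtain ⟨t, ht⟩ := hs h.1 (-(disc e : k)) (by rw [ho, h1]) ⟨y, by
      rw [← Valuation.map_neg, map_neg φ, map_intCast φ]
      convert hy using 2
      ring⟩
    rw [ho, ← Valuation.map_neg] at ht
    refine h.2.2.2 t ?_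
    convert ht using 2
    ring

theorem TyD.up (h : TyD e D k) (φ : k →+* k') (hU : Unr k' N) (hD : ∀ l ∈ D, ¬ l ∣ N)
    (hs : ∀ w : P k', pr w ∈ D → ¬ ((pr w : ℕ) : ℤ) ∣ disc e → SqDesc φ w) : TyD e D k' := by
  intro w hw
  obtain ⟨v, ho⟩ := exists_over_hom φ w (x := ((pr w : ℕ) : k)) (by
    rw [map_natCast]
    exact hU w ⟨_, pr_prime w⟩ (hD _ hw) (val_pr w))
  exact (h v (ho.pr_eq ▸ hw)).up ho fun h1 => hs w hw (ho.pr_eq ▸ h1)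

end Loc

variable {K L F : Type} [Field K] [NumberField K] [Field L] [NumberField L] [Field F]
  [NumberField F] {S : Setup K F}

theorem TP2.dvd_disc {q : ℕ} {v₁ v₂ : P K} (h : TP2 S q v₁ v₂) (hB : TyB e v₂) :
    (q : ℤ) ∣ disc e := by
  rcases hB with hB | hB
  · obtain ⟨y, hy⟩ := h.sq2 ((-disc e : ℤ) : ℚ) (by
      rw [Rat.cast_intCast]
      exact val_int_le v₂ _)
    refine (hB.2.2.2 y ?_).elim
    rw [← Valuation.map_neg]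
    convert hy using 2
    push_cast
    ring
  · exact h.pr2 ▸ hB.1

theorem bottomDM (ψ : L →+* F) {D D₁ : Finset ℕ} {d N : ℕ} (h : TyD e D F)
    {v₁ v₂ : ℕ → P K} (h1 : ∀ q ∈ D, q ∈ D₁ → TP3 S L q (v₁ q) (v₂ q))
    (h2 : ∀ l ∈ D, l ∉ D₁ → IP S l)
    (hd : ∀ w : P F, pr w ∈ D → val w (d : F) = exp (-1 : ℤ))
    (hZ : ZM e (Lam e D d K) ≤ SQ e K) (hQ : ZM e (Lam e D d ℚ) ≤ SQ e ℚ)
    {x : (Cub e K)ˣ} (hn : x ∈ nsq e K) (hl : ∀ v : P K, x ∈ L2m e (val v))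
    (hu : ∀ v, pr v ∉ D → pr v ≠ 2 → x ∈ usv e v)
    (hT : ∀ j, uz e (S.s j) x ∈ TM e N D d F) :
    S.cor e x ∈ nsq e ℚ ∧ x * uz e (algebraMap ℚ K) (S.cor e x) ∈ SQ e K ∧
      (uz e (algebraMap ℚ L) (S.cor e x) ∈ TM e N D d L → S.cor e x ∈ SQ e ℚ) := by
  have hK : TyD e D K := h.down (S.s 0)
  have hL : TyD e D L := h.down ψ
  have hc : S.cor e x ∈ nsq e ℚ := by
    obtain ⟨ν, hν⟩ := hn
    obtain ⟨r, hr, -⟩ := S.exists_nm_rn hν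
    exact ⟨r, hr⟩
  have hdK : ∀ v : P K, pr v ∈ D → val v (d : K) = exp (-1 : ℤ) := fun v hv => by
    obtain ⟨w, ho⟩ := h.exists_over (S.s 0) hv
    rw [← ho.natCast, hd w (ho.pr_eq ▸ hv)]
  have hcu : ∀ p : Nat.Primes, (p : ℕ) ∉ D → (p : ℕ) ≠ 2 → S.cor e x ∈ usq (Ord p e ℚ) :=
    fun p hp hp2 => Setup.cor_usq (mem_usq_Ord_iff.2 fun v hv =>
      hu v (pr_eq p.2 hv ▸ hp) (pr_eq p.2 hv ▸ hp2))
  have hcl := S.cor_mem_L2m hl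
  have hn' := mul_mem hn (uz_mem_nsq (algebraMap ℚ K) hc)
  have hT' : ∀ j, uz e (S.s j) (x * uz e (algebraMap ℚ K) (S.cor e x)) ∈
      TM e N D d F := fun j => by
    rw [map_mul, uz_uz, Subsingleton.elim ((S.s j).comp (algebraMap ℚ K)) (algebraMap ℚ F),
      S.uz_cor']
    exact mul_mem (hT j) (mul_mem (mul_mem (hT 0) (hT 1)) (hT 2))
  refine ⟨hc, hZ (mem_ZM_of_loc hn' (fun v => mul_mem (hl v) (L2m_up_all _ hcl v))
    (fun v hv => ?_) fun v hv hv2 => mul_mem (hu v hv hv2) ?_), fun hTL => hQ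
    (mem_ZM_of_loc hc hcl (fun v hv => ?_) fun v hv hv2 => ?_)⟩
  · by_cases h3 : pr v ∈ D₁
    · have T := (h1 _ hv h3).tp
      obtain ⟨w, ho, hs⟩ := (h1 _ hv h3).up
      have h4 : pr (v₂ (pr v)) ∈ D := T.pr2.symm ▸ hv
      have h5 := hd w (ho.pr_eq ▸ h4)
      rcases T.all v rfl with h6 | h6
      · have h7 := T.tz' ((locL_descM ho hs h h4 h5 hn (hT 1)).1
          (T.mem_lam hv (hK _ h4) (ybot_dvd (hdK v hv))))
        rw [← h6] at h7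
        exact ⟨fun _ => sqv_le_Tv h7, fun _ => sqv_le_usv h7⟩
      · rw [h6]
        exact locL_descM ho hs h h4 h5 hn' (hT' 1)
    · obtain ⟨w, ho⟩ := h.exists_over (S.s 0) hv
      exact locL_descM ho ((h2 _ hv h3).sq1 w ho.pr_eq) h hv (hd w (ho.pr_eq ▸ hv)) hn' (hT' 0)
  · exact (mem_usq_Ord_iff (p := ⟨pr v, pr_prime v⟩)).1
      (uz_usq_Ord _ (hcu ⟨pr v, pr_prime v⟩ hv hv2)) v (val_pr v)
  · obtain ⟨u, ho, hs⟩ : ∃ u : P L, Over (algebraMap ℚ L) u v ∧ SqDesc (algebraMap ℚ L) u := by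
      by_cases h3 : pr v ∈ D₁
      · obtain ⟨u, a1, a2⟩ := (h1 _ hv h3).res
        exact ⟨u, ybot_over (hL u (a1.symm ▸ hv)) a1, sqDesc_of_res1 _ a2⟩
      · obtain ⟨u, ho⟩ := hL.exists_over (algebraMap ℚ L) hv
        obtain ⟨w, ho'⟩ := h.exists_over ψ (ho.pr_eq ▸ hv : pr u ∈ D)
        refine ⟨u, ho, SqDesc.mid ho' ?_⟩
        rw [Subsingleton.elim (ψ.comp (algebraMap ℚ L)) (algebraMap ℚ F)]
        exact (h2 _ hv h3).sq0 w (ho'.pr_eq.trans ho.pr_eq)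
    have h4 : pr u ∈ D := ho.pr_eq ▸ hv
    obtain ⟨w, ho'⟩ := h.exists_over ψ h4
    refine locL_descM ho hs hL hv ?_ hc hTL
    rw [← ho'.natCast, hd w (ho'.pr_eq ▸ h4)]
  · exact (mem_usq_Ord_iff (p := ⟨pr v, pr_prime v⟩)).1 (hcu ⟨pr v, pr_prime v⟩ hv hv2) v (val_pr v)

variable {C : ℤ} {N c : ℕ} {D : Finset ℕ}

theorem Out.ptC (h : Out e 1 K D c) (ht : Tate e C) (h210 : 210 ∣ N)
    (hD : ∀ l ∈ D, l.Prime ∧ ¬ l ∣ N) (hU : Unr L N) (hL : TyD e D L) {t : (Cub e L)ˣ}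
    (hp : PtC ((c * ∏ l ∈ D, l : ℕ) : L) t) :
    t ∈ TM e (N * ∏ l ∈ D, l) D (c * ∏ l ∈ D, l) L :=
  hp.mem_TM ht (fun v p hp => hU v p fun h0 => hp (h0.mul_right _)) hL
    (fun _ _ a2 => a2.trans (Nat.mul_dvd_mul_right (h.dvd.trans h210) _)) h.cls
    fun _ hw => val_c_prod hU hD (h.dvd.trans h210) hw

theorem dvd_N_or (hD : ∀ l ∈ D, l.Prime ∧ ¬ l ∣ N) (p : ℕ) (hp : p.Prime)
    (h : p ∣ N * ∏ l ∈ D, l) : p ∣ N ∨ p ∈ D :=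
  (hp.dvd_mul.1 h).imp_right (zpt_dvd_prod (fun l hl => (hD l hl).1) hp)

theorem Out.triv_up [Algebra K F] (h : Out e 1 K D c) (hK : Fm e C N K) (h210 : 210 ∣ N)
    (hD : ∀ l ∈ D, l.Prime ∧ ¬ l ∣ N) (hU : Unr F N) (htow : Tow K F N)
    (h2 : DescA (algebraMap K F) C) (hs : ∀ w : P F, pr w ∈ D → SqDesc (algebraMap K F) w) :
    Triv e ((c * ∏ l ∈ D, l : ℕ) : F) := fun x y hxy t ht => by
  have hF := h.ty.up (algebraMap K F) hU (fun l hl => (hD l hl).2) fun w hw _ => hs w hw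
  exact TM_up (htow.mono (dvd_mul_right _ _)) hK.tate h2 hF hs
    (fun _ hw => val_c_prod hU hD (h.dvd.trans h210) hw) ((hK.TM_le (dvd_N_or hD)).trans h.zK)
    (h.ptC hK.tate h210 hD hU hF (Or.inr ⟨x, y, hxy, t, ht, ⟨t, rfl⟩⟩))

theorem Out.kill [Algebra K F] [Algebra L F] (h : Out e 1 K D c) (h0 : S.s 0 = algebraMap K F)
    (σ : F →+* F) (hfix : ∀ x, σ x = x ↔ ∃ y, algebraMap L F y = x) (hK : Fm e C N K)
    (h210 : 210 ∣ N) (hD : ∀ l ∈ D, l.Prime ∧ ¬ l ∣ N) (hUL : Unr L N) (hU : Unr F N)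
    (htow : Tow K F N) (h2 : DescA (algebraMap K F) C) (hdom : Dom e F) {D₁ : Finset ℕ}
    {v₁ v₂ : ℕ → P K} (q1 : ∀ q ∈ D, q ∈ D₁ → TP3 S L q (v₁ q) (v₂ q))
    (q2 : ∀ l ∈ D, l ∉ D₁ → IP S l) : Kill K L F e (c * ∏ l ∈ D, l) := by
  have hF : TyD e D F := h.ty.up (S.s 0) hU (fun l hl => (hD l hl).2) fun w hw hn =>
    (q2 _ hw fun h1 => hn ((q1 _ hw h1).tp.dvd_disc
      (h.ty _ ((q1 _ hw h1).tp.pr2.symm ▸ hw)))).sq1 w rfl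
  have hT := fun t => h.ptC hK.tate h210 hD hU hF (t := t)
  refine fun 𝒯 t0 t1 t2 t3 => htow (N * ∏ l ∈ D, l) (dvd_mul_right _ _) e 𝒯 t0
    (fun t ht => (mem_TM.1 (hT t (t1 t ht))).1) t2 fun x x0 x1 => ?_
  obtain ⟨c1, c2, c3⟩ := bottomDM (algebraMap L F) hF q1 q2
    (fun _ hw => val_c_prod hU hD (h.dvd.trans h210) hw) h.zK h.zQ (mem_Sel.1 x0).1
    (h2.l2m hK.tate (mem_Sel.1 x0).1 (mem_TM.1 (hT _ (t1 _ x1))).2.1)
    (hK.usv_of_Sel (dvd_N_or hD) x0) fun j => by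
      obtain ⟨g, hg⟩ := S.exists_aut0 j
      rw [← hg, ← uz_uz, h0]
      exact uz_mem_TM g (hT _ (t1 _ x1))
  have c4 := t0 (uz_mem_SQ (algebraMap K F) c2)
  rw [map_mul, uz_uz, Subsingleton.elim ((algebraMap K F).comp (algebraMap ℚ K)) (algebraMap ℚ F),
    Subgroup.mul_mem_cancel_left _ x1] at c4
  obtain ⟨δ, d1, d2⟩ := t3 _ c4
  have d3 := h.ptC hK.tate h210 hD hUL (hF.down (algebraMap L F)) d1
  have d4 := hdom.sq_desc σ hfix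
    (mul_mem (uz_mem_nsq (algebraMap ℚ L) c1) (mem_Sel.1 (mem_TM.1 d3).1).1) (by
      rwa [map_mul, uz_uz,
        Subsingleton.elim ((algebraMap L F).comp (algebraMap ℚ L)) (algebraMap ℚ F)])
  exact (Subgroup.mul_mem_cancel_right _ (uz_mem_SQ _
    (c3 ((Subgroup.mul_mem_cancel_right _ d3).1 (SQ_le_TM d4))))).1 c2

end Pool.Agent.Lib.MP_775b3b_nt
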