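import Pool.Agent.Lib.MP_775b3b_nt.M2.RA
import Pool.Agent.Lib.MP_775b3b_nt.M2.FamM
import Pool.Agent.Lib.MP_775b3b_nt.M2.IP8
import Pool.Agent.Lib.MP_775b3b_nt.M2.UD3

/-! Many curves with trivial Selmer groups at the bottom of a tower. -/

namespace Pool.Agent.Lib.MP_775b3b_nt

open Cub MP_439fea_co WithZero

variable {K L F : Type} [Field K] [NumberField K] [Field L] [NumberField L] [Field F]
  [NumberField F] {C d₀ : ℤ} {N₀ : ℕ} {p : ℤ × ℤ → ℕ → Prop}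

theorem Out.bound {e : ℤ × ℤ} {D Q : Finset ℕ} {c N : ℕ} (h : Out e d₀ K D c) (h210 : 210 ∣ N)
    (hD : D ⊆ Q) (hQ : ∀ l ∈ Q, l.Prime ∧ ¬ l ∣ N) :
    c * ∏ l ∈ D, l ≤ 210 * ∏ l ∈ Q, l ∧ Squarefree (c * ∏ l ∈ D, l) :=
  ⟨Nat.mul_le_mul (Nat.le_of_dvd (by norm_num) h.dvd) (Nat.le_of_dvd
    (Finset.prod_pos fun l hl => (hQ l hl).1.pos) (Finset.prod_dvd_prod_of_subset _ _ _ hD)),
    squarefree_c_prod (fun l hl => hQ l (hD hl)) (h.dvd.trans h210)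
      (Squarefree.squarefree_of_dvd h.dvd (by decide +kernel))⟩

theorem ndvd_of_lt {N l : ℕ} (n0 : N ≠ 0) (h : N < l) : ¬ l ∣ N := fun h1 =>
  absurd (Nat.le_of_dvd (Nat.pos_of_ne_zero n0) h1) (not_le.2 h)

theorem manyQ (F : Type) [Field F] [NumberField F] [IsGalois ℚ F] (h1 : 2 ^ 7 ∣ C)
    (h2 : ¬ 2 ^ 10 ∣ C) (h0 : d₀ ≠ 0) (hN : N₀ ≠ 0)
    (h : ∀ e N D c, N₀ ∣ N → 210 ∣ N → Fm e C N ℚ → Dom e F → Out e d₀ ℚ D c →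
      (∀ l ∈ D, l.Prime ∧ ¬ l ∣ N) → (∀ l ∈ D, Deg1 F l) → p e (c * ∏ l ∈ D, l)) : Many p := by
  obtain ⟨N₃, n3, h3⟩ := tower_exact ℚ 0 ℚ (by simp)
  obtain ⟨N, a, b, n0, d0, hsm, h210, hab⟩ := exists_fam ℚ F (by simp) h1 h2 (mul_ne_zero hN n3)
  refine many_of n0 hsm a b fun ε hε => ?_
  obtain ⟨m, L₀, hm⟩ := countQ2 (n := 2 ^ 78) (by positivity) hε
  obtain ⟨Q, c1, q1⟩ := exists_primes (fun l => l.Prime ∧ Deg1 F l)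
    (fun Y => by
      obtain ⟨l, a1, a2, a3⟩ := exists_deg1 F Y
      exact ⟨l, a2, a1, a3⟩) m (max L₀ N)
  obtain ⟨T₀, hT⟩ := hm Q c1 fun l hl => ⟨(q1 l hl).2.1, (le_max_left _ _).trans_lt (q1 l hl).1⟩
  have hQ : ∀ l ∈ Q, l.Prime ∧ ¬ l ∣ N := fun l hl =>
    ⟨(q1 l hl).2.1, ndvd_of_lt n0 ((le_max_right _ _).trans_lt (q1 l hl).1)⟩
  refine ⟨210 * ∏ l ∈ Q, l, T₀, fun _ => False, _, fun T _ E _ hE => ?_, hT, fun e he _ b2 => ?_⟩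
  · rw [Finset.eq_empty_of_forall_notMem fun e he => (hE e he).2, Finset.card_empty, Nat.cast_zero]
    positivity
  · obtain ⟨a1, -, a3, a4⟩ := hab e he
    obtain ⟨D, hD, c, ho, -⟩ := coreQ (d₀ := d₀) a1 a1 (fun v u _ hL x hx _ => by
      obtain ⟨y, hy⟩ := hx
      exact ⟨y, hL.ap.1 hy⟩) h0
      (fun N' hN' => h3 N' (((dvd_mul_left _ _).trans d0).trans hN') e)
      (fun l hl => ⟨(hQ l hl).1, (hQ l hl).2, fun w _ => sqDesc_of_res1 _ (res1_rat w)⟩) b2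
    exact ⟨_, (ho.bound h210 hD hQ).1, (ho.bound h210 hD hQ).2, h e N D c
      ((dvd_mul_right _ _).trans d0) h210 a1 a3 ho (fun l hl => hQ l (hD hl))
      fun l hl => (q1 l (hD hl)).2.2, a4⟩

theorem manyC (F : Type) [Field F] [NumberField F] [IsGalois ℚ F] [IsGalois ℚ K] [Algebra K F]
    (hK : Module.finrank ℚ K = 3) {j : ℕ} (hF : Module.finrank K F = 2 ^ j) (h1 : 2 ^ 7 ∣ C)
    (h2 : ¬ 2 ^ 10 ∣ C) (h0 : d₀ ≠ 0) (hN : N₀ ≠ 0)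
    (h : ∀ e N D c, N₀ ∣ N → 210 ∣ N → Fm e C N K → Fm e C N ℚ → Dom e F → Out e d₀ K D c →
      (∀ l ∈ D, l.Prime ∧ ¬ l ∣ N) → (∀ l ∈ D, ¬ (l : ℤ) ∣ disc e ∧ (Deg1 F l ∨ ∀ w : P F,
        val w (l : F) < 1 → Nat.card (MulAction.stabilizer (F ≃ₐ[ℚ] F) w) = 3)) →
      p e (c * ∏ l ∈ D, l)) : Many p := by
  obtain ⟨S⟩ := exists_setup K K hK
  obtain ⟨N₁, n1, u1⟩ := exists_unr K
  obtain ⟨N, a, b, n0, d0, hsm, h210, hab⟩ := exists_fam K F hK.le h1 h2 (mul_ne_zero hN n1)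
  refine many_of n0 hsm a b fun ε hε => ?_
  obtain ⟨m₁, L₁, hm₁⟩ := countU2D S (n := 2 ^ 78) (by positivity) hε
  obtain ⟨Q₁, c1, q1⟩ := exists_primes (fun l => l.Prime ∧ Deg1 F l)
    (fun Y => by
      obtain ⟨l, a1, a2, a3⟩ := exists_deg1 F Y
      exact ⟨l, a2, a1, a3⟩) m₁ (max L₁ N)
  obtain ⟨T₂, hT₂⟩ := hm₁ Q₁ c1 fun l hl =>
    ⟨(q1 l hl).2.1, (le_max_left _ _).trans_lt (q1 l hl).1, (q1 l hl).2.2.down⟩
  have p1 : ∏ l ∈ Q₁, l ≠ 0 := Finset.prod_ne_zero_iff.2 fun l hl => (q1 l hl).2.1.ne_zero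
  obtain ⟨m₂, L₂, hm₂⟩ := countQ2 (n := 2 ^ 78 * ∏ l ∈ Q₁, l) (by positivity) hε
  have f3 : 3 ∣ Module.finrank ℚ F := by
    rw [← Module.finrank_mul_finrank ℚ K F, hK]
    exact dvd_mul_right _ _
  obtain ⟨Q₂, c2, q2⟩ := exists_primes (fun l => l.Prime ∧ ∀ w : P F, val w (l : F) < 1 →
      Nat.card (MulAction.stabilizer (F ≃ₐ[ℚ] F) w) = 3)
    (fun Y => by
      obtain ⟨l, a1, a2, a3⟩ := exists_stab_three F f3 Y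
      exact ⟨l, a2, a1, a3⟩) m₂ (max (max L₂ N) (∏ l ∈ Q₁, l))
  obtain ⟨T₃, hT₃⟩ := hm₂ Q₂ c2 fun l hl =>
    ⟨(q2 l hl).2.1, ((le_max_left _ _).trans (le_max_left _ _)).trans_lt (q2 l hl).1⟩
  have hdis : Disjoint Q₁ Q₂ := Finset.disjoint_left.2 fun l a1 a2 =>
    ndvd_of_lt p1 ((le_max_right _ _).trans_lt (q2 l a2).1) (Finset.dvd_prod_of_mem _ a1)
  have hQ : ∀ l ∈ Q₁ ∪ Q₂, l.Prime ∧ ¬ l ∣ N := fun l hl => (Finset.mem_union.1 hl).elim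
    (fun hl => ⟨(q1 l hl).2.1, ndvd_of_lt n0 ((le_max_right _ _).trans_lt (q1 l hl).1)⟩)
    fun hl => ⟨(q2 l hl).2.1, ndvd_of_lt n0
      (((le_max_right _ _).trans (le_max_left _ _)).trans_lt (q2 l hl).1)⟩
  have hI : ∀ l ∈ Q₂, IP S l := fun l hl => by
    have hl' := hQ l (Finset.mem_union_right _ hl)
    refine ⟨hl'.1, fun w hw => u1 N ((dvd_mul_left _ _).trans d0) w ⟨l, hl'.1⟩ hl'.2
      (val_lt_of_pr hw), fun w _ => S.sqDesc w, fun w _ x _ ⟨y, hy⟩ => ?_, fun w hw => ?_⟩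
    · obtain ⟨g, hg⟩ := S.exists_aut 0
      obtain ⟨t, rfl⟩ := g.surjective y
      refine ⟨t, ?_⟩
      rw [map_sub, map_pow, ← hg]
      rw [← hg] at hy
      exact hy
    · have key : ∀ j x, val w (S.s j x) = val w x := fun j x => by
        obtain ⟨g, hg⟩ := S.exists_aut j
        rw [← hg]
        exact (mem_stabilizer_iff_val g w).1
          (smul_eq_of_three hK hF (q2 l hl).2.2 w (val_lt_of_pr hw) g) x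
      exact fun j x => (key j x).trans (key 0 x).symm
  refine ⟨210 * ∏ l ∈ Q₁ ∪ Q₂, l, max T₂ T₃, _, _,
    fun T hT E hE he => hT₂ T ((le_max_left _ _).trans hT) E hE fun e h => (he e h).2,
    fun T hT => hT₃ T ((le_max_right _ _).trans hT), fun e he b1 b2 => ?_⟩
  obtain ⟨a1, a2, a3, a4⟩ := hab e he
  obtain ⟨D, hD, c, ho, hd⟩ := coreC (d₀ := d₀) S a1 h0 hdis
    (fun l hl => ⟨(hQ l hl).1, (hQ l hl).2, fun w _ => S.sqDesc w⟩) hI b1 b2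
  exact ⟨_, (ho.bound h210 hD hQ).1, (ho.bound h210 hD hQ).2, h e N D c
    ((dvd_mul_right _ _).trans d0) h210 a1 a2 a3 ho (fun l hl => hQ l (hD hl))
    fun l hl => ⟨hd l hl, (Finset.mem_union.1 (hD hl)).imp (fun h => (q1 l h).2.2)
      fun h => (q2 l h).2.2⟩, a4⟩

theorem manyY (S : Setup K F) {j : ℕ} (hF : Module.finrank ℚ F = 3 * 2 ^ j) {τ : F ≃ₐ[ℚ] F}
    (hc : S.Cmp τ (Equiv.swap 1 2)) (hτ : τ * τ = 1) (ψ : L →+* F) (hψ : ∀ x, τ (ψ x) = ψ x)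
    (h1 : 2 ^ 7 ∣ C) (h2 : ¬ 2 ^ 10 ∣ C) (h0 : d₀ ≠ 0) (hN : N₀ ≠ 0)
    (h : ∀ e N D c, N₀ ∣ N → 210 ∣ N → Fm e C N K → Fm e C N ℚ → Dom e F → Out e d₀ K D c →
      (∀ l ∈ D, l.Prime ∧ ¬ l ∣ N) → ∀ (D₁ : Finset ℕ) (w : ℕ → P F) (v₁ v₂ : ℕ → P K),
      (∀ q ∈ D, q ∈ D₁ → TP τ q (w q) ∧ TP3 S L q (v₁ q) (v₂ q)) →
      (∀ l ∈ D, l ∉ D₁ → IP S l ∧ ¬ (l : ℤ) ∣ disc e) → p e (c * ∏ l ∈ D, l)) : Many p := by
  have := S.gal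
  have hτ1 : τ ≠ 1 := fun h => by
    have a1 : S.s 1 = S.s 2 := RingHom.ext fun x => by simpa [h] using hc 1 x
    exact absurd (S.s_inj a1) (by decide)
  obtain ⟨N₁, n1, u1⟩ := exists_unr F
  obtain ⟨N, a, b, n0, d0, hsm, h210, hab⟩ :=
    exists_fam K F S.finrank_eq.le h1 h2 (mul_ne_zero hN n1)
  refine many_of n0 hsm a b fun ε hε => ?_
  obtain ⟨B₀, L₁, hm₁⟩ := countU3D S hc (n := 2 ^ 78) (by positivity) hε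
  obtain ⟨Q₁, w, c1, q1⟩ := exists_TP hτ1 hτ (max L₁ N) B₀
  have key : ∀ q : ℕ, ∃ v₁ v₂ : P K, q ∈ Q₁ → TP3 S L q v₁ v₂ ∧ Over (S.s 0) (w q) v₁ := fun q => by
    by_cases hq : q ∈ Q₁
    · obtain ⟨v₁, v₂, h⟩ := (q1 q hq).2.exists_tp3 S hc ψ hψ
      exact ⟨v₁, v₂, fun _ => h⟩
    · obtain ⟨v, -⟩ := exists_over_prime K Nat.prime_two
      exact ⟨v, v, fun h => absurd h hq⟩
  choose v₁ v₂ hv using key
  have nd1 : ∀ l ∈ Q₁, ¬ l ∣ N := fun l hl =>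
    ndvd_of_lt n0 ((le_max_right _ _).trans_lt (q1 l hl).1)
  obtain ⟨T₂, hT₂⟩ := hm₁ Q₁ w v₁ c1 fun l hl =>
    ⟨(le_max_left _ _).trans_lt (q1 l hl).1, (q1 l hl).2, (hv l hl).2, (hv l hl).1.tp.res1⟩
  have p1 : ∏ l ∈ Q₁, l ≠ 0 := Finset.prod_ne_zero_iff.2 fun l hl => (q1 l hl).2.prime.ne_zero
  obtain ⟨m₂, L₂, hm₂⟩ := countQ2 (n := 2 ^ 78 * ∏ l ∈ Q₁, l) (by positivity) hε
  obtain ⟨Q₂, c2, q2⟩ := exists_primes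
    (fun l => IP S l ∧ l % 8 = 1 ∧ ∀ q ∈ Q₁, IsSquare (l : ZMod q))
    (exists_IP8 S hF Q₁ fun q hq => ⟨(q1 q hq).2.prime, fun h => nd1 q hq
      (h ▸ hsm 2 Nat.prime_two (by norm_num))⟩) m₂
    (max (max L₂ N) (∏ l ∈ Q₁, l))
  obtain ⟨T₃, hT₃⟩ := hm₂ Q₂ c2 fun l hl =>
    ⟨(q2 l hl).2.1.prime, ((le_max_left _ _).trans (le_max_left _ _)).trans_lt (q2 l hl).1⟩
  have hdis : Disjoint Q₁ Q₂ := Finset.disjoint_left.2 fun l a1 a2 =>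
    ndvd_of_lt p1 ((le_max_right _ _).trans_lt (q2 l a2).1) (Finset.dvd_prod_of_mem _ a1)
  have hQ : ∀ l ∈ Q₁ ∪ Q₂, l.Prime ∧ ¬ l ∣ N := fun l hl => (Finset.mem_union.1 hl).elim
    (fun hl => ⟨(q1 l hl).2.prime, nd1 l hl⟩)
    fun hl => ⟨(q2 l hl).2.1.prime, ndvd_of_lt n0
      (((le_max_right _ _).trans (le_max_left _ _)).trans_lt (q2 l hl).1)⟩
  refine ⟨210 * ∏ l ∈ Q₁ ∪ Q₂, l, max T₂ T₃, _, _,
    fun T hT E hE he => hT₂ T ((le_max_left _ _).trans hT) E hE fun e h =>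
      ⟨fun l hl => (he e h).1.2.2.2 l (q1 l hl).2.prime (nd1 l hl), (he e h).2⟩,
    fun T hT => hT₃ T ((le_max_right _ _).trans hT), fun e he b1 b2 => ?_⟩
  obtain ⟨a1, a2, a3, a4⟩ := hab e he
  obtain ⟨D, hD, c, ho, hd⟩ := coreY (d₀ := d₀) S a1 (u1 N ((dvd_mul_left _ _).trans d0)) h210 h0
    hdis hQ (fun q hq => ⟨(q1 q hq).2.five, (hv q hq).1.tp⟩) (fun l hl => (q2 l hl).2) b1 b2
  exact ⟨_, (ho.bound h210 hD hQ).1, (ho.bound h210 hD hQ).2, h e N D c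
    ((dvd_mul_right _ _).trans d0) h210 a1 a2 a3 ho (fun l hl => hQ l (hD hl)) Q₁ w v₁ v₂
    (fun q _ hq => ⟨(q1 q hq).2, (hv q hq).1⟩) fun l hl hn =>
      ⟨(q2 l ((Finset.mem_union.1 (hD hl)).resolve_left hn)).2.1, fun h => hn (hd l hl h)⟩, a4⟩

end Pool.Agent.Lib.MP_775b3b_nt
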