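import Pool.Agent.Lib.MP_775b3b_nt.M2.RB
import Pool.Agent.Lib.MP_775b3b_nt.M2.LTD
import Pool.Agent.Lib.MP_775b3b_nt.M2.Dens
import Pool.Agent.Lib.MP_775b3b_nt.YD5

/-! Fields in which the primes above two have cyclic decomposition two-groups. -/

namespace Pool.Agent.Lib.MP_775b3b_nt

open Cub MP_439fea_co WithZero WeierstrassCurve WeierstrassCurve.Affine IntermediateField

variable {e : ℤ × ℤ} {K L F : Type} [Field K] [NumberField K] [Field L] [NumberField L] [Field F]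
  [NumberField F]

theorem Setup.exists_alt (S : Setup K F) : ∃ (δ : ℤ) (β : F), β ≠ 0 ∧ β ^ 2 = δ ∧ S.Alt β := by
  obtain ⟨ω, η, n, -, -, -, -, h⟩ := S.exists_dual
  let W : Matrix (Fin 3) (Fin 3) F := Matrix.of fun i j => S.s i (ω j)
  have h1 : W.det ≠ 0 := fun h0 => by
    have h2 : W.transpose * (Matrix.of fun i j => S.s i (η j)) = 1 := by
      ext j l
      simpa [W, Matrix.mul_apply, Matrix.one_apply] using h j l
    have h3 := congrArg Matrix.det h2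
    rw [Matrix.det_mul, Matrix.det_transpose, h0, zero_mul, Matrix.det_one] at h3
    exact zero_ne_one h3
  have h2 : S.Alt W.det := fun τ π hτ => by
    rw [← Matrix.det_permute, ← RingHom.coe_coe, RingHom.map_det]
    congr 1
    ext i j
    exact hτ i _
  obtain ⟨r, hr⟩ := S.exists_rat (x := W.det ^ 2) fun τ => by
    obtain ⟨π, hπ⟩ := S.exists_cmp τ
    rw [map_pow, h2 τ π hπ, mul_pow]
    rcases Int.units_eq_one_or (Equiv.Perm.sign π) with h | h <;> simp [h]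
  have hd : (r.den : F) ≠ 0 := Nat.cast_ne_zero.2 r.den_nz
  refine ⟨r.num * r.den, r.den * W.det, mul_ne_zero hd h1, ?_, fun τ π hτ => by
    rw [map_mul, map_natCast, h2 τ π hτ]
    ring⟩
  rw [mul_pow, ← hr, eq_ratCast, Rat.cast_def]
  push_cast
  field_simp

theorem Setup.exists_eig' (S : Setup K F) {τ : F ≃ₐ[ℚ] F} (hc : S.Cmp τ (Equiv.swap 1 2))
    (ε : ℤˣ) : ∃ (δ : ℤ) (β : F), β ≠ 0 ∧ β ^ 2 = δ ∧ τ β = ((ε : ℤ) : F) * β := by
  rcases Int.units_eq_one_or ε with rfl | rfl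
  · exact ⟨1, 1, one_ne_zero, by simp, by simp⟩
  obtain ⟨δ, β, h1, h2, h3⟩ := S.exists_alt
  exact ⟨δ, β, h1, h2, by rw [h3 _ _ hc, Equiv.Perm.sign_swap (by decide)]⟩

/-- every two-group fixing a prime above two is cyclic -/
def Cyc2 (F : Type) [Field F] [NumberField F] : Prop :=
  ∀ w : P F, val w 2 < 1 → ∀ Q : Subgroup (F ≃ₐ[ℚ] F), IsPGroup 2 Q →
    (∀ g ∈ Q, g • w = w) → IsCyclic Q

theorem Cyc2.desc [IsGalois ℚ F] (hc : Cyc2 F) : ∃ C : ℤ, 2 ^ 7 ∣ C ∧ ¬ 2 ^ 10 ∣ C ∧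
    ∀ H : Subgroup (F ≃ₐ[ℚ] F), IsPGroup 2 H → DescA (algebraMap (fixedField H) F) C ∧
      (H = ⊤ → DescA (algebraMap ℚ F) C) := by
  obtain ⟨C, h1, h2, h3⟩ := exists_td hc
  refine ⟨C, h1, h2, fun H hH => ⟨fun w v => h3 _ H hH (fun h hh x => x.2 ⟨h, hh⟩)
    (fun z hz => ⟨⟨z, fun h => hz h h.2⟩, rfl⟩) w _, fun h0 w v => h3 _ H hH
    (fun h _ x => h.commutes x) (fun z hz => (IsGalois.mem_range_algebraMap_iff_fixed z).2
      fun g => hz g (h0 ▸ Subgroup.mem_top g)) w _⟩⟩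

theorem exists_N [Algebra K F] [IsGalois K F] {j : ℕ} (hF : Module.finrank K F = 2 ^ j)
    (L : Type) [Field L] [NumberField L] :
    ∃ N₀ : ℕ, N₀ ≠ 0 ∧ ∀ N, N₀ ∣ N → Unr L N ∧ Unr F N ∧ Tow K F N := by
  obtain ⟨N₁, n1, h1⟩ := exists_unr L
  obtain ⟨N₂, n2, h2⟩ := exists_unr F
  obtain ⟨N₃, n3, h3⟩ := tower_exact K j F hF
  exact ⟨N₁ * (N₂ * N₃), by positivity, fun N hN => ⟨h1 N ((dvd_mul_right _ _).trans hN),
    h2 N (((dvd_mul_right _ _).mul_left _).trans hN), fun N' hN' =>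
      h3 N' ((((dvd_mul_left _ _).mul_left _).trans hN).trans hN')⟩⟩

theorem many_triv [IsGalois ℚ F] (hc : Cyc2 F) (H : Subgroup (F ≃ₐ[ℚ] F)) [H.Normal]
    (h2 : IsPGroup 2 H) (h3 : H.index ∣ 3) : Many fun e d => Triv e (d : F) := by
  have : Fact (Nat.Prime 2) := ⟨Nat.prime_two⟩
  obtain ⟨j, hj⟩ := IsPGroup.iff_card.1 h2
  obtain ⟨C, c1, c2, c3⟩ := hc.desc
  rcases (Nat.dvd_prime Nat.prime_three).1 h3 with h3 | h3
  · obtain ⟨N₀, n0, hN⟩ := exists_N (K := ℚ) (F := F) (j := j) (by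
      rw [← IsGalois.card_aut_eq_finrank ℚ F, ← H.index_mul_card, h3, hj, one_mul]) ℚ
    exact manyQ F c1 c2 one_ne_zero n0 fun e N D c a1 a2 a3 _ a5 a6 a7 =>
      a5.triv_up a3 a2 a6 (hN N a1).2.1 (hN N a1).2.2 ((c3 H h2).2 (Subgroup.index_eq_one.1 h3))
        fun w hw => sqDesc_of_res1 _ (a7 _ hw w (val_pr w)).2
  · have : IsGalois ℚ (fixedField H) := IsGalois.of_fixedField_normal_subgroup H
    have hF : Module.finrank (fixedField H) F = 2 ^ j := by rw [finrank_fixedField_eq_card, hj]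
    have hK : Module.finrank ℚ (fixedField H) = 3 := by
      have h1 := Module.finrank_mul_finrank ℚ (fixedField H) F
      rw [hF, ← IsGalois.card_aut_eq_finrank ℚ F, ← H.index_mul_card, h3, hj] at h1
      exact Nat.eq_of_mul_eq_mul_right (Nat.two_pow_pos j) h1
    obtain ⟨N₀, n0, hN⟩ := exists_N hF ℚ
    exact manyC F hK hF c1 c2 one_ne_zero n0 fun e N D c a1 a2 a3 _ _ a5 a6 a7 =>
      a5.triv_up a3 a2 a6 (hN N a1).2.1 (hN N a1).2.2 (c3 H h2).1 fun w hw =>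
        (a7 _ hw).2.elim (fun h => sqDesc_of_res1 _ (h w (val_pr w)).2)
          fun h => sqDesc_of_three (h w (val_pr w))

variable [DecidableEq F]

theorem ann_of_kill' [Algebra K F] [Algebra L F]
    (he : disc e ≠ 0) (h : Dom e F) {d : ℕ} (hd : d ≠ 0) (hk : Kill K L F e d) {D : ℤ} {β : F}
    (hD' : (D : F) = d * β ^ 2) (h0 : β ≠ 0) {H : Subgroup (F ≃ₐ[ℚ] F)}
    (hH : ∀ g : F ≃ₐ[K] F, g.restrictScalars ℚ ∈ H) {τ : F ≃ₐ[ℚ] F} {ε : ℤˣ}
    (h1 : τ β = ((ε : ℤ) : F) * β) (h2 : ∀ x, τ x = x → ∃ y, algebraMap L F y = x) :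
    Ann (act (tw e D)) H τ ε := by
  intro a ha
  have hd' : (d : F) ≠ 0 := Nat.cast_ne_zero.2 hd
  have hD : D ≠ 0 := Int.cast_ne_zero.1 (hD' ▸ mul_ne_zero hd' (pow_ne_zero 2 h0))
  have he' : disc (tw e D) ≠ 0 := by
    rw [disc_tw]
    exact mul_ne_zero (pow_ne_zero 6 hD) he
  have : Module.Finite ℤ ((crv (tw e D) ℚ).toAffine⁄F).Point := by
    have := crv_isElliptic (F := F) he'
    rw [crv_base]
    exact Module.Finite.iff_addGroup_fg.mpr (Pool.Agent.MP_651af7_nt.MW.fg (crv (tw e D) F))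
  have hpt : ∀ {x y : F}, ((crv (tw e D) ℚ).toAffine⁄F).Nonsingular x y →
      (y / β ^ 3) ^ 2 = (x / β ^ 2) ^ 3 + (e.1 : F) * (d : F) ^ 2 * (x / β ^ 2) +
        (e.2 : F) * (d : F) ^ 3 := fun hxy => by
    have h3 := tw_eqn (crv_base (F := F) ▸ hxy.1)
    rw [hD'] at h3
    field_simp
    linear_combination h3
  let κ : ((crv (tw e D) ℚ).toAffine⁄F).Point →+ Additive ((Cub e F)ˣ ⧸ SQ e F) :=
    AddMonoidHom.mk' (fun R => Additive.ofMul (kum e (D : F) R))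
      fun R R' => congrArg Additive.ofMul (h.kum_add hD crv_base R R')
  let A : Submodule ℤ ((crv (tw e D) ℚ).toAffine⁄F).Point := ⨅ p ∈ H, LinearMap.ker
    (((act _ τ).toIntLinearMap - (ε : ℤ) • LinearMap.id) ∘ₗ
      ∑ g, a g • (act _ (g * p)).toIntLinearMap)
  have hA : ∀ R, R ∈ A ↔ ∀ p ∈ H, act _ τ (∑ g, a g • act _ (g * p) R) =
      (ε : ℤ) • ∑ g, a g • act _ (g * p) R := fun R => by
    simp only [A, Submodule.mem_iInf, LinearMap.mem_ker, LinearMap.comp_apply, LinearMap.sub_apply,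
      LinearMap.sum_apply, LinearMap.smul_apply, LinearMap.id_apply,
      AddMonoidHom.coe_toIntLinearMap, sub_eq_zero]
  let 𝒯 : Subgroup (Cub e F)ˣ :=
    { carrier := {t | ∃ R ∈ A, t = kum e (D : F) R}
      one_mem' := ⟨0, A.zero_mem, rfl⟩
      mul_mem' := by
        rintro s t ⟨R, a1, a2⟩ ⟨R', a3, a4⟩
        exact ⟨R + R', A.add_mem a1 a3, by
          rw [QuotientGroup.mk_mul, a2, a4, h.kum_add hD crv_base]⟩
      inv_mem' := by
        rintro s ⟨R, a1, a2⟩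
        exact ⟨R, a1, by rw [QuotientGroup.mk_inv, a2, inv_eq_of_mul_eq_one_right (cls_sq _)]⟩ }
  have h3 : 𝒯 ≤ SQ e F := hk 𝒯 (fun t ht => ⟨0, A.zero_mem, (QuotientGroup.eq_one_iff _).2 ht⟩)
    (by
      rintro t ⟨_ | ⟨x, y, hxy⟩, -, a2⟩
      · exact Or.inl ((QuotientGroup.eq_one_iff _).1 a2)
      · exact Or.inr ⟨_, _, hpt hxy, _, h.lu_val hd' _,
          mul_mem_SQ (a2.trans (hD' ▸ h.lu_tw hd' h0 x))⟩)
    (by
      rintro g t ⟨R, a1, a2⟩
      refine ⟨_, (hA _).2 fun p hp => ?_, h.kum_act hD (g.restrictScalars ℚ) a2⟩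
      simpa only [← act_mul, mul_assoc] using (hA R).1 a1 _ (H.mul_mem hp (hH g)))
    (by
      rintro c ⟨R, a1, a2⟩
      have a3 : ∀ g, κ (act _ g R) = κ R := fun g => by
        have a4 := h.kum_act hD g a2
        rw [uz_uz, Subsingleton.elim (RingHom.comp _ _) (algebraMap ℚ F), a2] at a4
        exact congrArg Additive.ofMul a4.symm
      have a4 : κ (∑ g, a g • act _ (g * 1) R) = κ R := by
        obtain ⟨k, hk⟩ := ha
        simp only [map_sum, map_zsmul, a3]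
        rw [← Finset.sum_smul, hk, add_smul, mul_comm, mul_smul, two_smul, one_smul,
          show κ R + κ R = 0 from congrArg Additive.ofMul (cls_sq _), smul_zero, zero_add]
      have a5 := (hA R).1 a1 1 H.one_mem
      generalize ∑ g, a g • act _ (g * 1) R = R₁ at a4 a5
      have a6 := a2.trans (Additive.ofMul.injective a4).symm
      rcases R₁ with _ | ⟨x, y, hxy⟩
      · exact ⟨1, Or.inl (one_mem _), by
          rw [map_one, mul_one]
          exact (QuotientGroup.eq_one_iff _).1 a6⟩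
      have a7 : τ x = x ∧ τ y = ((ε : ℤ) : F) * y := by
        rw [Point.map_some] at a5
        rcases Int.units_eq_one_or ε with rfl | rfl
        · simpa using a5
        · rw [Units.val_neg, Units.val_one, neg_one_zsmul, Point.neg_some] at a5
          simpa [negY, Affine.baseChange, WeierstrassCurve.baseChange] using a5
      have hε : ((ε : ℤ) : F) ^ 2 = 1 := by
        rcases Int.units_eq_one_or ε with rfl | rfl <;> simp
      have hε0 : ((ε : ℤ) : F) ≠ 0 := Int.cast_ne_zero.2 ε.ne_zero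
      obtain ⟨x₀, hx⟩ := h2 (x / β ^ 2) (by rw [map_div₀, map_pow, a7.1, h1, mul_pow, hε, one_mul])
      obtain ⟨y₀, hy⟩ := h2 (y / β ^ 3) (by
        rw [map_div₀, map_pow, a7.2, h1, mul_pow, pow_succ _ 2, hε, one_mul,
          mul_div_mul_left _ _ hε0])
      have hdL : (d : L) ≠ 0 := Nat.cast_ne_zero.2 hd
      refine ⟨lu e d x₀, Or.inr ⟨x₀, y₀, (algebraMap L F).injective ?_, _,
        (h.down (algebraMap L F)).lu_val hdL _, mul_mem_SQ rfl⟩, mul_mem_SQ ?_⟩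
      · simpa [hx, hy] using hpt hxy
      · rw [h.uz_lu _ hdL, map_natCast, hx]
        exact a6.trans (hD' ▸ h.lu_tw hd' h0 x))
  obtain ⟨r, hr, h4⟩ := ann_of_half A fun R hR => by
    obtain ⟨t, ht⟩ := QuotientGroup.mk_surjective (kum e (D : F) R)
    obtain ⟨Q, rfl⟩ := h.half he hD crv_base
      (ht.symm.trans ((QuotientGroup.eq_one_iff _).2 (h3 ⟨R, hR, ht⟩)))
    refine ⟨Q, ?_, rfl⟩
    simp only [A, Submodule.mem_iInf, LinearMap.mem_ker] at hR ⊢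
    exact fun p hp => h.two_tors hD crv_base (by rw [← map_nsmul, hR p hp])
  exact ⟨r, hr, fun R hR => h4 R ((hA R).2 hR)⟩

open Classical in
theorem dens_ann [IsGalois ℚ F] (hc : Cyc2 F) (H : Subgroup (F ≃ₐ[ℚ] F))
    (h2 : IsPGroup 2 H) (h3 : H.index ∣ 3) {τ : F ≃ₐ[ℚ] F} (hτ : τ ∈ H) (hτ2 : τ * τ = 1)
    (hH : ∀ g, g * τ * g⁻¹ ∈ H → ∀ p ∈ H, g * p * g⁻¹ ∈ H) (ε : ℤˣ) :
    ∃ c' : ℝ, 0 < c' ∧ ∃ X₀ : ℝ, ∀ X : ℝ, X₀ ≤ X → ∀ S : Finset (ℤ × ℤ),
      (∀ e : ℤ × ℤ, e ∈ S ↔ 4 * e.1 ^ 3 + 27 * e.2 ^ 2 ≠ 0 ∧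
        (∀ p : ℕ, p.Prime → ¬ ((p : ℤ) ^ 4 ∣ e.1 ∧ (p : ℤ) ^ 6 ∣ e.2)) ∧
        ((max (4 * |e.1| ^ 3) (27 * e.2 ^ 2) : ℤ) : ℝ) < X) →
      c' * S.card ≤ (S.filter fun e => Ann (act e) H τ ε).card := by
  have : Fact (Nat.Prime 2) := ⟨Nat.prime_two⟩
  obtain ⟨j, hj⟩ := IsPGroup.iff_card.1 h2
  by_cases hn : H.Normal
  · refine Many.dens_one ((many_triv hc H h2 h3).mono fun e d a1 a2 a3 => ?_)
    have a4 : (d : ℤ) ≠ 0 := Int.natCast_ne_zero.2 a2
    refine ann_of_rank ?_ (rank_zero_tw a1 a4 (by rw [Int.cast_natCast]; exact a3))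
    rw [disc_tw]
    exact mul_ne_zero (pow_ne_zero _ a4) a1
  replace h3 : H.index = 3 := ((Nat.dvd_prime Nat.prime_three).1 h3).resolve_left fun h =>
    hn (Subgroup.index_eq_one.1 h ▸ inferInstance)
  have hF : Module.finrank ℚ F = 3 * 2 ^ j := by
    rw [← IsGalois.card_aut_eq_finrank ℚ F, ← H.index_mul_card, h3, hj]
  have hL : Module.finrank (fixedField H) F = 2 ^ j := by rw [finrank_fixedField_eq_card, hj]
  have hK : Module.finrank ℚ (fixedField H) = 3 := by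
    have h1 := Module.finrank_mul_finrank ℚ (fixedField H) F
    rw [hL, hF] at h1
    exact Nat.eq_of_mul_eq_mul_right (Nat.two_pow_pos j) h1
  obtain ⟨S, h0, hs⟩ := exists_setup0 H hK hτ hH hn
  have l1 : ∀ x, τ x = x ↔ ∃ y, algebraMap (fixedField (Subgroup.zpowers τ)) F y = x := fun x =>
    ⟨fun h => ⟨⟨x, fun g => (Subgroup.zpowers_le (g := τ)
      (H := MulAction.stabilizer _ x)).2 h g.2⟩, rfl⟩,
      fun ⟨y, hy⟩ => hy ▸ y.2 ⟨τ, Subgroup.mem_zpowers τ⟩⟩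
  obtain ⟨δ, β, d1, d2, d3⟩ := S.exists_eig' hs ε
  obtain ⟨C, c1, c2, c3⟩ := hc.desc
  obtain ⟨N₀, n0, hN⟩ := exists_N hL (fixedField (Subgroup.zpowers τ))
  refine Many.dens (p := fun e d => Dom e F ∧
    Kill (fixedField H) (fixedField (Subgroup.zpowers τ)) F e d) (δ := δ)
    (manyY S hF hs hτ2 (algebraMap (fixedField (Subgroup.zpowers τ)) F)
      (fun x => (l1 _).2 ⟨x, rfl⟩) c1 c2 one_ne_zero n0
      fun e N D c a1 a2 a3 _ a4 a5 a6 D₁ w v₁ v₂ a7 a8 => ⟨a4, a5.kill h0 (τ : F →+* F) l1 a3 a2 a6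
        (hN N a1).1 (hN N a1).2.1 (hN N a1).2.2 (c3 H h2).1 a4 (fun q b1 b2 => (a7 q b1 b2).2)
        fun l b1 b2 => (a8 l b1 b2).1⟩)
    (fun h => pow_ne_zero 2 d1 (by rw [d2, h, Int.cast_zero])) _ fun e d D u a1 a2 a3 a4 a5 => ?_
  have a6 : (u : F) ≠ 0 := Int.cast_ne_zero.2 a3
  refine ann_of_kill' a1 a5.1 a2 a5.2 (β := β / u) ?_ (div_ne_zero d1 a6)
    (fun g => mem_of_fix fun y hy => g.commutes ⟨y, hy⟩)
    (by rw [map_div₀, map_intCast, d3, mul_div_assoc]) fun x hx => (l1 x).1 hx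
  have a7 : (d : F) * δ = D * u ^ 2 := by exact_mod_cast congrArg (Int.cast : ℤ → F) a4
  rw [div_pow, d2, ← mul_div_assoc, a7, mul_div_cancel_right₀ _ (pow_ne_zero 2 a6)]

end Pool.Agent.Lib.MP_775b3b_nt
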