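import Pool.Agent.Lib.MP_775b3b_nt.M2.RC

/-! The hypothesis at two in terms of ideals. -/

namespace Pool.Agent.Lib.MP_775b3b_nt

open MP_439fea_co NumberField Pointwise

variable {F : Type} [Field F] [NumberField F]

theorem cyc2_of_ideal (h : ∀ 𝔓 : Ideal (𝓞 F), 𝔓.IsPrime → 2 ∈ 𝔓 →
    ∀ Q : Subgroup (F ≃ₐ[ℚ] F), IsPGroup 2 Q → (∀ g ∈ Q, ∀ x ∈ 𝔓, g • x ∈ 𝔓) → IsCyclic Q) :
    Cyc2 F := fun w hw Q h1 h2 => h w.asIdeal w.isPrime ((Val_lt_iff_mem w 2).1 hw) Q h1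
  fun g hg x hx => by
    have h3 := Ideal.smul_mem_pointwise_smul g x _ hx
    rwa [← smul_asIdeal, h2 g hg] at h3

attribute [local instance] Ideal.Quotient.field in
theorem cyc_of_odd [IsGalois ℚ F] (𝔓 : Ideal (𝓞 F)) (hp : 𝔓.IsPrime) (h2 : 2 ∈ 𝔓)
    (h : Odd (𝔓.ramificationIdx ℤ)) (Q : Subgroup (F ≃ₐ[ℚ] F)) (hQ : IsPGroup 2 Q)
    (hs : ∀ g ∈ Q, ∀ x ∈ 𝔓, g • x ∈ 𝔓) : IsCyclic Q := by
  have : Fact (Nat.Prime 2) := ⟨Nat.prime_two⟩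
  have hm : 𝔓.IsMaximal := hp.isMaximal fun h0 => by simp [h0] at h2
  have hpz : Prime (2 : ℤ) := Int.prime_two
  have : (Ideal.span {(2 : ℤ)}).IsMaximal := hpz.isMaximal_span_singleton
  have : 𝔓.LiesOver (Ideal.span {(2 : ℤ)}) :=
    (Ideal.liesOver_span_iff hp.ne_top hpz).2 (by simpa using h2)
  have h3 : Q ≤ MulAction.stabilizer (F ≃ₐ[ℚ] F) 𝔓 := fun g hg => by
    refine le_antisymm ?_ fun x hx => ?_
    · rw [Ideal.pointwise_smul_def, Ideal.map_le_iff_le_comap]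
      exact hs g hg
    · exact Ideal.mem_pointwise_smul_iff_inv_smul_mem.2 (hs _ (Q.inv_mem hg) x hx)
  have h4 := Ideal.card_inertia_eq_ramificationIdxIn (G := F ≃ₐ[ℚ] F) (Ideal.span {(2 : ℤ)}) 𝔓
  rw [Ideal.ramificationIdxIn_eq_ramificationIdx _ 𝔓 (F ≃ₐ[ℚ] F)] at h4
  have : Finite (𝓞 F ⧸ 𝔓) := Ideal.finiteQuotientOfFreeOfNeBot _ fun h0 => by simp [h0] at h2
  refine isCyclic_of_injective ((Ideal.Quotient.stabilizerHom 𝔓 (Ideal.span {(2 : ℤ)})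
    (F ≃ₐ[ℚ] F)).comp (Subgroup.inclusion h3)) ((injective_iff_map_eq_one _).2 fun g hg => ?_)
  have h5 : (g : F ≃ₐ[ℚ] F) ∈ 𝔓.inertia (F ≃ₐ[ℚ] F) := by
    have h6 : Subgroup.inclusion h3 g ∈ (Ideal.Quotient.stabilizerHom 𝔓 (Ideal.span {(2 : ℤ)})
      (F ≃ₐ[ℚ] F)).ker := hg
    rwa [Ideal.Quotient.ker_stabilizerHom] at h6
  obtain ⟨k, hk⟩ := (IsPGroup.iff_orderOf.1 hQ) g
  have h7 := Subgroup.orderOf_dvd_natCard _ h5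
  rw [h4, Subgroup.orderOf_coe, hk] at h7
  rw [← orderOf_eq_one_iff, hk]
  exact (Nat.Coprime.pow_left k (Nat.coprime_two_left.2 h)).eq_one_of_dvd h7

theorem cyc_of_odd_discr [IsGalois ℚ F] (h : Odd (discr F)) (𝔓 : Ideal (𝓞 F)) (hp : 𝔓.IsPrime)
    (h2 : 2 ∈ 𝔓) : Odd (𝔓.ramificationIdx ℤ) := by
  have := (not_dvd_discr_iff_forall_mem F (𝓞 F) Int.prime_two).1
    (fun h0 => Int.not_even_iff_odd.2 h (even_iff_two_dvd.2 h0)) 𝔓 hp (by simpa using h2)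
  rw [Ideal.ramificationIdx_eq_one 𝔓 ℤ]
  exact odd_one

end Pool.Agent.Lib.MP_775b3b_nt
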