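import Mathlib

/-! Representations of subgroups of `S₄ × C₂`. -/

namespace Pool.Agent.Lib.MP_775b3b_nt

open Equiv

/-- The three double transpositions. -/
def rep_z : Fin 3 → Perm (Fin 4)
  | 0 => swap 0 1 * swap 2 3
  | 1 => swap 0 2 * swap 1 3
  | 2 => swap 0 3 * swap 1 2

/-- The regular character of `S₄` through characters induced from subgroups of index at most 4. -/
lemma rep_reg : ∀ x : Perm (Fin 4), (if x = 1 then 24 else 0 : ℤ) =
    -4 - 2 * ((Perm.sign x : ℤˣ) : ℤ) + 2 * (∑ j, if x * rep_z j = rep_z j * x then 1 else 0) +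
      3 * (∑ i, if x i = i then 1 else 0) * (1 + ((Perm.sign x : ℤˣ) : ℤ)) := by
  decide +kernel

lemma rep_card_z : ∀ j, 6 ≤ Fintype.card {x : Perm (Fin 4) // x * rep_z j = rep_z j * x} := by
  decide +kernel

lemma rep_card_i : ∀ i, 6 ≤ Fintype.card {x : Perm (Fin 4) // x i = i} := by
  decide +kernel

lemma rep_index {G : Type} [Group G] (φ : G →* Perm (Fin 4)) (K : Subgroup (Perm (Fin 4)))
    (hK : 6 ≤ Nat.card K) : (K.comap φ).index ≤ 4 := by
  have h1 : K.index * Nat.card K = 24 := by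
    rw [K.index_mul_card, Nat.card_eq_fintype_card, Fintype.card_perm]; rfl
  have h2 : K.index ≤ 4 := by nlinarith
  have h3 : K.index ≠ 0 := by
    intro h; rw [h] at h1; omega
  rw [Subgroup.index_comap]
  refine le_trans ?_ h2
  rw [← Subgroup.relIndex_top_right] at h3 ⊢
  exact Subgroup.relIndex_le_of_le_right le_top h3

lemma rep_proj {G W : Type} [Group G] [Fintype G] [AddCommGroup W] [Module ℂ W]
    (ρ : Representation ℂ G W) (H : Subgroup G) (p : G → Prop) [DecidablePred p]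
    (hp : ∀ g, g ∈ H ↔ p g) (χ : G →* ℤˣ) (w : W) (a : G) (ha : a ∈ H) :
    ρ a (∑ g, (((if p g then 1 else 0) * ((χ g : ℤˣ) : ℤ) : ℤ) : ℂ) • ρ g w) =
      (((χ a : ℤˣ) : ℤ) : ℂ) • ∑ g, (((if p g then 1 else 0) * ((χ g : ℤˣ) : ℤ) : ℤ) : ℂ) • ρ g w := by
  rw [map_sum, Finset.smul_sum, ← Equiv.sum_comp (Equiv.mulLeft a)
    (fun g => (((χ a : ℤˣ) : ℤ) : ℂ) •
      (((if p g then 1 else 0) * ((χ g : ℤˣ) : ℤ) : ℤ) : ℂ) • ρ g w)]
  refine Finset.sum_congr rfl fun g _ => ?_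
  have e1 : p (a * g) ↔ p g := by rw [← hp, ← hp]; exact H.mul_mem_cancel_left ha
  have e2 : ((χ a : ℤˣ) : ℤ) * ((χ a : ℤˣ) : ℤ) = 1 := by
    rw [← Units.val_mul, Int.units_mul_self]; rfl
  simp only [Equiv.coe_mulLeft, map_smul, map_mul, Module.End.mul_apply, smul_smul, e1,
    ← Int.cast_mul, Units.val_mul]
  congr 2
  linear_combination (-(if p g then 1 else 0) * ((χ g : ℤˣ) : ℤ)) * e2

/-- a vector on which a subgroup of index at most four acts through a character of the group -/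
theorem exists_eig4 {G W : Type} [Group G] [Finite G] [AddCommGroup W] [Module ℂ W] [Nontrivial W]
    (ρ : Representation ℂ G W) (φ : G →* Perm (Fin 4)) (ψ : G →* ℤˣ)
    (h : ∀ g, φ g = 1 → ψ g = 1 → ρ g = 1) : ∃ (H : Subgroup G) (χ : G →* ℤˣ) (w : W),
      H.index ≤ 4 ∧ w ≠ 0 ∧ ∀ g ∈ H, ρ g w = (((χ g : ℤˣ) : ℤ) : ℂ) • w := by
  classical
  have := Fintype.ofFinite G
  by_contra hno
  obtain ⟨w, hw⟩ := exists_ne (0 : W)
  let T : (G → ℤ) →+ W :=
    { toFun := fun a => ∑ g, ((a g : ℤ) : ℂ) • ρ g w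
      map_zero' := by simp
      map_add' := fun a b => by simp [add_smul, Finset.sum_add_distrib] }
  have key : ∀ (H : Subgroup G) (p : G → Prop) [DecidablePred p], (∀ g, g ∈ H ↔ p g) →
      H.index ≤ 4 → ∀ χ : G →* ℤˣ,
      T (fun g => (if p g then 1 else 0) * ((χ g : ℤˣ) : ℤ)) = 0 := by
    intro H p _ hp hH χ
    by_contra hne
    exact hno ⟨H, χ, _, hH, hne, rep_proj ρ H p hp χ w⟩
  let s : G →* ℤˣ := Perm.sign.comp φ
  have k0 := key ⊤ (fun _ => True) (by simp) (by simp)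
  have kz := fun j => key ((Subgroup.centralizer {rep_z j}).comap φ)
    (fun g => φ g * rep_z j = rep_z j * φ g)
    (fun g => by rw [Subgroup.mem_comap, Subgroup.mem_centralizer_singleton_iff])
    (rep_index φ _ (by
      refine (rep_card_z j).trans_eq ?_
      rw [← Nat.card_eq_fintype_card]
      exact Nat.card_congr (Equiv.subtypeEquivRight fun x =>
        Subgroup.mem_centralizer_singleton_iff.symm)))
  have ki := fun i => key ((MulAction.stabilizer (Perm (Fin 4)) i).comap φ)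
    (fun g => φ g i = i) (fun g => Iff.rfl)
    (rep_index φ _ (by
      refine (rep_card_i i).trans_eq ?_
      rw [← Nat.card_eq_fintype_card]
      rfl))
  have main : ∀ χ : G →* ℤˣ,
      T (fun g => (if φ g = 1 then 24 else 0) * ((χ g : ℤˣ) : ℤ)) = 0 := by
    intro χ
    have e : (fun g => (if φ g = 1 then 24 else 0) * ((χ g : ℤˣ) : ℤ)) =
        (-4 : ℤ) • (fun g => (if True then 1 else 0) * ((χ g : ℤˣ) : ℤ)) +
        (-2 : ℤ) • (fun g => (if True then 1 else 0) * (((s * χ) g : ℤˣ) : ℤ)) +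
        (2 : ℤ) • (∑ j, fun g =>
          (if φ g * rep_z j = rep_z j * φ g then 1 else 0) * ((χ g : ℤˣ) : ℤ)) +
        (3 : ℤ) • (∑ i, fun g => (if φ g i = i then 1 else 0) * ((χ g : ℤˣ) : ℤ)) +
        (3 : ℤ) • (∑ i, fun g => (if φ g i = i then 1 else 0) * (((s * χ) g : ℤˣ) : ℤ)) := by
      funext g
      have hs : (((s * χ) g : ℤˣ) : ℤ) = ((Perm.sign (φ g) : ℤˣ) : ℤ) * ((χ g : ℤˣ) : ℤ) := rfl
      simp only [Pi.add_apply, Pi.smul_apply, Finset.sum_apply, smul_eq_mul, if_true, hs,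
        ← Finset.sum_mul]
      rw [rep_reg (φ g)]
      ring
    rw [e]
    simp only [map_add, map_zsmul, map_sum, k0, kz, ki, Finset.sum_const_zero, smul_zero, add_zero]
  have h1 := congrArg₂ (· + ·) (main 1) (main ψ)
  simp only [← map_add, add_zero] at h1
  have h2 : ∀ g, ((((if φ g = 1 then 24 else 0) * (((1 : G →* ℤˣ) g : ℤˣ) : ℤ) +
      (if φ g = 1 then 24 else 0) * ((ψ g : ℤˣ) : ℤ) : ℤ)) : ℂ) • ρ g w =
      (if φ g = 1 ∧ ψ g = 1 then (48 : ℂ) else 0) • w := by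
    intro g
    by_cases a : φ g = 1
    · rcases Int.units_eq_one_or (ψ g) with b | b
      · rw [h g a b]; simp [a, b]
      · simp [a, b]
    · simp [a]
  have h3 : (∑ g, if φ g = 1 ∧ ψ g = 1 then (48 : ℂ) else 0) • w = 0 := by
    rw [Finset.sum_smul, ← h1]
    exact Finset.sum_congr rfl fun g _ => (h2 g).symm
  rw [smul_eq_zero, or_iff_left hw, ← Finset.sum_filter, Finset.sum_const, nsmul_eq_mul,
    mul_eq_zero, or_iff_left (by norm_num), Nat.cast_eq_zero, Finset.card_eq_zero] at h3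
  have : (1 : G) ∈ Finset.univ.filter fun g => φ g = 1 ∧ ψ g = 1 := by simp
  rw [h3] at this
  exact absurd this (Finset.notMem_empty _)

end Pool.Agent.Lib.MP_775b3b_nt
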