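import Pool.Agent.Lib.MP_775b3b_nt.M2.Fin4
import Pool.Agent.Lib.MP_775b3b_nt.M2.Dens

/-! The statement for representations. -/

namespace Pool.Agent.Lib.MP_775b3b_nt

open WeierstrassCurve WeierstrassCurve.Affine IntermediateField

open Classical in
/-- `K = fixedField H` has degree `H.index` (`finrank_fixedField_eq_card`,
`Module.finrank_mul_finrank`, `IsGalois.card_aut_eq_finrank`, `Subgroup.index_mul_card`);
`exists_sign_root`, `many_fin K`, `Many.dens` with `δ`, `eigen_finite'` with `β = γ / u`. -/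
theorem dens_eig (F : Type) [Field F] [NumberField F] [DecidableEq F] [IsGalois ℚ F]
    (H : Subgroup (F ≃ₐ[ℚ] F)) (h4 : H.index ≤ 4) (ψ : (F ≃ₐ[ℚ] F) →* ℤˣ) :
    ∃ c' : ℝ, 0 < c' ∧ ∃ X₀ : ℝ, ∀ X : ℝ, X₀ ≤ X → ∀ S : Finset (ℤ × ℤ),
      (∀ e : ℤ × ℤ, e ∈ S ↔ 4 * e.1 ^ 3 + 27 * e.2 ^ 2 ≠ 0 ∧
        (∀ p : ℕ, p.Prime → ¬ ((p : ℤ) ^ 4 ∣ e.1 ∧ (p : ℤ) ^ 6 ∣ e.2)) ∧
        ((max (4 * |e.1| ^ 3) (27 * e.2 ^ 2) : ℤ) : ℝ) < X) →
      c' * S.card ≤ (S.filter fun e => {R : ((crv e ℚ).toAffine⁄F).Point |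
        ∀ γ ∈ H, Point.map (γ : F →ₐ[ℚ] F) R = ((ψ γ : ℤˣ) : ℤ) • R}.Finite).card := by
  have k1 : Module.finrank ℚ (fixedField H) ≤ 4 := by
    have e1 := Module.finrank_mul_finrank ℚ (fixedField H) F
    rw [finrank_fixedField_eq_card, ← IsGalois.card_aut_eq_finrank ℚ F, ← H.index_mul_card] at e1
    rw [Nat.eq_of_mul_eq_mul_right Nat.card_pos e1]
    exact h4
  obtain ⟨δ, γ, hδ, hγ, hψ⟩ := exists_sign_root ψ
  have hγ0 : γ ≠ 0 := fun h => hδ (by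
    rw [h, zero_pow two_ne_zero] at hγ
    exact_mod_cast hγ.symm)
  refine (many_fin (fixedField H) k1).dens hδ _ fun e d D u he hd hu h1 h2 => ?_
  have hu' : (u : F) ≠ 0 := by exact_mod_cast hu
  have hd' : (d : ℤ) ≠ 0 := by exact_mod_cast hd
  refine eigen_finite' (algebraMap (fixedField H) F) (β := γ / u) (by
    rw [disc_tw]
    exact mul_ne_zero (pow_ne_zero _ hd') he) ?_ (div_ne_zero hγ0 hu') H (fun g => ψ g)
    (fun g _ => ?_) (fun x hx => ⟨⟨x, (mem_fixedField_iff H x).2 hx⟩, rfl⟩) h2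
  · have h3 : ((d : ℤ) : F) * δ = D * u ^ 2 := by exact_mod_cast h1
    rw [div_pow, hγ, ← mul_div_assoc, h3, mul_div_assoc, div_self (pow_ne_zero _ hu'), mul_one]
  · rw [map_div₀, hψ, map_intCast, mul_div_assoc]

end Pool.Agent.Lib.MP_775b3b_nt
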