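import Pool.Agent.Lib.MP_775b3b_nt.ZUPoint
import Pool.Agent.Lib.MP_775b3b_nt.ZRedD1

/-! The point of the Lagrangian Grassmannian for a class with a defect. -/

namespace Pool.Agent.Lib.MP_775b3b_nt

open Cub

variable {K Kt : Type*} [Field K] [NumberField K] [Field Kt] [NumberField Kt] (S : Setup K Kt)

/-- arithmetic data of a class with defect `df` killed by corestriction -/
structure Setup.UDat (df : ℕ) {e : ℤ × ℤ} (d : (Cub e K)ˣ) (γ : Cub e ℚ) (ν : K)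
    (z : Nat.Primes → (Cub e K)ˣ) (ε : (K →+* ℂ) → Cub e ℂ) : Prop where
  nu : nm (d : Cub e K) = ν ^ 2
  loc : LocD df d z
  eps : Eps (d : Cub e K) ν ε
  gam : ∀ p, γ * S.rn e (z p : Cub e K) ∈ Ord p e ℚ
  prod : ∏ j, ε (S.emb j) = map (algebraMap ℚ ℂ) γ

theorem Setup.exists_udat {df : ℕ} {e : ℤ × ℤ} (hd : disc e ≠ 0) {d : (Cub e K)ˣ} (h1 : d ∈ nsq e K)
    (h2 : d ∈ pos e K) (h3 : ∃ z, LocD df d z) (h' : S.cor e d ∈ SQ e ℚ) :
    ∃ γ ν z ε, S.UDat (df ^ 4) d γ ν z ε := by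
  obtain ⟨ν, hν⟩ := h1
  obtain ⟨r, hr, hr'⟩ := S.exists_nm_rn hν
  obtain ⟨γ, hγ, hn⟩ : ∃ γ : (Cub e ℚ)ˣ, γ ^ 2 = S.cor e d ∧ nm (γ : Cub e ℚ) = r := by
    obtain ⟨γ, hγ⟩ : IsSquare (S.cor e d) := h'
    have h5 : nm (γ : Cub e ℚ) ^ 2 = r ^ 2 := by
      rw [← hr, ← S.gal2_val, hγ, Units.val_mul, nm_mul, sq]
    rcases sq_eq_sq_iff_eq_or_eq_neg.1 h5 with h4 | h4
    · exact ⟨γ, by rw [hγ, sq], h4⟩
    · exact ⟨-γ, by rw [hγ, neg_sq, sq], by rw [Units.val_neg, nm_neg, h4, neg_neg]⟩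
  obtain ⟨ε, hε, hp⟩ := exists_eps_prod hd (by rw [S.finrank_eq]; decide) h2 hν
    (g := map (algebraMap ℚ ℂ) (γ : Cub e ℚ))
    (by rw [Cub.map_map, RingHom.ext_rat ((starRingEnd ℂ).comp _) (algebraMap ℚ ℂ)])
    (by rw [← map_pow, ← Units.val_pow_eq_pow_val, hγ, S.gal2_val, S.gal2_map])
    (by rw [nm_map, hn, ← hr', eq_ratCast])
  obtain ⟨z, hz, hz'⟩ := h3
  let m : (Cub e ℚ)ˣ →* (Cub e K)ˣ := Units.map (map (algebraMap ℚ K)).toMonoidHom
  have hw : ∀ t, (γ * S.cor e t) ^ 2 = S.cor e (d * t ^ 2) := fun t => by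
    rw [mul_pow, hγ, map_mul, map_pow]
  have hu : ∀ t, d * (t * m (γ * S.cor e t)) ^ 2 = d * t ^ 2 * m (S.cor e (d * t ^ 2)) :=
    fun t => by rw [mul_pow, ← map_pow, hw, mul_assoc]
  refine ⟨γ, ν, fun p => z p * m (γ * S.cor e (z p)), ε, hν, ⟨?_, fun p => ⟨?_, ?_⟩⟩, hε,
    fun p => ?_, by rw [← hp, S.prod_emb]⟩
  · exact (hz.image fun t => t * m (γ * S.cor e t)).subset
      (by rintro _ ⟨p, rfl⟩; exact ⟨z p, ⟨p, rfl⟩, rfl⟩)
  · rw [hu, Units.val_mul]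
    exact mul_mem (hz' p).1 (map_mem_Ord _ (S.rn_mem_Ord (hz' p).1))
  · rw [hu, mul_inv, Units.val_mul, ← map_inv, ← map_inv]
    have h3 := mul_mem (hz' p).2 (map_mem_Ord (algebraMap ℚ K) (S.rn_mem_Ord (hz' p).2))
    have h4 : S.rn e ((df : K) • (((d * z p ^ 2)⁻¹ : (Cub e K)ˣ) : Cub e K)) =
        ((df : ℚ) ^ 3) • S.rn e (((d * z p ^ 2)⁻¹ : (Cub e K)ˣ) : Cub e K) := by
      have h5 : (df : K) • (((d * z p ^ 2)⁻¹ : (Cub e K)ˣ) : Cub e K) =
          Cub.map (algebraMap ℚ K) (df : Cub e ℚ) * (((d * z p ^ 2)⁻¹ : (Cub e K)ˣ) : Cub e K) := by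
        rw [map_natCast, Algebra.smul_def, map_natCast]
      rw [h5, map_mul, S.rn_map, Algebra.smul_def, map_pow, map_natCast]
    rw [h4, Cub.map_smul', map_pow, map_natCast, smul_mul_smul_comm, ← pow_succ'] at h3
    rw [Nat.cast_pow]
    exact h3
  · have h3 : S.rn e (m (γ * S.cor e (z p)) : Cub e K) =
        ((γ * S.cor e (z p) : (Cub e ℚ)ˣ) : Cub e ℚ) ^ 3 := S.rn_map _
    have h4 : (γ : Cub e ℚ) * S.rn e ((z p * m (γ * S.cor e (z p)) : (Cub e K)ˣ) : Cub e K) =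
        (((γ * S.cor e (z p)) ^ 2 : (Cub e ℚ)ˣ) : Cub e ℚ) ^ 2 := by
      rw [Units.val_mul, map_mul, h3, ← S.gal2_val, Units.val_pow_eq_pow_val, Units.val_mul]
      ring
    rw [h4, hw]
    exact pow_mem (S.rn_mem_Ord (hz' p).1) 2

theorem frame2_spD {e : ℤ × ℤ} {df N : ℕ} {C T : ℝ} (hT : T ≠ 0) {d : (Cub e K)ˣ} {γ : Cub e ℚ} {ν : K}
    {z : Nat.Primes → (Cub e K)ˣ} {ε : (K →+* ℂ) → Cub e ℂ} {j : ℕ} {v0 v1 v2 : Cub e K}
    {h : Fin 3 → Matrix (Fin 2) (Fin 2) ℂ} (hu : S.UDat df d γ ν z ε)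
    (hv : Red N C T (d : Cub e K) ν z ε j v0 v1 v2) (hh : S.Frame T ε v0 v1 v2 h)
    {u : Matrix Cu (Fin 4) ℂ → ℂ} (hs : Sp u) : ∃ ψ : Kt, IsIntegral ℤ ((N : Kt) ^ 3 * ψ) ∧
      ∀ τ π, S.Cmp τ π → S.i (τ ψ) = u (lagr e T (fun l => h (π l))) := by
  induction hs with
  | F g =>
    refine ⟨_, frame2_int S hu.gam (fun l => Vq v0 v1 v2 (pt5 (g l)).1 (pt5 (g l)).2)
      (fun l => frame2_inLat hv _ _), fun τ π hc => ?_⟩
    rw [lagr, YF_kron _ (fun l => hh.det _), hh.row, hh.row, hh.row, im, im, im, sTri_wc hT]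
    have h1 : ∀ l (x : Cub e K), map (S.i.comp (τ : Kt →+* Kt)) (map (S.s l) x) =
        map (S.emb (π l)) x := fun l x => by
      ext <;> simp [hc l]
    have h2 : map (S.i.comp (τ : Kt →+* Kt)) (map (algebraMap ℚ Kt) γ) =
        ∏ l, ε (S.emb (π l)) := by
      rw [Equiv.prod_comp π fun l => ε (S.emb l), hu.prod, map_map]
      congr 2
      exact Subsingleton.elim _ _
    change (map (S.i.comp (τ : Kt →+* Kt)) _).c2 = _
    rw [map_mul, map_prod, h2]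
    simp only [h1, Fin.prod_univ_three]
    congr 1
    ring
  | f i m =>
    refine ⟨S.s i (quart (d : Cub e K) v0 v1 v2 (pt5 m).1 (pt5 m).2), ?_, fun τ π hc => ?_⟩
    · have h1 := hu.loc.isIntegral_Gv (frame2_inLat hv (pt5 m).1 (pt5 m).2)
        (frame2_inLat hv (pt5 m).1 (pt5 m).2)
      rw [Gv_eq_Bf, Bf_smul_left, Bf_smul_right, ← Gv_eq_Bf] at h1
      have h2 : IsIntegral ℤ (N : K) := by
        simpa using isIntegral_algebraMap (R := ℤ) (A := K) (x := (N : ℤ))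
      have h3 := (h2.mul h1).map (S.s i).toIntAlgHom
      convert h3 using 1
      simp only [RingHom.toIntAlgHom_apply, map_mul, map_natCast, quart]
      ring
    · rw [hc, hh.Yf_eq S hT hu.eps π i m]
      rfl
  | add _ _ ih1 ih2 =>
    obtain ⟨ψ1, h1, h1'⟩ := ih1
    obtain ⟨ψ2, h2, h2'⟩ := ih2
    refine ⟨ψ1 + ψ2, by rw [mul_add]; exact h1.add h2, fun τ π hc => ?_⟩
    rw [map_add, map_add, h1' τ π hc, h2' τ π hc]
  | smul n _ ih =>
    obtain ⟨ψ, h1, h1'⟩ := ih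
    have h2 : IsIntegral ℤ (n : Kt) := by
      simpa using isIntegral_algebraMap (R := ℤ) (A := Kt) (x := n)
    refine ⟨n * ψ, by rw [mul_left_comm]; exact h2.mul h1, fun τ π hc => ?_⟩
    rw [map_mul, map_mul, map_intCast, map_intCast, h1' τ π hc]
  | congr _ hc' ih =>
    obtain ⟨ψ, h1, h1'⟩ := ih
    exact ⟨ψ, h1, fun τ π hc => by rw [h1' τ π hc, hc' _ (lag_lagr _ _ _)]⟩

theorem Setup.exists_algD {e : ℤ × ℤ} {df N : ℕ} {C T : ℝ} (hT : T ≠ 0) {d : (Cub e K)ˣ} {γ : Cub e ℚ} {ν : K}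
    {z : Nat.Primes → (Cub e K)ˣ} {ε : (K →+* ℂ) → Cub e ℂ} {j : ℕ} {v0 v1 v2 : Cub e K}
    {h : Fin 3 → Matrix (Fin 2) (Fin 2) ℂ} (hu : S.UDat df d γ ν z ε)
    (hv : Red N C T (d : Cub e K) ν z ε j v0 v1 v2) (hh : S.Frame T ε v0 v1 v2 h)
    (q : Fin 4 → Cu) : ∃ ψ : Kt, IsIntegral ℤ ((N : Kt) ^ 3 * ψ) ∧
      ∀ τ π, S.Cmp τ π → S.i (τ ψ) = 24 * Pl (lagr e T (fun l => h (π l))) q := by
  exact frame2_spD S hT hu hv hh (sp_pl q)

theorem Setup.exists_int_detD {e : ℤ × ℤ} {df N : ℕ} {C T : ℝ} (hT : T ≠ 0) {d : (Cub e K)ˣ} {γ : Cub e ℚ}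
    {ν : K} {z : Nat.Primes → (Cub e K)ˣ} {ε : (K →+* ℂ) → Cub e ℂ} {j : ℕ} {v0 v1 v2 : Cub e K}
    {h : Fin 3 → Matrix (Fin 2) (Fin 2) ℂ} (hu : S.UDat df d γ ν z ε)
    (hv : Red N C T (d : Cub e K) ν z ε j v0 v1 v2) (hh : S.Frame T ε v0 v1 v2 h)
    (Φ : Matrix (Fin 4) Cu Kt) (hΦ : ∀ l c, IsIntegral ℤ (Φ l c)) (hΦ' : ∀ l, S.Eqv (Φ l))
    {x : Kt} (hx : IsIntegral ℤ x) (hx' : S.Alt x) :
    ∃ n : ℤ, (n : ℂ) = 24 * (N : ℂ) ^ 3 * S.i x * (Φ.map S.i * lagr e T h).det := by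
  choose ψ hψ hψ' using S.exists_algD hT hu hv hh
  have h1 : ∀ q, S.i (ψ q) = 24 * Pl (lagr e T h) q := fun q => hψ' q 1 1 fun _ _ => rfl
  have h2 : ∀ τ π, S.Cmp τ π → ∀ q, τ (ψ q) =
      ((Equiv.Perm.sign π : ℤ) : Kt) * ψ (fun l => q l ∘ π.symm) := fun τ π hc q => by
    apply S.i.injective
    rw [hψ' q τ π hc, map_mul, map_intCast, h1, lagr, lagr, Pl_perm]
    ring
  have h3 : S.Alt (∑ q : Fin 4 → Cu, (∏ l, Φ l (q l)) * ψ q) := fun τ π hc => by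
    let E : (Fin 4 → Cu) ≃ (Fin 4 → Cu) :=
      { toFun := fun q l => q l ∘ π.symm
        invFun := fun q l => q l ∘ π
        left_inv := fun q => by ext l i; simp
        right_inv := fun q => by ext l i; simp }
    rw [map_sum, ← E.sum_comp fun q => (∏ l, Φ l (q l)) * ψ q, Finset.mul_sum]
    refine Finset.sum_congr rfl fun q _ => ?_
    rw [map_mul, map_prod, h2 τ π hc]
    simp only [hΦ' _ τ π hc]
    exact mul_left_comm _ _ _
  obtain ⟨r, hr⟩ := S.exists_rat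
    (x := x * ((N : Kt) ^ 3 * ∑ q : Fin 4 → Cu, (∏ l, Φ l (q l)) * ψ q)) fun τ => by
      obtain ⟨π, hc⟩ := S.exists_cmp τ
      have h4 : ((Equiv.Perm.sign π : ℤ) : Kt) * (Equiv.Perm.sign π : ℤ) = 1 := by
        rw [← Int.cast_mul, ← Units.val_mul, Int.units_mul_self]
        simp
      rw [map_mul, map_mul, map_pow, map_natCast, hx' τ π hc, h3 τ π hc]
      linear_combination (x * ((N : Kt) ^ 3 * ∑ q : Fin 4 → Cu, (∏ l, Φ l (q l)) * ψ q)) * h4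
  have h5 : IsIntegral ℤ (algebraMap ℚ Kt r) := by
    rw [hr, Finset.mul_sum]
    refine hx.mul (IsIntegral.sum _ fun q _ => ?_)
    rw [mul_left_comm]
    exact (IsIntegral.prod _ fun l _ => hΦ l _).mul (hψ q)
  obtain ⟨n, hn⟩ := IsIntegrallyClosed.isIntegral_iff.1
    ((isIntegral_algebraMap_iff (algebraMap ℚ Kt).injective).1 h5)
  refine ⟨n, ?_⟩
  have h6 : (n : ℂ) = S.i (algebraMap ℚ Kt r) := by
    rw [← hn]
    simp
  rw [h6, hr, det_mul_eq_sum, map_mul, map_mul, map_pow, map_natCast, map_sum, Finset.mul_sum,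
    Finset.mul_sum, Finset.mul_sum]
  refine Finset.sum_congr rfl fun q _ => ?_
  rw [map_mul, map_prod, h1]
  simp only [Matrix.map_apply]
  ring

open Matrix in
theorem Setup.upoint_intD {e : ℤ × ℤ} {df N : ℕ} {C T : ℝ} (hT : T ≠ 0) {d : (Cub e K)ˣ} {γ : Cub e ℚ}
    {ν : K} {z : Nat.Primes → (Cub e K)ˣ} {ε : (K →+* ℂ) → Cub e ℂ} {j : ℕ} {v0 v1 v2 : Cub e K}
    {h : Fin 3 → Matrix (Fin 2) (Fin 2) ℂ} (hu : S.UDat df d γ ν z ε)
    (hv : Red N C T (d : Cub e K) ν z ε j v0 v1 v2) (hh : S.Frame T ε v0 v1 v2 h) {n : ℕ}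
    {W H : Matrix (Fin 3) (Fin 3) Kt} (hW : ∀ a b, IsIntegral ℤ ((n : Kt) * W a b))
    (hH : ∀ a b, IsIntegral ℤ ((n : Kt) * H a b))
    (hW' : ∀ τ π, S.Cmp τ π → W.map τ = W.submatrix π id)
    (hH' : ∀ τ π, S.Cmp τ π → H.map τ = H.submatrix π id) {x : Kt} (hx : IsIntegral ℤ x)
    (hx' : S.Alt x) (P Q : Matrix (Fin 4) (Fin 4) ℤ) :
    ∃ k : ℤ, (k : ℂ) = 24 * (N : ℂ) ^ 3 * (n : ℂ) ^ 4 * S.i x *
      ((P.map (Int.cast : ℤ → ℂ) * PhiX (W.map S.i) (H.map S.i) +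
        Q.map (Int.cast : ℤ → ℂ) * PhiY (W.map S.i) (H.map S.i)) * lagr e T h).det := by
  have hA := upoint_Phi_mem
    ((integralClosure ℤ Kt).toSubring.toAddSubgroup.comap (AddMonoidHom.mulLeft (n : Kt)))
    (by
      change IsIntegral ℤ ((n : Kt) * 1)
      simpa using isIntegral_algebraMap (R := ℤ) (A := Kt) (x := (n : ℤ))) hW hH
  have hZ : ∀ k : ℤ, IsIntegral ℤ (k : Kt) := fun k => isIntegral_algebraMap (R := ℤ)
  obtain ⟨k, hk⟩ := S.exists_int_detD hT hu hv hh ((n : Kt) •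
    (P.map (Int.cast : ℤ → Kt) * PhiX W H + Q.map (Int.cast : ℤ → Kt) * PhiY W H))
    (fun l c => by
      have h1 : ((n : Kt) • (P.map (Int.cast : ℤ → Kt) * PhiX W H +
          Q.map (Int.cast : ℤ → Kt) * PhiY W H)) l c =
          ∑ a, (P l a : Kt) * (n * PhiX W H a c) + ∑ a, (Q l a : Kt) * (n * PhiY W H a c) := by
        simp only [Matrix.smul_apply, Matrix.add_apply, Matrix.mul_apply, map_apply, smul_eq_mul,
          mul_add,
          Finset.mul_sum, mul_left_comm]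
      rw [h1]
      exact (IsIntegral.sum _ fun a _ => (hZ _).mul (hA a c).1).add
        (IsIntegral.sum _ fun a _ => (hZ _).mul (hA a c).2))
    (fun l τ π hτ c => by
      have h1 : ∀ a, τ (PhiX W H a c) = PhiX W H a (c ∘ π.symm) := fun a => by
        rw [← (upoint_Phi_perm W H π a c).1, ← hW' τ π hτ, ← hH' τ π hτ]
        exact congrFun (congrFun (PhiX_map (τ : Kt →+* Kt) W H).1 a) c
      have h2 : ∀ a, τ (PhiY W H a c) = PhiY W H a (c ∘ π.symm) := fun a => by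
        rw [← (upoint_Phi_perm W H π a c).2, ← hW' τ π hτ, ← hH' τ π hτ]
        exact congrFun (congrFun (PhiX_map (τ : Kt →+* Kt) W H).2 a) c
      simp only [Matrix.smul_apply, Matrix.add_apply, Matrix.mul_apply, map_apply, smul_eq_mul,
        map_mul, map_add,
        map_sum, map_natCast, map_intCast, h1, h2]) hx hx'
  refine ⟨k, hk.trans ?_⟩
  have h3 : ((n : Kt) • (P.map (Int.cast : ℤ → Kt) * PhiX W H +
      Q.map (Int.cast : ℤ → Kt) * PhiY W H)).map S.i = (n : ℂ) •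
      (P.map (Int.cast : ℤ → ℂ) * PhiX (W.map S.i) (H.map S.i) +
        Q.map (Int.cast : ℤ → ℂ) * PhiY (W.map S.i) (H.map S.i)) := by
    rw [← (PhiX_map S.i W H).1, ← (PhiX_map S.i W H).2]
    ext a b
    simp only [Matrix.smul_apply, Matrix.add_apply, Matrix.mul_apply, map_apply, smul_eq_mul,
        map_mul, map_add,
      map_sum, map_natCast, map_intCast]
  rw [h3, Matrix.smul_mul, det_smul, Fintype.card_fin]
  ring

open Matrix in
theorem Setup.zupoint_eqvD (df : ℕ) {N : ℕ} (hN : N ≠ 0) {C : ℝ} (hC : 1 ≤ C) :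
    ∃ (c : ℝ) (W H : Fin 7 → Matrix (Fin 3) (Fin 3) Kt)
      (A B : Fin 7 → Fin 5 → Matrix (Fin 4) (Fin 4) Kt) (κ : Kt), 0 ≤ c ∧ κ ≠ 0 ∧
      (∀ s, (W s)ᵀ * H s = 1) ∧
      (∀ s m, Zm Kt m = A s m * PhiX (W s) (H s) + B s m * PhiY (W s) (H s)) ∧
      (∀ s τ π, S.Cmp τ π → (W s).map τ = (W s).submatrix π id ∧
        (H s).map τ = (H s).submatrix π id) ∧
      ∀ (T : ℕ), 1 ≤ T → ∀ e ∈ box T, ∀ (d : (Cub e K)ˣ) (γ : Cub e ℚ) (ν : K)
        (z : Nat.Primes → (Cub e K)ˣ) (ε : (K →+* ℂ) → Cub e ℂ) (j : ℕ) (v0 v1 v2 : Cub e K),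
        S.UDat df d γ ν z ε → Red N C T (d : Cub e K) ν z ε j v0 v1 v2 →
        Gv (d : Cub e K) v0 v0 ≠ 0 →
        ∃ (s : Fin 7) (g : ℤ) (Sm : Matrix (Fin 4) (Fin 4) ℚ),
          LGHyp (dvec j) (c * T / 16 ^ j) g Sm ∧
          ∀ m, κ * S.s 0 (quart (d : Cub e K) v0 v1 v2 (pt5 m).1 (pt5 m).2) =
            g * (A s m + B s m * Sm.map (Rat.cast : ℚ → Kt)).det := by
  obtain ⟨ω, η, n, hn, hω, hη, -, hdual⟩ := S.exists_dual
  obtain ⟨W, hW⟩ : ∃ W : Matrix (Fin 3) (Fin 3) Kt, W = of fun a b => S.s a (ω b) := ⟨_, rfl⟩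
  obtain ⟨H, hH⟩ : ∃ H : Matrix (Fin 3) (Fin 3) Kt, H = of fun a b => S.s a (η b) := ⟨_, rfl⟩
  have hWH : Wᵀ * H = 1 := by
    ext a b
    rw [hW, hH, Matrix.mul_apply, one_apply]
    exact hdual a b
  have hWi : ∀ a b, IsIntegral ℤ (W a b) := fun a b => by
    rw [hW]
    exact map_isIntegral_int (S.s a) (hω b)
  have hHi : ∀ a b, IsIntegral ℤ ((n : Kt) * H a b) := fun a b => by
    rw [hH]
    simpa using map_isIntegral_int (S.s a) (hη b)
  have hni : IsIntegral ℤ (n : Kt) := by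
    simpa using isIntegral_algebraMap (R := ℤ) (A := Kt) (x := (n : ℤ))
  have hWe : ∀ τ π, S.Cmp τ π → W.map τ = W.submatrix π id := fun τ π hτ => by
    ext a b
    rw [hW]
    exact hτ a (ω b)
  have hHe : ∀ τ π, S.Cmp τ π → H.map τ = H.submatrix π id := fun τ π hτ => by
    ext a b
    rw [hH]
    exact hτ a (η b)
  have hx : IsIntegral ℤ W.det := IsIntegral.det hWi
  have hx' : S.Alt W.det := fun τ π hτ => by
    rw [← det_permute, ← hWe τ π hτ]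
    exact (τ : Kt →+* Kt).map_det W
  have hx0 : W.det ≠ 0 := fun h0 => by
    have h1 := congrArg det hWH
    rw [det_mul, det_transpose, h0, zero_mul, det_one] at h1
    exact zero_ne_one h1
  have hc : (W.map S.i)ᵀ * H.map S.i = 1 := by
    rw [← transpose_map, ← Matrix.map_mul, hWH, Matrix.map_one _ (map_zero _) (map_one _)]
  obtain ⟨κ, hκ⟩ : ∃ κ : ℂ, κ = 24 * (N : ℂ) ^ 3 * (n : ℂ) ^ 4 * S.i W.det := ⟨_, rfl⟩
  have hκ0 : κ ≠ 0 := by
    rw [hκ]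
    exact mul_ne_zero (mul_ne_zero (mul_ne_zero (by norm_num)
      (pow_ne_zero _ (Nat.cast_ne_zero.2 hN))) (pow_ne_zero _ (Nat.cast_ne_zero.2 hn)))
      ((map_ne_zero S.i).2 hx0)
  choose P' Q' hPQ using fun (s : Fin 7) (m : Fin 5) => exists_PQ (dual_Us hWH s) (Zm Kt m)
  have hPQ' : ∀ (s : Fin 7) (m : Fin 5), Zm ℂ m =
      (P' s m).map S.i * PhiX (W.map S.i * Us ℂ s) (H.map S.i * Ut ℂ s) +
        (Q' s m).map S.i * PhiY (W.map S.i * Us ℂ s) (H.map S.i * Ut ℂ s) := fun s m => by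
    rw [← zupoint_Zm_map S.i, hPQ s m, Matrix.map_add _ (map_add S.i), Matrix.map_mul,
      Matrix.map_mul, (PhiX_map _ _ _).1, (PhiX_map _ _ _).2, Matrix.map_mul, Matrix.map_mul,
      (upoint_U_map _ s).1, (upoint_U_map _ s).2]
  have hWs : ∀ (s : Fin 7) τ π, S.Cmp τ π →
      (W * Us Kt s).map τ = (W * Us Kt s).submatrix π id := fun s τ π hτ =>
    (Matrix.map_mul (f := (τ : Kt →+* Kt))).trans (by
      rw [(upoint_U_map _ s).1]
      exact congrArg (· * Us Kt s) (hWe τ π hτ))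
  have hHs : ∀ (s : Fin 7) τ π, S.Cmp τ π →
      (H * Ut Kt s).map τ = (H * Ut Kt s).submatrix π id := fun s τ π hτ =>
    (Matrix.map_mul (f := (τ : Kt →+* Kt))).trans (by
      rw [(upoint_U_map _ s).2]
      exact congrArg (· * Ut Kt s) (hHe τ π hτ))
  have hκ' : S.i (24 * (N : Kt) ^ 3 * (n : Kt) ^ 4 * W.det) = κ := by
    rw [hκ]
    simp only [map_mul, map_pow, map_natCast, map_ofNat]
  obtain ⟨B, hB⟩ : ∃ B : ℝ, ∀ (s : Fin 7) (a b : Fin 3), ‖(W.map S.i * Us ℂ s) a b‖ ≤ B ∧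
      ‖(H.map S.i * Ut ℂ s) a b‖ ≤ B := by
    obtain ⟨B, hB⟩ := Finite.exists_le fun t : Fin 7 × Fin 3 × Fin 3 =>
      max ‖(W.map S.i * Us ℂ t.1) t.2.1 t.2.2‖ ‖(H.map S.i * Ut ℂ t.1) t.2.1 t.2.2‖
    exact ⟨B, fun s a b => max_le_iff.1 (hB (s, a, b))⟩
  obtain ⟨c, hc0, hbd⟩ := chart_bound B (2 * C)
  refine ⟨‖κ‖ * c, fun s => W * Us Kt s, fun s => H * Ut Kt s, P', Q',
    24 * (N : Kt) ^ 3 * (n : Kt) ^ 4 * W.det, by positivity,
    fun h0 => hκ0 (by rw [← hκ', h0, map_zero]), fun s => dual_Us hWH s, hPQ,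
    fun s τ π hτ => ⟨hWs s τ π hτ, hHs s τ π hτ⟩,
    fun T hT e he d γ ν z ε j v0 v1 v2 hu hv hG => ?_⟩
  have hT0 : (0 : ℝ) < T := by exact_mod_cast hT
  obtain ⟨h, hh, hhb⟩ := S.exists_frame hC hT0.ne' hu.eps hv
  have hY : ∀ m, Yf 0 m (lagr e T h) =
      S.emb 0 (quart (d : Cub e K) v0 v1 v2 (pt5 m).1 (pt5 m).2) := fun m =>
    Setup.Frame.Yf_eq S hT0.ne' hu.eps hh 1 0 m
  have hPl : Pl (lagr e T h) (qf 0) ≠ 0 := by
    have h1 := hY 0
    rw [Yf, upoint_kron_one, Matrix.one_mul, hv.hyp.quart_eq] at h1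
    rw [h1, map_ne_zero]
    simpa [pt5] using hG
  obtain ⟨s, hs⟩ := exists_chart_ne hc hPl
  obtain ⟨Sc, hSs, hSc⟩ := exists_chart (dual_Us hc s) (lag_lagr e T h) hs
  have key : ∀ P Q : Matrix (Fin 4) (Fin 4) ℤ, ∃ k : ℤ, (k : ℂ) =
      κ * ((P.map (Int.cast : ℤ → ℂ) + Q.map (Int.cast : ℤ → ℂ) * Sc).det *
        (PhiX (W.map S.i * Us ℂ s) (H.map S.i * Ut ℂ s) * lagr e T h).det) := by
    intro P Q
    obtain ⟨k, hk⟩ := S.upoint_intD hT0.ne' hu hv hh (n := n) (W := W * Us Kt s) (H := H * Ut Kt s)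
      (fun a b => by
        rw [Matrix.mul_apply]
        exact hni.mul (IsIntegral.sum _ fun l _ => (hWi a l).mul (upoint_U_int s l b).1))
      (fun a b => by
        simp only [Matrix.mul_apply, Finset.mul_sum, ← mul_assoc]
        exact IsIntegral.sum _ fun l _ => (hHi a l).mul (upoint_U_int s l b).2)
      (hWs s) (hHs s) hx hx' P Q
    rw [Matrix.map_mul, Matrix.map_mul, (upoint_U_map _ s).1, (upoint_U_map _ s).2, hSc,
      ← hκ] at hk
    exact ⟨k, hk⟩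
  obtain ⟨g, hg⟩ := key 1 0
  rw [Matrix.map_one _ Int.cast_zero Int.cast_one, Matrix.map_zero _ Int.cast_zero,
    Matrix.zero_mul, add_zero, det_one, one_mul] at hg
  have hg0 : (g : ℂ) ≠ 0 := hg ▸ mul_ne_zero hκ0 hs
  have key' : ∀ P Q : Matrix (Fin 4) (Fin 4) ℤ, ∃ k : ℤ,
      (g : ℂ) * (P.map (Int.cast : ℤ → ℂ) + Q.map (Int.cast : ℤ → ℂ) * Sc).det = k := by
    intro P Q
    obtain ⟨k, hk⟩ := key P Q
    exact ⟨k, by rw [hk, hg]; ring⟩
  choose k hk using fun a b : Fin 4 => key' (1 - single b b 1) (single b a 1)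
  simp only [upoint_entry] at hk
  obtain ⟨Sm, rfl⟩ : ∃ Sm : Matrix (Fin 4) (Fin 4) ℚ, Sc = Sm.map (Rat.cast : ℚ → ℂ) := by
    refine ⟨of fun a b => (k a b : ℚ) / g, ?_⟩
    ext a b
    simp only [map_apply, of_apply, Rat.cast_div, Rat.cast_intCast, ← hk]
    rw [mul_div_cancel_left₀ _ hg0]
  refine ⟨s, g, Sm, ⟨by exact_mod_cast hg0, ?_, fun P Q => ?_, fun P Q hP hQ => ?_⟩, fun m => ?_⟩
  · ext a b
    exact Rat.cast_injective (α := ℂ) (hSs.apply a b)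
  · obtain ⟨k', hk'⟩ := key' P Q
    refine ⟨k', Rat.cast_injective (α := ℂ) ?_⟩
    have h1 : (Rat.castHom ℂ).mapMatrix
        (P.map (Int.cast : ℤ → ℚ) + Q.map (Int.cast : ℤ → ℚ) * Sm) =
        P.map (Int.cast : ℤ → ℂ) + Q.map (Int.cast : ℤ → ℂ) * Sm.map (Rat.cast : ℚ → ℂ) := by
      ext a b
      simp [Matrix.mul_apply]
    rw [← h1, ← RingHom.map_det] at hk'
    simpa using hk'
  · obtain ⟨b1, b2, -⟩ := mem_box.1 he
    have hd := upoint_dvec_pos j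
    have hdc : ∀ a, (dvec j a : ℂ) ≠ 0 := fun a => Complex.ofReal_ne_zero.2 (hd a).ne'
    have h1 := hbd _ _ (fun a b => (hB s a b).1) (fun a b => (hB s a b).2) j h hhb
      ((e.1 : ℂ) / (T : ℝ) ^ 2) ((e.2 : ℂ) / (T : ℝ) ^ 3) T
      (by
        rw [norm_div, norm_pow, Complex.norm_real, Real.norm_of_nonneg hT0.le,
          div_le_one (by positivity), Complex.norm_intCast]
        exact_mod_cast b1)
      (by
        rw [norm_div, norm_pow, Complex.norm_real, Real.norm_of_nonneg hT0.le,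
          div_le_one (by positivity), Complex.norm_intCast]
        exact_mod_cast b2) hT0.le (P.map Complex.ofReal) (Q.map Complex.ofReal)
      (fun a b => by simpa using hP a b) (fun a b => by simpa using hQ a b)
    have h2 : P.map Complex.ofReal * diagonal (fun a => (dvec j a : ℂ)) +
        Q.map Complex.ofReal * diagonal (fun a => (dvec j a : ℂ)⁻¹) * Sm.map (Rat.cast : ℚ → ℂ) =
        Complex.ofRealHom.mapMatrix ((P + Q * of fun a b => (Sm a b : ℝ) / (dvec j a * dvec j b)) *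
          diagonal (dvec j)) := by
      ext a b
      simp only [RingHom.mapMatrix_apply, map_apply, Matrix.add_apply, mul_diagonal,
        Complex.ofRealHom_eq_coe]
      simp only [Matrix.mul_apply, map_apply, of_apply, diagonal_apply, mul_ite, mul_zero,
        Finset.sum_ite_eq', Finset.mem_univ, if_true]
      push_cast
      rw [add_mul, Finset.sum_mul]
      congr 1
      refine Finset.sum_congr rfl fun l _ => ?_
      have := hdc l
      have := hdc b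
      field_simp
    rw [← lagr, hSc, h2, ← RingHom.map_det, det_mul, det_diagonal, upoint_dvec_prod, norm_mul,
      Complex.ofRealHom_eq_coe, Complex.norm_real, norm_mul, Real.norm_eq_abs,
      Real.norm_of_nonneg (by positivity : (0 : ℝ) ≤ 16 ^ j)] at h1
    have h3 : |(g : ℝ)| = ‖κ‖ *
        ‖(PhiX (W.map S.i * Us ℂ s) (H.map S.i * Ut ℂ s) * lagr e T h).det‖ := by
      rw [← norm_mul, ← hg, Complex.norm_intCast]
    have h4 : 0 < |(g : ℝ)| := abs_pos.2 (by exact_mod_cast hg0)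
    rw [le_div_iff₀ h4, le_div_iff₀ (by positivity), h3]
    refine le_trans (le_of_eq ?_) ((mul_le_mul_of_nonneg_left h1 (norm_nonneg κ)).trans_eq ?_) <;>
      ring
  · apply S.i.injective
    have h1 : S.i.mapMatrix (P' s m + Q' s m * Sm.map (Rat.cast : ℚ → Kt)) =
        (P' s m).map S.i + (Q' s m).map S.i * Sm.map (Rat.cast : ℚ → ℂ) := by
      ext a b
      simp [Matrix.mul_apply]
    rw [map_mul, map_mul S.i (g : Kt), hκ', RingHom.map_det, h1, map_intCast, hg, mul_assoc,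
      mul_comm (det _), ← hSc, ← hPQ']
    exact congrArg (κ * ·) (hY m).symm

end Pool.Agent.Lib.MP_775b3b_nt
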